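import Pool.Agent.Q63.RZ.Mx2

/-!
# Short gaps and neighbourhoods of zeros carry little of a high moment
-/

set_option autoImplicit false

open Complex Filter Topology Set MeasureTheory Metric
open Q97.MM

namespace Q63.RZ

noncomputable section

theorem transfer_set (k : ℕ) {ε : ℝ} (hε : 0 < ε) :
    ∀ᶠ T : ℝ in atTop, ∀ U : ℝ, Adm T U → ∀ E : Set ℝ, MeasurableSet E →
      T ^ (2 * k) * ∫ y in E, ‖riemannZeta (((1 / 2 : ℝ) : ℂ) + y * I)‖ ^ (2 * k) * wt T U y ≤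
        2 * (∫ y in E, ‖Z1 (((1 / 2 : ℝ) : ℂ) + y * I)‖ ^ (2 * k) * wt T U y) + ε * V0 k T U := by
  obtain ⟨d, hd, hd'⟩ := near_one k one_pos
  obtain ⟨c, hc, hc'⟩ := V0_lower k
  set η := min (1 / 2) (d / 8) with hη
  have hη0 : 0 < η := lt_min (by norm_num) (by positivity)
  have hη1 : η ≤ 1 / 2 := min_le_left _ _
  have hη2 : η ≤ d / 8 := min_le_right _ _
  have hK := KK_nonneg (2 * (2 * k))
  have htail := (tail_tendsto (2 * (2 * k)) hη0).const_mul
    (2 * 180 ^ (2 * k) * KK (2 * (2 * k)) / c)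
  rw [mul_zero] at htail
  filter_upwards [htail.eventually (gt_mem_nhds hε), eventually_ge_atTop (8 / d)] with T h1 h4 U h E hE
  have hT : 0 < T := by linarith [h.1]
  have hU := h.pos
  have hL := h.log
  have hV0 := V0_pos k h
  obtain ⟨x, hx⟩ : ∃ x : ℝ, x = 1 / 2 := ⟨_, rfl⟩
  rw [← hx]
  have hx1 : 1 / 4 ≤ x := by norm_num [hx]
  have hx2 : x ≤ 3 / 4 := by norm_num [hx]
  set E' := Real.exp (-((η * Real.log T) ^ 2 / 2)) with hE'
  have hT1 : 1 ≤ T ^ (2 * k) := one_le_pow₀ (by linarith [h.1])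
  have hpq : ∀ y : ℝ, |y - T| ≤ η * T →
      |‖Z1 (x + y * I)‖ ^ (2 * k) - T ^ (2 * k) * ‖riemannZeta (x + y * I)‖ ^ (2 * k)| ≤
        1 * ‖Z1 (x + y * I)‖ ^ (2 * k) := by
    intro y hy
    have hy' : |y - T| ≤ 1 / 2 * T := hy.trans (mul_le_mul_of_nonneg_right hη1 hT.le)
    have hy1 : T / 2 ≤ y := by linarith [(abs_le.mp hy').1]
    have hne := ne_one_of_re (x := x) (by linarith) y
    set m := ‖(x : ℂ) + y * I - 1‖ with hm
    have hm0 : 0 < m := norm_pos_iff.mpr (sub_ne_zero.mpr hne)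
    have hm1 : y ≤ m := by
      have := Complex.abs_im_le_norm ((x : ℂ) + y * I - 1)
      have e : ((x : ℂ) + y * I - 1).im = y := by simp
      rw [e] at this
      exact (le_abs_self y).trans this
    have hm2 : m ≤ 1 + y := by
      have e : (x : ℂ) + y * I - 1 = ((x - 1 : ℝ) : ℂ) + y * I := by push_cast; ring
      rw [hm, e]
      refine (norm_add_le _ _).trans ?_
      rw [norm_mul, Complex.norm_I, mul_one, Complex.norm_real, Complex.norm_real,
        Real.norm_eq_abs, Real.norm_eq_abs, abs_of_nonneg (by linarith : 0 ≤ y)]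
      have : |x - 1| ≤ 1 := by
        rw [abs_le]
        constructor <;> linarith
      linarith
    have hr : |T / m - 1| < d := by
      have e1 : T / m - 1 = (T - m) / m := by field_simp
      rw [e1, abs_div, abs_of_pos hm0, div_lt_iff₀ hm0]
      have e2 : |T - m| ≤ η * T + 1 := by
        rw [abs_le] at hy ⊢
        constructor <;> linarith [hy.1, hy.2]
      have e3 : 8 ≤ d * T := by
        rw [div_le_iff₀ hd] at h4
        linarith
      have e4 : η * T ≤ d / 8 * T := mul_le_mul_of_nonneg_right hη2 hT.le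
      have e5 : d * (T / 2) ≤ d * m := mul_le_mul_of_nonneg_left (by linarith) hd.le
      nlinarith
    have hdr := hd' _ hr
    have hZ : T ^ (2 * k) * ‖riemannZeta (x + y * I)‖ ^ (2 * k) =
        (T / m) ^ (2 * k) * ‖Z1 (x + y * I)‖ ^ (2 * k) := by
      rw [Z1_of_ne hne, norm_mul, ← mul_pow, ← mul_pow]
      congr 1
      rw [← hm]
      field_simp
    rw [hZ]
    have e6 : ‖Z1 (x + y * I)‖ ^ (2 * k) - (T / m) ^ (2 * k) * ‖Z1 (x + y * I)‖ ^ (2 * k) =
        -(((T / m) ^ (2 * k) - 1) * ‖Z1 (x + y * I)‖ ^ (2 * k)) := by ring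
    rw [e6, abs_neg, abs_mul, abs_of_nonneg (by positivity : 0 ≤ ‖Z1 (x + y * I)‖ ^ (2 * k))]
    exact mul_le_mul_of_nonneg_right hdr (by positivity)
  set p : ℝ → ℝ := E.indicator (fun y => ‖Z1 (x + y * I)‖ ^ (2 * k)) with hp
  set q : ℝ → ℝ := E.indicator (fun y => T ^ (2 * k) * ‖riemannZeta (x + y * I)‖ ^ (2 * k)) with hq
  have hp0 : ∀ y, 0 ≤ p y := fun y => Set.indicator_nonneg (fun y _ => by positivity) y
  have hq0 : ∀ y, 0 ≤ q y := fun y => Set.indicator_nonneg (fun y _ => by positivity) y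
  have hloc := loc (2 * (2 * k)) (T := T) (U := U) (η := η) (κ := 1)
    (C₀ := T ^ (2 * k) * 180 ^ (2 * k)) h.1 hU h.2.2 hη0.le (by positivity)
    (p := p) (q := q)
    (((Z1_cont_line x).norm.pow _).aestronglyMeasurable.indicator hE)
    ((((zeta_line_cont (by linarith)).norm.pow _).aestronglyMeasurable.const_mul _).indicator hE)
    hp0
    (fun y => by
      rw [abs_of_nonneg (hp0 y)]
      have h5 : p y ≤ ‖Z1 (x + y * I)‖ ^ (2 * k) :=
        Set.indicator_le_self' (fun y _ => by positivity) y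
      refine (h5.trans (Z1_pow_bd k hx1 (by linarith) y)).trans ?_
      apply mul_le_mul_of_nonneg_right _ (by positivity)
      calc (45 : ℝ) ^ (2 * k) ≤ 180 ^ (2 * k) := by gcongr; norm_num
        _ ≤ T ^ (2 * k) * 180 ^ (2 * k) := le_mul_of_one_le_left (by positivity) hT1)
    (fun y => by
      rw [abs_of_nonneg (hq0 y)]
      have h5 : q y ≤ T ^ (2 * k) * ‖riemannZeta (x + y * I)‖ ^ (2 * k) :=
        Set.indicator_le_self' (fun y _ => by positivity) y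
      refine h5.trans ?_
      rw [mul_assoc]
      exact mul_le_mul_of_nonneg_left (zeta_pow_bd k hx1 hx2 y) (by positivity))
    (fun y hy => by
      by_cases hyE : y ∈ E
      · rw [hp, hq, Set.indicator_of_mem hyE, Set.indicator_of_mem hyE]
        exact hpq y hy
      · rw [hp, hq, Set.indicator_of_notMem hyE, Set.indicator_of_notMem hyE]
        simp)
  have e1 : ∫ y : ℝ, p y * wt T U y = ∫ y in E, ‖Z1 (x + y * I)‖ ^ (2 * k) * wt T U y := by
    rw [← integral_indicator hE]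
    congr 1
    funext y
    rw [hp]
    by_cases hyE : y ∈ E
    · rw [Set.indicator_of_mem hyE, Set.indicator_of_mem hyE]
    · rw [Set.indicator_of_notMem hyE, Set.indicator_of_notMem hyE, zero_mul]
  have e2 : ∫ y : ℝ, q y * wt T U y =
      T ^ (2 * k) * ∫ y in E, ‖riemannZeta (x + y * I)‖ ^ (2 * k) * wt T U y := by
    rw [← integral_const_mul, ← integral_indicator hE]
    congr 1
    funext y
    rw [hq]
    by_cases hyE : y ∈ E
    · rw [Set.indicator_of_mem hyE, Set.indicator_of_mem hyE]; ring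
    · rw [Set.indicator_of_notMem hyE, Set.indicator_of_notMem hyE, zero_mul]
  rw [e1, e2] at hloc
  have hb : 2 * (T ^ (2 * k) * 180 ^ (2 * k)) * (1 + T) ^ (2 * (2 * k)) * E' *
      (U * KK (2 * (2 * k))) ≤ ε * V0 k T U := by
    have e4 := hc' T U h
    have e5 : 2 * (T ^ (2 * k) * 180 ^ (2 * k)) * (1 + T) ^ (2 * (2 * k)) * E' *
        (U * KK (2 * (2 * k))) = (2 * 180 ^ (2 * k) * KK (2 * (2 * k)) / c *
          ((1 + T) ^ (2 * (2 * k)) * E')) * (c * (T ^ (2 * k) * U)) := by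
      field_simp
    rw [e5]
    calc _ ≤ ε * (c * (T ^ (2 * k) * U)) := mul_le_mul_of_nonneg_right h1.le (by positivity)
      _ ≤ ε * V0 k T U := mul_le_mul_of_nonneg_left e4 hε.le
  have h6 := (abs_le.mp hloc).1
  linarith

theorem FF_half_sq (k : ℕ) (T U y : ℝ) :
    ‖FF k T U (1 / 2 + I * y)‖ ^ 2 = ‖Z1 (((1 / 2 : ℝ) : ℂ) + y * I)‖ ^ (2 * k) * wt T U y := by
  have e : (1 / 2 + I * (y : ℂ) : ℂ) = ((1 / 2 : ℝ) : ℂ) + y * I := by push_cast; ring
  rw [e, FF_sq, sub_self, zero_pow (by norm_num), zero_div, Real.exp_zero, one_mul]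

/-- the pointwise bound, integrated -/
theorem set_bound {k : ℕ} {S : Finset ℂ} {δ T U A : ℝ} (hA : 0 ≤ A) (h : Adm T U)
    (hPhi : ∫⁻ t : ℝ, ENNReal.ofReal (Phi k S δ T U t) ≤
      ENNReal.ofReal (8 * S.card * Real.exp (4 * k * δ) * V0 k T U)) {E : Set ℝ}
    (hE : MeasurableSet E)
    (hpt : ∀ t ∈ E, ‖FF k T U (1 / 2 + I * t)‖ ^ 2 ≤
      A * (Real.exp (2 * k * δ) * Phi k S δ T U t)) :
    ∫ y in E, ‖Z1 (((1 / 2 : ℝ) : ℂ) + y * I)‖ ^ (2 * k) * wt T U y ≤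
      8 * S.card * (A * Real.exp (6 * k * δ)) * V0 k T U := by
  have hV := V0_pos k h
  have hint : Integrable (fun y : ℝ => ‖Z1 (((1 / 2 : ℝ) : ℂ) + y * I)‖ ^ (2 * k) * wt T U y) :=
    PP_integrable k h.pos (by linarith [h.1]) h.le (by norm_num) (by norm_num)
  have hnn : ∀ y : ℝ, 0 ≤ ‖Z1 (((1 / 2 : ℝ) : ℂ) + y * I)‖ ^ (2 * k) * wt T U y := fun y =>
    mul_nonneg (by positivity) (wt_pos _ _ _).le
  have hR : 0 ≤ 8 * S.card * (A * Real.exp (6 * k * δ)) * V0 k T U := by positivity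
  rw [← ENNReal.ofReal_le_ofReal_iff hR,
    ofReal_integral_eq_lintegral_ofReal hint.integrableOn (Eventually.of_forall hnn)]
  calc ∫⁻ y in E, ENNReal.ofReal (‖Z1 (((1 / 2 : ℝ) : ℂ) + y * I)‖ ^ (2 * k) * wt T U y)
      ≤ ∫⁻ y in E, ENNReal.ofReal (A * Real.exp (2 * k * δ)) * ENNReal.ofReal (Phi k S δ T U y) := by
        apply setLIntegral_mono' hE
        intro y hy
        rw [← ENNReal.ofReal_mul (by positivity), ← FF_half_sq, mul_assoc]
        exact ENNReal.ofReal_le_ofReal (hpt y hy)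
    _ ≤ ∫⁻ y, ENNReal.ofReal (A * Real.exp (2 * k * δ)) * ENNReal.ofReal (Phi k S δ T U y) :=
        setLIntegral_le_lintegral _ _
    _ = ENNReal.ofReal (A * Real.exp (2 * k * δ)) * ∫⁻ y, ENNReal.ofReal (Phi k S δ T U y) :=
        lintegral_const_mul' _ _ ENNReal.ofReal_ne_top
    _ ≤ ENNReal.ofReal (A * Real.exp (2 * k * δ)) *
        ENNReal.ofReal (8 * S.card * Real.exp (4 * k * δ) * V0 k T U) := by gcongr
    _ = ENNReal.ofReal (8 * S.card * (A * Real.exp (6 * k * δ)) * V0 k T U) := by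
        rw [← ENNReal.ofReal_mul (by positivity)]
        congr 1
        have e : Real.exp (6 * k * δ) = Real.exp (2 * k * δ) * Real.exp (4 * k * δ) := by
          rw [← Real.exp_add]; congr 1; ring
        rw [e]
        ring

/-- the ordinates of the zeros on the critical line -/
def Gam : Set ℝ := {γ | riemannZeta (1 / 2 + I * γ) = 0}

theorem Gam_closed : IsClosed Gam := by
  have h := zeta_line_cont (x := 1 / 2) (by norm_num)
  have e : Gam = (fun y : ℝ => riemannZeta (((1 / 2 : ℝ) : ℂ) + y * I)) ⁻¹' {0} := by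
    ext y
    have e2 : (1 / 2 + I * (y : ℂ) : ℂ) = ((1 / 2 : ℝ) : ℂ) + y * I := by push_cast; ring
    simp only [Gam, mem_ofPred_eq, mem_preimage, mem_singleton_iff, e2]
  rw [e]
  exact isClosed_singleton.preimage h

/-- the heights at distance at most `r` from a zero -/
def NearZ (r : ℝ) : Set ℝ := {t | ∃ γ : ℝ, riemannZeta (1 / 2 + I * γ) = 0 ∧ |t - γ| ≤ r}

/-- the heights between two zeros at distance at most `r` -/
def ShortG (r : ℝ) : Set ℝ := {t | ∃ γ γ' : ℝ, riemannZeta (1 / 2 + I * γ) = 0 ∧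
  riemannZeta (1 / 2 + I * γ') = 0 ∧ γ ≤ t ∧ t ≤ γ' ∧ γ' - γ ≤ r}

theorem NearZ_closed {r : ℝ} (hr : 0 ≤ r) : IsClosed (NearZ r) := by
  have e := Gam_closed.cthickening_eq_biUnion_closedBall hr
  have e2 : NearZ r = cthickening r Gam := by
    ext t
    rw [e, mem_iUnion₂]
    constructor
    · rintro ⟨γ, h1, h2⟩
      exact ⟨γ, h1, by rw [mem_closedBall, Real.dist_eq]; exact h2⟩
    · rintro ⟨γ, h1, h2⟩
      refine ⟨γ, h1, ?_⟩
      rw [mem_closedBall, Real.dist_eq] at h2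
      exact h2
  rw [e2]
  exact isClosed_cthickening

theorem ShortG_closed {r : ℝ} : IsClosed (ShortG r) := by
  apply IsSeqClosed.isClosed
  intro x t hx hlim
  choose γ γ' h1 h2 h3 h4 h5 using hx
  obtain ⟨B, hB⟩ := (Metric.isBounded_range_of_tendsto x hlim).exists_norm_le
  have hB' : ∀ n, |x n| ≤ B := fun n => hB _ (mem_range_self n)
  have hm1 : ∀ n, γ n ∈ Icc (-B - |r|) (B + |r|) := by
    intro n
    have := abs_le.mp (hB' n)
    have := le_abs_self r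
    have := h3 n
    have := h4 n
    have := h5 n
    constructor <;> linarith [abs_nonneg r]
  have hm2 : ∀ n, γ' n ∈ Icc (-B - |r|) (B + |r|) := by
    intro n
    have := abs_le.mp (hB' n)
    have := le_abs_self r
    have := h3 n
    have := h4 n
    have := h5 n
    constructor <;> linarith [abs_nonneg r]
  obtain ⟨a, _, φ, hφ, ha⟩ := isCompact_Icc.tendsto_subseq hm1
  obtain ⟨b, _, ψ, hψ, hb⟩ := isCompact_Icc.tendsto_subseq (fun n => hm2 (φ n))
  have hx' : Tendsto (fun n => x (φ (ψ n))) atTop (𝓝 t) :=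
    hlim.comp (hφ.tendsto_atTop.comp hψ.tendsto_atTop)
  have ha' : Tendsto (fun n => γ (φ (ψ n))) atTop (𝓝 a) := ha.comp hψ.tendsto_atTop
  have hb' : Tendsto (fun n => γ' (φ (ψ n))) atTop (𝓝 b) := hb
  refine ⟨a, b, ?_, ?_, ?_, ?_, ?_⟩
  · exact Gam_closed.mem_of_tendsto ha' (Eventually.of_forall fun n => h1 _)
  · exact Gam_closed.mem_of_tendsto hb' (Eventually.of_forall fun n => h2 _)
  · exact le_of_tendsto_of_tendsto' ha' hx' (fun n => h3 _)
  · exact le_of_tendsto_of_tendsto' hx' hb' (fun n => h4 _)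
  · exact le_of_tendsto' (hb'.sub ha') (fun n => h5 _)

theorem sin_mono {l l' : ℝ} (h0 : 0 < l) (h : l ≤ l') (h1 : l' ≤ 1) :
    Real.sin (Real.pi * l / 2) ≤ Real.sin (Real.pi * l' / 2) := by
  have hπ := Real.pi_pos
  apply Real.sin_le_sin_of_le_of_le_pi_div_two
  · have : 0 ≤ Real.pi * l / 2 := by positivity
    linarith
  · nlinarith
  · nlinarith

theorem cos_mono {l l' : ℝ} (h0 : 0 < l) (h : l ≤ l') (h1 : l' ≤ 1) :
    Real.cos (Real.pi * Real.sqrt (1 - l ^ 2) / 2) ≤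
      Real.cos (Real.pi * Real.sqrt (1 - l' ^ 2) / 2) := by
  have hπ := Real.pi_pos
  have h2 : Real.sqrt (1 - l' ^ 2) ≤ Real.sqrt (1 - l ^ 2) := by
    apply Real.sqrt_le_sqrt
    nlinarith
  have h3 : Real.sqrt (1 - l ^ 2) ≤ 1 := by
    rw [Real.sqrt_le_left zero_le_one]
    nlinarith
  apply Real.cos_le_cos_of_nonneg_of_le_pi
  · have := Real.sqrt_nonneg (1 - l' ^ 2)
    positivity
  · nlinarith
  · gcongr

theorem q_pos {l : ℝ} (hl0 : 0 < l) (hl1 : l ≤ 1) : 0 < Real.sin (Real.pi * l / 2) ∧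
    0 < Real.cos (Real.pi * Real.sqrt (1 - l ^ 2) / 2) := by
  have hπ := Real.pi_pos
  refine ⟨Real.sin_pos_of_pos_of_lt_pi (by positivity) (by nlinarith), ?_⟩
  have hl2 : 1 - l ^ 2 < 1 := by nlinarith
  have hsq : Real.sqrt (1 - l ^ 2) < 1 := by
    rw [Real.sqrt_lt' one_pos]
    linarith
  have hsq0 := Real.sqrt_nonneg (1 - l ^ 2)
  apply Real.cos_pos_of_mem_Ioo
  constructor
  · have : 0 ≤ Real.pi * Real.sqrt (1 - l ^ 2) / 2 := by positivity
    linarith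
  · nlinarith

/-- the main estimate -/
theorem main {δ₀ : ℝ} (hδ₀ : 0 < δ₀) : ∃ C : ℝ, 0 < C ∧ ∀ l₀ : ℝ, 0 < l₀ → l₀ ≤ 1 → ∀ k : ℕ, 1 ≤ k →
    ∀ᶠ T : ℝ in atTop, ∀ U : ℝ, Adm T U → ∀ l : ℝ, l₀ ≤ l → l ≤ 1 →
      (∫ y in NearZ (l * Real.pi / Real.log T),
          ‖riemannZeta (((1 / 2 : ℝ) : ℂ) + y * I)‖ ^ (2 * k) * wt T U y) ≤
        C * ((1 + δ₀) * Real.sin (Real.pi * l / 2)) ^ (2 * k) * JJ k T U (1 / 2) ∧
      (∫ y in ShortG (l * (2 * Real.pi / Real.log T)),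
          ‖riemannZeta (((1 / 2 : ℝ) : ℂ) + y * I)‖ ^ (2 * k) * wt T U y) ≤
        C * ((1 + δ₀) * Real.cos (Real.pi * Real.sqrt (1 - l ^ 2) / 2)) ^ (2 * k) *
          JJ k T U (1 / 2) := by
  have hπ := Real.pi_pos
  set r : ℝ := Real.sqrt (1 + δ₀) with hr
  have hr1 : 1 < r := by
    rw [hr, Real.lt_sqrt (by norm_num)]
    linarith
  have hrr : r * r = 1 + δ₀ := Real.mul_self_sqrt (by linarith)
  set δ : ℝ := Real.log r / 3 with hδ
  have hδ0 : 0 < δ := by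
    have := Real.log_pos hr1
    positivity
  have hδe : Real.exp (3 * δ) = r := by
    rw [hδ, mul_div_cancel₀ _ (by norm_num : (3 : ℝ) ≠ 0), Real.exp_log (by linarith)]
  obtain ⟨N, hN⟩ := exists_nat_gt (max 30 (3040 / (r - 1)))
  have hN2 : (30 : ℝ) < N := lt_of_le_of_lt (le_max_left _ _) hN
  have hN3 : 3040 / (r - 1) < N := lt_of_le_of_lt (le_max_right _ _) hN
  have hN30 : 30 ≤ N := by
    have : (30 : ℝ) ≤ N := hN2.le
    exact_mod_cast this
  have hN0 : (0 : ℝ) < N := by linarith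
  have hNr : 1 + 3040 / (N : ℝ) ≤ r := by
    rw [div_lt_iff₀ (by linarith)] at hN3
    have : 3040 / (N : ℝ) ≤ r - 1 := by
      rw [div_le_iff₀ hN0]
      linarith
    linarith
  have hRR := RR_pos N
  obtain ⟨S, hS1, hS2⟩ := exists_mesh (K := RR N + Real.pi) hδ0
  refine ⟨32 * S.card + 2, by positivity, ?_⟩
  intro l₀ hl₀ hl₀1 k hk
  obtain ⟨hq1p₀, hq2p₀⟩ := q_pos hl₀ hl₀1
  set q1₀ := Real.sin (Real.pi * l₀ / 2) with hq1₀
  set q2₀ := Real.cos (Real.pi * Real.sqrt (1 - l₀ ^ 2) / 2) with hq2₀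
  have hε1 : 0 < ((1 + δ₀) * q1₀) ^ (2 * k) := by positivity
  have hε2 : 0 < ((1 + δ₀) * q2₀) ^ (2 * k) := by positivity
  obtain ⟨c₀, _, hJ⟩ := Pool.Agent.Q80.ZM.J_low k
  filter_upwards [transfer_set k hε1, transfer_set k hε2, Phi_int k (by positivity : 0 ≤ RR N + Real.pi)
    hδ0 hS1, hJ] with T t1 t2 t3 t4 U h l hl hl1
  have hl0 : 0 < l := lt_of_lt_of_le hl₀ hl
  obtain ⟨hq1p, hq2p⟩ := q_pos hl0 hl1
  have hm1 : q1₀ ≤ Real.sin (Real.pi * l / 2) := sin_mono hl₀ hl hl1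
  have hm2 : q2₀ ≤ Real.cos (Real.pi * Real.sqrt (1 - l ^ 2) / 2) := cos_mono hl₀ hl hl1
  set q1 := Real.sin (Real.pi * l / 2) with hq1
  set q2 := Real.cos (Real.pi * Real.sqrt (1 - l ^ 2) / 2) with hq2
  have hT : 0 < T := by linarith [h.1]
  have hTk : 0 < T ^ (2 * k) := by positivity
  have hL : 0 < Real.log T := by linarith [h.log]
  have hV := V0_pos k h
  have hPhi := t3 U h
  have hVJ := (t4 U h).1
  have hJ0 := JJ_nonneg k T U (1 / 2)
  -- general conclusion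
  have gen : ∀ (q q₀ : ℝ) (E : Set ℝ), 0 < q₀ → q₀ ≤ q → MeasurableSet E →
      (T ^ (2 * k) * ∫ y in E, ‖riemannZeta (((1 / 2 : ℝ) : ℂ) + y * I)‖ ^ (2 * k) * wt T U y ≤
        2 * (∫ y in E, ‖Z1 (((1 / 2 : ℝ) : ℂ) + y * I)‖ ^ (2 * k) * wt T U y) +
          ((1 + δ₀) * q₀) ^ (2 * k) * V0 k T U) →
      (∀ t ∈ E, ‖FF k T U (1 / 2 + I * t)‖ ^ 2 ≤
        (q * (1 + 3040 / N)) ^ (2 * k) * (Real.exp (2 * k * δ) * Phi k S δ T U t)) →
      ∫ y in E, ‖riemannZeta (((1 / 2 : ℝ) : ℂ) + y * I)‖ ^ (2 * k) * wt T U y ≤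
        (32 * S.card + 2) * ((1 + δ₀) * q) ^ (2 * k) * JJ k T U (1 / 2) := by
    intro q q₀ E hq₀ hqq hE htr hpt
    have hq : 0 < q := lt_of_lt_of_le hq₀ hqq
    have h1 := set_bound (by positivity : 0 ≤ (q * (1 + 3040 / (N : ℝ))) ^ (2 * k)) h hPhi hE hpt
    have h2 : (q * (1 + 3040 / (N : ℝ))) ^ (2 * k) * Real.exp (6 * k * δ) ≤
        ((1 + δ₀) * q) ^ (2 * k) := by
      have e : Real.exp (6 * k * δ) = r ^ (2 * k) := by
        rw [← hδe, ← Real.exp_nat_mul]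
        congr 1
        push_cast
        ring
      rw [e, ← mul_pow]
      apply pow_le_pow_left₀ (by positivity)
      calc q * (1 + 3040 / (N : ℝ)) * r ≤ q * r * r := by gcongr
        _ = (1 + δ₀) * q := by rw [mul_assoc, hrr]; ring
    have h4 : ((1 + δ₀) * q₀) ^ (2 * k) ≤ ((1 + δ₀) * q) ^ (2 * k) := by gcongr
    set X := ((1 + δ₀) * q) ^ (2 * k) with hX
    have hX0 : 0 ≤ X := by positivity
    have h3 : T ^ (2 * k) * ∫ y in E, ‖riemannZeta (((1 / 2 : ℝ) : ℂ) + y * I)‖ ^ (2 * k) * wt T U y ≤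
        T ^ (2 * k) * ((32 * S.card + 2) * X * JJ k T U (1 / 2)) := by
      have h5 : ((1 + δ₀) * q₀) ^ (2 * k) * V0 k T U ≤ X * V0 k T U :=
        mul_le_mul_of_nonneg_right h4 hV.le
      calc _ ≤ 2 * (8 * S.card * ((q * (1 + 3040 / (N : ℝ))) ^ (2 * k) * Real.exp (6 * k * δ)) *
            V0 k T U) + X * V0 k T U := by linarith
        _ ≤ 2 * (8 * S.card * X * V0 k T U) + X * V0 k T U := by gcongr
        _ = (16 * S.card + 1) * X * V0 k T U := by ring
        _ ≤ (16 * S.card + 1) * X * (2 * (T ^ (2 * k) * JJ k T U (1 / 2))) := by gcongr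
        _ = _ := by ring
    exact le_of_mul_le_mul_left h3 hTk
  refine ⟨gen q1 q1₀ _ hq1p₀ hm1 (NearZ_closed (by positivity)).measurableSet
      (t1 U h _ (NearZ_closed (by positivity)).measurableSet) ?_,
    gen q2 q2₀ _ hq2p₀ hm2 ShortG_closed.measurableSet (t2 U h _ ShortG_closed.measurableSet) ?_⟩
  · rintro t ⟨γ, h1, h2⟩
    exact pt1 hk hN30 hδ0 hL h.pos hS2 hl0 hl1 h1 h2
  · rintro t ⟨γ, γ', h1, h2, h3, h4, h5⟩
    exact pt2 hk hN30 hδ0 hL h.pos hS2 hl0 hl1 h1 h2 h3 h4 h5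

end

end Q63.RZ
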