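import Pool.Agent.Q63.RZ.Two2
import Pool.Agent.Q97.BS.Brz

/-!
# The two-point formula for functions with an almost compact spectrum
-/

set_option autoImplicit false

open Complex Filter Topology Set MeasureTheory FourierTransform
open Q97.BS (ee ee_norm ee_add ee_continuous Band)

namespace Q63.RZ

noncomputable section

/-- the exponential of `Q97.BS` as a function of a complex variable, at a real point -/
theorem ee_eq (b ξ x : ℝ) (hb : 0 < b) :
    ee (ξ * (x / (4 * Real.pi * b))) = cexp (I * ((ξ / (2 * b) : ℝ) : ℂ) * (x : ℂ)) := by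
  have hπ := Real.pi_pos
  unfold ee
  congr 1
  have : 2 * Real.pi * (ξ * (x / (4 * Real.pi * b))) = ξ / (2 * b) * x := by
    field_simp
    ring
  rw [this]
  push_cast
  ring

/-- the multiplier of the truncated two-point formula -/
def mk (b α s : ℝ) (N : ℕ) (ξ : ℝ) : ℂ :=
  ee (ξ * (s / (4 * Real.pi * b))) * Real.cos α - Real.cos (s / 2 - α) -
    ∑ j ∈ Finset.Ico (-(N : ℤ)) N, (wg α s j : ℂ) *
      ((-1) ^ j * ee (ξ * (nd α j / (4 * Real.pi * b))))

theorem mk_in {b α s : ℝ} {N : ℕ} (hb : 0 < b) (hN : 2 ≤ N) (h1 : -(Real.pi / 2) < α)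
    (h2 : α < Real.pi / 2) (h3 : 0 < s) (h4 : s < 2 * α + Real.pi) {ξ : ℝ} (hξ : |ξ| ≤ b) :
    ‖mk b α s N ξ‖ ≤ s * (51 / N) := by
  set l : ℝ := ξ / (2 * b) with hl
  have hl1 : |l| ≤ 1 / 2 := by
    rw [hl, abs_div, abs_of_pos (by positivity : 0 < 2 * b), div_le_iff₀ (by positivity)]
    linarith
  set h : ℂ → ℂ := fun w => cexp (I * (l : ℂ) * w) with hh
  have hd : Differentiable ℂ h := by
    intro w
    apply DifferentiableAt.cexp
    fun_prop
  have key := formula hN h1 h2 h3 h4 isOpen_univ (subset_univ _) hd.differentiableOn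
  have hsm := CI_small (by omega : 1 ≤ N) h1 h2 h3 h4 hd.continuous.continuousOn (B := 1) (by
    intro w _
    rw [one_mul]
    simp only [hh]
    rw [Complex.norm_exp]
    apply Real.exp_le_exp.2
    have e : (I * (l : ℂ) * w).re = -(l * w.im) := by simp
    rw [e]
    refine (le_abs_self _).trans ?_
    rw [abs_neg, abs_mul]
    have := mul_le_mul_of_nonneg_right hl1 (abs_nonneg w.im)
    linarith)
  have hf := fac_le h1 h2 h3 h4 (CI α s N h)
  have e1 : mk b α s N ξ = ((s * Real.cos α * Real.cos (s / 2 - α) : ℝ) : ℂ) *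
      (CI α s N h / (2 * Real.pi * I)) := by
    unfold mk
    have e0 : h 0 = 1 := by simp [hh]
    have e2 : ∀ x : ℝ, ee (ξ * (x / (4 * Real.pi * b))) = h x := fun x => ee_eq b ξ x hb
    simp_rw [e2]
    rw [e0, one_mul] at key
    rw [key]
    ring
  rw [e1]
  refine hf.trans ?_
  rw [mul_one] at hsm
  gcongr

theorem wg_nonneg_sum {α s : ℝ} (N : ℕ) (h1 : -(Real.pi / 2) < α)
    (h2 : α < Real.pi / 2) (h3 : 0 < s) (h4 : s < 2 * α + Real.pi) :
    0 ≤ ∑ j ∈ Finset.Ico (-(N : ℤ)) N, wg α s j :=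
  Finset.sum_nonneg fun j _ => (wg_pos h1 h2 h3 h4 j).le

theorem ee_sub_one (t : ℝ) : ‖ee t - 1‖ ≤ 2 * Real.pi * |t| := by
  unfold ee
  have h := Real.norm_exp_I_mul_ofReal_sub_one_le (x := 2 * Real.pi * t)
  rw [mul_comm I] at h
  refine h.trans (le_of_eq ?_)
  rw [Real.norm_eq_abs, abs_mul, abs_of_pos (by positivity : 0 < 2 * Real.pi)]

theorem cos_diff_le (a b : ℝ) : |Real.cos a - Real.cos b| ≤ |a - b| := by
  have := Real.abs_cos_sub_cos_le a b
  exact this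

theorem mk_out {b α s : ℝ} {N : ℕ} (hb : 0 < b) (hN : 2 ≤ N) (h1 : -(Real.pi / 2) < α)
    (h2 : α < Real.pi / 2) (h3 : 0 < s) (h4 : s < 2 * α + Real.pi) (ξ : ℝ) :
    ‖mk b α s N ξ‖ ≤ s * ((1 / (2 * b) + 27) * (1 + |ξ|)) := by
  have hπ := Real.pi_pos
  have hN' : (2 : ℝ) ≤ N := by exact_mod_cast hN
  have hW0 := wg_nonneg_sum N h1 h2 h3 h4
  have hW : ∑ j ∈ Finset.Ico (-(N : ℤ)) N, wg α s j ≤ s * 26 := by
    refine (wg_sum hN h1 h2 h3 h4).trans ?_
    have h5 : Real.sin (s / 2) ≤ s / 2 := Real.sin_le (by positivity)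
    have h6 : 51 / (N : ℝ) ≤ 51 / 2 := by gcongr
    nlinarith
  have n1 : ‖ee (ξ * (s / (4 * Real.pi * b))) * Real.cos α - Real.cos (s / 2 - α)‖ ≤
      s * (1 / (2 * b) * |ξ| + 1 / 2) := by
    have e : ee (ξ * (s / (4 * Real.pi * b))) * Real.cos α - Real.cos (s / 2 - α) =
        (ee (ξ * (s / (4 * Real.pi * b))) - 1) * ((Real.cos α : ℝ) : ℂ) +
          ((Real.cos α - Real.cos (s / 2 - α) : ℝ) : ℂ) := by
      push_cast
      ring
    rw [e]
    refine (norm_add_le _ _).trans ?_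
    have t1 : ‖(ee (ξ * (s / (4 * Real.pi * b))) - 1) * ((Real.cos α : ℝ) : ℂ)‖ ≤
        s * (1 / (2 * b) * |ξ|) := by
      rw [norm_mul, Complex.norm_real]
      have h5 := ee_sub_one (ξ * (s / (4 * Real.pi * b)))
      have h6 : ‖Real.cos α‖ ≤ 1 := by
        rw [Real.norm_eq_abs]; exact Real.abs_cos_le_one α
      calc _ ≤ 2 * Real.pi * |ξ * (s / (4 * Real.pi * b))| * 1 := by gcongr
        _ = s * (1 / (2 * b) * |ξ|) := by
            rw [abs_mul, abs_of_pos (by positivity : 0 < s / (4 * Real.pi * b))]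
            field_simp
            ring
    have t2 : ‖((Real.cos α - Real.cos (s / 2 - α) : ℝ) : ℂ)‖ ≤ s * (1 / 2) := by
      rw [Complex.norm_real, Real.norm_eq_abs]
      have e2 : Real.cos α = Real.cos (-α) := (Real.cos_neg α).symm
      rw [e2]
      refine (cos_diff_le _ _).trans (le_of_eq ?_)
      have : -α - (s / 2 - α) = -(s / 2) := by ring
      rw [this, abs_neg, abs_of_pos (by positivity)]
      ring
    linarith
  have n2 : ‖∑ j ∈ Finset.Ico (-(N : ℤ)) N, (wg α s j : ℂ) *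
      ((-1) ^ j * ee (ξ * (nd α j / (4 * Real.pi * b))))‖ ≤ s * 26 := by
    refine ((norm_sum_le _ _).trans (Finset.sum_le_sum fun j _ => ?_)).trans hW
    rw [norm_mul, norm_mul, norm_zpow, norm_neg, norm_one, one_zpow, one_mul, ee_norm, mul_one,
      Complex.norm_real, Real.norm_eq_abs, abs_of_pos (wg_pos h1 h2 h3 h4 j)]
  unfold mk
  refine (norm_sub_le _ _).trans ?_
  have h7 := abs_nonneg ξ
  have h8 : 0 < 1 / (2 * b) := by positivity
  have h9 : 1 / (2 * b) * |ξ| + 1 / 2 + 26 ≤ (1 / (2 * b) + 27) * (1 + |ξ|) := by nlinarith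
  calc _ ≤ s * (1 / (2 * b) * |ξ| + 1 / 2) + s * 26 := add_le_add n1 n2
    _ = s * (1 / (2 * b) * |ξ| + 1 / 2 + 26) := by ring
    _ ≤ _ := by gcongr

/-- the two-point combination -/
def Xg (b α s : ℝ) (g : ℝ → ℂ) (x : ℝ) : ℂ :=
  g (x + s / (4 * Real.pi * b)) * Real.cos α - g x * Real.cos (s / 2 - α)

/-- The truncated two-point formula for a function with an almost compact spectrum. -/
theorem two_g {g : ℝ → ℂ} {b η η₁ : ℝ} (hb : 0 < b) (hg : Band g b η)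
    (hi : Integrable (fun ξ => (1 + |ξ|) * ‖𝓕 g ξ‖))
    (hη : ∫ ξ in {ξ : ℝ | b < |ξ|}, (1 + |ξ|) * ‖𝓕 g ξ‖ ≤ η₁) {α s : ℝ} {N : ℕ} (hN : 2 ≤ N)
    (h1 : -(Real.pi / 2) < α) (h2 : α < Real.pi / 2) (h3 : 0 < s) (h4 : s < 2 * α + Real.pi)
    (x : ℝ) :
    ‖Xg b α s g x‖ ≤ (∑ j ∈ Finset.Ico (-(N : ℤ)) N, wg α s j *
      ‖g (x + nd α j / (4 * Real.pi * b))‖) +
      s * (51 / N * (∫ ξ, ‖𝓕 g ξ‖) + (1 / (2 * b) + 27) * η₁) := by
  have hπ := Real.pi_pos
  set B := ∫ ξ, ‖𝓕 g ξ‖ with hB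
  have hcI : ∀ z : ℝ, Integrable (fun ξ => ee (ξ * z) * 𝓕 g ξ) := by
    intro z
    refine hg.fint.norm.mono' ?_ (Eventually.of_forall fun ξ => ?_)
    · have := ee_continuous
      exact (Continuous.aestronglyMeasurable (by fun_prop)).mul hg.fint.aestronglyMeasurable
    · rw [norm_mul, ee_norm, one_mul]
  have hgz : ∀ z : ℝ, g z = ∫ ξ, ee (ξ * z) * 𝓕 g ξ := fun z => hg.inv z
  have hrep : Xg b α s g x - ∑ j ∈ Finset.Ico (-(N : ℤ)) N, (wg α s j : ℂ) *
      ((-1) ^ j * g (x + nd α j / (4 * Real.pi * b))) =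
      ∫ ξ, mk b α s N ξ * (ee (ξ * x) * 𝓕 g ξ) := by
    unfold Xg
    have i1 : Integrable (fun ξ => ee (ξ * (x + s / (4 * Real.pi * b))) * 𝓕 g ξ *
        ((Real.cos α : ℝ) : ℂ)) := (hcI _).mul_const _
    have i2 : Integrable (fun ξ => ee (ξ * x) * 𝓕 g ξ * ((Real.cos (s / 2 - α) : ℝ) : ℂ)) :=
      (hcI _).mul_const _
    have i3 : ∀ j : ℤ, Integrable (fun ξ => (wg α s j : ℂ) * ((-1) ^ j *
        (ee (ξ * (x + nd α j / (4 * Real.pi * b))) * 𝓕 g ξ))) := fun j =>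
      ((hcI _).const_mul _).const_mul _
    have e1 : ∀ j : ℤ, (wg α s j : ℂ) * ((-1) ^ j * g (x + nd α j / (4 * Real.pi * b))) =
        ∫ ξ, (wg α s j : ℂ) * ((-1) ^ j *
          (ee (ξ * (x + nd α j / (4 * Real.pi * b))) * 𝓕 g ξ)) := by
      intro j
      rw [integral_const_mul, integral_const_mul, ← hgz]
    simp_rw [e1]
    rw [← integral_finsetSum _ (fun j _ => i3 j), hgz (x + s / (4 * Real.pi * b)), hgz x,
      ← integral_mul_const, ← integral_mul_const, ← integral_sub i1 i2]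
    have i12 : Integrable (fun ξ => ee (ξ * (x + s / (4 * Real.pi * b))) * 𝓕 g ξ *
        ((Real.cos α : ℝ) : ℂ) - ee (ξ * x) * 𝓕 g ξ * ((Real.cos (s / 2 - α) : ℝ) : ℂ)) :=
      i1.sub i2
    rw [← integral_sub i12 (integrable_finsetSum _ fun j _ => i3 j)]
    refine integral_congr_ae (Eventually.of_forall fun ξ => ?_)
    simp only
    have e2 : ∀ z : ℝ, ee (ξ * (x + z)) = ee (ξ * z) * ee (ξ * x) := by
      intro z
      rw [← ee_add]; congr 1; ring
    simp_rw [e2]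
    unfold mk
    rw [sub_mul, sub_mul, Finset.sum_mul]
    congr 1
    · ring
    · refine Finset.sum_congr rfl fun j _ => ?_
      ring
  have hm : MeasurableSet {ξ : ℝ | b < |ξ|} := measurableSet_lt measurable_const measurable_norm
  set σ := 1 / (2 * b) + 27 with hσ
  have hσ0 : 0 ≤ σ := by positivity
  have hN0 : (0 : ℝ) < N := by
    have : 0 < N := by omega
    exact_mod_cast this
  have hbd : ∀ ξ, ‖mk b α s N ξ * (ee (ξ * x) * 𝓕 g ξ)‖ ≤ s * (51 / N) * ‖𝓕 g ξ‖ +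
      {ξ : ℝ | b < |ξ|}.indicator (fun ξ => s * σ * ((1 + |ξ|) * ‖𝓕 g ξ‖)) ξ := by
    intro ξ
    rw [norm_mul, norm_mul, ee_norm, one_mul]
    by_cases h : b < |ξ|
    · rw [indicator_of_mem (show ξ ∈ {ξ : ℝ | b < |ξ|} from h)]
      have h5 := mul_le_mul_of_nonneg_right (mk_out (N := N) hb hN h1 h2 h3 h4 ξ) (norm_nonneg (𝓕 g ξ))
      have h6 : 0 ≤ s * (51 / N) * ‖𝓕 g ξ‖ := by positivity
      rw [hσ]
      linarith
    · rw [indicator_of_notMem (show ξ ∉ {ξ : ℝ | b < |ξ|} from h), add_zero]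
      exact mul_le_mul_of_nonneg_right (mk_in hb hN h1 h2 h3 h4 (not_lt.mp h)) (norm_nonneg _)
  have hIbd : Integrable (fun ξ => s * (51 / N) * ‖𝓕 g ξ‖ +
      {ξ : ℝ | b < |ξ|}.indicator (fun ξ => s * σ * ((1 + |ξ|) * ‖𝓕 g ξ‖)) ξ) :=
    (hg.fint.norm.const_mul _).add ((hi.const_mul _).indicator hm)
  have hfin := norm_integral_le_of_norm_le hIbd (Eventually.of_forall hbd)
  rw [integral_add (hg.fint.norm.const_mul _) ((hi.const_mul _).indicator hm),
    integral_indicator hm, integral_const_mul, integral_const_mul, ← hrep, ← hB] at hfin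
  have h5 : ‖∑ j ∈ Finset.Ico (-(N : ℤ)) N, (wg α s j : ℂ) *
      ((-1) ^ j * g (x + nd α j / (4 * Real.pi * b)))‖ ≤ ∑ j ∈ Finset.Ico (-(N : ℤ)) N,
      wg α s j * ‖g (x + nd α j / (4 * Real.pi * b))‖ := by
    refine (norm_sum_le _ _).trans (Finset.sum_le_sum fun j _ => ?_)
    rw [norm_mul, norm_mul, norm_zpow, norm_neg, norm_one, one_zpow, one_mul, Complex.norm_real,
      Real.norm_eq_abs, abs_of_pos (wg_pos h1 h2 h3 h4 j)]
  have h6 := norm_sub_norm_le (Xg b α s g x) (∑ j ∈ Finset.Ico (-(N : ℤ)) N, (wg α s j : ℂ) *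
      ((-1) ^ j * g (x + nd α j / (4 * Real.pi * b))))
  have h7 : s * σ * ∫ ξ in {ξ : ℝ | b < |ξ|}, (1 + |ξ|) * ‖𝓕 g ξ‖ ≤ s * σ * η₁ :=
    mul_le_mul_of_nonneg_left hη (by positivity)
  have e9 : s * (51 / N * B + σ * η₁) = s * (51 / N) * B + s * σ * η₁ := by ring
  rw [e9]
  linarith

end

end Q63.RZ
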