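import Pool.Agent.Q63.RZ.Ba1

/-!
# The inequality of Bernstein and Szego in the mean, for functions with an almost compact spectrum
-/

set_option autoImplicit false

open Complex Filter Topology Set MeasureTheory FourierTransform
open scoped ENNReal
open Q97.BS (ee ee_norm ee_add ee_continuous Band dg elem enorm_rpow meas_rpow hasDeriv_dg)

namespace Q63.RZ

noncomputable section

theorem jensen_r {ι : Type*} {β σ : ℝ} (hβ : 1 ≤ β) {s : Finset ι} {w z : ι → ℝ}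
    (hw : ∀ i ∈ s, 0 ≤ w i) (hz : ∀ i ∈ s, 0 ≤ z i) (hσ : ∑ i ∈ s, w i ≤ σ) :
    (∑ i ∈ s, w i * z i) ^ β ≤ σ ^ (β - 1) * ∑ i ∈ s, w i * z i ^ β := by
  set W := ∑ i ∈ s, w i with hW
  have hW0 : 0 ≤ W := Finset.sum_nonneg fun i hi => hw i hi
  have hR : 0 ≤ ∑ i ∈ s, w i * z i ^ β :=
    Finset.sum_nonneg fun i hi => mul_nonneg (hw i hi) (Real.rpow_nonneg (hz i hi) _)
  rcases eq_or_lt_of_le hW0 with h0 | h0
  · have h1 : ∀ i ∈ s, w i = 0 := (Finset.sum_eq_zero_iff_of_nonneg fun i hi => hw i hi).mp h0.symm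
    have h2 : ∑ i ∈ s, w i * z i = 0 := Finset.sum_eq_zero fun i hi => by rw [h1 i hi, zero_mul]
    rw [h2, Real.zero_rpow (by linarith)]
    exact mul_nonneg (Real.rpow_nonneg (hW0.trans hσ) _) hR
  · have h1 := Real.rpow_arith_mean_le_arith_mean_rpow s (fun i => w i / W) z
      (fun i hi => div_nonneg (hw i hi) hW0) (by rw [← Finset.sum_div, ← hW, div_self h0.ne'])
      (fun i hi => hz i hi) hβ
    have e1 : ∑ i ∈ s, w i * z i = W * ∑ i ∈ s, w i / W * z i := by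
      rw [Finset.mul_sum]
      refine Finset.sum_congr rfl fun i _ => ?_
      field_simp
    have e2 : ∑ i ∈ s, w i / W * z i ^ β = (1 / W) * ∑ i ∈ s, w i * z i ^ β := by
      rw [Finset.mul_sum]
      refine Finset.sum_congr rfl fun i _ => ?_
      ring
    have h2 : 0 ≤ ∑ i ∈ s, w i / W * z i :=
      Finset.sum_nonneg fun i hi => mul_nonneg (div_nonneg (hw i hi) hW0) (hz i hi)
    rw [e1, Real.mul_rpow hW0 h2]
    rw [e2] at h1
    have h3 : W ^ β * (1 / W) ≤ σ ^ (β - 1) := by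
      have e3 : W ^ β * (1 / W) = W ^ (β - 1) := by
        rw [Real.rpow_sub_one h0.ne']
        ring
      rw [e3]
      exact Real.rpow_le_rpow hW0 hσ (by linarith)
    calc W ^ β * (∑ i ∈ s, w i / W * z i) ^ β ≤ W ^ β * ((1 / W) * ∑ i ∈ s, w i * z i ^ β) := by
          gcongr
      _ = (W ^ β * (1 / W)) * ∑ i ∈ s, w i * z i ^ β := by ring
      _ ≤ _ := mul_le_mul_of_nonneg_right h3 hR

/-- the two-point inequality in the mean -/
theorem two_mean {β b ε : ℝ} (hβ : 1 ≤ β) (hb : 0 < b) (hε : 0 < ε) : ∃ C : ℝ, 0 < C ∧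
    ∀ (g : ℝ → ℂ) (η η₁ : ℝ), Band g b η → Integrable (fun ξ => (1 + |ξ|) * ‖𝓕 g ξ‖) →
      ∫ ξ in {ξ : ℝ | b < |ξ|}, (1 + |ξ|) * ‖𝓕 g ξ‖ ≤ η₁ → ∀ e : ℝ, 0 < e → ∀ E : Set ℝ,
      ∀ α s : ℝ, -(Real.pi / 2) < α → α < Real.pi / 2 → 0 < s → s < 2 * α + Real.pi →
      ∫⁻ x in E, ‖Xg b α s g x‖ₑ ^ β ≤ ENNReal.ofReal ((1 + ε) * (s * (1 / 2 + e)) ^ β) *
        (∫⁻ x, ‖g x‖ₑ ^ β) +
        ENNReal.ofReal (C * (s * ((1 / (2 * b) + 27) * η₁ + e)) ^ β) * volume E := by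
  obtain ⟨C, hC, hel⟩ := elem hβ hε
  have hπ := Real.pi_pos
  have hβ0 : 0 < β := by linarith
  refine ⟨C, hC, fun g η η₁ hg hi hη e he E α s h1 h2 h3 h4 => ?_⟩
  set B := ∫ ξ, ‖𝓕 g ξ‖ with hB
  have hB0 : 0 ≤ B := integral_nonneg fun ξ => norm_nonneg _
  obtain ⟨N, hN2, hN⟩ : ∃ N : ℕ, 2 ≤ N ∧ 51 / (N : ℝ) * (1 + B) ≤ e := by
    obtain ⟨N, hN⟩ := exists_nat_ge (max 2 (51 * (1 + B) / e))
    have a1 : (2 : ℝ) ≤ N := (le_max_left _ _).trans hN
    have a2 : 51 * (1 + B) / e ≤ N := (le_max_right _ _).trans hN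
    refine ⟨N, by exact_mod_cast a1, ?_⟩
    rw [div_le_iff₀ he] at a2
    rw [div_mul_eq_mul_div, div_le_iff₀ (by linarith)]
    linarith
  have hN0 : (0 : ℝ) < N := by
    have : 0 < N := by omega
    exact_mod_cast this
  have hNe : 51 / (N : ℝ) ≤ e := by
    refine le_trans ?_ hN
    have : 0 ≤ 51 / (N : ℝ) := by positivity
    nlinarith
  have hNB : 51 / (N : ℝ) * B ≤ e := by
    refine le_trans ?_ hN
    have : 0 ≤ 51 / (N : ℝ) := by positivity
    nlinarith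
  have hη0 : 0 ≤ η₁ := le_trans (integral_nonneg fun ξ => by positivity) hη
  set R := (1 / (2 * b) + 27) * η₁ + e with hR
  have hR0 : 0 ≤ R := by positivity
  set σ := s * (1 / 2 + e) with hσ
  have hσ0 : 0 < σ := by positivity
  set J := Finset.Ico (-(N : ℤ)) N with hJ
  have hW : ∑ j ∈ J, wg α s j ≤ σ := by
    refine (wg_sum hN2 h1 h2 h3 h4).trans ?_
    have h5 : Real.sin (s / 2) ≤ s / 2 := Real.sin_le (by positivity)
    have h6 : s * (51 / (N : ℝ)) ≤ s * e := by gcongr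
    rw [hσ]
    linarith
  have hwp := wg_pos h1 h2 h3 h4
  -- pointwise
  have hpt : ∀ x, ‖Xg b α s g x‖ ^ β ≤ (1 + ε) * (σ ^ (β - 1) * ∑ j ∈ J, wg α s j *
      ‖g (x + nd α j / (4 * Real.pi * b))‖ ^ β) + C * (s * R) ^ β := by
    intro x
    have k1 := two_g hb hg hi hη hN2 h1 h2 h3 h4 x
    rw [← hB, ← hJ] at k1
    set S := ∑ j ∈ J, wg α s j * ‖g (x + nd α j / (4 * Real.pi * b))‖ with hS
    have hS0 : 0 ≤ S := Finset.sum_nonneg fun j _ => mul_nonneg (hwp j).le (norm_nonneg _)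
    have k2 : ‖Xg b α s g x‖ ≤ S + s * R := by
      refine k1.trans ?_
      have : s * (51 / N * B + (1 / (2 * b) + 27) * η₁) ≤ s * R := by
        rw [hR]
        apply mul_le_mul_of_nonneg_left _ h3.le
        linarith
      linarith
    have k3 : ‖Xg b α s g x‖ ^ β ≤ (S + s * R) ^ β := Real.rpow_le_rpow (norm_nonneg _) k2 hβ0.le
    refine k3.trans ((hel S (s * R) hS0 (by positivity)).trans ?_)
    have k4 : S ^ β ≤ σ ^ (β - 1) * ∑ j ∈ J, wg α s j *
        ‖g (x + nd α j / (4 * Real.pi * b))‖ ^ β :=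
      jensen_r hβ (fun j _ => (hwp j).le) (fun j _ => norm_nonneg _) hW
    have k5 := mul_le_mul_of_nonneg_left k4 (show 0 ≤ 1 + ε by linarith)
    linarith
  have hpt' : ∀ x, ‖Xg b α s g x‖ₑ ^ β ≤ ENNReal.ofReal ((1 + ε) * σ ^ (β - 1)) *
      ∑ j ∈ J, ENNReal.ofReal (wg α s j) *
        ‖g (x + nd α j / (4 * Real.pi * b))‖ₑ ^ β + ENNReal.ofReal (C * (s * R) ^ β) := by
    intro x
    rw [enorm_rpow (g := Xg b α s g) hβ0]
    refine (ENNReal.ofReal_le_ofReal (hpt x)).trans (le_of_eq ?_)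
    rw [← mul_assoc, ENNReal.ofReal_add (mul_nonneg (by positivity)
      (Finset.sum_nonneg fun j _ => mul_nonneg (hwp j).le (by positivity))) (by positivity),
      ENNReal.ofReal_mul (by positivity), ENNReal.ofReal_sum_of_nonneg
      (fun j _ => mul_nonneg (hwp j).le (by positivity))]
    congr 2
    refine Finset.sum_congr rfl fun j _ => ?_
    rw [ENNReal.ofReal_mul (hwp j).le, enorm_rpow hβ0]
  set A := ∫⁻ x, ‖g x‖ₑ ^ β with hA
  have hm1 : ∀ c : ℝ, Measurable (fun x => ‖g (x + c)‖ₑ ^ β) := fun c =>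
    (meas_rpow hg.cont β).comp (measurable_id.add_const _)
  have hm : Measurable (fun x => ∑ j ∈ J, ENNReal.ofReal (wg α s j) *
        ‖g (x + nd α j / (4 * Real.pi * b))‖ₑ ^ β) :=
    Finset.measurable_sum _ fun j _ => (hm1 _).const_mul _
  refine (lintegral_mono hpt').trans ?_
  rw [lintegral_add_right _ measurable_const, setLIntegral_const, lintegral_const_mul _ hm]
  apply add_le_add _ le_rfl
  have k1 : ∫⁻ x in E, ∑ j ∈ J, ENNReal.ofReal (wg α s j) *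
        ‖g (x + nd α j / (4 * Real.pi * b))‖ₑ ^ β ≤ ENNReal.ofReal σ * A := by
    refine (setLIntegral_le_lintegral _ _).trans ?_
    rw [lintegral_finsetSum _ (fun j _ => (hm1 _).const_mul _)]
    have k2 : ∀ j ∈ J, ∫⁻ x, ENNReal.ofReal (wg α s j) *
        ‖g (x + nd α j / (4 * Real.pi * b))‖ₑ ^ β = ENNReal.ofReal (wg α s j) * A := by
      intro j _
      rw [lintegral_const_mul _ (hm1 _), lintegral_add_right_eq_self (fun x => ‖g x‖ₑ ^ β), ← hA]
    rw [Finset.sum_congr rfl k2, ← Finset.sum_mul, ← ENNReal.ofReal_sum_of_nonneg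
      (fun j _ => (hwp j).le)]
    exact mul_le_mul_left (ENNReal.ofReal_le_ofReal hW) _
  refine (mul_le_mul_right k1 _).trans (le_of_eq ?_)
  rw [← mul_assoc, ← ENNReal.ofReal_mul (by positivity)]
  congr 2
  rw [mul_assoc, Real.rpow_sub_one hσ0.ne', div_mul_cancel₀ _ hσ0.ne']

/-- the limit of small steps -/
theorem Xg_lim {g : ℝ → ℂ} {b : ℝ} (hb : 0 < b) {g' : ℂ} {x : ℝ} (hg : HasDerivAt g g' x) (α : ℝ) :
    Tendsto (fun s : ℝ => (s : ℂ)⁻¹ * Xg b α s g x) (𝓝[≠] 0)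
      (𝓝 (g' / ((4 * Real.pi * b : ℝ) : ℂ) * Real.cos α - g x * ((Real.sin α / 2 : ℝ) : ℂ))) := by
  have hπ := Real.pi_pos
  have d1 : HasDerivAt (fun s : ℝ => g (x + s / (4 * Real.pi * b)))
      ((1 / (4 * Real.pi * b) : ℝ) • g') 0 := by
    have h2 : HasDerivAt (fun s : ℝ => x + s / (4 * Real.pi * b)) (1 / (4 * Real.pi * b)) 0 :=
      ((hasDerivAt_id' (0 : ℝ)).div_const _).const_add x
    have h1 : HasDerivAt g g' (x + 0 / (4 * Real.pi * b)) := by
      rw [zero_div, add_zero]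
      exact hg
    exact h1.scomp 0 h2
  have d2 : HasDerivAt (fun s : ℝ => ((Real.cos (s / 2 - α) : ℝ) : ℂ))
      ((-Real.sin (0 / 2 - α) * (1 / 2) : ℝ) : ℂ) 0 := by
    have h1 : HasDerivAt (fun s : ℝ => s / 2 - α) (1 / 2) 0 :=
      ((hasDerivAt_id' (0 : ℝ)).div_const 2).sub_const α
    exact h1.cos.ofReal_comp
  have d3 : HasDerivAt (fun s : ℝ => Xg b α s g x)
      (((1 / (4 * Real.pi * b) : ℝ) • g') * Real.cos α -
        g x * ((-Real.sin (0 / 2 - α) * (1 / 2) : ℝ) : ℂ)) 0 :=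
    (d1.mul_const _).sub (d2.const_mul (g x))
  have e0 : Xg b α 0 g x = 0 := by
    unfold Xg
    rw [zero_div, zero_div, add_zero, zero_sub, Real.cos_neg]
    ring
  have key := d3.tendsto_slope_zero
  have e1 : (fun t : ℝ => t⁻¹ • (Xg b α (0 + t) g x - Xg b α 0 g x)) =
      fun s : ℝ => (s : ℂ)⁻¹ * Xg b α s g x := by
    funext t
    rw [zero_add, e0, sub_zero, Complex.real_smul, Complex.ofReal_inv]
  rw [e1] at key
  convert key using 2
  rw [zero_div, zero_sub, Real.sin_neg, Complex.real_smul]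
  push_cast
  ring

/-- the inequality of Bernstein and Szego in the mean, for an angle in the open half circle -/
theorem der_mean {β b ε : ℝ} (hβ : 1 ≤ β) (hb : 0 < b) (hε : 0 < ε) : ∃ C : ℝ, 0 < C ∧
    ∀ (g : ℝ → ℂ) (η η₁ : ℝ), Band g b η → Integrable (fun ξ => (1 + |ξ|) * ‖𝓕 g ξ‖) →
      ∫ ξ in {ξ : ℝ | b < |ξ|}, (1 + |ξ|) * ‖𝓕 g ξ‖ ≤ η₁ → ∀ e : ℝ, 0 < e → ∀ E : Set ℝ,
      ∀ α : ℝ, -(Real.pi / 2) < α → α < Real.pi / 2 →
      ∫⁻ x in E, ‖dg g x / ((4 * Real.pi * b : ℝ) : ℂ) * Real.cos α -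
          g x * ((Real.sin α / 2 : ℝ) : ℂ)‖ₑ ^ β ≤
        ENNReal.ofReal ((1 + ε) * (1 / 2 + e) ^ β) * (∫⁻ x, ‖g x‖ₑ ^ β) +
        ENNReal.ofReal (C * ((1 / (2 * b) + 27) * η₁ + e) ^ β) * volume E := by
  obtain ⟨C, hC, htwo⟩ := two_mean hβ hb hε
  have hβ0 : 0 < β := by linarith
  have hπ := Real.pi_pos
  refine ⟨C, hC, fun g η η₁ hg hi hη e he E α h1 h2 => ?_⟩
  have hη0 : 0 ≤ η₁ := le_trans (integral_nonneg fun ξ => by positivity) hη
  set c : ℝ := (2 * α + Real.pi) / 2 with hc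
  have hc0 : 0 < c := by rw [hc]; linarith
  set sn : ℕ → ℝ := fun n => c / (n + 1) with hsn
  have hs0 : ∀ n, 0 < sn n := fun n => by
    have : (0 : ℝ) < n + 1 := by positivity
    exact div_pos hc0 this
  have hs1 : ∀ n, sn n < 2 * α + Real.pi := fun n => by
    have : sn n ≤ c := div_le_self hc0.le (by
      have : (0 : ℝ) ≤ n := Nat.cast_nonneg n
      linarith)
    have : c < 2 * α + Real.pi := by rw [hc]; linarith
    linarith
  have hlim : Tendsto sn atTop (𝓝[≠] 0) := by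
    rw [tendsto_nhdsWithin_iff]
    refine ⟨?_, Eventually.of_forall fun n => (hs0 n).ne'⟩
    have := (tendsto_one_div_add_atTop_nhds_zero_nat (𝕜 := ℝ)).const_mul c
    rw [mul_zero] at this
    refine this.congr fun n => ?_
    rw [hsn]
    ring
  have hpt : ∀ x : ℝ, Tendsto (fun n => ‖((sn n : ℝ) : ℂ)⁻¹ * Xg b α (sn n) g x‖ₑ ^ β) atTop
      (𝓝 (‖dg g x / ((4 * Real.pi * b : ℝ) : ℂ) * Real.cos α -
          g x * ((Real.sin α / 2 : ℝ) : ℂ)‖ₑ ^ β)) := by
    intro x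
    have h3 := (Xg_lim hb (hasDeriv_dg hg hi x) α).comp hlim
    exact (ENNReal.continuous_rpow_const.tendsto _).comp
      ((continuous_enorm.tendsto _).comp h3)
  have e1 : ∀ x : ℝ, ‖dg g x / ((4 * Real.pi * b : ℝ) : ℂ) * Real.cos α -
          g x * ((Real.sin α / 2 : ℝ) : ℂ)‖ₑ ^ β = liminf (fun n =>
      ‖((sn n : ℝ) : ℂ)⁻¹ * Xg b α (sn n) g x‖ₑ ^ β) atTop := fun x => (hpt x).liminf_eq.symm
  simp_rw [e1]
  have hXc : ∀ s, Continuous (Xg b α s g) := fun s => by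
    have := hg.cont
    unfold Xg
    fun_prop
  refine (lintegral_liminf_le fun n => ?_).trans ?_
  · exact meas_rpow (g := fun x => ((sn n : ℝ) : ℂ)⁻¹ * Xg b α (sn n) g x)
      (continuous_const.mul (hXc _)) β
  · refine Filter.liminf_le_of_le (by isBoundedDefault) fun y hy => ?_
    obtain ⟨n, hn⟩ := hy.exists
    refine hn.trans ?_
    have h3 := htwo g η η₁ hg hi hη e he E α (sn n) h1 h2 (hs0 n) (hs1 n)
    have h4 := hs0 n
    have e2 : ∀ x : ℝ, ‖((sn n : ℝ) : ℂ)⁻¹ * Xg b α (sn n) g x‖ₑ ^ β =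
        ENNReal.ofReal (((sn n)⁻¹) ^ β) * ‖Xg b α (sn n) g x‖ₑ ^ β := by
      intro x
      rw [enorm_mul, ENNReal.mul_rpow_of_nonneg _ _ hβ0.le]
      congr 1
      rw [← Complex.ofReal_inv, ← ofReal_norm, Complex.norm_real, Real.norm_eq_abs,
        abs_of_pos (by positivity), ENNReal.ofReal_rpow_of_nonneg (by positivity) hβ0.le]
    simp_rw [e2]
    rw [lintegral_const_mul' _ _ ENNReal.ofReal_ne_top]
    refine (mul_le_mul_right h3 _).trans (le_of_eq ?_)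
    have e3 : ∀ D z : ℝ, 0 ≤ D → 0 ≤ z → ENNReal.ofReal (((sn n)⁻¹) ^ β) *
        ENNReal.ofReal (D * (sn n * z) ^ β) = ENNReal.ofReal (D * z ^ β) := by
      intro D z hD hz
      rw [← ENNReal.ofReal_mul (by positivity), Real.mul_rpow h4.le hz, Real.inv_rpow h4.le]
      congr 1
      have : sn n ^ β ≠ 0 := (Real.rpow_pos_of_pos h4 _).ne'
      field_simp
    rw [mul_add, ← mul_assoc, ← mul_assoc, e3 _ _ (by positivity) (by positivity),
      e3 _ _ hC.le (by positivity)]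

/-- the inequality of Bernstein and Szego in the mean -/
theorem szg_mean {β b ε : ℝ} (hβ : 1 ≤ β) (hb : 1 / 2 < b) (hε : 0 < ε) : ∃ C : ℝ, 0 < C ∧
    ∀ (g : ℝ → ℂ) (η η₁ : ℝ), Band g b η → Integrable (fun ξ => (1 + |ξ|) * ‖𝓕 g ξ‖) →
      ∫ ξ in {ξ : ℝ | b < |ξ|}, (1 + |ξ|) * ‖𝓕 g ξ‖ ≤ η₁ → ∀ e : ℝ, 0 < e → ∀ E : Set ℝ,
      ∀ θ : ℝ, ∫⁻ x in E, ‖g x * Real.cos θ + dg g x / (Real.pi : ℂ) * Real.sin θ‖ₑ ^ β ≤
        ENNReal.ofReal ((1 + ε) * (2 * b * (1 + 2 * e)) ^ β) * (∫⁻ x, ‖g x‖ₑ ^ β) +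
        ENNReal.ofReal (C * (4 * b * ((1 / (2 * b) + 27) * η₁ + e)) ^ β) * volume E := by
  have hb0 : 0 < b := by linarith
  obtain ⟨C, hC, hder⟩ := der_mean hβ hb0 hε
  have hβ0 : 0 < β := by linarith
  have hπ := Real.pi_pos
  refine ⟨C, hC, fun g η η₁ hg hi hη e he E θ => ?_⟩
  have hη0 : 0 ≤ η₁ := le_trans (integral_nonneg fun ξ => by positivity) hη
  by_cases hθ : Real.sin θ = 0
  · have hcos : |Real.cos θ| = 1 := by
      have := Real.sin_sq_add_cos_sq θ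
      rw [hθ] at this
      have h2 : Real.cos θ ^ 2 = 1 := by linarith
      rw [← Real.sqrt_sq_eq_abs, h2, Real.sqrt_one]
    have e1 : ∀ x, ‖g x * Real.cos θ + dg g x / (Real.pi : ℂ) * Real.sin θ‖ₑ ^ β = ‖g x‖ₑ ^ β := by
      intro x
      rw [hθ, Complex.ofReal_zero, mul_zero, add_zero, enorm_mul]
      have : ‖((Real.cos θ : ℝ) : ℂ)‖ₑ = 1 := by
        rw [← ofReal_norm, Complex.norm_real, Real.norm_eq_abs, hcos, ENNReal.ofReal_one]
      rw [this, mul_one]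
    simp_rw [e1]
    refine le_trans (setLIntegral_le_lintegral _ _) ?_
    refine le_trans ?_ le_self_add
    have h1 : (1 : ℝ) ≤ (1 + ε) * (2 * b * (1 + 2 * e)) ^ β := by
      have h2 : (1 : ℝ) ≤ (2 * b * (1 + 2 * e)) ^ β :=
        Real.one_le_rpow (by nlinarith) hβ0.le
      nlinarith
    calc ∫⁻ x, ‖g x‖ₑ ^ β = 1 * ∫⁻ x, ‖g x‖ₑ ^ β := (one_mul _).symm
      _ ≤ _ := by
        apply mul_le_mul_left
        rw [← ENNReal.ofReal_one]
        exact ENNReal.ofReal_le_ofReal h1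
  · set p := Real.cos θ with hp
    set q := 2 * b * Real.sin θ with hq
    have hq0 : q ≠ 0 := mul_ne_zero (by positivity) hθ
    set r := Real.sqrt (p ^ 2 + q ^ 2) with hr
    have hr0 : 0 < r := Real.sqrt_pos.mpr (by positivity)
    have hr2 : r ^ 2 = p ^ 2 + q ^ 2 := Real.sq_sqrt (by positivity)
    have hrb : r ≤ 2 * b := by
      rw [hr, Real.sqrt_le_left (by positivity)]
      have h3 := Real.sin_sq_add_cos_sq θ
      have h4 : (1 : ℝ) ≤ (2 * b) ^ 2 := by nlinarith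
      rw [hp, hq]
      nlinarith [sq_nonneg (Real.cos θ)]
    obtain ⟨σ, hσ1, hσ2⟩ : ∃ σ : ℝ, σ * |q| = q ∧ σ * σ = 1 := by
      rcases lt_or_gt_of_ne hq0 with h1 | h1
      · exact ⟨-1, by rw [abs_of_neg h1]; ring, by norm_num⟩
      · exact ⟨1, by rw [abs_of_pos h1]; ring, by norm_num⟩
    have hσa : |σ| = 1 := by
      have : |σ| * |σ| = 1 := by rw [← abs_mul, hσ2, abs_one]
      nlinarith [abs_nonneg σ]
    -- the angle
    have hx1 : -1 < -(σ * p) / r ∧ -(σ * p) / r < 1 := by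
      have h5 : (σ * p) ^ 2 < r ^ 2 := by
        have : (σ * p) ^ 2 = p ^ 2 := by
          calc (σ * p) ^ 2 = (σ * σ) * p ^ 2 := by ring
            _ = p ^ 2 := by rw [hσ2, one_mul]
        rw [this, hr2]
        have : 0 < q ^ 2 := by positivity
        linarith
      have h6 := abs_lt_of_sq_lt_sq h5 hr0.le
      rw [abs_lt] at h6
      constructor
      · rw [lt_div_iff₀ hr0]; linarith
      · rw [div_lt_one hr0]; linarith
    set α := Real.arcsin (-(σ * p) / r) with hα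
    have hsin : Real.sin α = -(σ * p) / r := Real.sin_arcsin hx1.1.le hx1.2.le
    have hα1 : -(Real.pi / 2) < α := Real.neg_pi_div_two_lt_arcsin.2 hx1.1
    have hα2 : α < Real.pi / 2 := Real.arcsin_lt_pi_div_two.2 hx1.2
    have hcos : Real.cos α = |q| / r := by
      rw [hα, Real.cos_arcsin]
      have e1 : 1 - (-(σ * p) / r) ^ 2 = (|q| / r) ^ 2 := by
        rw [div_pow, div_pow, sq_abs]
        have : (-(σ * p)) ^ 2 = p ^ 2 := by
          calc (-(σ * p)) ^ 2 = (σ * σ) * p ^ 2 := by ring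
            _ = p ^ 2 := by rw [hσ2, one_mul]
        rw [this]
        field_simp
        linarith
      rw [e1, Real.sqrt_sq (by positivity)]
    have key := hder g η η₁ hg hi hη e he E α hα1 hα2
    have e1 : ∀ x, g x * (p : ℂ) + dg g x / (Real.pi : ℂ) * Real.sin θ =
        ((2 * r * σ : ℝ) : ℂ) * (dg g x / ((4 * Real.pi * b : ℝ) : ℂ) * Real.cos α -
          g x * ((Real.sin α / 2 : ℝ) : ℂ)) := by
      intro x
      rw [hcos, hsin]
      have hr' : (r : ℂ) ≠ 0 := by exact_mod_cast hr0.ne'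
      have hb' : (b : ℂ) ≠ 0 := by exact_mod_cast hb0.ne'
      have hπ' : (Real.pi : ℂ) ≠ 0 := by exact_mod_cast hπ.ne'
      have s1 : (σ : ℂ) * ((|q| : ℝ) : ℂ) = 2 * b * Real.sin θ := by
        rw [← Complex.ofReal_mul, hσ1, hq]
        push_cast
        ring
      have s2 : (σ : ℂ) * σ = 1 := by
        rw [← Complex.ofReal_mul, hσ2, Complex.ofReal_one]
      have s3 : ((2 * r * σ : ℝ) : ℂ) * (dg g x / ((4 * Real.pi * b : ℝ) : ℂ) * ((|q| / r : ℝ) : ℂ) -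
          g x * ((-(σ * p) / r / 2 : ℝ) : ℂ)) =
          dg g x * (((σ : ℂ) * ((|q| : ℝ) : ℂ)) / (2 * Real.pi * b)) +
            g x * (((σ : ℂ) * σ) * (p : ℂ)) := by
        push_cast
        field_simp
        ring
      rw [s3, s1, s2]
      field_simp
      ring
    simp_rw [e1]
    have e2 : ∀ x : ℝ, ‖((2 * r * σ : ℝ) : ℂ) * (dg g x / ((4 * Real.pi * b : ℝ) : ℂ) * Real.cos α -
          g x * ((Real.sin α / 2 : ℝ) : ℂ))‖ₑ ^ β = ENNReal.ofReal ((2 * r) ^ β) *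
          ‖dg g x / ((4 * Real.pi * b : ℝ) : ℂ) * Real.cos α -
            g x * ((Real.sin α / 2 : ℝ) : ℂ)‖ₑ ^ β := by
      intro x
      rw [enorm_mul, ENNReal.mul_rpow_of_nonneg _ _ hβ0.le]
      congr 1
      rw [← ofReal_norm, Complex.norm_real, Real.norm_eq_abs, abs_mul, hσa, mul_one,
        abs_of_pos (by positivity), ENNReal.ofReal_rpow_of_nonneg (by positivity) hβ0.le]
    simp_rw [e2]
    rw [lintegral_const_mul' _ _ ENNReal.ofReal_ne_top]
    refine (mul_le_mul_right key _).trans ?_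
    have e3 : ∀ D z z' : ℝ, 0 ≤ D → 0 ≤ z → 2 * (2 * b) * z ≤ z' → ENNReal.ofReal ((2 * r) ^ β) *
        ENNReal.ofReal (D * z ^ β) ≤ ENNReal.ofReal (D * z' ^ β) := by
      intro D z z' hD hz hzz
      rw [← ENNReal.ofReal_mul (by positivity)]
      apply ENNReal.ofReal_le_ofReal
      calc (2 * r) ^ β * (D * z ^ β) = D * (2 * r * z) ^ β := by
            rw [Real.mul_rpow (by positivity) hz]
            ring
        _ ≤ D * z' ^ β := by
            have : 2 * r * z ≤ z' := le_trans (by gcongr) hzz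
            gcongr
    rw [mul_add, ← mul_assoc, ← mul_assoc]
    refine add_le_add (mul_le_mul_left (e3 _ _ _ (by positivity) (by positivity) ?_) _)
      (mul_le_mul_left (e3 _ _ _ hC.le (by positivity) ?_) _)
    · exact le_of_eq (by ring)
    · exact le_of_eq (by ring)

end

end Q63.RZ
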