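import Pool.Agent.Q63.RZ.Ba2

/-!
# The inequality of Bernstein and Szego for zeta: the scaled function
-/

set_option autoImplicit false

open Complex Filter Topology Set MeasureTheory FourierTransform
open scoped ENNReal
open Q97.BS
open Q97.MM hiding pt

namespace Q63.RZ

noncomputable section

/-- the combination of zeta and the derivative of Hardy's function -/
def xz (T θ y : ℝ) : ℂ :=
  riemannZeta (pt y) * Real.cos θ + ((2 / Real.log T : ℝ) : ℂ) * I * Q97.BS.hh T y * Real.sin θ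

/-- the density of its moment -/
def xR (β T U θ y : ℝ) : ℝ := ‖xz T θ y‖ ^ β * wt T U y

/-- the combination for the scaled function -/
def sq (β T U θ y : ℝ) : ℂ :=
  Z1 (pt y) * Real.cos θ + ((2 / Real.log T : ℝ) : ℂ) * I * qc β T U y * Real.sin θ

def sR (β T U θ y : ℝ) : ℝ := (‖sq β T U θ y‖ / T) ^ β * wt T U y

theorem sq_cont (β T U θ : ℝ) : Continuous (sq β T U θ) := by
  have h1 := qc_cont β T U
  have h2 := Z1pt_cont
  unfold sq
  fun_prop

theorem sR_cont {β : ℝ} (hβ : 0 < β) (T U θ : ℝ) : Continuous (sR β T U θ) := by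
  have h1 : Continuous (wt T U) := by unfold wt; fun_prop
  exact (((sq_cont β T U θ).norm.div_const T).rpow_const fun y => Or.inr hβ.le).mul h1

theorem sR_nonneg {β T U θ y : ℝ} (hT : 0 < T) : 0 ≤ sR β T U θ y :=
  mul_nonneg (by positivity) (wt_pos _ _ _).le

theorem sg_pow {β T U : ℝ} (hβ : 0 < β) (hT : 3 ≤ T) (hU : 0 < U) {b η : ℝ}
    (hg : Band (gg T (U * √(β / 2))) b η) (hV : U * √(β / 2) ≤ T) (θ x : ℝ) :
    ‖gg T (U * √(β / 2)) x * Real.cos θ +
      dg (gg T (U * √(β / 2))) x / (Real.pi : ℂ) * Real.sin θ‖ ^ β =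
      sR β T U θ (T + 2 * Real.pi / Real.log T * x) := by
  have hL := log_pos' hT
  have hL0 : 0 < Real.log T := by linarith
  have hπ := Real.pi_pos
  have hT0 : 0 < T := by linarith
  have hV0 : 0 < U * √(β / 2) := mul_pos hU (Real.sqrt_pos.2 (by positivity))
  have h1 := hasDeriv_dg hg (hat_int hT hV0 hV) x
  have h2 := h1.unique (gg_deriv hT hV0 x)
  have hVV : (U * √(β / 2)) ^ 2 = β * U ^ 2 / 2 := by
    rw [mul_pow, Real.sq_sqrt (by positivity)]
    ring
  rw [h2]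
  have h3 : gg T (U * √(β / 2)) x = ee (x / 2) / (T : ℂ) *
      (cexp ((pt (T + 2 * Real.pi / Real.log T * x) - 1 / 2 - T * I) ^ 2 /
        (2 * ((U * √(β / 2) : ℝ) : ℂ) ^ 2)) * Z1 (pt (T + 2 * Real.pi / Real.log T * x))) := by
    unfold gg FF
    rw [pow_one]
    ring
  rw [h3]
  set ρ := 2 * Real.pi / Real.log T with hρ
  have hρ0 : 0 < ρ := by positivity
  set y := T + ρ * x with hy
  have e1 : 2 * Real.pi / Real.log T * x / (U * √(β / 2)) ^ 2 = 2 * (y - T) / (β * U ^ 2) := by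
    rw [hVV, hy, ← hρ]
    field_simp
    ring
  rw [e1]
  set E := cexp ((pt y - 1 / 2 - T * I) ^ 2 / (2 * ((U * √(β / 2) : ℝ) : ℂ) ^ 2)) with hE
  have e2 : ‖E‖ = Real.exp (-(((y - T) / U) ^ 2 / β)) := by
    rw [hE, Complex.norm_exp]
    congr 1
    have h3 := exp_re T (U * √(β / 2)) (1 / 2) y
    unfold pt
    rw [h3, hVV]
    field_simp
    ring
  have e3 : qc β T U y = deriv Z1 (pt y) + ((Real.log T / 2 : ℝ) : ℂ) * Z1 (pt y) +
    I * ((2 * (y - T) / (β * U ^ 2) : ℝ) : ℂ) * Z1 (pt y) := rfl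
  rw [← e3]
  have hT' : (T : ℂ) ≠ 0 := by exact_mod_cast hT0.ne'
  have hπ' : (Real.pi : ℂ) ≠ 0 := by exact_mod_cast hπ.ne'
  have hL' : ((Real.log T : ℝ) : ℂ) ≠ 0 := by exact_mod_cast hL0.ne'
  have e4 : ee (x / 2) / (T : ℂ) * (E * Z1 (pt y)) * Real.cos θ +
      ee (x / 2) * (I * (ρ : ℂ)) / (T : ℂ) * (E * qc β T U y) / (Real.pi : ℂ) * Real.sin θ =
      ee (x / 2) * ((E / (T : ℂ)) * sq β T U θ y) := by
    have e5 : (ρ : ℂ) = Real.pi * ((2 / Real.log T : ℝ) : ℂ) := by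
      rw [hρ]
      push_cast
      field_simp
    rw [e5]
    unfold sq
    generalize ((2 / Real.log T : ℝ) : ℂ) = w
    field_simp
  rw [e4, norm_mul, ee_norm, one_mul, norm_mul, norm_div, e2, Complex.norm_real,
    Real.norm_of_nonneg hT0.le]
  unfold sR
  have e6 : Real.exp (-(((y - T) / U) ^ 2 / β)) / T * ‖sq β T U θ y‖ =
      (‖sq β T U θ y‖ / T) * Real.exp (-(((y - T) / U) ^ 2 / β)) := by ring
  rw [e6, Real.mul_rpow (by positivity) (Real.exp_pos _).le, ← Real.exp_mul, wt]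
  congr 2
  field_simp

/-- the mean of the combination -/
theorem s_int {β b b₁ ε : ℝ} (hβ : 1 ≤ β) (hb : 1 / 2 < b) (hb1 : b < b₁) (hε : 0 < ε) :
    ∃ C : ℝ, 0 < C ∧
    ∀ᶠ T : ℝ in atTop, ∀ U : ℝ, Adm T U → ∀ θ : ℝ,
      ∫⁻ y in {y : ℝ | |y - T| ≤ T}, ENNReal.ofReal (sR β T U θ y) ≤
        ENNReal.ofReal ((1 + ε) * (2 * b₁) ^ β * PI β T U + C / T ^ 3) := by
  have hβ0 : 0 < β := by linarith
  have hb0 : 0 < b := by linarith
  have hπ := Real.pi_pos
  obtain ⟨C₂, hC₂, hbern⟩ := szg_mean hβ hb hε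
  set M := ⌈β⌉₊ with hM
  set B := ⌈((M : ℝ) + 4) / β⌉₊ with hB
  have hB1 : B ≠ 0 := by
    have : 0 < ((M : ℝ) + 4) / β := by positivity
    rw [hB]
    exact (Nat.ceil_pos.2 this).ne'
  obtain ⟨K, hK, hband⟩ := gg_band hb B (v₀ := √(β / 2)) (Real.sqrt_pos.2 (by positivity))
  set K' := 4 * b * ((1 / (2 * b) + 27) * K + 1) with hK'
  have hK'0 : 0 < K' := by positivity
  refine ⟨C₂ * K' ^ β * 2, by positivity, ?_⟩
  have hlim : ∀ᶠ T : ℝ in atTop, 2 * b * (1 + 2 * (1 / T ^ B)) ≤ 2 * b₁ := by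
    have h1 : Tendsto (fun T : ℝ => 2 * b * (1 + 2 * (1 / T ^ B))) atTop (𝓝 (2 * b * (1 + 2 * 0))) := by
      have h2 : Tendsto (fun T : ℝ => 1 / T ^ B) atTop (𝓝 0) :=
        (tendsto_pow_atTop (α := ℝ) hB1).const_div_atTop _
      exact ((h2.const_mul 2).const_add 1).const_mul (2 * b)
    rw [mul_zero, add_zero, mul_one] at h1
    filter_upwards [h1.eventually (gt_mem_nhds (show 2 * b < 2 * b₁ by linarith))] with T h
    exact le_of_lt h
  filter_upwards [V_adm hβ0, eventually_ge_atTop 3, hlim] with T hV hT hlT U hA θ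
  have hT0 : 0 < T := by linarith
  have hL := log_pos' hT
  set L := Real.log T with hLd
  have hL0 : 0 < L := by linarith
  set ρ := 2 * Real.pi / L with hρ
  have hρ0 : 0 < ρ := by positivity
  have hU := hA.pos
  have hV0 : 0 < U * √(β / 2) := mul_pos hU (Real.sqrt_pos.2 (by positivity))
  obtain ⟨hbnd, htl⟩ := hband T _ hT (hV U hA).1 (hV U hA).2
  set g := gg T (U * √(β / 2)) with hg
  have hbb := hbern g _ (K / T ^ B) hbnd (hat_int hT hV0 (hV U hA).2) htl (1 / T ^ B)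
    (by positivity) (Icc (-(T / ρ)) (T / ρ)) θ
  rw [hg, A_eq hβ0 hA, ← hg, Real.volume_Icc, ← ENNReal.ofReal_mul (by positivity),
    ← ENNReal.ofReal_mul (by positivity)] at hbb
  have hPI0 : 0 ≤ PI β T U := integral_nonneg fun y => pR_nonneg hT0
  have hTρ : 0 < T / ρ := by positivity
  rw [← ENNReal.ofReal_add (by positivity) (mul_nonneg (by positivity) (by linarith))] at hbb
  have hmS : MeasurableSet {y : ℝ | |y - T| ≤ T} :=
    measurableSet_le (by fun_prop) measurable_const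
  have hmq : Measurable (fun y => ENNReal.ofReal (sR β T U θ y)) :=
    (sR_cont hβ0 T U θ).measurable.ennreal_ofReal
  rw [← lintegral_indicator hmS]
  set h : ℝ → ℝ≥0∞ := {y : ℝ | |y - T| ≤ T}.indicator (fun y => ENNReal.ofReal (sR β T U θ y)) with hh
  have hmh : Measurable h := hmq.indicator hmS
  have hmh' : Measurable (fun x => h (T + x)) := hmh.comp (measurable_const_add T)
  rw [← lintegral_add_left_eq_self h T, lint_scale hρ0 hmh']
  set F : ℝ → ℂ := fun x => g x * Real.cos θ + dg g x / (Real.pi : ℂ) * Real.sin θ with hF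
  have hpt : ∀ x, h (T + ρ * x) ≤
      (Icc (-(T / ρ)) (T / ρ)).indicator (fun x => ‖F x‖ₑ ^ β) x := by
    intro x
    by_cases hx : |T + ρ * x - T| ≤ T
    · have hx' : x ∈ Icc (-(T / ρ)) (T / ρ) := by
        have e : T + ρ * x - T = ρ * x := by ring
        rw [e, abs_mul, abs_of_pos hρ0] at hx
        have h2 : |x| ≤ T / ρ := by
          rw [le_div_iff₀ hρ0]; linarith
        exact abs_le.mp h2
      rw [hh, indicator_of_mem (show T + ρ * x ∈ {y : ℝ | |y - T| ≤ T} from hx),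
        indicator_of_mem hx', enorm_rpow hβ0]
      apply ENNReal.ofReal_le_ofReal
      have h3 := sg_pow hβ0 hT hU hbnd (hV U hA).2 θ x
      rw [← hg, ← hLd, ← hρ] at h3
      rw [← h3]
    · rw [hh, indicator_of_notMem (show T + ρ * x ∉ {y : ℝ | |y - T| ≤ T} from hx)]
      exact bot_le
  have h4 : ∫⁻ x, h (T + ρ * x) ≤ ∫⁻ x in Icc (-(T / ρ)) (T / ρ), ‖F x‖ₑ ^ β := by
    refine (lintegral_mono hpt).trans ?_
    rw [lintegral_indicator measurableSet_Icc]
  refine (mul_le_mul_right (h4.trans hbb) _).trans ?_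
  rw [← ENNReal.ofReal_mul hρ0.le]
  apply ENNReal.ofReal_le_ofReal
  rw [mul_add]
  apply add_le_add
  · have e3 : ρ * ((1 + ε) * (2 * b * (1 + 2 * (1 / T ^ B))) ^ β * (L / (2 * Real.pi) * PI β T U)) =
        (1 + ε) * (2 * b * (1 + 2 * (1 / T ^ B))) ^ β * PI β T U := by
      have e4 : ρ * (L / (2 * Real.pi)) = 1 := by rw [hρ]; field_simp
      calc _ = (ρ * (L / (2 * Real.pi))) *
            ((1 + ε) * (2 * b * (1 + 2 * (1 / T ^ B))) ^ β * PI β T U) := by ring
        _ = _ := by rw [e4, one_mul]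
    rw [e3]
    have : (2 * b * (1 + 2 * (1 / T ^ B))) ^ β ≤ (2 * b₁) ^ β :=
      Real.rpow_le_rpow (by positivity) hlT hβ0.le
    gcongr
  · have e5 : 4 * b * ((1 / (2 * b) + 27) * (K / T ^ B) + 1 / T ^ B) = K' / T ^ B := by
      rw [hK']; ring
    have e6 : ρ * (T / ρ - -(T / ρ)) = 2 * T := by field_simp; ring
    rw [e5]
    have e4 : ρ * (C₂ * (K' / T ^ B) ^ β * (T / ρ - -(T / ρ))) = C₂ * (K' / T ^ B) ^ β * (2 * T) := by
      calc _ = C₂ * (K' / T ^ B) ^ β * (ρ * (T / ρ - -(T / ρ))) := by ring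
        _ = _ := by rw [e6]
    rw [e4]
    have h6 : (K' / T ^ B) ^ β ≤ K' ^ β / T ^ 4 := by
      rw [Real.div_rpow hK'0.le (by positivity)]
      apply div_le_div_of_nonneg_left (by positivity) (by positivity)
      rw [← Real.rpow_natCast, ← Real.rpow_natCast, ← Real.rpow_mul hT0.le]
      apply Real.rpow_le_rpow_of_exponent_le (by linarith)
      have := Nat.le_ceil (((M : ℝ) + 4) / β)
      rw [div_le_iff₀ hβ0] at this
      have hM0 : (0 : ℝ) ≤ (M : ℝ) := Nat.cast_nonneg M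
      push_cast
      linarith
    calc C₂ * (K' / T ^ B) ^ β * (2 * T) ≤ C₂ * (K' ^ β / T ^ 4) * (2 * T) := by gcongr
      _ = _ := by field_simp

end

end Q63.RZ
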