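import Pool.Agent.Q63.RZ.Ba3

/-!
# The inequality of Bernstein and Szego for zeta on the critical line
-/

set_option autoImplicit false

open Complex Filter Topology Set MeasureTheory FourierTransform
open scoped ENNReal
open Q97.BS
open Q97.MM hiding pt pt_ne

namespace Q63.RZ

noncomputable section

theorem abs_cos_c (θ : ℝ) : ‖((Real.cos θ : ℝ) : ℂ)‖ ≤ 1 := by
  rw [Complex.norm_real, Real.norm_eq_abs]
  exact Real.abs_cos_le_one θ

theorem abs_sin_c (θ : ℝ) : ‖((Real.sin θ : ℝ) : ℂ)‖ ≤ 1 := by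
  rw [Complex.norm_real, Real.norm_eq_abs]
  exact Real.abs_sin_le_one θ

/-- pointwise comparison near the centre of the window -/
theorem xin_pt {β : ℝ} (hβ : 1 ≤ β) {ε C : ℝ} (hε : 0 < ε) (hC : 0 < C)
    (hel : ∀ a b : ℝ, 0 ≤ a → 0 ≤ b → (a + b) ^ β ≤ (1 + ε) * a ^ β + C * b ^ β)
    {ϑ : ℝ} (hϑ : 0 < ϑ) (hϑ1 : ϑ ≤ 1 / 4) : ∀ᶠ T : ℝ in atTop, ∀ U : ℝ, Adm T U → ∀ θ y : ℝ,
      |y - T| ≤ ϑ * (U * Real.log T) →
      xR β T U θ y ≤ (1 / (1 - 2 * ϑ)) ^ β * ((1 + ε) * sR β T U θ y +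
        C * (6 * ϑ) ^ β * pR β T U y) := by
  filter_upwards [near hϑ hϑ1, eventually_ge_atTop 3, eventually_ge_atTop (2 / ϑ)] with
    T h1 hT h2 U hA θ y hy
  have hT0 : 0 < T := by linarith
  have hL := hA.log
  have hL0 : 0 < Real.log T := by linarith
  have hU := hA.2.1
  have hU0 : 0 < U := by linarith
  have hβ0 : 0 < β := by linarith
  have hUL : U * Real.log T ≤ T := by
    have := hA.2.2
    rwa [le_div_iff₀ (by linarith)] at this
  obtain ⟨b1, -⟩ := h1 y (hy.trans (mul_le_mul_of_nonneg_left hUL hϑ.le))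
  have h12 : 0 < 1 - 2 * ϑ := by linarith
  have hw := wt_pos T U y
  set z := ‖Z1 (pt y)‖ with hz
  have hz0 : 0 ≤ z := norm_nonneg _
  have hz2 : z = ‖pt y - 1‖ * ‖riemannZeta (pt y)‖ := by
    rw [hz, Z1_of_ne (pt_ne y)]
    exact norm_mul _ _
  have h3 : ‖riemannZeta (pt y)‖ ≤ ϑ * Real.log T * z := by
    have h4 : T / 2 * ‖riemannZeta (pt y)‖ ≤ z := by
      rw [hz2]
      apply mul_le_mul_of_nonneg_right _ (norm_nonneg _)
      nlinarith
    have h5 : 1 ≤ ϑ * Real.log T * (T / 2) := by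
      rw [div_le_iff₀ hϑ] at h2
      nlinarith
    have h6 := norm_nonneg (riemannZeta (pt y))
    calc ‖riemannZeta (pt y)‖ ≤ (ϑ * Real.log T * (T / 2)) * ‖riemannZeta (pt y)‖ := by
          nlinarith
      _ = ϑ * Real.log T * (T / 2 * ‖riemannZeta (pt y)‖) := by ring
      _ ≤ _ := by gcongr
  have h4 : ‖((2 * (y - T) / (β * U ^ 2) : ℝ) : ℂ)‖ ≤ 2 * ϑ * Real.log T := by
    have hbU : 0 < β * U ^ 2 := by positivity
    rw [Complex.norm_real, Real.norm_eq_abs, abs_div, abs_mul, abs_of_pos (by norm_num : (0 : ℝ) < 2),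
      abs_of_pos hbU, div_le_iff₀ hbU]
    have h5 : U * 1 ≤ U * (U * β) := by
      apply mul_le_mul_of_nonneg_left _ (by linarith)
      nlinarith
    calc 2 * |y - T| ≤ 2 * (ϑ * (U * Real.log T)) := by linarith
      _ = 2 * ϑ * Real.log T * (U * 1) := by ring
      _ ≤ 2 * ϑ * Real.log T * (U * (U * β)) := by gcongr
      _ = 2 * ϑ * Real.log T * (β * U ^ 2) := by ring
  have h5 : (1 - 2 * ϑ) * T * ‖xz T θ y‖ ≤ ‖sq β T U θ y‖ + 6 * ϑ * z := by
    have h6 : (1 - 2 * ϑ) * T * ‖xz T θ y‖ ≤ ‖pt y - 1‖ * ‖xz T θ y‖ := by gcongr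
    have e0 : (pt y - 1) * xz T θ y = sq β T U θ y -
        ((2 / Real.log T : ℝ) : ℂ) * I * (I * ((2 * (y - T) / (β * U ^ 2) : ℝ) : ℂ) * Z1 (pt y) +
          riemannZeta (pt y)) * Real.sin θ := by
      have e1 := hh_eq T y
      have e2 : (pt y - 1) * xz T θ y = (pt y - 1) * riemannZeta (pt y) * Real.cos θ +
          ((2 / Real.log T : ℝ) : ℂ) * I * ((pt y - 1) * Q97.BS.hh T y) * Real.sin θ := by
        unfold xz
        ring
      rw [e2, e1, ← Z1_of_ne (pt_ne y)]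
      unfold sq qc
      ring
    rw [← norm_mul, e0] at h6
    refine h6.trans ((norm_sub_le _ _).trans ?_)
    have h7 : ‖I * ((2 * (y - T) / (β * U ^ 2) : ℝ) : ℂ) * Z1 (pt y) + riemannZeta (pt y)‖ ≤
        3 * ϑ * Real.log T * z := by
      refine (norm_add_le _ _).trans ?_
      rw [norm_mul, norm_mul, Complex.norm_I, one_mul]
      have h8 : ‖((2 * (y - T) / (β * U ^ 2) : ℝ) : ℂ)‖ * ‖Z1 (pt y)‖ ≤ 2 * ϑ * Real.log T * z := by
        gcongr
      linarith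
    have h8 : ‖((2 / Real.log T : ℝ) : ℂ) * I *
        (I * ((2 * (y - T) / (β * U ^ 2) : ℝ) : ℂ) * Z1 (pt y) + riemannZeta (pt y)) *
          Real.sin θ‖ ≤ 6 * ϑ * z := by
      rw [norm_mul, norm_mul, norm_mul, Complex.norm_I, mul_one, Complex.norm_real,
        Real.norm_of_nonneg (by positivity : 0 ≤ 2 / Real.log T)]
      calc _ ≤ 2 / Real.log T * (3 * ϑ * Real.log T * z) * 1 := by
            gcongr
            exact abs_sin_c θ
        _ = _ := by field_simp; ring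
    linarith
  have h6 : ‖xz T θ y‖ ≤ 1 / (1 - 2 * ϑ) * (‖sq β T U θ y‖ / T + 6 * ϑ * (z / T)) := by
    have e : 1 / (1 - 2 * ϑ) * (‖sq β T U θ y‖ / T + 6 * ϑ * (z / T)) =
        (‖sq β T U θ y‖ + 6 * ϑ * z) / ((1 - 2 * ϑ) * T) := by
      field_simp
    rw [e, le_div_iff₀ (by positivity), mul_comm]
    exact h5
  have h7 : ‖xz T θ y‖ ^ β ≤ (1 / (1 - 2 * ϑ)) ^ β * ((1 + ε) * (‖sq β T U θ y‖ / T) ^ β +
      C * ((6 * ϑ) ^ β * (z / T) ^ β)) := by
    calc ‖xz T θ y‖ ^ β ≤ (1 / (1 - 2 * ϑ) * (‖sq β T U θ y‖ / T + 6 * ϑ * (z / T))) ^ β :=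
          Real.rpow_le_rpow (norm_nonneg _) h6 hβ0.le
      _ = (1 / (1 - 2 * ϑ)) ^ β * (‖sq β T U θ y‖ / T + 6 * ϑ * (z / T)) ^ β := by
          rw [Real.mul_rpow (by positivity) (by positivity)]
      _ ≤ _ := by
          apply mul_le_mul_of_nonneg_left _ (by positivity)
          rw [← Real.mul_rpow (by positivity) (by positivity)]
          exact hel _ _ (by positivity) (by positivity)
  unfold xR sR pR
  calc ‖xz T θ y‖ ^ β * wt T U y ≤ ((1 / (1 - 2 * ϑ)) ^ β * ((1 + ε) * (‖sq β T U θ y‖ / T) ^ β +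
      C * ((6 * ϑ) ^ β * (z / T) ^ β))) * wt T U y := by gcongr
    _ = _ := by ring

theorem xz_bd {T : ℝ} (hT : 3 ≤ T) (θ y : ℝ) : ‖xz T θ y‖ ≤ 2600 * T * (1 + |y|) ^ 2 := by
  have hL := log_pos' hT
  have h1 : ‖riemannZeta (pt y)‖ ≤ 180 * (1 + |y|) ^ 2 := Q97.MM.zeta_bd y
  have h2 := hh_bd hT y
  have h3 := sq_nonneg (1 + |y|)
  have t1 : ‖riemannZeta (pt y) * ((Real.cos θ : ℝ) : ℂ)‖ ≤ 180 * (1 + |y|) ^ 2 := by
    rw [norm_mul]
    calc _ ≤ 180 * (1 + |y|) ^ 2 * 1 := by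
          have := abs_cos_c θ
          gcongr
      _ = _ := mul_one _
  have t2 : ‖((2 / Real.log T : ℝ) : ℂ) * I * Q97.BS.hh T y * ((Real.sin θ : ℝ) : ℂ)‖ ≤
      2 * (1200 * T * (1 + |y|) ^ 2) := by
    rw [norm_mul, norm_mul, norm_mul, Complex.norm_I, mul_one, Complex.norm_real,
      Real.norm_of_nonneg (by positivity : 0 ≤ 2 / Real.log T)]
    have h4 : 2 / Real.log T ≤ 2 := div_le_self (by norm_num) hL
    calc _ ≤ 2 * (1200 * T * (1 + |y|) ^ 2) * 1 := by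
          have := abs_sin_c θ
          gcongr
      _ = _ := mul_one _
  unfold xz
  refine (norm_add_le _ _).trans ?_
  nlinarith

theorem xz_cont (T θ : ℝ) : Continuous (xz T θ) := by
  have h1 := hh_cont T
  have h2 : Continuous (fun y : ℝ => riemannZeta (pt y)) := zeta_line_cont (by norm_num)
  unfold xz
  exact (h2.mul continuous_const).add ((continuous_const.mul h1).mul continuous_const)

theorem xR_nonneg {β T U θ y : ℝ} : 0 ≤ xR β T U θ y :=
  mul_nonneg (by positivity) (wt_pos _ _ _).le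

theorem xR_bd {β T : ℝ} (hβ : 0 < β) (hT : 3 ≤ T) (θ y : ℝ) :
    ‖xz T θ y‖ ^ β ≤ (2600 * T) ^ β * (1 + |y|) ^ ⌈2 * β⌉₊ :=
  rpow_bd (norm_nonneg _) hβ (by positivity) (xz_bd hT θ y)

theorem xR_int {β : ℝ} (hβ : 0 < β) {T U : ℝ} (hA : Adm T U) (θ : ℝ) :
    Integrable (xR β T U θ) := by
  have hT0 : 0 < T := by linarith [hA.1]
  refine poly_wt_integrable ⌈2 * β⌉₊ (C₀ := (2600 * T) ^ β) hA.pos hT0.le hA.le ?_ (fun y => ?_)
  · exact ((xz_cont T θ).norm.rpow_const fun y => Or.inr hβ.le).aestronglyMeasurable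
  · rw [abs_of_nonneg (by positivity)]
    exact xR_bd hβ hA.1 θ y

theorem xR_tail {β : ℝ} (hβ : 0 < β) (D : ℕ) {ϑ : ℝ} (hϑ : 0 < ϑ) :
    ∀ᶠ T : ℝ in atTop, ∀ U : ℝ, Adm T U →
    ∀ θ y : ℝ, ϑ * (U * Real.log T) < |y - T| → xR β T U θ y ≤ tR D T y := by
  filter_upwards [tail ⌈2 * β⌉₊ (D + ⌈β⌉₊) (2600 ^ β) hϑ, eventually_ge_atTop 3] with
    T h1 hT U hA θ y hy
  have hT0 : 0 < T := by linarith
  have h2 := h1 U hA y hy
  have hw := wt_pos T U y
  have h3 : (2600 * T) ^ β ≤ T ^ ⌈β⌉₊ * 2600 ^ β := by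
    rw [Real.mul_rpow (by norm_num) hT0.le, mul_comm]
    apply mul_le_mul_of_nonneg_right _ (by positivity)
    rw [← Real.rpow_natCast]
    exact Real.rpow_le_rpow_of_exponent_le (by linarith) (Nat.le_ceil _)
  calc xR β T U θ y ≤ ((2600 * T) ^ β * (1 + |y|) ^ ⌈2 * β⌉₊) * wt T U y :=
        mul_le_mul_of_nonneg_right (xR_bd hβ hT θ y) hw.le
    _ ≤ ((T ^ ⌈β⌉₊ * 2600 ^ β) * (1 + |y|) ^ ⌈2 * β⌉₊) * wt T U y := by gcongr
    _ = T ^ ⌈β⌉₊ * (2600 ^ β * (1 + |y|) ^ ⌈2 * β⌉₊ * wt T U y) := by ring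
    _ ≤ T ^ ⌈β⌉₊ * tR (D + ⌈β⌉₊) T y := by gcongr
    _ = tR D T y := by
        unfold tR
        rw [pow_add]
        field_simp

theorem pick_e (β : ℝ) {ε : ℝ} (hε : 0 < ε) : ∃ e : ℝ, 0 < e ∧
    (1 + e) ^ 2 * (1 + 2 * e) ^ β < 1 + ε := by
  have h0 : ContinuousAt (fun e : ℝ => (1 + e) ^ 2 * (1 + 2 * e) ^ β) 0 := by
    refine ContinuousAt.mul (by fun_prop) (ContinuousAt.rpow_const (by fun_prop) (Or.inl ?_))
    norm_num
  have h1 : ∀ᶠ e in 𝓝 (0 : ℝ), (1 + e) ^ 2 * (1 + 2 * e) ^ β < 1 + ε := by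
    apply h0.eventually (gt_mem_nhds _)
    show (1 + 0 : ℝ) ^ 2 * (1 + 2 * 0) ^ β < 1 + ε
    rw [mul_zero, add_zero, one_pow, Real.one_rpow, one_mul]
    linarith
  obtain ⟨e, he1, he2⟩ := ((h1.filter_mono nhdsWithin_le_nhds).and
    (self_mem_nhdsWithin (s := Ioi (0 : ℝ)))).exists
  exact ⟨e, he2, he1⟩

/-- The inequality of Bernstein and Szego for zeta. -/
theorem bsz {β ε : ℝ} (hβ : 1 ≤ β) (hε : 0 < ε) : ∀ᶠ T : ℝ in atTop, ∀ U : ℝ, Adm T U →
    ∀ θ : ℝ, ∫ y, xR β T U θ y ≤ (1 + ε) * MI β T U := by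
  have hβ0 : 0 < β := by linarith
  obtain ⟨e, he, he'⟩ := pick_e β hε
  set b₁ : ℝ := 1 / 2 + e with hb₁
  set b : ℝ := 1 / 2 + e / 2 with hb
  have hbb : b < b₁ := by rw [hb, hb₁]; linarith
  have hb1 : 1 / 2 < b := by rw [hb]; linarith
  have h2b : 2 * b₁ = 1 + 2 * e := by rw [hb₁]; ring
  obtain ⟨C₁, hC₁, hel⟩ := elem hβ he
  set Φ : ℝ → ℝ := fun ϑ => (1 / (1 - 2 * ϑ)) ^ β * (1 + 2 * ϑ) ^ β *
    ((1 + e) ^ 2 * (2 * b₁) ^ β + C₁ * (6 * ϑ) ^ β) with hΦ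
  obtain ⟨ϑ, hϑ, hϑ1, hϑ2⟩ : ∃ ϑ : ℝ, 0 < ϑ ∧ ϑ ≤ 1 / 4 ∧ Φ ϑ < 1 + ε := by
    have h0 : Φ 0 = (1 + e) ^ 2 * (1 + 2 * e) ^ β := by
      simp only [hΦ]
      rw [mul_zero, mul_zero, Real.zero_rpow hβ0.ne', mul_zero, add_zero, sub_zero, add_zero,
        one_div_one, Real.one_rpow, one_mul, one_mul, h2b]
    have h1 : ContinuousAt Φ 0 := by
      have c1 : ContinuousAt (fun ϑ : ℝ => (1 / (1 - 2 * ϑ)) ^ β) 0 := by
        refine ContinuousAt.rpow_const ?_ (Or.inr hβ0.le)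
        exact continuousAt_const.div (by fun_prop) (by norm_num)
      have c2 : ContinuousAt (fun ϑ : ℝ => (1 + 2 * ϑ) ^ β) 0 :=
        ContinuousAt.rpow_const (by fun_prop) (Or.inr hβ0.le)
      have c3 : ContinuousAt (fun ϑ : ℝ => (6 * ϑ) ^ β) 0 :=
        ContinuousAt.rpow_const (by fun_prop) (Or.inr hβ0.le)
      exact (c1.mul c2).mul (continuousAt_const.add (continuousAt_const.mul c3))
    have h2 : ∀ᶠ ϑ in 𝓝 (0 : ℝ), Φ ϑ < 1 + ε :=
      h1.eventually (gt_mem_nhds (by rw [h0]; exact he'))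
    have h3 : ∀ᶠ ϑ in 𝓝 (0 : ℝ), ϑ ≤ 1 / 4 := by
      filter_upwards [gt_mem_nhds (show (0 : ℝ) < 1 / 4 by norm_num)] with ϑ h
      exact le_of_lt h
    have h4 : ∀ᶠ ϑ in 𝓝[>] (0 : ℝ), Φ ϑ < 1 + ε ∧ ϑ ≤ 1 / 4 :=
      (h2.and h3).filter_mono nhdsWithin_le_nhds
    obtain ⟨ϑ, ⟨ha, hb⟩, hc⟩ := (h4.and (self_mem_nhdsWithin (s := Ioi (0 : ℝ)))).exists
    exact ⟨ϑ, hc, hb, ha⟩
  have h12 : 0 < 1 - 2 * ϑ := by linarith
  obtain ⟨C₂, hC₂, hq⟩ := s_int hβ hb1 hbb he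
  obtain ⟨c, hc, hlow⟩ := MI_lower hβ0
  set κ := Φ ϑ with hκ
  set W := (1 / (1 - 2 * ϑ)) ^ β with hW
  have hW0 : 0 < W := by positivity
  have hb₁0 : 0 < b₁ := by positivity
  set R := W * ((1 + e) ^ 2 * (2 * b₁) ^ β + C₁ * (6 * ϑ) ^ β) with hR
  have hR0 : 0 ≤ R := by positivity
  have hκR : κ = R * (1 + 2 * ϑ) ^ β := by
    rw [hκ, hΦ, hR, hW]
    ring
  have hπ := Real.pi_pos
  set Q := R * Real.pi + W * ((1 + e) * C₂) + Real.pi with hQ
  have hQ0 : 0 < Q := by positivity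
  have hgap : 0 < 1 + ε - κ := by linarith
  have hsm : Tendsto (fun T : ℝ => Q / T ^ 1) atTop (𝓝 0) :=
    (tendsto_pow_atTop (n := 1) (α := ℝ) (by norm_num)).const_div_atTop _
  filter_upwards [hq, hlow, xin_pt hβ he hC₁ hel hϑ hϑ1, xR_tail hβ0 3 hϑ, cmp hβ0 3 hϑ hϑ1,
    hsm.eventually (gt_mem_nhds (show 0 < (1 + ε - κ) * c by positivity)),
    eventually_ge_atTop 3] with T hq hlow hin htl hcmp hsmall hT U hA θ
  have hT0 : 0 < T := by linarith
  have hL := log_pos' hT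
  have hUL : U * Real.log T ≤ T := by
    have := hA.2.2
    rwa [le_div_iff₀ (by linarith)] at this
  set L := Real.log T with hLd
  have hL0 : 0 < L := by linarith
  have hPI0 : 0 ≤ PI β T U := integral_nonneg fun y => pR_nonneg hT0
  have hMI0 : 0 ≤ MI β T U := integral_nonneg fun y => aR_nonneg
  obtain ⟨t1, t2⟩ := tR_int 3 hT0
  set P₁ := W * (C₁ * (6 * ϑ) ^ β) with hP₁
  have hP₁0 : 0 ≤ P₁ := by positivity
  set S := {y : ℝ | |y - T| ≤ T} with hS
  have hmS : MeasurableSet S := measurableSet_le (by fun_prop) measurable_const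
  have hpt : ∀ y, ENNReal.ofReal (xR β T U θ y) ≤ ENNReal.ofReal (W * (1 + e)) *
      S.indicator (fun y => ENNReal.ofReal (sR β T U θ y)) y +
      ENNReal.ofReal (P₁ * pR β T U y + tR 3 T y) := by
    intro y
    have ht0 : 0 ≤ tR 3 T y := by unfold tR; positivity
    have hp0 := pR_nonneg (β := β) (U := U) (y := y) hT0
    by_cases hy : |y - T| ≤ ϑ * (U * L)
    · have hyS : y ∈ S := by
        show |y - T| ≤ T
        refine hy.trans ?_
        have := mul_le_mul_of_nonneg_left hUL hϑ.le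
        nlinarith
      rw [indicator_of_mem hyS, ← ENNReal.ofReal_mul (by positivity),
        ← ENNReal.ofReal_add (mul_nonneg (by positivity) (sR_nonneg hT0)) (by positivity)]
      apply ENNReal.ofReal_le_ofReal
      have h1 := hin U hA θ y hy
      have e1 : W * ((1 + e) * sR β T U θ y + C₁ * (6 * ϑ) ^ β * pR β T U y) =
          W * (1 + e) * sR β T U θ y + P₁ * pR β T U y := by
        rw [hP₁]; ring
      rw [e1] at h1
      linarith
    · push Not at hy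
      refine le_trans (ENNReal.ofReal_le_ofReal ?_) le_add_self
      have h1 := htl U hA θ y hy
      have h2 : 0 ≤ P₁ * pR β T U y := by positivity
      linarith
  have hDI : ENNReal.ofReal (∫ y, xR β T U θ y) ≤ ENNReal.ofReal (W * (1 + e) *
      ((1 + e) * (2 * b₁) ^ β * PI β T U + C₂ / T ^ 3) + (P₁ * PI β T U + Real.pi / T ^ 3)) := by
    rw [ofReal_integral_eq_lintegral_ofReal (xR_int hβ0 hA θ) (Eventually.of_forall fun y =>
      xR_nonneg)]
    refine (lintegral_mono hpt).trans ?_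
    have hi : Integrable (fun y => P₁ * pR β T U y + tR 3 T y) :=
      ((pR_int hβ0 hA).const_mul P₁).add t1
    rw [lintegral_add_right _ (by
        have h1 := (pR_cont hβ0 T U).measurable
        have h2 : Measurable (tR 3 T) := by
          unfold tR
          fun_prop
        exact ((h1.const_mul P₁).add h2).ennreal_ofReal),
      lintegral_const_mul' _ _ ENNReal.ofReal_ne_top, lintegral_indicator hmS,
      ← ofReal_integral_eq_lintegral_ofReal hi (Eventually.of_forall fun y => by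
        have h1 : 0 ≤ tR 3 T y := by unfold tR; positivity
        have h2 := pR_nonneg (β := β) (U := U) (y := y) hT0
        show 0 ≤ P₁ * pR β T U y + tR 3 T y
        positivity),
      ENNReal.ofReal_add (by positivity) (by positivity),
      ENNReal.ofReal_mul (p := W * (1 + e)) (by positivity)]
    refine add_le_add (mul_le_mul_right (hq U hA θ) _) (ENNReal.ofReal_le_ofReal ?_)
    have h1 := integral_add ((pR_int hβ0 hA).const_mul P₁) t1
    rw [integral_const_mul] at h1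
    refine (le_of_eq h1).trans ?_
    unfold PI
    linarith
  have h1 := (ENNReal.ofReal_le_ofReal_iff (by positivity)).mp hDI
  -- collect
  have hPM : PI β T U ≤ (1 + 2 * ϑ) ^ β * MI β T U + Real.pi / T ^ 3 := by
    have i1 := pR_int hβ0 hA
    have i2 := aR_int hβ0 hA
    have h3 := integral_mono i1 ((i2.const_mul ((1 + 2 * ϑ) ^ β)).add t1) (fun y => (hcmp U hA y).1)
    have h4 := integral_add (i2.const_mul ((1 + 2 * ϑ) ^ β)) t1
    rw [integral_const_mul] at h4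
    have h5 := h3.trans (le_of_eq h4)
    unfold PI MI
    linarith
  have e1 : W * (1 + e) * ((1 + e) * (2 * b₁) ^ β * PI β T U + C₂ / T ^ 3) +
      (P₁ * PI β T U + Real.pi / T ^ 3) =
      R * PI β T U + (W * ((1 + e) * C₂) + Real.pi) / T ^ 3 := by
    rw [hP₁, hR]
    ring
  rw [e1] at h1
  have h2 : R * PI β T U ≤ κ * MI β T U + R * Real.pi / T ^ 3 := by
    have h3 : R * PI β T U ≤ R * ((1 + 2 * ϑ) ^ β * MI β T U + Real.pi / T ^ 3) := by gcongr
    have e2 : R * ((1 + 2 * ϑ) ^ β * MI β T U + Real.pi / T ^ 3) =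
        κ * MI β T U + R * Real.pi / T ^ 3 := by
      rw [hκR]
      ring
    linarith
  have h3 : Q / T ^ 3 ≤ (1 + ε - κ) * MI β T U := by
    have e2 : Q / T ^ 3 = Q / T ^ 1 / T ^ 2 := by field_simp
    rw [e2]
    calc Q / T ^ 1 / T ^ 2 ≤ ((1 + ε - κ) * c) / T ^ 2 := by gcongr
      _ = (1 + ε - κ) * (c / T ^ 2) := by ring
      _ ≤ _ := by
          have := hlow U hA
          gcongr
  have h5 : (W * ((1 + e) * C₂) + Real.pi) / T ^ 3 + R * Real.pi / T ^ 3 = Q / T ^ 3 := by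
    rw [hQ]; ring
  have h7 : (1 + ε) * MI β T U = κ * MI β T U + (1 + ε - κ) * MI β T U := by ring
  rw [h7]
  linarith

end

end Q63.RZ
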