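import Pool.Agent.Q63.RZ.Ba4
import Pool.Agent.Q97.BS.Fqe

/-!
# The slope of `log |zeta|` on the critical line, weighted by a power of `|zeta|`
-/

set_option autoImplicit false

open Complex Filter Topology Set MeasureTheory FourierTransform
open scoped ENNReal
open Q97.BS
open Q97.MM hiding pt pt_ne

namespace Q63.RZ

noncomputable section

/-- the derivative of `log |zeta(1/2+it)|` -/
def sl (y : ℝ) : ℝ := -(deriv riemannZeta (pt y) / riemannZeta (pt y)).im

theorem sl_meas : Measurable sl := by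
  have h2 : Continuous (fun y : ℝ => riemannZeta (pt y)) := zeta_line_cont (by norm_num)
  have h3 := z'_cont
  unfold sl
  exact (Complex.measurable_im.comp (h3.measurable.div h2.measurable)).neg

theorem xz_lower {T : ℝ} (hT : 3 ≤ T) (θ y : ℝ) :
    ‖riemannZeta (pt y)‖ * |Real.cos θ + 2 / Real.log T * sl y * Real.sin θ| ≤ ‖xz T θ y‖ := by
  have hL := log_pos' hT
  have hL0 : 0 < Real.log T := by linarith
  by_cases h0 : riemannZeta (pt y) = 0
  · rw [h0, norm_zero, zero_mul]
    exact norm_nonneg _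
  · have hL' : ((Real.log T : ℝ) : ℂ) ≠ 0 := by exact_mod_cast hL0.ne'
    have e1 : xz T θ y = riemannZeta (pt y) * (((Real.cos θ : ℝ) : ℂ) +
        ((2 / Real.log T * Real.sin θ : ℝ) : ℂ) * (I * (deriv riemannZeta (pt y) /
          riemannZeta (pt y))) + ((Real.sin θ : ℝ) : ℂ) * I) := by
      unfold xz Q97.BS.hh
      push_cast
      field_simp
      ring
    rw [e1, norm_mul]
    apply mul_le_mul_of_nonneg_left _ (norm_nonneg _)
    refine le_trans (le_of_eq ?_) (Complex.abs_re_le_norm _)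
    congr 1
    set u := deriv riemannZeta (pt y) / riemannZeta (pt y) with hu
    have e2 : sl y = -u.im := by rw [hu]; rfl
    rw [e2]
    simp only [Complex.add_re, Complex.ofReal_re, Complex.re_ofReal_mul, Complex.mul_re,
      Complex.I_re, Complex.I_im, Complex.ofReal_im]
    ring

theorem arctan_key {v r : ℝ} (hv : 0 ≤ v) (hr : v ≤ r) :
    Real.sqrt (1 + v ^ 2) ≤ Real.cos (Real.arctan v) + r * Real.sin (Real.arctan v) := by
  rw [Real.cos_arctan, Real.sin_arctan]
  have h1 : 0 < Real.sqrt (1 + v ^ 2) := Real.sqrt_pos.mpr (by positivity)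
  have h2 : Real.sqrt (1 + v ^ 2) ^ 2 = 1 + v ^ 2 := Real.sq_sqrt (by positivity)
  have e : 1 / Real.sqrt (1 + v ^ 2) + r * (v / Real.sqrt (1 + v ^ 2)) =
      (1 + r * v) / Real.sqrt (1 + v ^ 2) := by ring
  rw [e, le_div_iff₀ h1, ← pow_two, h2]
  nlinarith

theorem sqrt_rpow {v β : ℝ} : Real.sqrt (1 + v ^ 2) ^ β = (1 + v ^ 2) ^ (β / 2) := by
  rw [Real.sqrt_eq_rpow, ← Real.rpow_mul (by positivity)]
  congr 1
  ring

/-- the part of the moment with a large slope -/
theorem law {β ε : ℝ} (hβ : 1 ≤ β) (hε : 0 < ε) : ∀ᶠ T : ℝ in atTop, ∀ U : ℝ, Adm T U →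
    ∀ v : ℝ, 0 ≤ v →
      (∫ y in {y : ℝ | riemannZeta (pt y) ≠ 0 ∧ v * (Real.log T / 2) ≤ sl y}, aR β T U y ≤
        (1 + ε) * (1 + v ^ 2) ^ (-(β / 2)) * MI β T U) ∧
      (∫ y in {y : ℝ | riemannZeta (pt y) ≠ 0 ∧ sl y ≤ -(v * (Real.log T / 2))}, aR β T U y ≤
        (1 + ε) * (1 + v ^ 2) ^ (-(β / 2)) * MI β T U) := by
  filter_upwards [bsz hβ hε, eventually_ge_atTop 3] with T hbsz hT U hA v hv
  have hβ0 : 0 < β := by linarith
  have hL := log_pos' hT
  have hL0 : 0 < Real.log T := by linarith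
  have hV : 0 < (1 + v ^ 2) ^ (β / 2) := by positivity
  have hint := aR_int hβ0 hA
  have hζm : Measurable (fun y : ℝ => riemannZeta (pt y)) := by
    have h2 : Continuous (fun y : ℝ => riemannZeta (pt y)) := zeta_line_cont (by norm_num)
    exact h2.measurable
  have key : ∀ (S : Set ℝ), MeasurableSet S → ∀ θ : ℝ, (∀ y ∈ S,
      Real.sqrt (1 + v ^ 2) ≤ Real.cos θ + 2 / Real.log T * sl y * Real.sin θ) →
      ∫ y in S, aR β T U y ≤ (1 + ε) * (1 + v ^ 2) ^ (-(β / 2)) * MI β T U := by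
    intro S hS θ hθ
    have h1 : ∫ y in S, (1 + v ^ 2) ^ (β / 2) * aR β T U y ≤ ∫ y in S, xR β T U θ y := by
      refine setIntegral_mono_on (hint.const_mul _).integrableOn (xR_int hβ0 hA θ).integrableOn hS ?_
      intro y hy
      have h2 := xz_lower hT θ y
      have h3 := hθ y hy
      have h4 : ‖riemannZeta (pt y)‖ * Real.sqrt (1 + v ^ 2) ≤ ‖xz T θ y‖ :=
        le_trans (mul_le_mul_of_nonneg_left (h3.trans (le_abs_self _)) (norm_nonneg _)) h2
      have h5 := Real.rpow_le_rpow (by positivity) h4 hβ0.le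
      rw [Real.mul_rpow (norm_nonneg _) (by positivity), sqrt_rpow] at h5
      unfold xR aR
      have hw := (wt_pos T U y).le
      calc _ = (‖riemannZeta (pt y)‖ ^ β * (1 + v ^ 2) ^ (β / 2)) * wt T U y := by ring
        _ ≤ _ := mul_le_mul_of_nonneg_right h5 hw
    have h2 : ∫ y in S, xR β T U θ y ≤ ∫ y, xR β T U θ y :=
      setIntegral_le_integral (xR_int hβ0 hA θ) (Eventually.of_forall fun y => xR_nonneg)
    rw [integral_const_mul] at h1
    have h3 := (h1.trans h2).trans (hbsz U hA θ)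
    have h4 : (1 + v ^ 2) ^ (-(β / 2)) = ((1 + v ^ 2) ^ (β / 2))⁻¹ :=
      Real.rpow_neg (by positivity) _
    rw [h4]
    calc ∫ y in S, aR β T U y = ((1 + v ^ 2) ^ (β / 2))⁻¹ *
          ((1 + v ^ 2) ^ (β / 2) * ∫ y in S, aR β T U y) := by
            rw [← mul_assoc, inv_mul_cancel₀ hV.ne', one_mul]
      _ ≤ ((1 + v ^ 2) ^ (β / 2))⁻¹ * ((1 + ε) * MI β T U) := by gcongr
      _ = _ := by ring
  have hsm : ∀ (S : Set ℝ), MeasurableSet S →
      MeasurableSet {y : ℝ | riemannZeta (pt y) ≠ 0 ∧ sl y ∈ S} := fun S hS =>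
    (hζm (measurableSet_singleton 0).compl).inter (sl_meas hS)
  constructor
  · refine key _ (hsm (Ici (v * (Real.log T / 2))) measurableSet_Ici) (Real.arctan v) ?_
    rintro y ⟨-, hy⟩
    have hy' : v * (Real.log T / 2) ≤ sl y := hy
    apply arctan_key hv
    have e : v = 2 / Real.log T * (v * (Real.log T / 2)) := by field_simp
    rw [e]
    have : 2 / Real.log T * (v * (Real.log T / 2)) ≤ 2 / Real.log T * sl y := by gcongr
    exact this
  · refine key _ (hsm (Iic (-(v * (Real.log T / 2)))) measurableSet_Iic) (-Real.arctan v) ?_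
    rintro y ⟨-, hy⟩
    have hy' : sl y ≤ -(v * (Real.log T / 2)) := hy
    rw [Real.cos_neg, Real.sin_neg]
    have h1 : v ≤ 2 / Real.log T * (-sl y) := by
      have e : v = 2 / Real.log T * (v * (Real.log T / 2)) := by field_simp
      rw [e]
      have : v * (Real.log T / 2) ≤ -sl y := by linarith
      gcongr
    have h2 := arctan_key hv h1
    calc _ ≤ _ := h2
      _ = _ := by ring

/-- the integral over the angle -/
theorem angle_int {β : ℝ} (hβ : 0 < β) (r : ℝ) :
    ∫ θ in (0 : ℝ)..(2 * Real.pi), |Real.cos θ + r * Real.sin θ| ^ β =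
      (1 + r ^ 2) ^ (β / 2) * ∫ θ in (0 : ℝ)..(2 * Real.pi), |Real.cos θ| ^ β := by
  have hs : 0 < Real.sqrt (1 + r ^ 2) := Real.sqrt_pos.mpr (by positivity)
  have e1 : ∀ θ : ℝ, |Real.cos θ + r * Real.sin θ| ^ β =
      (1 + r ^ 2) ^ (β / 2) * |Real.cos (θ - Real.arctan r)| ^ β := by
    intro θ
    rw [← sqrt_rpow, ← Real.mul_rpow hs.le (abs_nonneg _), ← abs_of_pos hs, ← abs_mul]
    congr 2
    rw [Real.cos_sub, Real.cos_arctan, Real.sin_arctan]
    field_simp
  simp_rw [e1]
  rw [intervalIntegral.integral_const_mul]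
  congr 1
  rw [intervalIntegral.integral_comp_sub_right (fun θ => |Real.cos θ| ^ β)]
  have hper : Function.Periodic (fun θ : ℝ => |Real.cos θ| ^ β) (2 * Real.pi) := by
    intro θ
    simp only
    rw [Real.cos_add_two_pi]
  have h2 := hper.intervalIntegral_add_eq (0 - Real.arctan r) 0
  rw [zero_add] at h2
  rw [← h2]
  congr 1
  ring

theorem cos_int_pos {β : ℝ} (hβ : 0 < β) :
    0 < ∫ θ in (0 : ℝ)..(2 * Real.pi), |Real.cos θ| ^ β := by
  have hπ := Real.pi_pos
  have hc : Continuous (fun θ : ℝ => |Real.cos θ| ^ β) :=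
    (Real.continuous_cos.abs).rpow_const fun _ => Or.inr hβ.le
  apply intervalIntegral.integral_pos (by positivity) hc.continuousOn
  · intro x _
    positivity
  · refine ⟨0, ⟨le_rfl, by positivity⟩, ?_⟩
    rw [Real.cos_zero, abs_one, Real.one_rpow]
    norm_num

/-- the density with the envelope -/
def eR (β T U y : ℝ) : ℝ :=
  ‖riemannZeta (pt y)‖ ^ β * (1 + (2 / Real.log T * sl y) ^ 2) ^ (β / 2) * wt T U y

theorem eR_nonneg {β T U y : ℝ} : 0 ≤ eR β T U y :=
  mul_nonneg (by positivity) (wt_pos _ _ _).le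

theorem eR_meas (β T U : ℝ) : Measurable (eR β T U) := by
  have h2 : Continuous (fun y : ℝ => riemannZeta (pt y)) := zeta_line_cont (by norm_num)
  have h1 : Continuous (wt T U) := by unfold wt; fun_prop
  have h3 := sl_meas
  have h4 := h2.norm.measurable
  unfold eR
  exact ((h4.pow_const _).mul (((((h3.const_mul _).pow_const 2).const_add 1)).pow_const _)).mul
    h1.measurable

theorem xR_th {β : ℝ} (hβ : 0 < β) (T U y : ℝ) : Continuous (fun θ : ℝ => xR β T U θ y) := by
  unfold xR xz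
  refine Continuous.mul (Continuous.rpow_const (Continuous.norm ?_) fun _ => Or.inr hβ.le)
    continuous_const
  fun_prop

theorem xR_jc {β : ℝ} (hβ : 0 < β) (T U : ℝ) :
    Continuous (fun p : ℝ × ℝ => xR β T U p.2 p.1) := by
  have h1 : Continuous (wt T U) := by unfold wt; fun_prop
  have h2 : Continuous (fun y : ℝ => riemannZeta (pt y)) := zeta_line_cont (by norm_num)
  have h3 := hh_cont T
  have a1 : Continuous (fun p : ℝ × ℝ => riemannZeta (pt p.1)) := h2.comp continuous_fst
  have a2 : Continuous (fun p : ℝ × ℝ => Q97.BS.hh T p.1) := h3.comp continuous_fst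
  have a3 : Continuous (fun p : ℝ × ℝ => wt T U p.1) := h1.comp continuous_fst
  have a4 : Continuous (fun p : ℝ × ℝ => ((Real.cos p.2 : ℝ) : ℂ)) := by fun_prop
  have a5 : Continuous (fun p : ℝ × ℝ => ((Real.sin p.2 : ℝ) : ℂ)) := by fun_prop
  unfold xR xz
  exact ((((a1.mul a4).add ((continuous_const.mul a2).mul a5)).norm.rpow_const
    fun _ => Or.inr hβ.le)).mul a3

theorem envelope {β ε : ℝ} (hβ : 1 ≤ β) (hε : 0 < ε) : ∀ᶠ T : ℝ in atTop, ∀ U : ℝ, Adm T U →
    Integrable (eR β T U) ∧ ∫ y, eR β T U y ≤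
      (1 + ε) * (2 * Real.pi / ∫ θ in (0 : ℝ)..(2 * Real.pi), |Real.cos θ| ^ β) * MI β T U := by
  filter_upwards [bsz hβ hε, eventually_ge_atTop 3] with T hbsz hT U hA
  have hβ0 : 0 < β := by linarith
  have hπ := Real.pi_pos
  set cβ := ∫ θ in (0 : ℝ)..(2 * Real.pi), |Real.cos θ| ^ β with hcβ
  have hc0 : 0 < cβ := cos_int_pos hβ0
  have hMI0 : 0 ≤ MI β T U := integral_nonneg fun y => aR_nonneg
  have hpt : ∀ y : ℝ, ENNReal.ofReal cβ * ENNReal.ofReal (eR β T U y) ≤
      ∫⁻ θ in Ioc (0 : ℝ) (2 * Real.pi), ENNReal.ofReal (xR β T U θ y) := by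
    intro y
    have hc1 : Continuous (fun θ : ℝ => xR β T U θ y) := xR_th hβ0 T U y
    have hc2 : Integrable (fun θ : ℝ => xR β T U θ y)
        ((volume : Measure ℝ).restrict (Ioc (0 : ℝ) (2 * Real.pi))) := hc1.integrableOn_Ioc
    have hc3 : ∫⁻ θ in Ioc (0 : ℝ) (2 * Real.pi), ENNReal.ofReal (xR β T U θ y) =
        ENNReal.ofReal (∫ θ in Ioc (0 : ℝ) (2 * Real.pi), xR β T U θ y) :=
      (ofReal_integral_eq_lintegral_ofReal hc2 (Eventually.of_forall fun θ => xR_nonneg)).symm
    rw [hc3, ← ENNReal.ofReal_mul hc0.le, ← intervalIntegral.integral_of_le (by positivity)]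
    apply ENNReal.ofReal_le_ofReal
    have h1 := angle_int hβ0 (2 / Real.log T * sl y)
    rw [← hcβ] at h1
    have e1 : cβ * eR β T U y = ∫ θ in (0 : ℝ)..(2 * Real.pi),
        (‖riemannZeta (pt y)‖ ^ β * wt T U y) *
          |Real.cos θ + 2 / Real.log T * sl y * Real.sin θ| ^ β := by
      rw [intervalIntegral.integral_const_mul, h1]
      unfold eR
      ring
    rw [e1]
    apply intervalIntegral.integral_mono_on (by positivity)
    · apply Continuous.intervalIntegrable
      refine continuous_const.mul (Continuous.rpow_const (by fun_prop) fun _ => Or.inr hβ0.le)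
    · exact hc1.intervalIntegrable _ _
    · intro θ _
      have h2 := Real.rpow_le_rpow (by positivity) (xz_lower hT θ y) hβ0.le
      rw [Real.mul_rpow (norm_nonneg _) (abs_nonneg _)] at h2
      unfold xR
      have hw := (wt_pos T U y).le
      calc _ = (‖riemannZeta (pt y)‖ ^ β *
            |Real.cos θ + 2 / Real.log T * sl y * Real.sin θ| ^ β) * wt T U y := by ring
        _ ≤ _ := mul_le_mul_of_nonneg_right h2 hw
  have hmain : ENNReal.ofReal cβ * ∫⁻ y, ENNReal.ofReal (eR β T U y) ≤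
      ENNReal.ofReal (2 * Real.pi * ((1 + ε) * MI β T U)) := by
    rw [← lintegral_const_mul' _ _ ENNReal.ofReal_ne_top]
    refine (lintegral_mono hpt).trans ?_
    rw [lintegral_lintegral_swap]
    · have h1 : ∀ θ : ℝ, ∫⁻ y, ENNReal.ofReal (xR β T U θ y) ≤
          ENNReal.ofReal ((1 + ε) * MI β T U) := by
        intro θ
        rw [← ofReal_integral_eq_lintegral_ofReal (xR_int hβ0 hA θ)
          (Eventually.of_forall fun y => xR_nonneg)]
        exact ENNReal.ofReal_le_ofReal (hbsz U hA θ)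
      refine (lintegral_mono fun θ => h1 θ).trans ?_
      rw [lintegral_const, Measure.restrict_apply_univ, Real.volume_Ioc, sub_zero,
        ← ENNReal.ofReal_mul (by positivity)]
      apply ENNReal.ofReal_le_ofReal
      exact le_of_eq (by ring)
    · have : Measurable (fun p : ℝ × ℝ => ENNReal.ofReal (xR β T U p.2 p.1)) :=
        (xR_jc hβ0 T U).measurable.ennreal_ofReal
      exact this.aemeasurable
  have hfin : ∫⁻ y, ENNReal.ofReal (eR β T U y) ≤
      ENNReal.ofReal ((1 + ε) * (2 * Real.pi / cβ) * MI β T U) := by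
    have e1 : (2 * Real.pi * ((1 + ε) * MI β T U)) =
        cβ * ((1 + ε) * (2 * Real.pi / cβ) * MI β T U) := by
      field_simp
    rw [e1, ENNReal.ofReal_mul hc0.le] at hmain
    exact (ENNReal.mul_le_mul_iff_right (ENNReal.ofReal_pos.2 hc0).ne' ENNReal.ofReal_ne_top).1 hmain
  have hI : Integrable (eR β T U) := by
    refine ⟨(eR_meas β T U).aestronglyMeasurable, ?_⟩
    rw [hasFiniteIntegral_iff_ofReal (Eventually.of_forall fun y => eR_nonneg)]
    exact lt_of_le_of_lt hfin ENNReal.ofReal_lt_top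
  refine ⟨hI, ?_⟩
  rw [← ENNReal.ofReal_le_ofReal_iff (by positivity), ofReal_integral_eq_lintegral_ofReal hI
    (Eventually.of_forall fun y => eR_nonneg)]
  exact hfin

end

end Q63.RZ
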