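import Pool.Agent.H382R2.Rect

/-!
# The two-point interpolation formula of M. Riesz, with a remainder
-/

set_option autoImplicit false

open Complex Filter Topology Set MeasureTheory

namespace Q63.RZ

noncomputable section

/-- the zeros of `cos (w / 2 - α)` -/
def nd (α : ℝ) (j : ℤ) : ℝ := 2 * α + Real.pi * (2 * j + 1)

/-- the denominator of the contour integral -/
def den (α s : ℝ) (w : ℂ) : ℂ := w * (w - s) * Complex.cos (w / 2 - α)

/-- the closed rectangle -/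
def Rc (α : ℝ) (N : ℕ) : Set ℂ :=
  Set.Icc (2 * α - 2 * Real.pi * N) (2 * α + 2 * Real.pi * N) ×ℂ
    Set.Icc (-(2 * Real.pi * N)) (2 * Real.pi * N)

/-- its boundary -/
def Rb (α : ℝ) (N : ℕ) : Set ℂ :=
  H370.Bd (2 * α - 2 * Real.pi * N) (2 * α + 2 * Real.pi * N) (-(2 * Real.pi * N)) (2 * Real.pi * N)

/-- the contour integral of `h / den` -/
def CI (α s : ℝ) (N : ℕ) (h : ℂ → ℂ) : ℂ :=
  H370.RI (2 * α - 2 * Real.pi * N) (2 * α + 2 * Real.pi * N) (-(2 * Real.pi * N)) (2 * Real.pi * N)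
    (fun w => h w / den α s w)

theorem cos_zero_iff (α : ℝ) (w : ℂ) : Complex.cos (w / 2 - α) = 0 ↔ ∃ j : ℤ, w = (nd α j : ℂ) := by
  rw [Complex.cos_eq_zero_iff]
  constructor
  · rintro ⟨k, hk⟩
    refine ⟨k, ?_⟩
    have : w = 2 * ((2 * k + 1) * Real.pi / 2 + α) := by
      linear_combination 2 * hk
    rw [this, nd]
    push_cast
    ring
  · rintro ⟨j, rfl⟩
    refine ⟨j, ?_⟩
    rw [nd]
    push_cast
    ring

theorem nd_inj (α : ℝ) : Function.Injective (nd α) := by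
  intro i j h
  simp only [nd] at h
  have hπ := Real.pi_pos
  have h2 : Real.pi * (2 * (i : ℝ) + 1) = Real.pi * (2 * (j : ℝ) + 1) := by linarith
  have h3 := mul_left_cancel₀ hπ.ne' h2
  have h4 : (i : ℝ) = j := by linarith
  exact_mod_cast h4

/-- the nodes are not in `[0, s]` -/
theorem nd_cases {α s : ℝ} (h1 : -(Real.pi / 2) < α) (h2 : α < Real.pi / 2) (h4 : s < 2 * α + Real.pi)
    (j : ℤ) : nd α j < 0 ∨ s < nd α j := by
  have hπ := Real.pi_pos
  rcases le_or_gt 0 j with h | h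
  · right
    have : (0 : ℝ) ≤ j := by exact_mod_cast h
    rw [nd]
    nlinarith
  · left
    have : (j : ℝ) ≤ -1 := by
      have : j ≤ -1 := by omega
      exact_mod_cast this
    rw [nd]
    nlinarith

theorem nd_mul_pos {α s : ℝ} (h1 : -(Real.pi / 2) < α) (h2 : α < Real.pi / 2) (h3 : 0 < s)
    (h4 : s < 2 * α + Real.pi) (j : ℤ) : 0 < nd α j * (nd α j - s) := by
  rcases nd_cases h1 h2 h4 j with h | h
  · exact mul_pos_of_neg_of_neg h (by linarith)
  · exact mul_pos (by linarith) (by linarith)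

/-- the set of zeros of the denominator in the rectangle -/
def ZZ (α s : ℝ) (N : ℕ) : Finset ℂ :=
  insert (0 : ℂ) (insert (s : ℂ) ((Finset.Ico (-(N : ℤ)) N).image (fun j => ((nd α j : ℝ) : ℂ))))

theorem cos_ne {α x : ℝ} (h1 : -(Real.pi / 2) < x - α) (h2 : x - α < Real.pi / 2) :
    0 < Real.cos (x - α) := Real.cos_pos_of_mem_Ioo ⟨h1, h2⟩

theorem nd_range {α : ℝ} {N : ℕ} {j : ℤ} (h1 : 2 * α - 2 * Real.pi * N ≤ nd α j)
    (h2 : nd α j ≤ 2 * α + 2 * Real.pi * N) : j ∈ Finset.Ico (-(N : ℤ)) N := by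
  have hπ := Real.pi_pos
  rw [nd] at h1 h2
  rw [Finset.mem_Ico]
  constructor
  · have h3 : Real.pi * (-(2 * (N : ℝ))) ≤ Real.pi * (2 * j + 1) := by linarith
    have h4 := le_of_mul_le_mul_left h3 hπ
    have h5 : -(2 * (N : ℤ)) ≤ 2 * j + 1 := by exact_mod_cast h4
    omega
  · have h3 : Real.pi * (2 * (j : ℝ) + 1) ≤ Real.pi * (2 * N) := by linarith
    have h4 := le_of_mul_le_mul_left h3 hπ
    have h5 : 2 * j + 1 ≤ 2 * (N : ℤ) := by exact_mod_cast h4
    omega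

theorem nd_mem {α : ℝ} {N : ℕ} {j : ℤ} (hj : j ∈ Finset.Ico (-(N : ℤ)) N) :
    2 * α - 2 * Real.pi * N < nd α j ∧ nd α j < 2 * α + 2 * Real.pi * N := by
  have hπ := Real.pi_pos
  rw [Finset.mem_Ico] at hj
  have h1 : (-(N : ℝ)) ≤ j := by exact_mod_cast hj.1
  have h2 : (j : ℝ) + 1 ≤ N := by exact_mod_cast hj.2
  rw [nd]
  constructor
  · have : Real.pi * (-(2 * (N : ℝ))) < Real.pi * (2 * j + 1) :=
      mul_lt_mul_of_pos_left (by linarith) hπ
    linarith
  · have : Real.pi * (2 * (j : ℝ) + 1) < Real.pi * (2 * N) :=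
      mul_lt_mul_of_pos_left (by linarith) hπ
    linarith

theorem den_zero_iff {α s : ℝ} {N : ℕ} (hN : 2 ≤ N) (h1 : -(Real.pi / 2) < α)
    (h2 : α < Real.pi / 2) (h3 : 0 < s) (h4 : s < 2 * α + Real.pi) :
    ∀ w ∈ Rc α N, den α s w = 0 ↔ w ∈ ZZ α s N := by
  intro w hw
  have hπ := Real.pi_pos
  rw [ZZ, Finset.mem_insert, Finset.mem_insert, Finset.mem_image, den, mul_eq_zero, mul_eq_zero,
    cos_zero_iff, sub_eq_zero, or_assoc]
  refine or_congr Iff.rfl (or_congr Iff.rfl ?_)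
  constructor
  · rintro ⟨j, hj⟩
    refine ⟨j, ?_, hj.symm⟩
    obtain ⟨h5, h6⟩ := hw
    rw [mem_preimage, hj, ofReal_re] at h5
    exact nd_range h5.1 h5.2
  · rintro ⟨j, _, hj⟩
    exact ⟨j, hj.symm⟩

theorem ZZ_interior {α s : ℝ} {N : ℕ} (hN : 2 ≤ N) (h1 : -(Real.pi / 2) < α)
    (h2 : α < Real.pi / 2) (h3 : 0 < s) (h4 : s < 2 * α + Real.pi) :
    ∀ w ∈ ZZ α s N, w ∈ Set.Ioo (2 * α - 2 * Real.pi * N) (2 * α + 2 * Real.pi * N) ×ℂ
      Set.Ioo (-(2 * Real.pi * N)) (2 * Real.pi * N) := by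
  intro w hw
  have hπ := Real.pi_pos
  have hN' : (2 : ℝ) ≤ N := by exact_mod_cast hN
  have hπN : Real.pi * 2 ≤ Real.pi * N := mul_le_mul_of_nonneg_left hN' hπ.le
  rw [ZZ, Finset.mem_insert, Finset.mem_insert, Finset.mem_image] at hw
  have key : ∃ x : ℝ, w = x ∧ 2 * α - 2 * Real.pi * N < x ∧ x < 2 * α + 2 * Real.pi * N := by
    rcases hw with rfl | rfl | ⟨j, hj, rfl⟩
    · exact ⟨0, by simp, by linarith, by linarith⟩
    · exact ⟨s, rfl, by linarith, by linarith⟩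
    · exact ⟨nd α j, rfl, (nd_mem hj).1, (nd_mem hj).2⟩
  obtain ⟨x, rfl, h5, h6⟩ := key
  refine ⟨?_, ?_⟩
  · rw [mem_preimage, ofReal_re]; exact ⟨h5, h6⟩
  · rw [mem_preimage, ofReal_im]
    constructor <;> linarith

theorem hasDerivAt_den (α s : ℝ) (w : ℂ) :
    HasDerivAt (den α s) (((w - s) + w) * Complex.cos (w / 2 - α) +
      w * (w - s) * (-Complex.sin (w / 2 - α) * (1 / 2))) w := by
  have a1 : HasDerivAt (fun w : ℂ => w * (w - s)) ((w - s) + w) w := by
    have := (hasDerivAt_id' w).fun_mul ((hasDerivAt_id' w).sub_const (s : ℂ))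
    simpa using this
  have a2 : HasDerivAt (fun w : ℂ => w / 2 - (α : ℂ)) (1 / 2) w :=
    ((hasDerivAt_id w).div_const 2).sub_const _
  have a3 := (Complex.hasDerivAt_cos (w / 2 - α)).comp w a2
  exact a1.mul a3

theorem cos_nd (α : ℝ) (j : ℤ) : Complex.cos ((nd α j : ℝ) / 2 - α) = 0 :=
  (cos_zero_iff α _).mpr ⟨j, rfl⟩

theorem sin_nd_real (α : ℝ) (j : ℤ) : Real.sin (nd α j / 2 - α) = (-1) ^ j := by
  have e : nd α j / 2 - α = (j : ℝ) * Real.pi + Real.pi / 2 := by rw [nd]; ring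
  rw [e, Real.sin_add_pi_div_two, Real.cos_int_mul_pi]

theorem sin_nd (α : ℝ) (j : ℤ) : Complex.sin ((nd α j : ℝ) / 2 - α) = (-1) ^ j := by
  have := congrArg (fun x : ℝ => (x : ℂ)) (sin_nd_real α j)
  push_cast at this
  rw [← this]

theorem deriv_den_zero (α s : ℝ) : deriv (den α s) 0 = -s * Real.cos α := by
  rw [(hasDerivAt_den α s 0).deriv]
  simp [Complex.cos_neg]

theorem deriv_den_s (α s : ℝ) : deriv (den α s) s = s * Real.cos (s / 2 - α) := by
  rw [(hasDerivAt_den α s s).deriv]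
  push_cast
  ring

theorem deriv_den_nd (α s : ℝ) (j : ℤ) : deriv (den α s) (nd α j : ℝ) =
    (nd α j : ℂ) * ((nd α j : ℂ) - s) * (-(1 / 2) * (-1) ^ j) := by
  rw [(hasDerivAt_den α s _).deriv, cos_nd, sin_nd]
  ring

/-- the interpolation formula -/
theorem interp {α s : ℝ} {N : ℕ} (hN : 2 ≤ N) (h1 : -(Real.pi / 2) < α)
    (h2 : α < Real.pi / 2) (h3 : 0 < s) (h4 : s < 2 * α + Real.pi) {U : Set ℂ} (hU : IsOpen U)
    (hRU : Rc α N ⊆ U) {h : ℂ → ℂ} (hh : DifferentiableOn ℂ h U) :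
    CI α s N h = 2 * Real.pi * I * (h 0 / (-s * Real.cos α) + (h s / (s * Real.cos (s / 2 - α)) +
      ∑ j ∈ Finset.Ico (-(N : ℤ)) N,
        h (nd α j) / ((nd α j : ℂ) * ((nd α j : ℂ) - s) * (-(1 / 2) * (-1) ^ j)))) := by
  classical
  have hπ := Real.pi_pos
  have hN' : (2 : ℝ) ≤ N := by exact_mod_cast hN
  have hπN : Real.pi * 2 ≤ Real.pi * N := mul_le_mul_of_nonneg_left hN' hπ.le
  have hca : Real.cos α ≠ 0 := by
    have := cos_ne (α := 0) (x := α) (by linarith) (by linarith)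
    rw [sub_zero] at this
    exact this.ne'
  have hcs : Real.cos (s / 2 - α) ≠ 0 := (cos_ne (by linarith) (by linarith)).ne'
  have hnd : ∀ j, (nd α j : ℂ) * ((nd α j : ℂ) - s) ≠ 0 := by
    intro j
    have := (nd_mul_pos h1 h2 h3 h4 j).ne'
    exact_mod_cast this
  have hm1 : ∀ j : ℤ, ((-1 : ℂ)) ^ j ≠ 0 := fun j => zpow_ne_zero j (by norm_num)
  have key := SG.RectAux.res_aux U hU (2 * α - 2 * Real.pi * N) (2 * α + 2 * Real.pi * N)
    (-(2 * Real.pi * N)) (2 * Real.pi * N) (by linarith) (by linarith) hRU (ZZ α s N) (den α s) h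
    (fun w _ => (hasDerivAt_den α s w).differentiableAt.differentiableWithinAt) hh
    (ZZ_interior hN h1 h2 h3 h4) (den_zero_iff hN h1 h2 h3 h4) (by
      intro w hw
      rw [ZZ, Finset.mem_insert, Finset.mem_insert, Finset.mem_image] at hw
      rcases hw with rfl | rfl | ⟨j, _, rfl⟩
      · rw [deriv_den_zero]
        exact mul_ne_zero (neg_ne_zero.mpr (by exact_mod_cast h3.ne')) (by exact_mod_cast hca)
      · rw [deriv_den_s]
        exact mul_ne_zero (by exact_mod_cast h3.ne') (by exact_mod_cast hcs)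
      · rw [deriv_den_nd]
        exact mul_ne_zero (hnd j) (mul_ne_zero (by norm_num) (hm1 j)))
  rw [CI, key, ZZ, Finset.sum_insert, Finset.sum_insert, Finset.sum_image]
  · rw [deriv_den_zero, deriv_den_s]
    congr 3
    apply Finset.sum_congr rfl
    intro j _
    rw [deriv_den_nd]
  · intro i _ j _ hij
    have hij' : ((nd α i : ℝ) : ℂ) = ((nd α j : ℝ) : ℂ) := hij
    have : nd α i = nd α j := by exact_mod_cast hij'
    exact nd_inj α this
  · rw [Finset.mem_image]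
    rintro ⟨j, _, hj⟩
    have e : nd α j = s := by exact_mod_cast hj
    rcases nd_cases h1 h2 h4 j with h | h <;> linarith
  · rw [Finset.mem_insert, Finset.mem_image]
    rintro (h | ⟨j, _, hj⟩)
    · have : s = 0 := by exact_mod_cast h.symm
      linarith
    · have e : nd α j = 0 := by exact_mod_cast hj
      rcases nd_cases h1 h2 h4 j with h | h <;> linarith

end

end Q63.RZ
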