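import Pool.Agent.Q63.RZ.Pt

/-!
# Consequences of the two-point inequality
-/

set_option autoImplicit false

open Complex Filter Topology Set MeasureTheory

namespace Q63.RZ

noncomputable section

theorem ne_one_half (t : ℝ) : (1 / 2 + I * (t : ℂ) : ℂ) ≠ 1 := by
  intro h
  have := congrArg Complex.re h
  simp at this

theorem TP.deriv_aux {ε t M : ℝ} (h : TP ε t M) (hε : 0 ≤ ε) (ht : 1 < t) (hM : 0 ≤ M) {α : ℝ}
    (h1 : -(Real.pi / 2) < α) (h2 : α < Real.pi / 2) :
    ‖I * (deriv riemannZeta (1 / 2 + I * t) + (Real.log t / 2 : ℝ) * riemannZeta (1 / 2 + I * t)) *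
        Real.cos α - (Real.log t / 2 : ℝ) * riemannZeta (1 / 2 + I * t) * Real.sin α‖ ≤
      (1 + ε) * (Real.log t / 2) * M := by
  have hπ := Real.pi_pos
  set L := Real.log t with hL
  have hL0 : 0 < L := Real.log_pos ht
  set f : ℝ → ℂ := fun x => Complex.exp (I * (x * L / 2)) * riemannZeta (1 / 2 + I * (t + x)) *
      Real.cos α - riemannZeta (1 / 2 + I * t) * (Real.cos (x * L / 2 - α) : ℝ) with hf
  have hd : HasDerivAt f (I * (deriv riemannZeta (1 / 2 + I * t) +
      (L / 2 : ℝ) * riemannZeta (1 / 2 + I * t)) * Real.cos α -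
        (L / 2 : ℝ) * riemannZeta (1 / 2 + I * t) * Real.sin α) 0 := by
    have d1 : HasDerivAt (fun x : ℝ => I * ((x : ℂ) * L / 2)) (I * (L / 2)) 0 := by
      have := (((hasDerivAt_id (0 : ℝ)).ofReal_comp.mul_const (L : ℂ)).div_const 2).const_mul I
      simpa using this
    have d2 := d1.cexp
    have d3 : HasDerivAt (fun x : ℝ => (1 / 2 + I * ((t : ℂ) + x) : ℂ)) I 0 := by
      have := (((hasDerivAt_id (0 : ℝ)).ofReal_comp.const_add (t : ℂ)).const_mul I).const_add (1 / 2 : ℂ)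
      simpa using this
    have d4 : HasDerivAt (fun x : ℝ => riemannZeta (1 / 2 + I * ((t : ℂ) + x)))
        (deriv riemannZeta (1 / 2 + I * t) * I) 0 := by
      have hz : HasDerivAt riemannZeta (deriv riemannZeta (1 / 2 + I * t))
          (1 / 2 + I * ((t : ℂ) + ((0 : ℝ) : ℂ))) := by
        rw [Complex.ofReal_zero, add_zero]
        exact (differentiableAt_riemannZeta (ne_one_half t)).hasDerivAt
      exact hz.comp (0 : ℝ) d3
    have d5 : HasDerivAt (fun x : ℝ => Real.cos (x * L / 2 - α)) (-Real.sin (0 * L / 2 - α) * (L / 2)) 0 := by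
      have d6 : HasDerivAt (fun x : ℝ => x * L / 2 - α) (L / 2) 0 := by
        have := (((hasDerivAt_id (0 : ℝ)).mul_const L).div_const 2).sub_const α
        simpa using this
      exact (Real.hasDerivAt_cos _).comp (0 : ℝ) d6
    have d7 := ((d2.mul d4).mul_const (Real.cos α : ℂ)).sub (d5.ofReal_comp.const_mul
      (riemannZeta (1 / 2 + I * t)))
    refine HasDerivAt.congr_deriv d7 ?_
    simp
    ring
  refine HasDerivAt.le_of_lip' hd (by positivity) ?_
  have hf0 : f 0 = 0 := by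
    simp [hf]
  have hev : ∀ᶠ x : ℝ in 𝓝 0, |x| * L < Real.pi - 2 * |α| := by
    have hc : Tendsto (fun x : ℝ => |x| * L) (𝓝 0) (𝓝 (|(0 : ℝ)| * L)) :=
      (continuous_abs.mul continuous_const).tendsto 0
    rw [abs_zero, zero_mul] at hc
    apply hc.eventually_lt_const
    have : |α| < Real.pi / 2 := abs_lt.mpr ⟨by linarith, h2⟩
    linarith
  filter_upwards [hev] with x hx
  rw [hf0, sub_zero, sub_zero, Real.norm_eq_abs]
  have hxL : 0 ≤ |x| * L / 2 := by positivity
  have hα1 := neg_abs_le α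
  have hα2 := le_abs_self α
  have key : ‖f x‖ ≤ (Real.sin (|x| * L / 2) + ε * (|x| * L / 2)) * M := by
    rcases le_or_gt 0 x with h0 | h0
    · have := h α x h1 h2 (by rw [← hL]; linarith)
      rw [← hL, abs_of_nonneg h0] at this
      rw [abs_of_nonneg h0]
      exact this
    · have := h (-α) x (by linarith) (by linarith) (by rw [← hL]; linarith)
      rw [← hL, Real.cos_neg] at this
      have e : Real.cos (|x| * L / 2 - -α) = Real.cos (x * L / 2 - α) := by
        rw [abs_of_neg h0, ← Real.cos_neg]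
        congr 1
        ring
      rw [e] at this
      exact this
  refine key.trans ?_
  have hs := Real.sin_le hxL
  calc (Real.sin (|x| * L / 2) + ε * (|x| * L / 2)) * M
      ≤ (|x| * L / 2 + ε * (|x| * L / 2)) * M := by gcongr
    _ = _ := by ring

/-- Bernstein-Szego inequality -/
theorem TP.deriv {ε t M : ℝ} (h : TP ε t M) (hε : 0 ≤ ε) (ht : 1 < t) (hM : 0 ≤ M) (α : ℝ) :
    ‖I * (deriv riemannZeta (1 / 2 + I * t) + (Real.log t / 2 : ℝ) * riemannZeta (1 / 2 + I * t)) *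
        Real.cos α - (Real.log t / 2 : ℝ) * riemannZeta (1 / 2 + I * t) * Real.sin α‖ ≤
      (1 + ε) * (Real.log t / 2) * M := by
  have hπ := Real.pi_pos
  set A := I * (_root_.deriv riemannZeta (1 / 2 + I * t) +
    (Real.log t / 2 : ℝ) * riemannZeta (1 / 2 + I * t)) with hA
  set B := (Real.log t / 2 : ℝ) * riemannZeta (1 / 2 + I * t) with hB
  have hcl : IsClosed {β : ℝ | ‖A * Real.cos β - B * Real.sin β‖ ≤ (1 + ε) * (Real.log t / 2) * M} := by
    apply isClosed_le
    · fun_prop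
    · fun_prop
  have hsub : Ioo (-(Real.pi / 2)) (Real.pi / 2) ⊆
      {β : ℝ | ‖A * Real.cos β - B * Real.sin β‖ ≤ (1 + ε) * (Real.log t / 2) * M} :=
    fun β hβ => h.deriv_aux hε ht hM hβ.1 hβ.2
  have hsub2 := closure_minimal hsub hcl
  rw [closure_Ioo (by linarith)] at hsub2
  set n : ℤ := round (α / Real.pi) with hn
  have h1 := abs_sub_round (α / Real.pi)
  rw [← hn, abs_le] at h1
  have h2 : α - n * Real.pi ∈ Icc (-(Real.pi / 2)) (Real.pi / 2) := by
    have e : α - n * Real.pi = (α / Real.pi - n) * Real.pi := by field_simp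
    rw [e]
    constructor
    · nlinarith [h1.1]
    · nlinarith [h1.2]
  have h3 := hsub2 h2
  rw [Set.mem_ofPred_eq, Real.cos_sub_int_mul_pi, Real.sin_sub_int_mul_pi] at h3
  have e : A * (((-1 : ℝ) ^ n * Real.cos α : ℝ) : ℂ) - B * (((-1 : ℝ) ^ n * Real.sin α : ℝ) : ℂ) =
      ((-1 : ℂ)) ^ n * (A * Real.cos α - B * Real.sin α) := by
    push_cast
    ring
  rw [e, norm_mul, norm_zpow, norm_neg, norm_one, one_zpow, one_mul] at h3
  exact h3

/-- near a zero -/
theorem TP.zero {ε t M γ : ℝ} (h : TP ε t M) (hε : 0 ≤ ε) (ht : 1 < t) (hM : 0 ≤ M)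
    (hself : ‖riemannZeta (1 / 2 + I * t)‖ ≤ M)
    (hγ : riemannZeta (1 / 2 + I * γ) = 0) (hd : |t - γ| * Real.log t ≤ Real.pi) :
    ‖riemannZeta (1 / 2 + I * t)‖ ≤ (Real.sin (|t - γ| * Real.log t / 2) + 2 * ε) * M := by
  have hπ := Real.pi_pos
  have hπ4 := Real.pi_lt_d2
  have hL0 : 0 < Real.log t := Real.log_pos ht
  have hs0 : 0 ≤ |t - γ| * Real.log t := by positivity
  rcases hd.lt_or_eq with h1 | h1
  · have key := h (|t - γ| * Real.log t / 2) (γ - t) (by linarith) (by linarith)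
      (by rw [abs_sub_comm]; linarith)
    have e : (t : ℂ) + ((γ - t : ℝ) : ℂ) = γ := by push_cast; ring
    rw [e, hγ, mul_zero, zero_mul, zero_sub, norm_neg, abs_sub_comm γ t, sub_self, Real.cos_zero,
      Complex.ofReal_one, mul_one] at key
    refine key.trans ?_
    apply mul_le_mul_of_nonneg_right _ hM
    have : ε * (|t - γ| * Real.log t / 2) ≤ ε * 2 := by
      apply mul_le_mul_of_nonneg_left _ hε
      linarith
    linarith
  · rw [h1, Real.sin_pi_div_two]
    nlinarith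

/-- near a local maximum -/
theorem TP.max {ε ρ t M x : ℝ} (hρ : 0 < ρ) (hρ1 : ρ ≤ 1) (h : TP (ρ ^ 2 / 16) t M) (hε : 2 * ρ ≤ ε)
    (ht : 1 < t) (hM : 0 ≤ M)
    (hmax : M ≤ ‖riemannZeta (1 / 2 + I * t)‖) (hd : |x| * Real.log t ≤ Real.pi) :
    (Real.cos (|x| * Real.log t / 2) - ε) * M ≤ ‖riemannZeta (1 / 2 + I * (t + x))‖ := by
  have hπ := Real.pi_pos
  have hπ4 := Real.pi_lt_d2
  have hπ3 := Real.pi_gt_three
  have hL0 : 0 < Real.log t := Real.log_pos ht
  set s := |x| * Real.log t with hs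
  have hs0 : 0 ≤ s := by positivity
  set α := Real.pi / 2 - ρ with hα
  have key := h α x (by linarith) (by linarith) (by linarith)
  have hcos : Real.cos α = Real.sin ρ := by rw [hα, Real.cos_pi_div_two_sub]
  have hsin : Real.sin α = Real.cos ρ := by rw [hα, Real.sin_pi_div_two_sub]
  have hsr : ρ / 2 ≤ Real.sin ρ := by
    have h1 := Real.mul_le_sin hρ.le (by linarith)
    refine le_trans ?_ h1
    have : 1 / 2 ≤ 2 / Real.pi := by
      rw [div_le_div_iff₀ (by norm_num) hπ]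
      linarith
    calc ρ / 2 = 1 / 2 * ρ := by ring
      _ ≤ _ := by gcongr
  have hcr : 1 - ρ ^ 2 / 2 ≤ Real.cos ρ := Real.one_sub_sq_div_two_le_cos
  have hsr0 : 0 < Real.sin ρ := by linarith
  have hE : ‖Complex.exp (I * (x * Real.log t / 2))‖ = 1 := by
    rw [Complex.norm_exp]
    simp
  have hcs : Real.cos (s / 2 - α) = Real.cos (s / 2) * Real.sin ρ + Real.sin (s / 2) * Real.cos ρ := by
    rw [Real.cos_sub, hcos, hsin]
  have hcs0 : 0 ≤ Real.cos (s / 2 - α) := by
    apply Real.cos_nonneg_of_mem_Icc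
    constructor <;> linarith
  have n1 := norm_sub_norm_le (riemannZeta (1 / 2 + I * t) * (Real.cos (s / 2 - α) : ℝ))
    (Complex.exp (I * (x * Real.log t / 2)) * riemannZeta (1 / 2 + I * (t + x)) * (Real.cos α : ℝ))
  rw [norm_sub_rev] at n1
  have n2 := n1.trans key
  rw [norm_mul, norm_mul, norm_mul, hE, one_mul, Complex.norm_real, Complex.norm_real,
    Real.norm_eq_abs, Real.norm_eq_abs, abs_of_nonneg hcs0, hcos, abs_of_pos hsr0] at n2
  set R := ‖riemannZeta (1 / 2 + I * (t + x))‖ with hR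
  have n3 : M * Real.cos (s / 2 - α) ≤ ‖riemannZeta (1 / 2 + I * t)‖ * Real.cos (s / 2 - α) := by
    gcongr
  have hss0 : 0 ≤ Real.sin (s / 2) := Real.sin_nonneg_of_nonneg_of_le_pi (by linarith) (by linarith)
  have hss1 : Real.sin (s / 2) ≤ 1 := Real.sin_le_one _
  have n4 : M * (Real.cos (s / 2) * Real.sin ρ - ρ * Real.sin ρ - ρ * Real.sin ρ) ≤ R * Real.sin ρ := by
    have m1 : M * (Real.cos (s / 2) * Real.sin ρ + Real.sin (s / 2) * Real.cos ρ) -
        (Real.sin (s / 2) + ρ ^ 2 / 16 * (s / 2)) * M ≤ R * Real.sin ρ := by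
      rw [← hcs]; linarith
    refine le_trans ?_ m1
    have m2 : Real.sin (s / 2) - Real.sin (s / 2) * Real.cos ρ ≤ ρ * Real.sin ρ := by
      have : Real.sin (s / 2) * (1 - Real.cos ρ) ≤ 1 * (1 - Real.cos ρ) := by
        apply mul_le_mul_of_nonneg_right hss1
        linarith [Real.cos_le_one ρ]
      have m3 : ρ ^ 2 / 2 ≤ ρ * Real.sin ρ := by
        calc ρ ^ 2 / 2 = ρ * (ρ / 2) := by ring
          _ ≤ _ := by gcongr
      linarith
    have m4 : ρ ^ 2 / 16 * (s / 2) ≤ ρ * Real.sin ρ := by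
      calc ρ ^ 2 / 16 * (s / 2) ≤ ρ ^ 2 / 16 * 8 := by
            gcongr
            linarith
        _ = ρ * (ρ / 2) := by ring
        _ ≤ _ := by gcongr
    have m5 : Real.cos (s / 2) * Real.sin ρ - ρ * Real.sin ρ - ρ * Real.sin ρ ≤
        Real.cos (s / 2) * Real.sin ρ + Real.sin (s / 2) * Real.cos ρ -
          (Real.sin (s / 2) + ρ ^ 2 / 16 * (s / 2)) := by linarith
    calc _ ≤ M * (Real.cos (s / 2) * Real.sin ρ + Real.sin (s / 2) * Real.cos ρ -
          (Real.sin (s / 2) + ρ ^ 2 / 16 * (s / 2))) := by gcongr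
      _ = _ := by ring
  have n5 : (M * (Real.cos (s / 2) - 2 * ρ)) * Real.sin ρ ≤ R * Real.sin ρ := by
    refine le_trans (le_of_eq ?_) n4
    ring
  have n6 := le_of_mul_le_mul_right n5 hsr0
  calc (Real.cos (s / 2) - ε) * M ≤ (Real.cos (s / 2) - 2 * ρ) * M := by gcongr
    _ = M * (Real.cos (s / 2) - 2 * ρ) := by ring
    _ ≤ R := n6

/-- zeros keep their distance from a local maximum -/
theorem TP.gap {ε δ t M γ : ℝ} (h : TP δ t M) (hδ0 : 0 ≤ δ) (hε : 0 < ε)
    (hδ : 2 * δ < 1 - Real.cos (ε * Real.pi / 2)) (ht : 1 < t) (hM : 0 < M)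
    (hself : ‖riemannZeta (1 / 2 + I * t)‖ ≤ M)
    (hmax : M ≤ ‖riemannZeta (1 / 2 + I * t)‖) (hγ : riemannZeta (1 / 2 + I * γ) = 0) :
    (1 - ε) * Real.pi / Real.log t ≤ |t - γ| := by
  have hπ := Real.pi_pos
  have hL0 : 0 < Real.log t := Real.log_pos ht
  rw [div_le_iff₀ hL0]
  by_contra hcon
  rw [not_le] at hcon
  have hs0 : 0 ≤ |t - γ| * Real.log t := by positivity
  have hd : |t - γ| * Real.log t ≤ Real.pi := by
    have : ε * Real.pi ≥ 0 := by positivity
    linarith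
  have key := h.zero hδ0 ht hM.le hself hγ hd
  have h1 : M ≤ (Real.sin (|t - γ| * Real.log t / 2) + 2 * δ) * M := hmax.trans key
  have h2 : 1 ≤ Real.sin (|t - γ| * Real.log t / 2) + 2 * δ := by
    by_contra h3
    rw [not_le] at h3
    nlinarith
  have h4 : Real.sin (|t - γ| * Real.log t / 2) ≤ Real.sin (Real.pi / 2 - ε * Real.pi / 2) := by
    apply Real.sin_le_sin_of_le_of_le_pi_div_two
    · linarith
    · have : 0 ≤ ε * Real.pi / 2 := by positivity
      linarith
    · linarith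
  rw [Real.sin_pi_div_two_sub] at h4
  linarith

end

end Q63.RZ
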