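import Pool.Agent.Q80.ZM.Glo2

/-!
# A maximal function on the scale `1 / log T`, with constants which are explicit in `k`
-/

set_option autoImplicit false

open Complex Filter Topology Set MeasureTheory Metric
open Q97.MM Pool.Agent.Q80.ZM

namespace Q63.RZ

noncomputable section

theorem V_growth (k : ℕ) {Y : ℝ} (hY : 0 < Y) : ∀ᶠ T : ℝ in atTop, ∀ U : ℝ, Adm T U →
    ∀ a : ℝ, |a| ≤ Y →
      VI (FF k T U) (1 / 2 + a / Real.log T) ≤ 2 * Real.exp (k * (|a| - a)) * V0 k T U := by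
  have hl := (log_div_tendsto Y).eventually (gt_mem_nhds (show (0 : ℝ) < 1 / 4 by norm_num))
  filter_upwards [Gn_le k hY.le (show (0 : ℝ) < 1 / 2 by norm_num),
    G_fe_pos k hY.le (show (0 : ℝ) < 1 / 2 by norm_num), hl] with T h1 h2 h3 U h a ha
  have hL := h.log
  have hL0 : 0 < Real.log T := by linarith
  have hV := V0_pos k h
  obtain ⟨M, δ, hM, hδ, hbd⟩ := FF_bd k T h.pos
  have hYL : 0 < Y / Real.log T := by positivity
  rw [abs_of_pos hYL] at h3
  have e1 := h1 U h
  have e2 := (abs_le.mp (h2 U h)).2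
  set A := Real.exp (2 * k * Y) with hA
  have hA1 : 1 ≤ A := Real.one_le_exp (by positivity)
  have hθ0 : 0 ≤ |a| / Y := by positivity
  have hθ1 : |a| / Y ≤ 1 := by rw [div_le_one hY]; exact ha
  -- general convexity step
  have step : ∀ (x₂ B : ℝ), 1 / 4 ≤ x₂ → x₂ ≤ 3 / 4 → 1 ≤ B → VI (FF k T U) x₂ ≤ 2 * B * V0 k T U →
      VI (FF k T U) ((1 - |a| / Y) * (1 / 2) + |a| / Y * x₂) ≤ 2 * B ^ (|a| / Y) * V0 k T U := by
    intro x₂ B hx1 hx2 hB hVI
    have hp : 0 < VI (FF k T U) x₂ := VI_pos_of_pos (FF_differentiable k T U) hδ hM hbd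
      (by linarith) (by linarith) (x := 1 / 2) (by norm_num) (by norm_num) hV
    have hlc := logconv (FF_differentiable k T U) hδ hM hbd (x₁ := 1 / 2) (x₂ := x₂) (θ := |a| / Y)
      (by norm_num) (by norm_num) (by linarith) (by linarith) hθ0 hθ1 hV hp
    refine hlc.trans ?_
    have h5 : VI (FF k T U) x₂ ^ (|a| / Y) ≤ (2 * B * V0 k T U) ^ (|a| / Y) :=
      Real.rpow_le_rpow hp.le hVI hθ0
    have h6 : (2 * B * V0 k T U) ^ (|a| / Y) =
        2 ^ (|a| / Y) * B ^ (|a| / Y) * V0 k T U ^ (|a| / Y) := by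
      rw [Real.mul_rpow (by positivity) hV.le, Real.mul_rpow (by norm_num) (by linarith)]
    have h7 : (2 : ℝ) ^ (|a| / Y) ≤ 2 := by
      calc (2 : ℝ) ^ (|a| / Y) ≤ 2 ^ (1 : ℝ) := Real.rpow_le_rpow_of_exponent_le (by norm_num) hθ1
        _ = 2 := Real.rpow_one 2
    have hBp : 0 ≤ B ^ (|a| / Y) := Real.rpow_nonneg (by linarith) _
    change V0 k T U ^ (1 - |a| / Y) * VI (FF k T U) x₂ ^ (|a| / Y) ≤ _
    calc V0 k T U ^ (1 - |a| / Y) * VI (FF k T U) x₂ ^ (|a| / Y)
        ≤ V0 k T U ^ (1 - |a| / Y) * (2 ^ (|a| / Y) * B ^ (|a| / Y) * V0 k T U ^ (|a| / Y)) := by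
          rw [← h6]; gcongr
      _ = 2 ^ (|a| / Y) * B ^ (|a| / Y) * (V0 k T U ^ (1 - |a| / Y) * V0 k T U ^ (|a| / Y)) := by ring
      _ = 2 ^ (|a| / Y) * B ^ (|a| / Y) * V0 k T U := by
          rw [← Real.rpow_add hV, sub_add_cancel, Real.rpow_one]
      _ ≤ 2 * B ^ (|a| / Y) * V0 k T U := by gcongr
  unfold Gn at e1 e2
  rcases le_total 0 a with h0 | h0
  · have hx : (1 - |a| / Y) * (1 / 2) + |a| / Y * (1 / 2 + Y / Real.log T) = 1 / 2 + a / Real.log T := by
      rw [abs_of_nonneg h0]; field_simp; ring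
    have := step (1 / 2 + Y / Real.log T) 1 (by linarith) (by linarith) le_rfl (by
      rw [div_le_iff₀ hV] at e1
      linarith)
    rw [hx, Real.one_rpow, mul_one] at this
    rw [abs_of_nonneg h0, sub_self, mul_zero, Real.exp_zero, mul_one]
    exact this
  · have hx : (1 - |a| / Y) * (1 / 2) + |a| / Y * (1 / 2 + -Y / Real.log T) = 1 / 2 + a / Real.log T := by
      rw [abs_of_nonpos h0]; field_simp; ring
    have hneg : 1 / 2 + -Y / Real.log T ≤ 3 / 4 ∧ 1 / 4 ≤ 1 / 2 + -Y / Real.log T := by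
      rw [neg_div]; constructor <;> linarith
    have := step (1 / 2 + -Y / Real.log T) A hneg.2 hneg.1 hA1 (by
      have h8 : A * (VI (FF k T U) (1 / 2 + Y / Real.log T) / V0 k T U) ≤ A * (1 + 1 / 2) := by
        gcongr
      have h9 : VI (FF k T U) (1 / 2 + -Y / Real.log T) / V0 k T U ≤ 2 * A := by linarith
      rwa [div_le_iff₀ hV] at h9)
    rw [hx] at this
    have h10 : A ^ (|a| / Y) = Real.exp (k * (|a| - a)) := by
      rw [hA, ← Real.exp_mul, abs_of_nonpos h0]
      congr 1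
      field_simp
      ring
    rw [h10] at this
    exact this

theorem exists_mesh {K δ : ℝ} (hδ : 0 < δ) : ∃ S : Finset ℂ, (∀ c ∈ S, |c.im| ≤ K) ∧
    ∀ w : ℂ, |w.re| ≤ K → |w.im| ≤ K → ∃ c ∈ S, ‖w - c‖ ≤ δ := by
  have hc : IsCompact (Icc (-K) K ×ℂ Icc (-K) K) := isCompact_Icc.reProdIm isCompact_Icc
  obtain ⟨t, ht, htf, hcov⟩ := hc.finite_cover_balls hδ
  refine ⟨htf.toFinset, ?_, ?_⟩
  · intro c hc
    rw [Finite.mem_toFinset] at hc
    have := (ht hc).2
    rw [mem_preimage] at this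
    exact abs_le.mpr this
  · intro w h1 h2
    have hw : w ∈ Icc (-K) K ×ℂ Icc (-K) K := ⟨abs_le.mp h1, abs_le.mp h2⟩
    have := hcov hw
    rw [mem_iUnion₂] at this
    obtain ⟨c, hc, hcw⟩ := this
    refine ⟨c, by rwa [Finite.mem_toFinset], ?_⟩
    rw [mem_ball, dist_eq_norm] at hcw
    exact hcw.le

/-- the shifted function -/
def Fs (F : ℂ → ℂ) (σ : ℝ) (s : ℂ) : ℂ := F (s - σ)

theorem Fs_diff {F : ℂ → ℂ} (hF : Differentiable ℂ F) (σ : ℝ) : Differentiable ℂ (Fs F σ) := by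
  unfold Fs
  exact hF.comp (by fun_prop)

theorem VI_Fs (F : ℂ → ℂ) (σ x : ℝ) : VI (Fs F σ) x = VI F (x - σ) := by
  unfold VI Fs
  congr 1
  funext y
  congr 3
  push_cast
  ring

/-- the maximal function -/
def Phi (k : ℕ) (S : Finset ℂ) (δ T U t : ℝ) : ℝ :=
  ∑ c ∈ S, Real.exp (-(k * c.im) - k * |c.im|) * (2 / Real.pi *
    QQ (Fs (FF k T U) (c.im / Real.log T)) (2 * δ / Real.log T) (t + c.re / Real.log T))

theorem Phi_nonneg (k : ℕ) (S : Finset ℂ) (δ T U t : ℝ) : 0 ≤ Phi k S δ T U t := by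
  unfold Phi
  apply Finset.sum_nonneg
  intro c _
  have h1 := QQ_nonneg (Fs (FF k T U) (c.im / Real.log T)) (2 * δ / Real.log T) (t + c.re / Real.log T)
  have hπ := Real.pi_pos
  positivity

theorem Phi_cont (k : ℕ) (S : Finset ℂ) (δ T U : ℝ) : Continuous (Phi k S δ T U) := by
  unfold Phi
  apply continuous_finsetSum
  intro c _
  apply continuous_const.mul
  apply continuous_const.mul
  exact (QQ_cont (Fs_diff (FF_differentiable k T U) _).continuous _).comp (by fun_prop)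

theorem Phi_ge {k : ℕ} {S : Finset ℂ} {K δ T U : ℝ} (hδ : 0 < δ) (hL : 0 < Real.log T)
    (hS : ∀ w : ℂ, |w.re| ≤ K → |w.im| ≤ K → ∃ c ∈ S, ‖w - c‖ ≤ δ) (t : ℝ) {w : ℂ}
    (h1 : |w.re| ≤ K) (h2 : |w.im| ≤ K) :
    ‖FF k T U (1 / 2 + I * (t + w / Real.log T))‖ ^ 2 * Real.exp (-(k * w.im) - k * |w.im|) ≤
      Real.exp (2 * k * δ) * Phi k S δ T U t := by
  obtain ⟨c, hc, hcw⟩ := hS w h1 h2
  set L := Real.log T with hLd
  have hπ := Real.pi_pos
  have hLc : (L : ℂ) ≠ 0 := by exact_mod_cast hL.ne'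
  set z : ℂ := 1 / 2 + I * (t + w / L) + ((c.im / L : ℝ) : ℂ) with hz
  have hzz : Fs (FF k T U) (c.im / L) z = FF k T U (1 / 2 + I * (t + w / L)) := by
    unfold Fs
    rw [hz, add_sub_cancel_right]
  have hmem : z ∈ closedBall (cp (t + c.re / L)) (2 * δ / L / 2) := by
    rw [mem_closedBall, dist_eq_norm]
    have e : z - cp (t + c.re / L) = I * ((w - c) / L) := by
      have ec : c = (c.re : ℂ) + c.im * I := (Complex.re_add_im c).symm
      have e2 : w - c = w - c.re - c.im * I := by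
        nth_rewrite 1 [ec]; ring
      rw [e2, hz, cp]
      push_cast
      field_simp
      linear_combination (2 * (c.im : ℂ)) * I_sq
    rw [e, norm_mul, Complex.norm_I, one_mul, norm_div, Complex.norm_real, Real.norm_eq_abs,
      abs_of_pos hL]
    have : 2 * δ / L / 2 = δ / L := by ring
    rw [this]
    gcongr
  have hsup := sup_le (Fs_diff (FF_differentiable k T U) (c.im / L)) (ρ := 2 * δ / L)
    (y := t + c.re / L) (by positivity) hmem
  rw [hzz] at hsup
  have hexp : Real.exp (-(k * w.im) - k * |w.im|) ≤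
      Real.exp (2 * k * δ) * Real.exp (-(k * c.im) - k * |c.im|) := by
    rw [← Real.exp_add]
    apply Real.exp_le_exp.mpr
    have h3 : |w.im - c.im| ≤ δ := by
      have := (Complex.abs_im_le_norm (w - c)).trans hcw
      rwa [Complex.sub_im] at this
    have h4 := abs_sub_abs_le_abs_sub c.im w.im
    rw [abs_sub_comm] at h4
    have h5 := neg_abs_le (w.im - c.im)
    have hk : (0 : ℝ) ≤ k := Nat.cast_nonneg k
    have h6 : (k : ℝ) * (c.im - w.im) ≤ k * δ := by gcongr; linarith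
    have h7 : (k : ℝ) * (|c.im| - |w.im|) ≤ k * δ := by gcongr; linarith
    linarith
  have hterm : Real.exp (-(k * c.im) - k * |c.im|) * (2 / Real.pi *
      QQ (Fs (FF k T U) (c.im / L)) (2 * δ / L) (t + c.re / L)) ≤ Phi k S δ T U t := by
    unfold Phi
    rw [← hLd]
    apply Finset.single_le_sum (f := fun c : ℂ => Real.exp (-(k * c.im) - k * |c.im|) * (2 / Real.pi *
      QQ (Fs (FF k T U) (c.im / L)) (2 * δ / L) (t + c.re / L))) _ hc
    intro i _
    have h1 := QQ_nonneg (Fs (FF k T U) (i.im / L)) (2 * δ / L) (t + i.re / L)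
    positivity
  have hQ := QQ_nonneg (Fs (FF k T U) (c.im / L)) (2 * δ / L) (t + c.re / L)
  calc ‖FF k T U (1 / 2 + I * (t + w / L))‖ ^ 2 * Real.exp (-(k * w.im) - k * |w.im|)
      ≤ (2 / Real.pi * QQ (Fs (FF k T U) (c.im / L)) (2 * δ / L) (t + c.re / L)) *
        (Real.exp (2 * k * δ) * Real.exp (-(k * c.im) - k * |c.im|)) := by gcongr
    _ = Real.exp (2 * k * δ) * (Real.exp (-(k * c.im) - k * |c.im|) * (2 / Real.pi *
      QQ (Fs (FF k T U) (c.im / L)) (2 * δ / L) (t + c.re / L))) := by ring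
    _ ≤ _ := by gcongr

theorem Phi_int (k : ℕ) {S : Finset ℂ} {K δ : ℝ} (hK : 0 ≤ K) (hδ : 0 < δ)
    (hS : ∀ c ∈ S, |c.im| ≤ K) : ∀ᶠ T : ℝ in atTop, ∀ U : ℝ, Adm T U →
    ∫⁻ t : ℝ, ENNReal.ofReal (Phi k S δ T U t) ≤
      ENNReal.ofReal (8 * S.card * Real.exp (4 * k * δ) * V0 k T U) := by
  have hY : 0 < K + 2 * δ := by positivity
  have hl := (log_div_tendsto (K + 2 * δ)).eventually (gt_mem_nhds (show (0 : ℝ) < 1 / 4 by norm_num))
  filter_upwards [V_growth k hY, hl] with T h1 h2 U h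
  have hπ := Real.pi_pos
  have hL := h.log
  have hL0 : 0 < Real.log T := by linarith
  have hV := V0_pos k h
  obtain ⟨M, δ₀, hM, hδ₀, hbd⟩ := FF_bd k T h.pos
  have hYL : 0 < (K + 2 * δ) / Real.log T := by positivity
  rw [abs_of_pos hYL] at h2
  set L := Real.log T with hLd
  have hterm : ∀ c ∈ S, ∫⁻ t : ℝ, ENNReal.ofReal (Real.exp (-(k * c.im) - k * |c.im|) * (2 / Real.pi *
      QQ (Fs (FF k T U) (c.im / L)) (2 * δ / L) (t + c.re / L))) ≤
      ENNReal.ofReal (8 * Real.exp (4 * k * δ) * V0 k T U) := by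
    intro c hc
    have hcK := hS c hc
    set B := 2 * Real.exp (k * (|c.im| + c.im) + 4 * k * δ) * V0 k T U with hB
    have hrange : ∀ x : ℝ, |x - 1 / 2| ≤ 2 * δ / L → |L * (x - 1 / 2) - c.im| ≤ K + 2 * δ ∧
        |L * (x - 1 / 2)| ≤ 2 * δ ∧
        x - c.im / L = 1 / 2 + (L * (x - 1 / 2) - c.im) / L := by
      intro x hx
      have h3 : |L * (x - 1 / 2)| ≤ 2 * δ := by
        rw [abs_mul, abs_of_pos hL0]
        calc L * |x - 1 / 2| ≤ L * (2 * δ / L) := by gcongr
          _ = 2 * δ := by field_simp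
      refine ⟨?_, h3, ?_⟩
      · refine (abs_sub _ _).trans ?_
        linarith
      · field_simp
        ring
    have hint : ∀ x : ℝ, |x - 1 / 2| ≤ 2 * δ / L →
        Integrable (fun y : ℝ => ‖Fs (FF k T U) (c.im / L) (x + y * I)‖ ^ 2) := by
      intro x hx
      obtain ⟨a1, _, a3⟩ := hrange x hx
      have hx2 : |(L * (x - 1 / 2) - c.im) / L| ≤ 1 / 4 := by
        rw [abs_div, abs_of_pos hL0]
        refine le_trans ?_ h2.le
        gcongr
      have h5 := abs_le.mp hx2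
      have h4 := ln_sq_integrable (FF_differentiable k T U) hδ₀ hbd
        (x := x - c.im / L) (by rw [a3]; linarith [h5.1]) (by rw [a3]; linarith [h5.2])
      refine h4.congr (Eventually.of_forall fun y => ?_)
      have e : (((x - c.im / L : ℝ) : ℂ) + y * I) = ((x : ℂ) + y * I) - ((c.im / L : ℝ) : ℂ) := by
        push_cast; ring
      change ‖FF k T U (((x - c.im / L : ℝ) : ℂ) + y * I)‖ ^ 2 =
        ‖FF k T U (((x : ℂ) + y * I) - ((c.im / L : ℝ) : ℂ))‖ ^ 2
      rw [e]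
    have hBd : ∀ x : ℝ, |x - 1 / 2| ≤ 2 * δ / L → VI (Fs (FF k T U) (c.im / L)) x ≤ B := by
      intro x hx
      obtain ⟨a1, a2, a3⟩ := hrange x hx
      rw [VI_Fs, a3]
      refine (h1 U h _ a1).trans ?_
      rw [hB]
      have hk : (0 : ℝ) ≤ k := Nat.cast_nonneg k
      have h6 : (k : ℝ) * (|L * (x - 1 / 2) - c.im| - (L * (x - 1 / 2) - c.im)) ≤
          k * (|c.im| + c.im) + 4 * k * δ := by
        have h7 : |L * (x - 1 / 2) - c.im| - (L * (x - 1 / 2) - c.im) ≤ |c.im| + c.im + 4 * δ := by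
          have h8 := abs_sub (L * (x - 1 / 2)) c.im
          have h9 := neg_abs_le (L * (x - 1 / 2))
          linarith
        calc (k : ℝ) * (|L * (x - 1 / 2) - c.im| - (L * (x - 1 / 2) - c.im))
            ≤ k * (|c.im| + c.im + 4 * δ) := by gcongr
          _ = _ := by ring
      gcongr
    have key := QQ_int (Fs_diff (FF_differentiable k T U) (c.im / L)) (ρ := 2 * δ / L) (B := B)
      (by positivity) hint hBd
    have hshift : ∫⁻ t : ℝ, ENNReal.ofReal (QQ (Fs (FF k T U) (c.im / L)) (2 * δ / L) (t + c.re / L)) =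
        ∫⁻ t : ℝ, ENNReal.ofReal (QQ (Fs (FF k T U) (c.im / L)) (2 * δ / L) t) :=
      lintegral_add_right_eq_self (μ := (volume : Measure ℝ))
        (fun y : ℝ => ENNReal.ofReal (QQ (Fs (FF k T U) (c.im / L)) (2 * δ / L) y)) (c.re / L)
    have e0 : ∀ t : ℝ, ENNReal.ofReal (Real.exp (-(k * c.im) - k * |c.im|) * (2 / Real.pi *
        QQ (Fs (FF k T U) (c.im / L)) (2 * δ / L) (t + c.re / L))) =
        ENNReal.ofReal (Real.exp (-(k * c.im) - k * |c.im|) * (2 / Real.pi)) *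
          ENNReal.ofReal (QQ (Fs (FF k T U) (c.im / L)) (2 * δ / L) (t + c.re / L)) := by
      intro t
      rw [← ENNReal.ofReal_mul (by positivity)]
      congr 1
      ring
    simp only [e0]
    rw [lintegral_const_mul' _ _ ENNReal.ofReal_ne_top, hshift]
    calc ENNReal.ofReal (Real.exp (-(k * c.im) - k * |c.im|) * (2 / Real.pi)) *
          ∫⁻ t : ℝ, ENNReal.ofReal (QQ (Fs (FF k T U) (c.im / L)) (2 * δ / L) t)
        ≤ ENNReal.ofReal (Real.exp (-(k * c.im) - k * |c.im|) * (2 / Real.pi)) *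
          ENNReal.ofReal (2 * Real.pi * B) := by gcongr
      _ = ENNReal.ofReal (8 * Real.exp (4 * k * δ) * V0 k T U) := by
          rw [← ENNReal.ofReal_mul (by positivity)]
          congr 1
          rw [hB]
          have e5 : Real.exp (k * (|c.im| + c.im) + 4 * k * δ) =
              Real.exp (4 * k * δ) * Real.exp (k * (|c.im| + c.im)) := by
            rw [← Real.exp_add]; congr 1; ring
          have e6 : Real.exp (-(k * c.im) - k * |c.im|) * Real.exp (k * (|c.im| + c.im)) = 1 := by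
            rw [← Real.exp_add, ← Real.exp_zero]; congr 1; ring
          rw [e5]
          generalize Real.exp (-(k * c.im) - k * |c.im|) = x1 at e6 ⊢
          generalize Real.exp (k * (|c.im| + c.im)) = x2 at e6 ⊢
          generalize Real.exp (4 * k * δ) = x3
          have e7 : x1 * (2 / Real.pi) * (2 * Real.pi * (2 * (x3 * x2) * V0 k T U)) =
              8 * (x1 * x2) * x3 * V0 k T U * (Real.pi / Real.pi) := by ring
          rw [e7, e6, div_self hπ.ne']
          ring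
  have hmeas : ∀ c ∈ S, Measurable (fun t : ℝ => ENNReal.ofReal (Real.exp (-(k * c.im) - k * |c.im|) *
      (2 / Real.pi * QQ (Fs (FF k T U) (c.im / L)) (2 * δ / L) (t + c.re / L)))) := by
    intro c _
    apply Measurable.ennreal_ofReal
    apply Continuous.measurable
    apply continuous_const.mul
    apply continuous_const.mul
    exact (QQ_cont (Fs_diff (FF_differentiable k T U) _).continuous _).comp (by fun_prop)
  have e1 : ∀ t : ℝ, ENNReal.ofReal (Phi k S δ T U t) =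
      ∑ c ∈ S, ENNReal.ofReal (Real.exp (-(k * c.im) - k * |c.im|) * (2 / Real.pi *
      QQ (Fs (FF k T U) (c.im / L)) (2 * δ / L) (t + c.re / L))) := by
    intro t
    unfold Phi
    rw [← hLd]
    apply ENNReal.ofReal_sum_of_nonneg
    intro c _
    have h1 := QQ_nonneg (Fs (FF k T U) (c.im / L)) (2 * δ / L) (t + c.re / L)
    positivity
  simp only [e1]
  rw [lintegral_finsetSum _ hmeas]
  refine (Finset.sum_le_sum hterm).trans (le_of_eq ?_)
  rw [Finset.sum_const, nsmul_eq_mul]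
  have e2 : ((S.card : ℕ) : ENNReal) = ENNReal.ofReal (S.card : ℝ) := by
    rw [ENNReal.ofReal_natCast]
  rw [e2, ← ENNReal.ofReal_mul (by positivity)]
  congr 1
  ring

end

end Q63.RZ
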