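import Pool.Agent.Q63.RZ.Tz2

/-!
# The two-zero inequality
-/

set_option autoImplicit false

open Complex Filter Topology Set MeasureTheory
open Pool.Agent.Helper935.EX (sc lft rt)

namespace Q63.RZ

noncomputable section

theorem cos_vert {z : ℂ} {m : ℤ} (h : z.re = m * Real.pi) :
    Real.exp |z.im| / 2 ≤ ‖Complex.cos z‖ := by
  have e1 : z = ((z.re : ℝ) : ℂ) + ((z.im : ℝ) : ℂ) * I := (Complex.re_add_im z).symm
  rw [e1, Complex.cos_add_mul_I, h, ← Complex.ofReal_cos, ← Complex.ofReal_sin,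
    Real.sin_int_mul_pi, Complex.ofReal_zero, zero_mul, zero_mul, sub_zero,
    ← Complex.ofReal_cosh, ← Complex.ofReal_mul, Complex.norm_real, Real.norm_eq_abs, abs_mul,
    Real.cos_int_mul_pi, abs_zpow, abs_neg, abs_one, one_zpow, one_mul,
    abs_of_pos (Real.cosh_pos _)]
  have := cosh_ge z.im
  simpa using this

theorem sin_lower {z : ℂ} {N : ℕ} (hN : 1 ≤ N)
    (hz : z.re = RR N / 2 ∨ z.re = -(RR N / 2) ∨ |z.im| = RR N / 2) :
    Real.exp |z.im| / 4 ≤ ‖Complex.sin z‖ := by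
  have hE := Real.exp_pos |z.im|
  rw [← Complex.cos_sub_pi_div_two]
  have him : (z - Real.pi / 2 : ℂ).im = z.im := by
    have : (Real.pi / 2 : ℂ) = ((Real.pi / 2 : ℝ) : ℂ) := by push_cast; ring
    rw [this, Complex.sub_im, Complex.ofReal_im, sub_zero]
  have hre : (z - Real.pi / 2 : ℂ).re = z.re - Real.pi / 2 := by
    have : (Real.pi / 2 : ℂ) = ((Real.pi / 2 : ℝ) : ℂ) := by push_cast; ring
    rw [this, Complex.sub_re, Complex.ofReal_re]
  rcases hz with h | h | h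
  · have := cos_vert (z := z - Real.pi / 2) (m := N) (by rw [hre, h, RR]; push_cast; ring)
    rw [him] at this
    linarith
  · have := cos_vert (z := z - Real.pi / 2) (m := -((N : ℤ) + 1)) (by rw [hre, h, RR]; push_cast; ring)
    rw [him] at this
    linarith
  · refine le_trans ?_ (norm_cos_ge _)
    rw [him]
    apply sinh_ge
    rw [h]
    have := RR_ge hN
    linarith [Real.pi_gt_three]

theorem sin_sub_le (v z : ℂ) : ‖Complex.sin v - Complex.sin z‖ ≤
    Real.exp (|z.im| + ‖v - z‖) * ‖v - z‖ := by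
  set δ := ‖v - z‖ with hδ
  have hδ0 : 0 ≤ δ := norm_nonneg _
  have hconv : Convex ℝ {w : ℂ | |w.im| ≤ |z.im| + δ} := by
    have : {w : ℂ | |w.im| ≤ |z.im| + δ} =
        Complex.imCLM ⁻¹' (Set.Icc (-(|z.im| + δ)) (|z.im| + δ)) := by
      ext w; simp [abs_le]
    rw [this]
    exact (convex_Icc _ _).is_linear_preimage Complex.imCLM.isBoundedLinearMap.toIsLinearMap
  refine hconv.norm_image_sub_le_of_norm_deriv_le (f := Complex.sin)
    (C := Real.exp (|z.im| + δ)) (x := z) (y := v)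
    (fun w _ => Complex.differentiable_sin w)
    (fun w hw => by
      rw [Complex.deriv_sin]
      exact (Pool.Agent.Helper935.EX.norm_cos_le w).trans (Real.exp_le_exp.2 hw))
    (by change |z.im| ≤ |z.im| + δ; linarith) ?_
  change |v.im| ≤ |z.im| + δ
  have h1 := Complex.abs_im_le_norm (v - z)
  rw [Complex.sub_im] at h1
  have h2 := abs_sub_abs_le_abs_sub v.im z.im
  linarith

theorem exists_root (z : ℂ) (κ : ℝ) : ∃ v : ℂ, v ^ 2 = z ^ 2 + κ ∧ ‖z‖ ≤ ‖v + z‖ := by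
  set r := rt (z ^ 2 + κ) with hr
  have hr2 : r ^ 2 = z ^ 2 + κ := Pool.Agent.Helper935.EX.rt_sq _
  have key : ∀ v : ℂ, ‖v - z‖ ≤ ‖v + z‖ → ‖z‖ ≤ ‖v + z‖ := by
    intro v hv
    have h1 := norm_sub_le (v + z) (v - z)
    have h2 : v + z - (v - z) = 2 * z := by ring
    rw [h2, norm_mul, Complex.norm_ofNat] at h1
    linarith
  rcases le_total ‖r - z‖ ‖r + z‖ with h | h
  · exact ⟨r, hr2, key r h⟩
  · refine ⟨-r, by rw [neg_sq, hr2], key (-r) ?_⟩
    have e1 : -r - z = -(r + z) := by ring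
    have e2 : -r + z = -(r - z) := by ring
    rw [e1, e2, norm_neg, norm_neg]
    exact h

theorem P2_lower {a b : ℝ} (h : AB a b) {N : ℕ} (hN : 30 ≤ N) {w : ℂ} (hw : w ∈ Qb a b N) :
    RR N ≤ ‖w - mm a b‖ ∧ Real.exp (|w.im| / 2) / (8 * ‖w - mm a b‖) ≤ ‖P2 a b w‖ := by
  have hπ := Real.pi_pos
  have hπ3 := Real.pi_gt_three
  have hπ4 := Real.pi_lt_d2
  have hN' : (30 : ℝ) ≤ N := by exact_mod_cast hN
  have hR := RR_pos N
  set z : ℂ := (w - mm a b) / 2 with hz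
  have hzre : z.re = (w.re - mm a b) / 2 := by rw [hz]; simp
  have hzim : z.im = w.im / 2 := by rw [hz]; simp
  have hzn : ‖w - mm a b‖ = 2 * ‖z‖ := by rw [hz, norm_div, Complex.norm_ofNat]; ring
  have hcase : z.re = RR N / 2 ∨ z.re = -(RR N / 2) ∨ |z.im| = RR N / 2 := by
    rcases hw with ⟨_, h6⟩ | ⟨_, h6⟩
    · right; right
      rw [hzim, abs_div, abs_two]
      rcases h6 with h6 | h6
      · rw [h6, abs_neg, abs_of_pos hR]
      · rw [h6, abs_of_pos hR]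
    · rcases h6 with h6 | h6
      · right; left; rw [hzre, h6]; ring
      · left; rw [hzre, h6]; ring
  have hz1 : RR N / 2 ≤ ‖z‖ := by
    rcases hcase with h1 | h1 | h1
    · refine le_trans ?_ (Complex.abs_re_le_norm z)
      rw [h1]; exact le_abs_self _
    · refine le_trans ?_ (Complex.abs_re_le_norm z)
      rw [h1, abs_neg]; exact le_abs_self _
    · rw [← h1]; exact Complex.abs_im_le_norm z
  refine ⟨by rw [hzn]; linarith, ?_⟩
  have hRN : 2 * Real.pi * N ≤ RR N := by unfold RR; nlinarith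
  have hz0 : 0 < ‖z‖ := by linarith
  obtain ⟨v, hv, hvz⟩ := exists_root z (kp a b)
  have hκ0 := h.kp_nonneg
  have hκ1 := kp_le a b
  have hd : ‖v - z‖ ≤ 1 / 36 := by
    have h1 : (v - z) * (v + z) = (kp a b : ℂ) := by linear_combination hv
    have h2 : ‖v - z‖ * ‖v + z‖ = kp a b := by
      rw [← norm_mul, h1, Complex.norm_real, Real.norm_eq_abs, abs_of_nonneg hκ0]
    have h3 : ‖v - z‖ * ‖z‖ ≤ Real.pi ^ 2 / 4 := by
      calc ‖v - z‖ * ‖z‖ ≤ ‖v - z‖ * ‖v + z‖ := by gcongr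
        _ = kp a b := h2
        _ ≤ _ := hκ1
    have h4 : Real.pi * 30 ≤ ‖z‖ := by nlinarith
    have h5 : ‖v - z‖ * (Real.pi * 30) ≤ Real.pi ^ 2 / 4 :=
      le_trans (mul_le_mul_of_nonneg_left h4 (norm_nonneg _)) h3
    have h6 : ‖v - z‖ * 120 ≤ Real.pi := by
      have h7 : Real.pi * (‖v - z‖ * 120) ≤ Real.pi * Real.pi := by nlinarith
      exact le_of_mul_le_mul_left h7 hπ
    linarith
  have hs1 := sin_lower (by omega : 1 ≤ N) hcase
  have hs2 := sin_sub_le v z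
  have hE := Real.exp_pos |z.im|
  have hs3 : ‖Complex.sin v - Complex.sin z‖ ≤ Real.exp |z.im| / 8 := by
    refine hs2.trans ?_
    rw [Real.exp_add]
    have h1 : Real.exp ‖v - z‖ ≤ 3 := by
      have := Real.exp_one_lt_d9
      have h2 : Real.exp ‖v - z‖ ≤ Real.exp 1 := Real.exp_le_exp.mpr (by linarith)
      linarith
    calc Real.exp |z.im| * Real.exp ‖v - z‖ * ‖v - z‖ ≤ Real.exp |z.im| * 3 * (1 / 36) := by gcongr
      _ ≤ _ := by linarith
  have hs4 : Real.exp |z.im| / 8 ≤ ‖Complex.sin v‖ := by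
    have h1 := norm_sub_norm_le (Complex.sin z) (Complex.sin z - Complex.sin v)
    rw [sub_sub_cancel, norm_sub_rev (Complex.sin z)] at h1
    linarith
  have hv1 : ‖v‖ ≤ 2 * ‖z‖ := by
    have h1 := norm_add_le (v - z) z
    rw [sub_add_cancel] at h1
    have : Real.pi * 30 ≤ ‖z‖ := by nlinarith
    linarith
  have hv0 : 0 < ‖v‖ := by
    rw [norm_pos_iff]
    rintro rfl
    rw [Complex.sin_zero, norm_zero] at hs4
    linarith
  have hPe : P2 a b w = sc v := P2_eq hv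
  rw [hPe, Pool.Agent.Helper935.EX.sc_of_ne (norm_pos_iff.mp hv0), norm_div, hzn]
  have him : |w.im| / 2 = |z.im| := by rw [hzim, abs_div, abs_two]
  rw [him]
  calc Real.exp |z.im| / (8 * (2 * ‖z‖)) ≤ Real.exp |z.im| / (8 * ‖v‖) := by gcongr
    _ = (Real.exp |z.im| / 8) / ‖v‖ := by field_simp
    _ ≤ _ := by gcongr

theorem den2_lower {a b : ℝ} (h : AB a b) {N : ℕ} (hN : 30 ≤ N) {w : ℂ} (hw : w ∈ Qb a b N) :
    (N : ℝ) ^ 2 * Real.exp (|w.im| / 2) ≤ ‖den2 a b w‖ := by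
  have hπ := Real.pi_pos
  have hπ3 := Real.pi_gt_three
  have hN' : (30 : ℝ) ≤ N := by exact_mod_cast hN
  obtain ⟨h1, h2⟩ := P2_lower h hN hw
  have ha := h.ha
  have hb := h.hb
  have hab := h.hab
  have hRN : 2 * Real.pi * N ≤ RR N := by unfold RR; nlinarith
  set ρ := ‖w - mm a b‖ with hρ
  have hρ1 : 10 * Real.pi ≤ ρ := by nlinarith
  have hρ0 : 0 < ρ := by linarith
  have k1 : 9 / 10 * ρ ≤ ‖w + a‖ := by
    have h3 := norm_sub_norm_le (w - mm a b) (-((mm a b + a : ℝ) : ℂ))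
    have e : w - mm a b - -((mm a b + a : ℝ) : ℂ) = w + a := by push_cast; ring
    rw [e, norm_neg, Complex.norm_real, Real.norm_eq_abs] at h3
    have h4 : |mm a b + a| ≤ Real.pi := by
      unfold mm; rw [abs_le]; constructor <;> linarith
    linarith
  have k2 : 9 / 10 * ρ ≤ ‖w - b‖ := by
    have h3 := norm_sub_norm_le (w - mm a b) (-((mm a b - b : ℝ) : ℂ))
    have e : w - mm a b - -((mm a b - b : ℝ) : ℂ) = w - b := by push_cast; ring
    rw [e, norm_neg, Complex.norm_real, Real.norm_eq_abs] at h3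
    have h4 : |mm a b - b| ≤ Real.pi := by
      unfold mm; rw [abs_le]; constructor <;> linarith
    linarith
  have k3 : 9 / 10 * ρ ≤ ‖w‖ := by
    have h3 := norm_sub_norm_le (w - mm a b) (-((mm a b : ℝ) : ℂ))
    have e : w - mm a b - -((mm a b : ℝ) : ℂ) = w := by ring
    rw [e, norm_neg, Complex.norm_real, Real.norm_eq_abs] at h3
    have h4 := (mm_lt h).le
    linarith
  rw [den2, norm_mul, norm_mul, norm_mul]
  have hE := Real.exp_pos (|w.im| / 2)
  calc (N : ℝ) ^ 2 * Real.exp (|w.im| / 2)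
      ≤ (9 / 10 * ρ) * (9 / 10 * ρ) * (9 / 10 * ρ) * (Real.exp (|w.im| / 2) / (8 * ρ)) := by
        have e : (9 / 10 * ρ) * (9 / 10 * ρ) * (9 / 10 * ρ) * (Real.exp (|w.im| / 2) / (8 * ρ)) =
            729 / 8000 * ρ ^ 2 * Real.exp (|w.im| / 2) := by
          field_simp
          ring
        rw [e]
        apply mul_le_mul_of_nonneg_right _ hE.le
        have h5 : 6 * N ≤ ρ := by nlinarith
        have h6 : (6 * (N : ℝ)) ^ 2 ≤ ρ ^ 2 := pow_le_pow_left₀ (by positivity) h5 2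
        nlinarith [sq_nonneg (N : ℝ)]
    _ ≤ _ := by gcongr

theorem RI_le {a b c d A : ℝ} (hab : a ≤ b) (hcd : c ≤ d) {F : ℂ → ℂ}
    (hF : ∀ w ∈ H370.Bd a b c d, ‖F w‖ ≤ A) :
    ‖H370.RI a b c d F‖ ≤ 2 * (b - a) * A + 2 * (d - c) * A := by
  have key : ∀ (u v : ℝ) (γ : ℝ → ℂ), u ≤ v → (∀ x ∈ Icc u v, γ x ∈ H370.Bd a b c d) →
      ‖∫ x in u..v, F (γ x)‖ ≤ A * (v - u) := by
    intro u v γ huv hm
    have := intervalIntegral.norm_integral_le_of_norm_le_const (a := u) (b := v)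
      (f := fun x => F (γ x)) (C := A) (by
        intro x hx
        rw [uIoc_of_le huv] at hx
        exact hF _ (hm x (Ioc_subset_Icc_self hx)))
    rwa [abs_of_nonneg (by linarith : (0 : ℝ) ≤ v - u)] at this
  have k1 := key a b (fun x => (⟨x, c⟩ : ℂ)) hab (fun x hx => Or.inl ⟨hx, Or.inl rfl⟩)
  have k2 := key a b (fun x => (⟨x, d⟩ : ℂ)) hab (fun x hx => Or.inl ⟨hx, Or.inr rfl⟩)
  have k3 := key c d (fun y => (⟨b, y⟩ : ℂ)) hcd (fun x hx => Or.inr ⟨hx, Or.inr rfl⟩)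
  have k4 := key c d (fun y => (⟨a, y⟩ : ℂ)) hcd (fun x hx => Or.inr ⟨hx, Or.inl rfl⟩)
  beta_reduce at k1 k2 k3 k4
  rw [H370.RI]
  have n3 := norm_sub_le ((∫ x in a..b, F ⟨x, c⟩) - (∫ x in a..b, F ⟨x, d⟩) +
    I * (∫ y in c..d, F ⟨b, y⟩)) (I * (∫ y in c..d, F ⟨a, y⟩))
  have n2 := norm_add_le ((∫ x in a..b, F ⟨x, c⟩) - (∫ x in a..b, F ⟨x, d⟩))
    (I * (∫ y in c..d, F ⟨b, y⟩))
  have n1 := norm_sub_le (∫ x in a..b, F ⟨x, c⟩) (∫ x in a..b, F ⟨x, d⟩)
  rw [norm_mul, Complex.norm_I, one_mul] at n2 n3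
  linarith

theorem CI2_small {a b : ℝ} (h : AB a b) {N : ℕ} (hN : 30 ≤ N) {f : ℂ → ℂ} {B : ℝ}
    (hB0 : 0 ≤ B) (hB : ∀ w ∈ Qb a b N, ‖f w‖ ≤ B * Real.exp (|w.im| / 2)) :
    ‖CI2 a b N f‖ ≤ 76 * B / N := by
  have hN' : (30 : ℝ) ≤ N := by exact_mod_cast hN
  have hN0 : (0 : ℝ) < N := by linarith
  have hR := RR_pos N
  have hπ := Real.pi_pos
  have hπ4 := Real.pi_lt_d2
  have hN2 : 0 < (N : ℝ) ^ 2 := by positivity
  have key := RI_le (a := mm a b - RR N) (b := mm a b + RR N) (c := -RR N) (d := RR N)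
    (A := B / (N : ℝ) ^ 2) (by linarith) (by linarith) (F := fun w => f w / den2 a b w) (by
      intro w hw
      have h1 := den2_lower h hN hw
      have h2 := hB w hw
      have hE := Real.exp_pos (|w.im| / 2)
      rw [norm_div]
      calc ‖f w‖ / ‖den2 a b w‖ ≤ (B * Real.exp (|w.im| / 2)) / ((N : ℝ) ^ 2 * Real.exp (|w.im| / 2)) := by
            gcongr
        _ = _ := by field_simp)
  refine key.trans ?_
  have e : 2 * (mm a b + RR N - (mm a b - RR N)) * (B / (N : ℝ) ^ 2) +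
      2 * (RR N - -RR N) * (B / (N : ℝ) ^ 2) = 8 * RR N * B / (N : ℝ) ^ 2 := by ring
  rw [e]
  have h3 : RR N ≤ 9.5 * N := by
    unfold RR
    nlinarith
  calc 8 * RR N * B / (N : ℝ) ^ 2 ≤ 8 * (9.5 * N) * B / (N : ℝ) ^ 2 := by gcongr
    _ = 76 * B / N := by field_simp; ring

theorem im_root_le {v z : ℂ} {κ : ℝ} (hκ : 0 ≤ κ) (h : v ^ 2 = z ^ 2 + κ) : |v.im| ≤ |z.im| := by
  have h1 := congrArg Complex.re h
  have h2 := congrArg Complex.im h
  rw [pow_two, pow_two, Complex.add_re, Complex.mul_re, Complex.mul_re, Complex.ofReal_re] at h1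
  rw [pow_two, pow_two, Complex.add_im, Complex.mul_im, Complex.mul_im, Complex.ofReal_im] at h2
  rw [← sq_le_sq]
  by_contra hc
  rw [not_le] at hc
  set p := v.re
  set q := v.im
  set x := z.re
  set y := z.im
  have h3 : p * q = x * y := by linarith
  have h4 : p ^ 2 * q ^ 2 = x ^ 2 * y ^ 2 := by rw [← mul_pow, h3, mul_pow]
  have hq : 0 < q ^ 2 := lt_of_le_of_lt (sq_nonneg _) hc
  have h5 : p ^ 2 ≤ x ^ 2 := by
    have h6 : p ^ 2 * q ^ 2 ≤ x ^ 2 * q ^ 2 := by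
      rw [h4]
      exact mul_le_mul_of_nonneg_left hc.le (sq_nonneg _)
    exact le_of_mul_le_mul_right h6 hq
  nlinarith

theorem E2_bd {a b : ℝ} (h : AB a b) (w : ℂ) : ‖E2 a b w‖ ≤ 1 * Real.exp (|w.im| / 2) := by
  obtain ⟨v, hv, _⟩ := exists_root ((w - mm a b) / 2) (kp a b)
  rw [E2_eq hv, one_mul]
  refine (Pool.Agent.Helper935.EX.norm_cos_le v).trans (Real.exp_le_exp.mpr ?_)
  refine (im_root_le h.kp_nonneg hv).trans (le_of_eq ?_)
  simp [abs_div]

/-- the angle -/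
def tht (a b : ℝ) : ℝ := Real.sqrt (Real.pi ^ 2 - a * b) / 2

theorem ab_le {a b : ℝ} (h : AB a b) : a * b ≤ Real.pi ^ 2 := by
  have := h.ha
  have := h.hb
  have := h.hab
  have hπ := Real.pi_pos
  nlinarith [sq_nonneg (a - b)]

theorem tht_sq {a b : ℝ} (h : AB a b) : (tht a b) ^ 2 = (Real.pi ^ 2 - a * b) / 4 := by
  unfold tht
  rw [div_pow, Real.sq_sqrt (by linarith [ab_le h])]
  norm_num

theorem tht_root {a b : ℝ} (h : AB a b) :
    ((tht a b : ℝ) : ℂ) ^ 2 = ((0 - mm a b : ℂ) / 2) ^ 2 + kp a b := by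
  have h1 : (tht a b) ^ 2 = ((0 - mm a b) / 2) ^ 2 + kp a b := by
    rw [tht_sq h, mm, kp]; ring
  exact_mod_cast congrArg (fun x : ℝ => (x : ℂ)) h1

theorem tht_bd {a b : ℝ} (h : AB a b) : 0 ≤ tht a b ∧ tht a b ≤ Real.pi / 2 := by
  have hπ := Real.pi_pos
  refine ⟨by unfold tht; positivity, ?_⟩
  apply le_of_sq_le_sq _ (by positivity)
  rw [tht_sq h]
  have := mul_pos h.ha h.hb
  nlinarith

theorem ab_le_cos {a b : ℝ} (h : AB a b) : a * b ≤ 20 * Real.cos (tht a b) := by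
  have hπ := Real.pi_pos
  have hπ4 := Real.pi_lt_d2
  obtain ⟨h1, h2⟩ := tht_bd h
  have h3 := tht_sq h
  have h4 := Real.mul_le_sin (x := Real.pi / 2 - tht a b) (by linarith) (by linarith)
  rw [Real.sin_pi_div_two_sub] at h4
  have h5 : a * b = 4 * ((Real.pi / 2 - tht a b) * (Real.pi / 2 + tht a b)) := by
    have : (Real.pi / 2 - tht a b) * (Real.pi / 2 + tht a b) = Real.pi ^ 2 / 4 - (tht a b) ^ 2 := by ring
    rw [this, h3]; ring
  set δ := Real.pi / 2 - tht a b with hδ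
  have hδ0 : 0 ≤ δ := by linarith
  have h6 : a * b ≤ 4 * (δ * Real.pi) := by
    rw [h5]
    gcongr
    linarith
  have h7 : δ ≤ Real.pi / 2 * Real.cos (tht a b) := by
    calc δ = Real.pi / 2 * (2 / Real.pi * δ) := by field_simp
      _ ≤ _ := by gcongr
  have h8 : 4 * (δ * Real.pi) ≤ 4 * (Real.pi / 2 * Real.cos (tht a b) * Real.pi) := by gcongr
  have hcos : 0 ≤ Real.cos (tht a b) := Real.cos_nonneg_of_mem_Icc ⟨by linarith, h2⟩
  have h9 : 4 * (Real.pi / 2 * Real.cos (tht a b) * Real.pi) ≤ 20 * Real.cos (tht a b) := by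
    have : 2 * Real.pi ^ 2 ≤ 20 := by nlinarith
    nlinarith
  linarith

/-- **two-zero inequality** -/
theorem two_zero {a b : ℝ} (h : AB a b) {N : ℕ} (hN : 30 ≤ N) {U : Set ℂ} (hU : IsOpen U)
    (hRU : Qc a b N ⊆ U) {f : ℂ → ℂ} (hf : DifferentiableOn ℂ f U) (hfa : f (-a) = 0)
    (hfb : f b = 0) {M : ℝ} (hM0 : 0 ≤ M) (hM : ∀ w ∈ Qc a b N, ‖f w‖ ≤ M * Real.exp (|w.im| / 2)) :
    ‖f 0‖ ≤ M * (Real.cos (tht a b) * (1 + 3040 / N)) := by
  have hπ := Real.pi_pos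
  have hπ3 := Real.pi_gt_three
  have hN' : (30 : ℝ) ≤ N := by exact_mod_cast hN
  have hN0 : (0 : ℝ) < N := by linarith
  have hR := RR_pos N
  have ha := h.ha
  have hb := h.hb
  have hsub : Qb a b N ⊆ Qc a b N := H370.Bd_sub (by linarith) (by linarith)
  have hP0 : ‖P2 a b 0‖ ≤ 1 := by
    rw [P2_eq (tht_root h)]
    refine (Pool.Agent.Helper935.EX.norm_sc_le _).trans (le_of_eq ?_)
    rw [Complex.ofReal_im, abs_zero, Real.exp_zero]
  have hE0 : ‖E2 a b 0‖ = Real.cos (tht a b) := by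
    rw [E2_eq (tht_root h), ← Complex.ofReal_cos, Complex.norm_real, Real.norm_eq_abs]
    apply abs_of_nonneg
    exact Real.cos_nonneg_of_mem_Icc ⟨by linarith [(tht_bd h).1], (tht_bd h).2⟩
  have hIne : (2 * Real.pi * I : ℂ) ≠ 0 := by
    refine mul_ne_zero (mul_ne_zero two_ne_zero ?_) I_ne_zero
    exact_mod_cast hπ.ne'
  have hab' : (-((a : ℂ) * b) * P2 a b 0) ≠ 0 := by
    refine mul_ne_zero (neg_ne_zero.mpr (mul_ne_zero ?_ ?_)) (P2_zero_ne h)
    · exact_mod_cast ha.ne'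
    · exact_mod_cast hb.ne'
  -- the formula for a general function
  have gen : ∀ g : ℂ → ℂ, DifferentiableOn ℂ g U → g (-a) = 0 → g b = 0 →
      g 0 = (-((a : ℂ) * b) * P2 a b 0) * (CI2 a b N g / (2 * Real.pi * I) -
        ∑ j ∈ JJs N, (rw2 a b j : ℂ) * ((-1) ^ j * g (nx a b j : ℝ))) := by
    intro g hg hga hgb
    rw [interp2 h (by omega) hU hRU hg hga hgb, mul_div_cancel_left₀ _ hIne, add_sub_cancel_right,
      mul_div_cancel₀ _ hab']
  have hdiv : ∀ z : ℂ, ‖z / (2 * Real.pi * I)‖ ≤ ‖z‖ := by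
    intro z
    rw [norm_div, norm_mul, norm_mul, Complex.norm_I, mul_one, Complex.norm_ofNat,
      Complex.norm_real, Real.norm_eq_abs, abs_of_pos hπ]
    exact div_le_self (norm_nonneg _) (by linarith)
  have hnab : ‖(-((a : ℂ) * b) * P2 a b 0)‖ = a * b * ‖P2 a b 0‖ := by
    rw [norm_mul, norm_neg, norm_mul, Complex.norm_real, Complex.norm_real, Real.norm_eq_abs,
      Real.norm_eq_abs, abs_of_pos ha, abs_of_pos hb]
  have hm1 : ∀ j : ℤ, ‖((-1 : ℂ)) ^ j‖ = 1 := fun j => by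
    rw [norm_zpow, norm_neg, norm_one, one_zpow]
  -- the extremal function
  have eE := gen (E2 a b) (E2_diff a b).differentiableOn (by
    have : ((Real.pi / 2 : ℝ) : ℂ) ^ 2 = ((-a - mm a b : ℂ) / 2) ^ 2 + kp a b := by
      have h1 : (Real.pi / 2) ^ 2 = ((-a - mm a b) / 2) ^ 2 + kp a b := by rw [mm, kp]; ring
      exact_mod_cast congrArg (fun x : ℝ => (x : ℂ)) h1
    rw [E2_eq this, ← Complex.ofReal_cos, Real.cos_pi_div_two, Complex.ofReal_zero]) (by
    have : ((Real.pi / 2 : ℝ) : ℂ) ^ 2 = ((b - mm a b : ℂ) / 2) ^ 2 + kp a b := by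
      have h1 : (Real.pi / 2) ^ 2 = ((b - mm a b) / 2) ^ 2 + kp a b := by rw [mm, kp]; ring
      exact_mod_cast congrArg (fun x : ℝ => (x : ℂ)) h1
    rw [E2_eq this, ← Complex.ofReal_cos, Real.cos_pi_div_two, Complex.ofReal_zero])
  have hsumE : ∑ j ∈ JJs N, (rw2 a b j : ℂ) * ((-1) ^ j * E2 a b (nx a b j : ℝ)) =
      ((∑ j ∈ JJs N, rw2 a b j : ℝ) : ℂ) := by
    rw [Complex.ofReal_sum]
    apply Finset.sum_congr rfl
    intro j hj
    rw [E2_nx a b (Finset.mem_erase.mp hj).1, ← mul_zpow]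
    norm_num
  have hS0 : 0 ≤ ∑ j ∈ JJs N, rw2 a b j :=
    Finset.sum_nonneg fun j hj => (rw2_pos h (Finset.mem_erase.mp hj).1).le
  set S := ∑ j ∈ JJs N, rw2 a b j with hS
  rw [hsumE] at eE
  have hCE := CI2_small h hN (f := E2 a b) (B := 1) zero_le_one (fun w _ => E2_bd h w)
  rw [mul_one] at hCE
  have hSle : a * b * ‖P2 a b 0‖ * S ≤ Real.cos (tht a b) + a * b * (76 / N) := by
    have e1 : (-((a : ℂ) * b) * P2 a b 0) * (S : ℂ) =
        (-((a : ℂ) * b) * P2 a b 0) * (CI2 a b N (E2 a b) / (2 * Real.pi * I)) - E2 a b 0 := by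
      rw [eE]; ring
    have e2 := congrArg norm e1
    rw [norm_mul, hnab, Complex.norm_real, Real.norm_eq_abs, abs_of_nonneg hS0] at e2
    rw [e2]
    refine (norm_sub_le _ _).trans ?_
    rw [norm_mul, hnab, hE0, add_comm]
    apply add_le_add le_rfl
    calc a * b * ‖P2 a b 0‖ * ‖CI2 a b N (E2 a b) / (2 * Real.pi * I)‖
        ≤ a * b * 1 * (76 / N) := by
          gcongr
          exact (hdiv _).trans hCE
      _ = _ := by ring
  -- the function itself
  have eF := gen f hf hfa hfb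
  have hCF := CI2_small h hN hM0 (fun w hw => hM w (hsub hw))
  have hsumF : ‖∑ j ∈ JJs N, (rw2 a b j : ℂ) * ((-1) ^ j * f (nx a b j : ℝ))‖ ≤ S * M := by
    refine (norm_sum_le _ _).trans ?_
    rw [hS, Finset.sum_mul]
    apply Finset.sum_le_sum
    intro j hj
    have hr := rw2_pos h (Finset.mem_erase.mp hj).1
    rw [norm_mul, norm_mul, hm1, one_mul, Complex.norm_real, Real.norm_eq_abs, abs_of_pos hr]
    apply mul_le_mul_of_nonneg_left _ hr.le
    have hm : ((nx a b j : ℝ) : ℂ) ∈ Qc a b N := by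
      have h5 := abs_lt.mp (nx_abs_lt h hj)
      refine ⟨?_, ?_⟩
      · rw [mem_preimage, ofReal_re]
        constructor <;> linarith [h5.1, h5.2]
      · rw [mem_preimage, ofReal_im]
        constructor <;> linarith
    have := hM _ hm
    simpa using this
  rw [eF, norm_mul, hnab]
  have hn := (norm_sub_le (CI2 a b N f / (2 * Real.pi * I))
    (∑ j ∈ JJs N, (rw2 a b j : ℂ) * ((-1) ^ j * f (nx a b j : ℝ))))
  have hab0 : 0 ≤ a * b := by positivity
  have hcos0 : 0 ≤ Real.cos (tht a b) :=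
    Real.cos_nonneg_of_mem_Icc ⟨by linarith [(tht_bd h).1], (tht_bd h).2⟩
  have hfin := ab_le_cos h
  calc a * b * ‖P2 a b 0‖ * ‖CI2 a b N f / (2 * Real.pi * I) -
        ∑ j ∈ JJs N, (rw2 a b j : ℂ) * ((-1) ^ j * f (nx a b j : ℝ))‖
      ≤ a * b * ‖P2 a b 0‖ * (76 * M / N + S * M) := by
        gcongr
        exact hn.trans (add_le_add ((hdiv _).trans hCF) hsumF)
    _ = a * b * ‖P2 a b 0‖ * (76 * M / N) + (a * b * ‖P2 a b 0‖ * S) * M := by ring
    _ ≤ a * b * 1 * (76 * M / N) + (Real.cos (tht a b) + a * b * (76 / N)) * M := by gcongr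
    _ = M * (Real.cos (tht a b) + a * b * (152 / N)) := by ring
    _ ≤ M * (Real.cos (tht a b) + (20 * Real.cos (tht a b)) * (152 / N)) := by gcongr
    _ = _ := by ring

end

end Q63.RZ
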