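import Pool.Agent.Q63.RZ.Mx1
import Pool.Agent.Q63.RZ.Tz3

/-!
# From the local inequalities to the maximal function; comparison of the means
-/

set_option autoImplicit false

open Complex Filter Topology Set MeasureTheory Metric
open Q97.MM

namespace Q63.RZ

noncomputable section

/-- entire functions which are at most `M e^{|Im w|/2}` on a box -/
def Box (K M : ℝ) (h : ℂ → ℂ) : Prop :=
  ∀ w : ℂ, |w.re| ≤ K → |w.im| ≤ K → ‖h w‖ ≤ M * Real.exp (|w.im| / 2)

theorem Box.zero {K M : ℝ} {h : ℂ → ℂ} (hB : Box K M h) (hK : 0 ≤ K) : ‖h 0‖ ≤ M := by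
  have := hB 0 (by simpa using hK) (by simpa using hK)
  simpa using this

/-- a zero at distance at most `π λ` -/
theorem local1 {N : ℕ} (hN : 30 ≤ N) {M l : ℝ} {h : ℂ → ℂ} (hh : Differentiable ℂ h)
    (hB : Box (RR N + Real.pi) M h) (hM : 0 ≤ M) (hl0 : 0 < l) (hl1 : l ≤ 1) {y : ℝ}
    (hy : |y| ≤ Real.pi * l) (hz : h y = 0) :
    ‖h 0‖ ≤ M * (Real.sin (Real.pi * l / 2) * (1 + 3040 / N)) := by
  have hπ := Real.pi_pos
  have hπ4 := Real.pi_lt_d2
  have hN' : (30 : ℝ) ≤ N := by exact_mod_cast hN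
  have hN0 : (0 : ℝ) < N := by linarith
  have hRR := RR_pos N
  have hs0 : 0 ≤ Real.sin (Real.pi * l / 2) :=
    Real.sin_nonneg_of_nonneg_of_le_pi (by positivity) (by nlinarith)
  have hfac : 0 ≤ 3040 / (N : ℝ) := by positivity
  rcases eq_or_ne y 0 with rfl | hy0
  · rw [Complex.ofReal_zero] at hz
    rw [hz, norm_zero]
    positivity
  have hy' : |y| ≤ Real.pi := hy.trans (by nlinarith)
  rcases hy'.eq_or_lt with h1 | h1
  · -- distance exactly `π`
    have hl : l = 1 := by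
      rw [h1] at hy
      have : 1 ≤ l := by
        by_contra hc
        rw [not_le] at hc
        nlinarith
      linarith
    rw [hl, mul_one, Real.sin_pi_div_two, one_mul]
    have := hB.zero (by positivity)
    nlinarith
  · obtain ⟨e, he1, he2⟩ : ∃ e : ℝ, |e| = 1 ∧ e * |y| = y := by
      rcases lt_or_gt_of_ne hy0 with h | h
      · exact ⟨-1, by simp, by rw [abs_of_neg h]; ring⟩
      · exact ⟨1, by simp, by rw [abs_of_pos h]; ring⟩
    have hre : ∀ w : ℂ, ((e : ℂ) * w).re = e * w.re := fun w => by simp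
    have him : ∀ w : ℂ, ((e : ℂ) * w).im = e * w.im := fun w => by simp
    set s := |y| with hs
    have hs' : 0 < s := abs_pos.mpr hy0
    have hR2 : 2 * Real.pi * N ≤ RR N := by unfold RR; nlinarith
    have key := two_point (α := s / 2) (s := s) (N := N) (by omega) (by linarith) (by linarith) hs'
      (by linarith) isOpen_univ (subset_univ _) (h := fun w => h ((e : ℂ) * w))
      (hh.comp (by fun_prop)).differentiableOn hM (by
        rintro w ⟨h3, h4⟩
        rw [mem_preimage] at h3 h4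
        have := hB ((e : ℂ) * w)
          (by
            rw [hre, abs_mul, he1, one_mul, abs_le]
            constructor <;> linarith [h3.1, h3.2])
          (by
            rw [him, abs_mul, he1, one_mul, abs_le]
            constructor <;> linarith [h4.1, h4.2])
        rw [him, abs_mul, he1, one_mul] at this
        exact this)
    have e1 : h ((e : ℂ) * ((s : ℝ) : ℂ)) = 0 := by
      rw [← Complex.ofReal_mul, he2]; exact hz
    rw [e1, mul_zero, zero_mul, zero_sub, norm_neg, sub_self, Real.cos_zero, Complex.ofReal_one,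
      mul_one] at key
    refine key.trans (mul_le_mul_of_nonneg_left ?_ hM)
    have h5 : s ≤ Real.pi * Real.sin (s / 2) := by
      have h6 := Real.mul_le_sin (x := s / 2) (by linarith) (by linarith)
      calc s = Real.pi * (2 / Real.pi * (s / 2)) := by field_simp
        _ ≤ _ := by gcongr
    have h7 : Real.sin (s / 2) ≤ Real.sin (Real.pi * l / 2) := by
      apply Real.sin_le_sin_of_le_of_le_pi_div_two
      · linarith
      · nlinarith
      · linarith
    have h8 : 0 ≤ Real.sin (s / 2) := Real.sin_nonneg_of_nonneg_of_le_pi (by linarith) (by linarith)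
    calc Real.sin (s / 2) + s * (102 / N)
        ≤ Real.sin (s / 2) + (Real.pi * Real.sin (s / 2)) * (102 / N) := by gcongr
      _ = Real.sin (s / 2) * (1 + (102 * Real.pi) / N) := by ring
      _ ≤ Real.sin (s / 2) * (1 + 3040 / N) := by
          gcongr
          linarith
      _ ≤ _ := by gcongr

/-- between two zeros at distance at most `2 π λ` -/
theorem local2 {N : ℕ} (hN : 30 ≤ N) {M l : ℝ} {h : ℂ → ℂ} (hh : Differentiable ℂ h)
    (hB : Box (RR N + Real.pi) M h) (hM : 0 ≤ M) (hl0 : 0 < l) (hl1 : l ≤ 1) {a b : ℝ}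
    (ha : 0 ≤ a) (hb : 0 ≤ b) (hab : a + b ≤ 2 * Real.pi * l) (hza : h (-a) = 0) (hzb : h b = 0) :
    ‖h 0‖ ≤ M * (Real.cos (Real.pi * Real.sqrt (1 - l ^ 2) / 2) * (1 + 3040 / N)) := by
  have hπ := Real.pi_pos
  have hN' : (30 : ℝ) ≤ N := by exact_mod_cast hN
  have hN0 : (0 : ℝ) < N := by linarith
  have hRR := RR_pos N
  have hl2 : 0 ≤ 1 - l ^ 2 := by nlinarith
  have hsq : Real.sqrt (1 - l ^ 2) ≤ 1 := by
    rw [Real.sqrt_le_left zero_le_one]
    nlinarith
  have hsq0 := Real.sqrt_nonneg (1 - l ^ 2)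
  have hc0 : 0 ≤ Real.cos (Real.pi * Real.sqrt (1 - l ^ 2) / 2) := by
    apply Real.cos_nonneg_of_mem_Icc
    constructor
    · have : 0 ≤ Real.pi * Real.sqrt (1 - l ^ 2) / 2 := by positivity
      linarith
    · nlinarith
  have hfac : 0 ≤ 3040 / (N : ℝ) := by positivity
  have triv : h 0 = 0 → ‖h 0‖ ≤
      M * (Real.cos (Real.pi * Real.sqrt (1 - l ^ 2) / 2) * (1 + 3040 / N)) := by
    intro h0
    rw [h0, norm_zero]
    positivity
  rcases ha.eq_or_lt with h1 | ha'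
  · apply triv
    rw [← h1] at hza
    simpa using hza
  rcases hb.eq_or_lt with h1 | hb'
  · apply triv
    rw [← h1] at hzb
    simpa using hzb
  have hAB : AB a b := ⟨ha', hb', hab.trans (by nlinarith)⟩
  have key := two_zero hAB hN isOpen_univ (subset_univ _) hh.differentiableOn hza hzb hM (by
    rintro w ⟨h3, h4⟩
    rw [mem_preimage] at h3 h4
    have h5 := abs_lt.mp (mm_lt hAB)
    apply hB w
    · rw [abs_le]
      constructor <;> linarith [h3.1, h3.2, h5.1, h5.2]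
    · rw [abs_le]
      constructor <;> linarith [h4.1, h4.2])
  refine key.trans (mul_le_mul_of_nonneg_left ?_ hM)
  apply mul_le_mul_of_nonneg_right _ (by positivity)
  have h6 : Real.pi * Real.sqrt (1 - l ^ 2) / 2 ≤ tht a b := by
    unfold tht
    have h7 : Real.pi * Real.sqrt (1 - l ^ 2) = Real.sqrt (Real.pi ^ 2 * (1 - l ^ 2)) := by
      rw [Real.sqrt_mul (by positivity), Real.sqrt_sq hπ.le]
    rw [h7]
    have h8 : Real.pi ^ 2 * (1 - l ^ 2) ≤ Real.pi ^ 2 - a * b := by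
      have h9 : (a + b) ^ 2 ≤ (2 * Real.pi * l) ^ 2 := pow_le_pow_left₀ (by linarith) hab 2
      nlinarith [sq_nonneg (a - b)]
    have := Real.sqrt_le_sqrt h8
    linarith
  apply Real.cos_le_cos_of_nonneg_of_le_pi (by positivity)
  · linarith [(tht_bd hAB).2]
  · exact h6

/-- the function of which `FF k T U` is the `k`-th power -/
def Gg (k : ℕ) (T U : ℝ) : ℂ → ℂ := FF 1 T (Real.sqrt k * U)

theorem Gg_pow {k : ℕ} (hk : 1 ≤ k) (T : ℝ) {U : ℝ} (hU : 0 < U) (s : ℂ) :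
    Gg k T U s ^ k = FF k T U s := by
  have hk0 : (0 : ℝ) < k := by exact_mod_cast hk
  unfold Gg FF
  rw [pow_one, mul_pow, ← Complex.exp_nat_mul]
  congr 2
  have h1 : ((Real.sqrt k * U : ℝ) : ℂ) ^ 2 = (k : ℂ) * (U : ℂ) ^ 2 := by
    rw [← Complex.ofReal_pow, mul_pow, Real.sq_sqrt hk0.le]
    push_cast
    ring
  have hkc : (k : ℂ) ≠ 0 := by exact_mod_cast hk0.ne'
  have hUc : (U : ℂ) ≠ 0 := by exact_mod_cast hU.ne'
  rw [h1]
  field_simp

/-- the scaled function -/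
def hh (k : ℕ) (T U t : ℝ) (w : ℂ) : ℂ :=
  Gg k T U (1 / 2 + I * (t + w / Real.log T)) * Complex.exp (I * w / 2)

theorem hh_diff (k : ℕ) (T U t : ℝ) : Differentiable ℂ (hh k T U t) := by
  unfold hh Gg
  have := FF_differentiable 1 T (Real.sqrt k * U)
  exact (this.comp (by fun_prop)).mul (by fun_prop)

theorem hh_pow {k : ℕ} (hk : 1 ≤ k) (T : ℝ) {U : ℝ} (hU : 0 < U) (t : ℝ) (w : ℂ) :
    ‖hh k T U t w‖ ^ (2 * k) =
      ‖FF k T U (1 / 2 + I * (t + w / Real.log T))‖ ^ 2 * Real.exp (-(k * w.im)) := by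
  have h1 : ‖Complex.exp (I * w / 2)‖ = Real.exp (-(w.im / 2)) := by
    rw [Complex.norm_exp]
    congr 1
    simp
    ring
  rw [hh, norm_mul, h1, mul_pow, mul_comm 2 k, pow_mul, ← norm_pow, Gg_pow hk T hU,
    ← Real.exp_nat_mul]
  congr 2
  push_cast
  ring

theorem hh_box {k : ℕ} (hk : 1 ≤ k) {S : Finset ℂ} {K δ T U : ℝ} (hδ : 0 < δ)
    (hL : 0 < Real.log T) (hU : 0 < U)
    (hS : ∀ w : ℂ, |w.re| ≤ K → |w.im| ≤ K → ∃ c ∈ S, ‖w - c‖ ≤ δ) (t : ℝ) :
    Box K ((Real.exp (2 * k * δ) * Phi k S δ T U t) ^ (((2 * k : ℕ) : ℝ)⁻¹)) (hh k T U t) := by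
  intro w h1 h2
  have hP := Phi_nonneg k S δ T U t
  have hX : 0 ≤ Real.exp (2 * k * δ) * Phi k S δ T U t := by positivity
  have h2k : 2 * k ≠ 0 := by omega
  have key := Phi_ge (k := k) (U := U) hδ hL hS t h1 h2
  have h3 : (‖hh k T U t w‖ * Real.exp (-(|w.im| / 2))) ^ (2 * k) ≤
      ((Real.exp (2 * k * δ) * Phi k S δ T U t) ^ (((2 * k : ℕ) : ℝ)⁻¹)) ^ (2 * k) := by
    rw [Real.rpow_inv_natCast_pow hX h2k, mul_pow, hh_pow hk T hU, ← Real.exp_nat_mul]
    refine le_trans (le_of_eq ?_) key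
    rw [mul_assoc, ← Real.exp_add]
    congr 2
    push_cast
    ring
  have h4 := le_of_pow_le_pow_left₀ h2k (Real.rpow_nonneg hX _) h3
  calc ‖hh k T U t w‖ = ‖hh k T U t w‖ * Real.exp (-(|w.im| / 2)) * Real.exp (|w.im| / 2) := by
        rw [mul_assoc, ← Real.exp_add, neg_add_cancel, Real.exp_zero, mul_one]
    _ ≤ _ := by gcongr

theorem Gg_zero {k : ℕ} {T U γ : ℝ} (h : riemannZeta (1 / 2 + I * γ) = 0) :
    Gg k T U (1 / 2 + I * γ) = 0 := by
  have hne : (1 / 2 + I * (γ : ℂ) : ℂ) ≠ 1 := by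
    intro h
    have := congrArg Complex.re h
    simp at this
  rw [Gg, FF, Z1_of_ne hne, h, mul_zero, pow_one, zero_mul]

theorem hh_zero {k : ℕ} {T U t γ y : ℝ} (hL : 0 < Real.log T) (hy : y = Real.log T * (γ - t))
    (h : riemannZeta (1 / 2 + I * γ) = 0) : hh k T U t y = 0 := by
  have hL' : (Real.log T : ℂ) ≠ 0 := by exact_mod_cast hL.ne'
  have e : (1 / 2 + I * (t + (y : ℂ) / Real.log T) : ℂ) = 1 / 2 + I * γ := by
    rw [hy]
    push_cast
    field_simp
    ring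
  rw [hh, e, Gg_zero h, zero_mul]

/-- the near-zero bound -/
theorem pt1 {k : ℕ} (hk : 1 ≤ k) {N : ℕ} (hN : 30 ≤ N) {S : Finset ℂ} {δ T U l : ℝ} (hδ : 0 < δ)
    (hL : 0 < Real.log T) (hU : 0 < U)
    (hS : ∀ w : ℂ, |w.re| ≤ RR N + Real.pi → |w.im| ≤ RR N + Real.pi → ∃ c ∈ S, ‖w - c‖ ≤ δ)
    (hl0 : 0 < l) (hl1 : l ≤ 1) {t γ : ℝ} (hγ : riemannZeta (1 / 2 + I * γ) = 0)
    (hd : |t - γ| ≤ l * Real.pi / Real.log T) :
    ‖FF k T U (1 / 2 + I * t)‖ ^ 2 ≤ (Real.sin (Real.pi * l / 2) * (1 + 3040 / N)) ^ (2 * k) *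
      (Real.exp (2 * k * δ) * Phi k S δ T U t) := by
  have hP := Phi_nonneg k S δ T U t
  have hX : 0 ≤ Real.exp (2 * k * δ) * Phi k S δ T U t := by positivity
  have h2k : 2 * k ≠ 0 := by omega
  have hB := hh_box hk (U := U) hδ hL hU hS t
  have hz := hh_zero (k := k) (U := U) (t := t) hL rfl hγ
  have key := local1 hN (hh_diff k T U t) hB (Real.rpow_nonneg hX _) hl0 hl1 (y := Real.log T * (γ - t))
    (by
      rw [abs_mul, abs_of_pos hL, abs_sub_comm]
      rw [le_div_iff₀ hL] at hd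
      linarith) hz
  have h1 := pow_le_pow_left₀ (norm_nonneg _) key (2 * k)
  rw [mul_pow, Real.rpow_inv_natCast_pow hX h2k, hh_pow hk T hU] at h1
  simp only [zero_div, add_zero, Complex.zero_im, mul_zero, neg_zero, Real.exp_zero, mul_one] at h1
  exact h1.trans (le_of_eq (mul_comm _ _))

/-- the short-gap bound -/
theorem pt2 {k : ℕ} (hk : 1 ≤ k) {N : ℕ} (hN : 30 ≤ N) {S : Finset ℂ} {δ T U l : ℝ} (hδ : 0 < δ)
    (hL : 0 < Real.log T) (hU : 0 < U)
    (hS : ∀ w : ℂ, |w.re| ≤ RR N + Real.pi → |w.im| ≤ RR N + Real.pi → ∃ c ∈ S, ‖w - c‖ ≤ δ)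
    (hl0 : 0 < l) (hl1 : l ≤ 1) {t γ γ' : ℝ} (hγ : riemannZeta (1 / 2 + I * γ) = 0)
    (hγ' : riemannZeta (1 / 2 + I * γ') = 0) (h1 : γ ≤ t) (h2 : t ≤ γ')
    (hd : γ' - γ ≤ l * (2 * Real.pi / Real.log T)) :
    ‖FF k T U (1 / 2 + I * t)‖ ^ 2 ≤
      (Real.cos (Real.pi * Real.sqrt (1 - l ^ 2) / 2) * (1 + 3040 / N)) ^ (2 * k) *
      (Real.exp (2 * k * δ) * Phi k S δ T U t) := by
  have hP := Phi_nonneg k S δ T U t
  have hX : 0 ≤ Real.exp (2 * k * δ) * Phi k S δ T U t := by positivity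
  have h2k : 2 * k ≠ 0 := by omega
  have hB := hh_box hk (U := U) hδ hL hU hS t
  have hz := hh_zero (k := k) (U := U) (t := t) hL (y := -(Real.log T * (t - γ))) (by ring) hγ
  have hz' := hh_zero (k := k) (U := U) (t := t) hL (y := Real.log T * (γ' - t)) rfl hγ'
  rw [Complex.ofReal_neg] at hz
  have key := local2 hN (hh_diff k T U t) hB (Real.rpow_nonneg hX _) hl0 hl1
    (a := Real.log T * (t - γ)) (b := Real.log T * (γ' - t))
    (mul_nonneg hL.le (by linarith)) (mul_nonneg hL.le (by linarith)) (by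
      have e : Real.log T * (t - γ) + Real.log T * (γ' - t) = (γ' - γ) * Real.log T := by ring
      rw [e]
      rw [mul_div_assoc', le_div_iff₀ hL] at hd
      linarith) hz hz'
  have h1 := pow_le_pow_left₀ (norm_nonneg _) key (2 * k)
  rw [mul_pow, Real.rpow_inv_natCast_pow hX h2k, hh_pow hk T hU] at h1
  simp only [zero_div, add_zero, Complex.zero_im, mul_zero, neg_zero, Real.exp_zero, mul_one] at h1
  exact h1.trans (le_of_eq (mul_comm _ _))

end

end Q63.RZ
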