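import Pool.Agent.Q63.RZ.Pq
import Pool.Agent.Q63.RZ.Mx3

/-!
# High moments of the zeta function near pairs of zeros
-/

set_option autoImplicit false

open Complex Filter Topology Set MeasureTheory Metric
open Q97.MM

namespace Q63.RZ

noncomputable section

/-- the factor of the bound near a pair of zeros -/
def cr (q : ℝ) : ℝ := |Real.cos (Real.sqrt (Real.pi ^ 2 + q) / 2)|

theorem cr_arg {q : ℝ} (h0 : 0 ≤ q) (h3 : q ≤ 3 * Real.pi ^ 2) :
    Real.pi / 2 ≤ Real.sqrt (Real.pi ^ 2 + q) / 2 ∧ Real.sqrt (Real.pi ^ 2 + q) / 2 ≤ Real.pi := by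
  have hπ := Real.pi_pos
  constructor
  · have : Real.pi ≤ Real.sqrt (Real.pi ^ 2 + q) := by
      rw [Real.le_sqrt hπ.le (by positivity)]
      linarith
    linarith
  · have : Real.sqrt (Real.pi ^ 2 + q) ≤ 2 * Real.pi := by
      rw [Real.sqrt_le_left (by positivity)]
      nlinarith
    linarith

theorem cr_eq {q : ℝ} (h0 : 0 ≤ q) (h3 : q ≤ 3 * Real.pi ^ 2) :
    cr q = -Real.cos (Real.sqrt (Real.pi ^ 2 + q) / 2) := by
  have h := cr_arg h0 h3
  rw [cr, abs_of_nonpos]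
  exact Real.cos_nonpos_of_pi_div_two_le_of_le h.1 (by linarith [Real.pi_pos])

theorem cr_mono {c q : ℝ} (h0 : 0 ≤ c) (hcq : c ≤ q) (h3 : q ≤ 3 * Real.pi ^ 2) : cr c ≤ cr q := by
  rw [cr_eq h0 (hcq.trans h3), cr_eq (h0.trans hcq) h3]
  have h := cr_arg h0 (hcq.trans h3)
  have h' := cr_arg (h0.trans hcq) h3
  have := Real.cos_le_cos_of_nonneg_of_le_pi (x := Real.sqrt (Real.pi ^ 2 + c) / 2)
    (y := Real.sqrt (Real.pi ^ 2 + q) / 2) (by positivity) h'.2 (by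
      have := Real.sqrt_le_sqrt (show Real.pi ^ 2 + c ≤ Real.pi ^ 2 + q by linarith)
      linarith)
  linarith

theorem cr_pos {q : ℝ} (h0 : 0 < q) (h3 : q ≤ 3 * Real.pi ^ 2) : 0 < cr q := by
  rw [cr_eq h0.le h3]
  have hπ := Real.pi_pos
  have h := cr_arg h0.le h3
  have h1 : Real.pi / 2 < Real.sqrt (Real.pi ^ 2 + q) / 2 := by
    have : Real.pi < Real.sqrt (Real.pi ^ 2 + q) := by
      rw [Real.lt_sqrt hπ.le]
      linarith
    linarith
  have := Real.cos_neg_of_pi_div_two_lt_of_lt h1 (by linarith)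
  linarith

theorem cr_top : cr (3 * Real.pi ^ 2) = 1 := by
  have hπ := Real.pi_pos
  rw [cr, show Real.pi ^ 2 + 3 * Real.pi ^ 2 = (2 * Real.pi) ^ 2 by ring,
    Real.sqrt_sq (by positivity), mul_div_cancel_left₀ _ (by norm_num), Real.cos_pi, abs_neg, abs_one]

theorem fac_ent {f : ℂ → ℂ} (hf : Differentiable ℂ f) {w₀ w₁ : ℂ} (h0 : f w₀ = 0) (h1 : f w₁ = 0)
    (hd : w₀ = w₁ → deriv f w₀ = 0) :
    ∃ g : ℂ → ℂ, Differentiable ℂ g ∧ ∀ w, f w = (w - w₀) * (w - w₁) * g w := by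
  have d1 : DifferentiableOn ℂ (dslope f w₀) univ :=
    (Complex.differentiableOn_dslope univ_mem).mpr hf.differentiableOn
  have d2 : DifferentiableOn ℂ (dslope (dslope f w₀) w₁) univ :=
    (Complex.differentiableOn_dslope univ_mem).mpr d1
  have e0 : dslope f w₀ w₁ = 0 := by
    by_cases hw : w₀ = w₁
    · subst hw
      rw [dslope_same, hd rfl]
    · rw [dslope_of_ne _ (Ne.symm hw), slope_def_module, h0, h1, sub_self, smul_zero]
  refine ⟨dslope (dslope f w₀) w₁, differentiableOn_univ.mp d2, fun w => ?_⟩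
  have a1 := sub_smul_dslope f w₀ w
  have a2 := sub_smul_dslope (dslope f w₀) w₁ w
  rw [h0, sub_zero, smul_eq_mul] at a1
  rw [e0, sub_zero, smul_eq_mul] at a2
  rw [← a1, ← a2]
  ring

theorem local3 {N : ℕ} (hN : 120 ≤ N) {M : ℝ} {h : ℂ → ℂ} (hh : Differentiable ℂ h)
    (hB : Box (RR N + 2 * Real.pi) M h) (hM : 0 ≤ M) {w₀ w₁ : ℂ} {m c q : ℝ}
    (hs : w₀ + w₁ = (2 * m : ℝ)) (hp : w₀ * w₁ = (c : ℂ)) (hk : m ^ 2 - c ≤ Real.pi ^ 2)
    (hc0 : 0 ≤ c) (hcq : c ≤ q) (hq : q ≤ 3 * Real.pi ^ 2)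
    (h0 : h w₀ = 0) (h1 : h w₁ = 0) (hd : w₀ = w₁ → deriv h w₀ = 0) :
    ‖h 0‖ ≤ M * (cr q * (1 + 4560 / N)) := by
  have hπ := Real.pi_pos
  have hRR := RR_pos N
  have hN0 : (0 : ℝ) < N := by
    have : (120 : ℝ) ≤ N := by exact_mod_cast hN
    linarith
  have hfac : 0 ≤ 4560 / (N : ℝ) := by positivity
  rcases (hcq.trans hq).eq_or_lt with hc3 | hc3
  · have hq3 : q = 3 * Real.pi ^ 2 := le_antisymm hq (hc3 ▸ hcq)
    rw [hq3, cr_top, one_mul]
    have := hB.zero (by positivity)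
    nlinarith
  set κ : ℝ := (Real.pi ^ 2 - m ^ 2 + c) / 4 with hκ
  have hMK : MK m κ := ⟨by rw [hκ]; linarith, by rw [hκ]; linarith⟩
  obtain ⟨g, hg, hfac'⟩ := fac_ent hh h0 h1 hd
  have hQ : ∀ w : ℂ, Qp m κ w = (w - w₀) * (w - w₁) := by
    intro w
    have e1 : (w - w₀) * (w - w₁) = w ^ 2 - (w₀ + w₁) * w + w₀ * w₁ := by ring
    rw [e1, hs, hp, Qp, hκ]
    push_cast
    ring
  have hm2 := abs_lt.mp hMK.m_lt
  have key := pair_zero (f := h) hMK hN isOpen_univ (subset_univ _) hg.differentiableOn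
    (fun w _ => by rw [hfac' w, hQ w]) hM (by
      rintro w ⟨h3, h4⟩
      rw [mem_preimage] at h3 h4
      apply hB w
      · rw [abs_le]
        constructor <;> linarith [h3.1, h3.2, hm2.1, hm2.2]
      · rw [abs_le]
        constructor <;> linarith [h4.1, h4.2])
  have e1 : tq m κ = Real.sqrt (Real.pi ^ 2 + c) / 2 := by
    rw [tq, hκ]
    congr 2
    ring
  rw [e1] at key
  refine key.trans (mul_le_mul_of_nonneg_left ?_ hM)
  exact mul_le_mul_of_nonneg_right (cr_mono hc0 hcq hq) (by positivity)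

theorem Z1_zero_iff {s : ℂ} : Z1 s = 0 ↔ riemannZeta s = 0 := by
  rcases eq_or_ne s 1 with rfl | hs
  · rw [Z1_one]
    exact ⟨fun h => absurd h one_ne_zero, fun h => absurd h riemannZeta_one_ne_zero⟩
  · rw [Z1_of_ne hs, mul_eq_zero, sub_eq_zero]
    exact ⟨fun h => h.resolve_left hs, Or.inr⟩

theorem Z1_deriv_zero {s : ℂ} (h : riemannZeta s = 0) (hd : deriv riemannZeta s = 0) :
    HasDerivAt Z1 0 s := by
  have hs : s ≠ 1 := ne_one_of_zero h
  have h1 : HasDerivAt (fun z => (z - 1) * riemannZeta z)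
      (1 * riemannZeta s + (s - 1) * deriv riemannZeta s) s :=
    ((hasDerivAt_id' s).sub_const 1).mul (differentiableAt_riemannZeta hs).hasDerivAt
  rw [h, hd, mul_zero, mul_zero, add_zero] at h1
  refine h1.congr_of_eventuallyEq ?_
  filter_upwards [isOpen_ne.mem_nhds hs] with z hz
  exact Z1_of_ne hz

/-- the elementary factor of `hh` -/
def Eh (k : ℕ) (T U t : ℝ) (w : ℂ) : ℂ :=
  cexp ((1 / 2 + I * (t + w / Real.log T) - 1 / 2 - T * I) ^ 2 /
    (2 * ((Real.sqrt k * U : ℝ) : ℂ) ^ 2)) * Complex.exp (I * w / 2)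

theorem hh_fac (k : ℕ) (T U t : ℝ) (w : ℂ) :
    hh k T U t w = Z1 (1 / 2 + I * (t + w / Real.log T)) * Eh k T U t w := by
  rw [hh, Gg, FF, pow_one, Eh]
  ring

theorem Eh_diff (k : ℕ) (T U t : ℝ) : Differentiable ℂ (Eh k T U t) := by
  unfold Eh
  fun_prop

theorem hhz {k : ℕ} {T U t : ℝ} {w : ℂ} (h : riemannZeta (1 / 2 + I * (t + w / Real.log T)) = 0) :
    hh k T U t w = 0 := by
  rw [hh_fac, Z1_zero_iff.mpr h, zero_mul]

theorem hhd {k : ℕ} {T U t : ℝ} {w : ℂ} (h : riemannZeta (1 / 2 + I * (t + w / Real.log T)) = 0)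
    (hd : deriv riemannZeta (1 / 2 + I * (t + w / Real.log T)) = 0) :
    deriv (hh k T U t) w = 0 := by
  have e : hh k T U t = fun w => Z1 (1 / 2 + I * (t + w / Real.log T)) * Eh k T U t w := by
    funext w
    exact hh_fac k T U t w
  have h1 : HasDerivAt (fun w : ℂ => (1 / 2 + I * (t + w / Real.log T) : ℂ)) (I * (1 / Real.log T)) w :=
    ((((hasDerivAt_id' w).div_const _).const_add _).const_mul I).const_add _
  have h2 : HasDerivAt (fun w => Z1 (1 / 2 + I * (t + w / Real.log T))) (0 * (I * (1 / Real.log T))) w :=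
    (Z1_deriv_zero h hd).comp w h1
  rw [zero_mul] at h2
  have h3 := h2.fun_mul (Eh_diff k T U t w).hasDerivAt
  rw [e, h3.deriv, Z1_zero_iff.mpr h]
  ring

/-- the bound near a pair of zeros -/
theorem pt3 {k : ℕ} (hk : 1 ≤ k) {N : ℕ} (hN : 120 ≤ N) {S : Finset ℂ} {δ T U q : ℝ} (hδ : 0 < δ)
    (hL : 0 < Real.log T) (hU : 0 < U)
    (hS : ∀ w : ℂ, |w.re| ≤ RR N + 2 * Real.pi → |w.im| ≤ RR N + 2 * Real.pi → ∃ c ∈ S, ‖w - c‖ ≤ δ)
    {t m c : ℝ} {w₀ w₁ : ℂ} (h0 : riemannZeta (1 / 2 + I * (t + w₀ / Real.log T)) = 0)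
    (h1 : riemannZeta (1 / 2 + I * (t + w₁ / Real.log T)) = 0)
    (hd : w₀ = w₁ → deriv riemannZeta (1 / 2 + I * (t + w₀ / Real.log T)) = 0)
    (hs : w₀ + w₁ = (2 * m : ℝ)) (hp : w₀ * w₁ = (c : ℂ)) (hkk : m ^ 2 - c ≤ Real.pi ^ 2)
    (hc0 : 0 ≤ c) (hcq : c ≤ q) (hq : q ≤ 3 * Real.pi ^ 2) :
    ‖FF k T U (1 / 2 + I * t)‖ ^ 2 ≤ (cr q * (1 + 4560 / N)) ^ (2 * k) *
      (Real.exp (2 * k * δ) * Phi k S δ T U t) := by
  have hP := Phi_nonneg k S δ T U t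
  have hX : 0 ≤ Real.exp (2 * k * δ) * Phi k S δ T U t := by positivity
  have h2k : 2 * k ≠ 0 := by omega
  have hB := hh_box hk (U := U) hδ hL hU hS t
  have key := local3 hN (hh_diff k T U t) hB (Real.rpow_nonneg hX _) hs hp hkk hc0 hcq hq
    (hhz h0) (hhz h1) (fun h => hhd h0 (hd h))
  have h1 := pow_le_pow_left₀ (norm_nonneg _) key (2 * k)
  rw [mul_pow, Real.rpow_inv_natCast_pow hX h2k, hh_pow hk T hU] at h1
  simp only [zero_div, add_zero, Complex.zero_im, mul_zero, neg_zero, Real.exp_zero, mul_one] at h1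
  exact h1.trans (le_of_eq (mul_comm _ _))

/-- from a pointwise bound on a set to the share of the moment -/
theorem gen_main {δ₀ : ℝ} (hδ₀ : 0 < δ₀) : ∃ N : ℕ, 120 ≤ N ∧ ∃ δ : ℝ, 0 < δ ∧ ∃ S : Finset ℂ,
    (∀ w : ℂ, |w.re| ≤ RR N + 2 * Real.pi → |w.im| ≤ RR N + 2 * Real.pi → ∃ c ∈ S, ‖w - c‖ ≤ δ) ∧
    ∃ C : ℝ, 0 < C ∧ ∀ q₀ : ℝ, 0 < q₀ → ∀ k : ℕ, 1 ≤ k →
    ∀ᶠ T : ℝ in atTop, ∀ U : ℝ, Adm T U → ∀ q : ℝ, q₀ ≤ q → ∀ E : Set ℝ, MeasurableSet E →
      (∀ t ∈ E, ‖FF k T U (1 / 2 + I * t)‖ ^ 2 ≤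
        (q * (1 + 4560 / N)) ^ (2 * k) * (Real.exp (2 * k * δ) * Phi k S δ T U t)) →
      ∫ y in E, ‖riemannZeta (((1 / 2 : ℝ) : ℂ) + y * I)‖ ^ (2 * k) * wt T U y ≤
        C * ((1 + δ₀) * q) ^ (2 * k) * JJ k T U (1 / 2) := by
  have hπ := Real.pi_pos
  set r : ℝ := Real.sqrt (1 + δ₀) with hr
  have hr1 : 1 < r := by
    rw [hr, Real.lt_sqrt (by norm_num)]
    linarith
  have hrr : r * r = 1 + δ₀ := Real.mul_self_sqrt (by linarith)
  set δ : ℝ := Real.log r / 3 with hδ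
  have hδ0 : 0 < δ := by
    have := Real.log_pos hr1
    positivity
  have hδe : Real.exp (3 * δ) = r := by
    rw [hδ, mul_div_cancel₀ _ (by norm_num : (3 : ℝ) ≠ 0), Real.exp_log (by linarith)]
  obtain ⟨N, hN⟩ := exists_nat_gt (max 120 (4560 / (r - 1)))
  have hN2 : (120 : ℝ) < N := lt_of_le_of_lt (le_max_left _ _) hN
  have hN3 : 4560 / (r - 1) < N := lt_of_le_of_lt (le_max_right _ _) hN
  have hN120 : 120 ≤ N := by
    have : (120 : ℝ) ≤ N := hN2.le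
    exact_mod_cast this
  have hN0 : (0 : ℝ) < N := by linarith
  have hNr : 1 + 4560 / (N : ℝ) ≤ r := by
    rw [div_lt_iff₀ (by linarith)] at hN3
    have : 4560 / (N : ℝ) ≤ r - 1 := by
      rw [div_le_iff₀ hN0]
      linarith
    linarith
  have hRR := RR_pos N
  obtain ⟨S, hS1, hS2⟩ := exists_mesh (K := RR N + 2 * Real.pi) hδ0
  refine ⟨N, hN120, δ, hδ0, S, hS2, 32 * S.card + 2, by positivity, ?_⟩
  intro q₀ hq₀ k hk
  have hε1 : 0 < ((1 + δ₀) * q₀) ^ (2 * k) := by positivity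
  obtain ⟨c₀, _, hJ⟩ := Pool.Agent.Q80.ZM.J_low k
  filter_upwards [transfer_set k hε1, Phi_int k (by positivity : 0 ≤ RR N + 2 * Real.pi)
    hδ0 hS1, hJ] with T t1 t3 t4 U h q hqq E hE hpt
  have hT : 0 < T := by linarith [h.1]
  have hTk : 0 < T ^ (2 * k) := by positivity
  have hL : 0 < Real.log T := by linarith [h.log]
  have hV := V0_pos k h
  have hPhi := t3 U h
  have hVJ := (t4 U h).1
  have hJ0 := JJ_nonneg k T U (1 / 2)
  have htr := t1 U h E hE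
  have hq : 0 < q := lt_of_lt_of_le hq₀ hqq
  have h1 := set_bound (by positivity : 0 ≤ (q * (1 + 4560 / (N : ℝ))) ^ (2 * k)) h hPhi hE hpt
  have h2 : (q * (1 + 4560 / (N : ℝ))) ^ (2 * k) * Real.exp (6 * k * δ) ≤
      ((1 + δ₀) * q) ^ (2 * k) := by
    have e : Real.exp (6 * k * δ) = r ^ (2 * k) := by
      rw [← hδe, ← Real.exp_nat_mul]
      congr 1
      push_cast
      ring
    rw [e, ← mul_pow]
    apply pow_le_pow_left₀ (by positivity)
    calc q * (1 + 4560 / (N : ℝ)) * r ≤ q * r * r := by gcongr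
      _ = (1 + δ₀) * q := by rw [mul_assoc, hrr]; ring
  have h4 : ((1 + δ₀) * q₀) ^ (2 * k) ≤ ((1 + δ₀) * q) ^ (2 * k) := by gcongr
  set X := ((1 + δ₀) * q) ^ (2 * k) with hX
  have hX0 : 0 ≤ X := by positivity
  have h3 : T ^ (2 * k) * ∫ y in E, ‖riemannZeta (((1 / 2 : ℝ) : ℂ) + y * I)‖ ^ (2 * k) * wt T U y ≤
      T ^ (2 * k) * ((32 * S.card + 2) * X * JJ k T U (1 / 2)) := by
    have h5 : ((1 + δ₀) * q₀) ^ (2 * k) * V0 k T U ≤ X * V0 k T U :=
      mul_le_mul_of_nonneg_right h4 hV.le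
    calc _ ≤ 2 * (8 * S.card * ((q * (1 + 4560 / (N : ℝ))) ^ (2 * k) * Real.exp (6 * k * δ)) *
          V0 k T U) + X * V0 k T U := by linarith
      _ ≤ 2 * (8 * S.card * X * V0 k T U) + X * V0 k T U := by gcongr
      _ = (16 * S.card + 1) * X * V0 k T U := by ring
      _ ≤ (16 * S.card + 1) * X * (2 * (T ^ (2 * k) * JJ k T U (1 / 2))) := by gcongr
      _ = _ := by ring
  exact le_of_mul_le_mul_left h3 hTk

theorem zeros_countable : {s : ℂ | riemannZeta s = 0}.Countable := by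
  have e : {s : ℂ | riemannZeta s = 0} = ⋃ n : ℕ, (closedBall (0 : ℂ) n ∩ riemannZetaZeros) := by
    ext s
    simp only [mem_iUnion, mem_inter_iff, mem_riemannZetaZeros, mem_closedBall, dist_zero_right,
      mem_ofPred_eq]
    constructor
    · intro h
      obtain ⟨n, hn⟩ := exists_nat_ge ‖s‖
      exact ⟨n, hn, h⟩
    · rintro ⟨n, _, h⟩
      exact h
  rw [e]
  exact countable_iUnion fun n => ((isCompact_closedBall _ _).inter_riemannZetaZeros_finite).countable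

end

end Q63.RZ
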