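import Pool.Agent.Q63.RZ.Pq

/-!
# The zeta function near pairs of zeros on the critical line, multiple zeros and zeros off the line
-/

set_option autoImplicit false

open Complex Filter Topology Set MeasureTheory

namespace Q63.RZ

noncomputable section

theorem zeta_mirror {ρ : ℂ} (h : riemannZeta ρ = 0) (hre : 0 < ρ.re) :
    riemannZeta (1 - (starRingEnd ℂ) ρ) = 0 := by
  have h1 : riemannZeta ((starRingEnd ℂ) ρ) = 0 := by rw [riemannZeta_conj, h, map_zero]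
  rw [riemannZeta_one_sub, h1, mul_zero]
  · intro n hn
    have h2 := congrArg Complex.re hn
    simp at h2
    have : (0 : ℝ) ≤ n := Nat.cast_nonneg n
    linarith
  · exact ne_one_of_zero h1

/-- the scaled coordinate of a point -/
def sw (t : ℝ) (ρ : ℂ) : ℂ := -I * (Real.log t * (ρ - (1 / 2 + t * I)))

theorem ph_sw {t : ℝ} (hL : Real.log t ≠ 0) (ρ : ℂ) : ph t (sw t ρ) = ρ := by
  have hL' : (Real.log t : ℂ) ≠ 0 := by exact_mod_cast hL
  have e : I * I = -1 := I_mul_I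
  rw [ph, sw]
  field_simp
  linear_combination (-2 * ρ + 1 + 2 * t * I) * e

theorem ph_sw_conj {t : ℝ} (hL : Real.log t ≠ 0) (ρ : ℂ) :
    ph t ((starRingEnd ℂ) (sw t ρ)) = 1 - (starRingEnd ℂ) ρ := by
  have hL' : (Real.log t : ℂ) ≠ 0 := by exact_mod_cast hL
  have e : I * I = -1 := I_mul_I
  rw [ph, sw]
  simp only [map_mul, map_neg, map_sub, map_add, Complex.conj_I, Complex.conj_ofReal, map_div₀,
    map_one, map_ofNat]
  field_simp
  linear_combination (2 * (starRingEnd ℂ) ρ - 1 + 2 * t * I) * e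

theorem norm_sw {t : ℝ} (hL : 0 ≤ Real.log t) (ρ : ℂ) :
    ‖sw t ρ‖ = Real.log t * ‖ρ - (1 / 2 + t * I)‖ := by
  rw [sw, norm_mul, norm_mul, norm_neg, Complex.norm_I, one_mul, Complex.norm_real, Real.norm_eq_abs,
    abs_of_nonneg hL]

theorem sw_im (t : ℝ) (ρ : ℂ) : (sw t ρ).im = -(Real.log t * (ρ.re - 1 / 2)) := by
  simp [sw]

/-- a zero off the line, or a multiple one, next to the point gives a pair -/
theorem exc_two {t : ℝ} (hL : 0 < Real.log t) {ρ : ℂ} (h : riemannZeta ρ = 0) (hre : 0 < ρ.re)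
    (hex : ρ.re ≠ 1 / 2 ∨ deriv riemannZeta ρ = 0) :
    TwoZ t (sw t ρ) ((starRingEnd ℂ) (sw t ρ)) := by
  refine ⟨?_, ?_, ?_⟩
  · rw [ph_sw hL.ne', h]
  · rw [ph_sw_conj hL.ne', zeta_mirror h hre]
  · intro hw
    rw [ph_sw hL.ne']
    rcases hex with h1 | h1
    · exfalso
      apply h1
      have h2 := congrArg Complex.im hw
      rw [Complex.conj_im, sw_im] at h2
      have h3 : Real.log t * (ρ.re - 1 / 2) = 0 := by linarith
      rcases mul_eq_zero.mp h3 with h4 | h4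
      · exact absurd h4 hL.ne'
      · linarith
    · exact h1

theorem re_pos_of_near {t r : ℝ} {ρ : ℂ} (hL : 2 * r < Real.log t) (hr : 0 ≤ r)
    (h : Real.log t * ‖ρ - (1 / 2 + t * I)‖ ≤ r) : 0 < ρ.re := by
  have hL0 : 0 < Real.log t := by linarith
  have h1 := Complex.abs_re_le_norm (ρ - (1 / 2 + t * I))
  have e : (ρ - (1 / 2 + t * I)).re = ρ.re - 1 / 2 := by simp
  rw [e] at h1
  have h2 : ‖ρ - (1 / 2 + t * I)‖ < 1 / 2 := by
    by_contra hc
    rw [not_lt] at hc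
    nlinarith
  have h3 := (abs_le.mp h1).1
  linarith

theorem pairs_all {ε : ℝ} (hε : 0 < ε) : ∃ D : ℝ, 1 ≤ D ∧
    ∀ᶠ t : ℝ in atTop, ∀ M : ℝ, Win t D M →
      (∀ γ γ' : ℝ, riemannZeta (1 / 2 + γ * I) = 0 → riemannZeta (1 / 2 + γ' * I) = 0 → γ ≠ γ' →
        |γ - γ'| ≤ 2 * Real.pi / Real.log t →
        Real.log t ^ 2 * ((γ - t) * (γ' - t)) ≤ 3 * Real.pi ^ 2 →
        ‖riemannZeta (1 / 2 + t * I)‖ ≤ (1 + ε) *
          |Real.cos (Real.sqrt (Real.pi ^ 2 + Real.log t ^ 2 * ((γ - t) * (γ' - t))) / 2)| * M) ∧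
      (∀ ρ : ℂ, riemannZeta ρ = 0 → (ρ.re ≠ 1 / 2 ∨ deriv riemannZeta ρ = 0) →
        Real.log t * ‖ρ - (1 / 2 + t * I)‖ ≤ Real.sqrt 3 * Real.pi →
        ‖riemannZeta (1 / 2 + t * I)‖ ≤ (1 + ε) *
          |Real.cos (Real.sqrt (Real.pi ^ 2 + (Real.log t * ‖ρ - (1 / 2 + t * I)‖) ^ 2) / 2)| *
            M) := by
  have hπ := Real.pi_pos
  obtain ⟨D, hD, H⟩ := pz2 hε
  refine ⟨D, hD, ?_⟩
  have l1 := Real.tendsto_log_atTop.eventually_gt_atTop (2 * (Real.sqrt 3 * Real.pi))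
  filter_upwards [H, l1] with t ht h1 M hM
  have hs3 : 0 ≤ Real.sqrt 3 := Real.sqrt_nonneg 3
  have hL0 : 0 < Real.log t := lt_of_le_of_lt (by positivity) h1
  have hLc : (Real.log t : ℂ) ≠ 0 := by exact_mod_cast hL0.ne'
  constructor
  · intro γ γ' hz hz' hne hd hq
    rw [le_div_iff₀ hL0] at hd
    have e : ∀ g : ℝ, ph t (Real.log t * (g - t) : ℝ) = 1 / 2 + g * I := by
      intro g
      rw [ph]
      push_cast
      field_simp
      ring
    have e2 : Real.log t * (γ - t) * (Real.log t * (γ' - t)) =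
        Real.log t ^ 2 * ((γ - t) * (γ' - t)) := by ring
    refine ht M hM (Real.log t * (γ - t) : ℝ) (Real.log t * (γ' - t) : ℝ)
      (Real.log t * ((γ + γ') / 2 - t)) (Real.log t ^ 2 * ((γ - t) * (γ' - t)))
      ⟨by rw [e, hz], by rw [e, hz'], ?_⟩ (by push_cast; ring) (by rw [← e2]; push_cast; ring) ?_ hq
    · intro h
      exfalso
      have h2 : Real.log t * (γ - t) = Real.log t * (γ' - t) := by exact_mod_cast h
      have h3 := mul_left_cancel₀ hL0.ne' h2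
      exact hne (by linarith)
    · have e3 : (Real.log t * ((γ + γ') / 2 - t)) ^ 2 - Real.log t ^ 2 * ((γ - t) * (γ' - t)) =
          (|γ - γ'| * Real.log t) ^ 2 / 4 := by
        rw [mul_pow (|γ - γ'|), sq_abs]
        ring
      rw [e3]
      have h4 : (|γ - γ'| * Real.log t) ^ 2 ≤ (2 * Real.pi) ^ 2 :=
        pow_le_pow_left₀ (by positivity) hd 2
      linarith
  · intro ρ hz hex hr
    have hre := re_pos_of_near h1 (by positivity) hr
    have hT := exc_two hL0 hz hre hex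
    have hn := norm_sw hL0.le ρ
    have e1 : sw t ρ + (starRingEnd ℂ) (sw t ρ) = (2 * (sw t ρ).re : ℝ) := Complex.add_conj _
    have e2 : sw t ρ * (starRingEnd ℂ) (sw t ρ) = ((‖sw t ρ‖ ^ 2 : ℝ) : ℂ) := by
      rw [Complex.mul_conj, Complex.normSq_eq_norm_sq]
    have h5 : (sw t ρ).re ^ 2 ≤ ‖sw t ρ‖ ^ 2 := by
      rw [← sq_abs (sw t ρ).re]
      exact pow_le_pow_left₀ (abs_nonneg _) (Complex.abs_re_le_norm _) 2
    have h6 : ‖sw t ρ‖ ^ 2 ≤ 3 * Real.pi ^ 2 := by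
      rw [hn]
      calc (Real.log t * ‖ρ - (1 / 2 + t * I)‖) ^ 2 ≤ (Real.sqrt 3 * Real.pi) ^ 2 :=
            pow_le_pow_left₀ (by positivity) hr 2
        _ = 3 * Real.pi ^ 2 := by rw [mul_pow, Real.sq_sqrt (by norm_num)]
    have key := ht M hM _ _ _ _ hT e1 e2 (by nlinarith) h6
    rw [hn] at key
    exact key

/-- there are two zeros next to `1/2 + it`, both on the line or symmetric to each other, for which
the product of the signed distances, in the scale `1 / log t`, is `q` -/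
def Pair (t q : ℝ) : Prop :=
  (∃ γ γ' : ℝ, riemannZeta (1 / 2 + γ * I) = 0 ∧ riemannZeta (1 / 2 + γ' * I) = 0 ∧ γ ≠ γ' ∧
    |γ - γ'| ≤ 2 * Real.pi / Real.log t ∧ q = Real.log t ^ 2 * ((γ - t) * (γ' - t))) ∨
  ∃ ρ : ℂ, riemannZeta ρ = 0 ∧ (ρ.re ≠ 1 / 2 ∨ deriv riemannZeta ρ = 0) ∧
    q = (Real.log t * ‖ρ - (1 / 2 + t * I)‖) ^ 2

theorem pair_bd {ε : ℝ} (hε : 0 < ε) : ∃ D : ℝ, 1 ≤ D ∧
    ∀ᶠ t : ℝ in atTop, ∀ M : ℝ, Win t D M → ∀ q : ℝ, q ≤ 3 * Real.pi ^ 2 → Pair t q →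
      ‖riemannZeta (1 / 2 + t * I)‖ ≤
        (1 + ε) * |Real.cos (Real.sqrt (Real.pi ^ 2 + q) / 2)| * M := by
  obtain ⟨D, hD, H⟩ := pairs_all hε
  refine ⟨D, hD, ?_⟩
  filter_upwards [H, Real.tendsto_log_atTop.eventually_gt_atTop 0] with t ht hL M hM q hq hP
  obtain ⟨h1, h2⟩ := ht M hM
  rcases hP with ⟨γ, γ', hz, hz', hne, hd, rfl⟩ | ⟨ρ, hz, hex, rfl⟩
  · exact h1 γ γ' hz hz' hne hd hq
  · refine h2 ρ hz hex ?_
    have h3 : (Real.sqrt 3 * Real.pi) ^ 2 = 3 * Real.pi ^ 2 := by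
      rw [mul_pow, Real.sq_sqrt (by norm_num)]
    rw [← h3] at hq
    exact le_of_pow_le_pow_left₀ two_ne_zero (by positivity) hq

theorem factor_lt {ε : ℝ} (hε : 0 < ε) (hε1 : ε ≤ 1) : ∃ c : ℝ, 0 ≤ c ∧ c < 1 ∧ ∀ q : ℝ,
    -((1 - ε) * Real.pi ^ 2) < q → q < (3 - ε) * Real.pi ^ 2 →
      |Real.cos (Real.sqrt (Real.pi ^ 2 + q) / 2)| ≤ c := by
  have hπ := Real.pi_pos
  set a : ℝ := Real.sqrt (ε * Real.pi ^ 2) / 2 with ha
  set b : ℝ := Real.sqrt ((4 - ε) * Real.pi ^ 2) / 2 with hb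
  have ha0 : 0 < a := by
    have : 0 < Real.sqrt (ε * Real.pi ^ 2) := Real.sqrt_pos.mpr (by positivity)
    positivity
  have haπ : a < Real.pi := by
    have : Real.sqrt (ε * Real.pi ^ 2) < 2 * Real.pi := by
      rw [Real.sqrt_lt' (by positivity)]
      have h0 : 0 < Real.pi ^ 2 := by positivity
      have := mul_le_mul_of_nonneg_right hε1 h0.le
      linarith
    linarith
  have hb0 : 0 ≤ b := by positivity
  have hbπ : b < Real.pi := by
    have : Real.sqrt ((4 - ε) * Real.pi ^ 2) < 2 * Real.pi := by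
      rw [Real.sqrt_lt' (by positivity)]
      have := mul_pos hε (show 0 < Real.pi ^ 2 by positivity)
      linarith
    linarith
  have h1 : Real.cos a < 1 := by
    rw [← Real.cos_zero]
    exact Real.cos_lt_cos_of_nonneg_of_le_pi le_rfl haπ.le ha0
  have h2 : -1 < Real.cos b := by
    rw [← Real.cos_pi]
    exact Real.cos_lt_cos_of_nonneg_of_le_pi hb0 le_rfl hbπ
  refine ⟨max 0 (max (Real.cos a) (-Real.cos b)), le_max_left _ _,
    max_lt one_pos (max_lt h1 (by linarith)), fun q hq1 hq2 => ?_⟩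
  set x : ℝ := Real.sqrt (Real.pi ^ 2 + q) / 2 with hx
  have hx0 : 0 ≤ x := by positivity
  have hax : a ≤ x := by
    have := Real.sqrt_le_sqrt (show ε * Real.pi ^ 2 ≤ Real.pi ^ 2 + q by linarith)
    linarith
  have hxb : x ≤ b := by
    have := Real.sqrt_le_sqrt (show Real.pi ^ 2 + q ≤ (4 - ε) * Real.pi ^ 2 by linarith)
    linarith
  have h3 : Real.cos x ≤ Real.cos a := Real.cos_le_cos_of_nonneg_of_le_pi ha0.le (by linarith) hax
  have h4 : Real.cos b ≤ Real.cos x := Real.cos_le_cos_of_nonneg_of_le_pi hx0 hbπ.le hxb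
  refine le_trans ?_ (le_max_right _ _)
  rw [abs_le]
  constructor
  · have := le_max_right (Real.cos a) (-Real.cos b)
    linarith
  · have := le_max_left (Real.cos a) (-Real.cos b)
    linarith

theorem pair_max {ε : ℝ} (hε : 0 < ε) : ∃ D : ℝ, 1 ≤ D ∧
    ∀ᶠ t : ℝ in atTop, Win t D ‖riemannZeta (1 / 2 + t * I)‖ → ∀ q : ℝ, Pair t q →
      q ≤ -((1 - ε) * Real.pi ^ 2) ∨ (3 - ε) * Real.pi ^ 2 ≤ q := by
  have hπ := Real.pi_pos
  have hπ2 : 0 < Real.pi ^ 2 := by positivity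
  set ε₀ : ℝ := min ε 1 with hε₀
  have hε₀0 : 0 < ε₀ := lt_min hε one_pos
  have hε₀1 : ε₀ ≤ 1 := min_le_right _ _
  have hε₀2 : ε₀ ≤ ε := min_le_left _ _
  obtain ⟨c, hc0, hc1, hc⟩ := factor_lt hε₀0 hε₀1
  set δ : ℝ := (1 - c) / 2 with hδ
  have hδ0 : 0 < δ := by
    have : 0 < 1 - c := by linarith
    positivity
  have hδq : (1 + δ) * c < 1 := by nlinarith
  obtain ⟨D₁, hD₁, H₁⟩ := pair_bd hδ0
  obtain ⟨D₂, hD₂, H₂⟩ := wmax one_pos
  refine ⟨max D₁ D₂, le_max_of_le_left hD₁, ?_⟩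
  filter_upwards [H₁, H₂, eventually_gt_atTop 0] with t h1 h2 ht0 hW q hq
  set M := ‖riemannZeta (1 / 2 + t * I)‖ with hM
  have hM0 : 0 < M := lt_of_lt_of_le (Real.rpow_pos_of_pos ht0 _)
    (h2 M fun u hu => hW u (hu.trans (le_max_right _ _)))
  by_contra hcon
  rw [not_or, not_le, not_le] at hcon
  have hq1 : -((1 - ε₀) * Real.pi ^ 2) < q := by
    have := mul_le_mul_of_nonneg_right hε₀2 hπ2.le
    linarith [hcon.1]
  have hq2 : q < (3 - ε₀) * Real.pi ^ 2 := by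
    have := mul_le_mul_of_nonneg_right hε₀2 hπ2.le
    linarith [hcon.2]
  have h7 := hc q hq1 hq2
  have key := h1 M (fun u hu => hW u (hu.trans (le_max_left _ _))) q (by nlinarith) hq
  have h8 : (1 + δ) * |Real.cos (Real.sqrt (Real.pi ^ 2 + q) / 2)| * M ≤ (1 + δ) * c * M := by
    gcongr
  have h9 : (1 + δ) * c * M < 1 * M := mul_lt_mul_of_pos_right hδq hM0
  linarith

end

end Q63.RZ
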