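import Pool.Agent.Q63.RZ.My1
import Pool.Agent.Q63.RZ.Pr

/-!
# The part of a high moment next to exceptional zeros and next to pairs of zeros
-/

set_option autoImplicit false

open Complex Filter Topology Set MeasureTheory Metric
open Q97.MM

namespace Q63.RZ

noncomputable section

/-- the scaled coordinate of a point, scale `L` -/
def sv (L t : ℝ) (ρ : ℂ) : ℂ := -I * (L * (ρ - (1 / 2 + t * I)))

theorem sv_pt {L : ℝ} (hL : L ≠ 0) (t : ℝ) (ρ : ℂ) :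
    (1 / 2 + I * (t + sv L t ρ / L) : ℂ) = ρ := by
  have hL' : (L : ℂ) ≠ 0 := by exact_mod_cast hL
  have e : I * I = -1 := I_mul_I
  rw [sv]
  field_simp
  linear_combination (-2 * ρ + 1 + 2 * t * I) * e

theorem sv_pt_conj {L : ℝ} (hL : L ≠ 0) (t : ℝ) (ρ : ℂ) :
    (1 / 2 + I * (t + (starRingEnd ℂ) (sv L t ρ) / L) : ℂ) = 1 - (starRingEnd ℂ) ρ := by
  have hL' : (L : ℂ) ≠ 0 := by exact_mod_cast hL
  have e : I * I = -1 := I_mul_I
  rw [sv]
  simp only [map_mul, map_neg, map_sub, map_add, Complex.conj_I, Complex.conj_ofReal, map_div₀,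
    map_one, map_ofNat]
  field_simp
  linear_combination (2 * (starRingEnd ℂ) ρ - 1 + 2 * t * I) * e

theorem norm_sv {L : ℝ} (hL : 0 ≤ L) (t : ℝ) (ρ : ℂ) :
    ‖sv L t ρ‖ = L * ‖ρ - (1 / 2 + t * I)‖ := by
  rw [sv, norm_mul, norm_mul, norm_neg, Complex.norm_I, one_mul, Complex.norm_real, Real.norm_eq_abs,
    abs_of_nonneg hL]

theorem sv_im (L t : ℝ) (ρ : ℂ) : (sv L t ρ).im = -(L * (ρ.re - 1 / 2)) := by
  simp [sv]

/-- the heights at distance at most `r` from a zero which is off the line or multiple -/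
def ExcN (r : ℝ) : Set ℝ := {t | ∃ ρ : ℂ, riemannZeta ρ = 0 ∧
  (ρ.re ≠ 1 / 2 ∨ deriv riemannZeta ρ = 0) ∧ ‖ρ - (1 / 2 + t * I)‖ ≤ r}

/-- the heights outside of a pair of zeros at distance at most `d`, with product of the distances at
most `q` -/
def OutP (d q : ℝ) : Set ℝ := {t | ∃ γ γ' : ℝ, riemannZeta (1 / 2 + γ * I) = 0 ∧
  riemannZeta (1 / 2 + γ' * I) = 0 ∧ γ ≠ γ' ∧ |γ - γ'| ≤ d ∧ 0 ≤ (γ - t) * (γ' - t) ∧
  (γ - t) * (γ' - t) ≤ q}

theorem ExcN_meas (r : ℝ) : MeasurableSet (ExcN r) := by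
  have e : ExcN r = ⋃ ρ ∈ {s : ℂ | riemannZeta s = 0}, {t : ℝ |
      (ρ.re ≠ 1 / 2 ∨ deriv riemannZeta ρ = 0) ∧ ‖ρ - (1 / 2 + t * I)‖ ≤ r} := by
    ext t
    simp only [ExcN, mem_iUnion, mem_ofPred_eq, exists_prop]
  rw [e]
  refine MeasurableSet.biUnion zeros_countable fun ρ _ => ?_
  by_cases h : (ρ.re ≠ 1 / 2 ∨ deriv riemannZeta ρ = 0)
  · simp only [h, true_and]
    exact (isClosed_le (by fun_prop) continuous_const).measurableSet
  · simp only [h, false_and]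
    exact MeasurableSet.const _

theorem ord_countable : {γ : ℝ | riemannZeta (1 / 2 + γ * I) = 0}.Countable := by
  refine zeros_countable.preimage_of_injOn (f := fun γ : ℝ => (1 / 2 + γ * I : ℂ)) ?_
  intro a _ b _ h
  have h2 := congrArg Complex.im h
  simpa using h2

theorem OutP_meas (d q : ℝ) : MeasurableSet (OutP d q) := by
  have e : OutP d q = ⋃ γ ∈ {γ : ℝ | riemannZeta (1 / 2 + γ * I) = 0},
      ⋃ γ' ∈ {γ : ℝ | riemannZeta (1 / 2 + γ * I) = 0}, {t : ℝ |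
      (γ ≠ γ' ∧ |γ - γ'| ≤ d) ∧ 0 ≤ (γ - t) * (γ' - t) ∧ (γ - t) * (γ' - t) ≤ q} := by
    ext t
    simp only [OutP, mem_iUnion, mem_ofPred_eq, exists_prop]
    constructor
    · rintro ⟨γ, γ', h1, h2, h3, h4, h5, h6⟩
      exact ⟨γ, h1, γ', h2, ⟨h3, h4⟩, h5, h6⟩
    · rintro ⟨γ, h1, γ', h2, ⟨h3, h4⟩, h5, h6⟩
      exact ⟨γ, γ', h1, h2, h3, h4, h5, h6⟩
  rw [e]
  refine MeasurableSet.biUnion ord_countable fun γ _ => MeasurableSet.biUnion ord_countable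
    fun γ' _ => ?_
  by_cases h : (γ ≠ γ' ∧ |γ - γ'| ≤ d)
  · have h1 : IsClosed {t : ℝ | 0 ≤ (γ - t) * (γ' - t)} :=
      isClosed_le continuous_const (by fun_prop)
    have h2 : IsClosed {t : ℝ | (γ - t) * (γ' - t) ≤ q} :=
      isClosed_le (by fun_prop) continuous_const
    simp only [h, ne_eq, not_false_eq_true, and_self, true_and]
    exact (h1.inter h2).measurableSet
  · simp only [h, false_and]
    exact MeasurableSet.const _

/-- the share of the moment -/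
theorem main2 {δ₀ : ℝ} (hδ₀ : 0 < δ₀) : ∃ C : ℝ, 0 < C ∧ ∀ r₀ : ℝ, 0 < r₀ → ∀ k : ℕ, 1 ≤ k →
    ∀ᶠ T : ℝ in atTop, ∀ U : ℝ, Adm T U → ∀ r : ℝ, r₀ ≤ r → r ≤ Real.sqrt 3 * Real.pi →
      (∫ y in ExcN (r / Real.log T) ∪ OutP (2 * Real.pi / Real.log T) ((r / Real.log T) ^ 2),
          ‖riemannZeta (((1 / 2 : ℝ) : ℂ) + y * I)‖ ^ (2 * k) * wt T U y) ≤
        C * ((1 + δ₀) * |Real.cos (Real.sqrt (Real.pi ^ 2 + r ^ 2) / 2)|) ^ (2 * k) *
          JJ k T U (1 / 2) := by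
  have hπ := Real.pi_pos
  have hs30 : 0 < Real.sqrt 3 := Real.sqrt_pos.mpr (by norm_num)
  obtain ⟨N, hN, δ, hδ, S, hS, C, hC, H⟩ := gen_main hδ₀
  refine ⟨C, hC, fun r₀ hr₀ k hk => ?_⟩
  have hr₁ : 0 < min r₀ (Real.sqrt 3 * Real.pi) := lt_min hr₀ (by positivity)
  set r₁ := min r₀ (Real.sqrt 3 * Real.pi) with hr₁d
  have hr₁3 : r₁ ^ 2 ≤ 3 * Real.pi ^ 2 := by
    calc r₁ ^ 2 ≤ (Real.sqrt 3 * Real.pi) ^ 2 := pow_le_pow_left₀ hr₁.le (min_le_right _ _) 2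
      _ = 3 * Real.pi ^ 2 := by rw [mul_pow, Real.sq_sqrt (by norm_num)]
  have hq₀ : 0 < cr (r₁ ^ 2) := cr_pos (by positivity) hr₁3
  filter_upwards [H _ hq₀ k hk,
    Real.tendsto_log_atTop.eventually_gt_atTop (2 * (Real.sqrt 3 * Real.pi))] with T hT hLT U hA r hr hr3
  set L := Real.log T with hLd
  have hL : 0 < L := lt_of_le_of_lt (by positivity) hLT
  have hLc : (L : ℂ) ≠ 0 := by exact_mod_cast hL.ne'
  have hr0 : 0 < r := lt_of_lt_of_le hr₀ hr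
  have hrr : r ^ 2 ≤ 3 * Real.pi ^ 2 := by
    calc r ^ 2 ≤ (Real.sqrt 3 * Real.pi) ^ 2 := pow_le_pow_left₀ hr0.le hr3 2
      _ = 3 * Real.pi ^ 2 := by rw [mul_pow, Real.sq_sqrt (by norm_num)]
  have hqq : cr (r₁ ^ 2) ≤ cr (r ^ 2) :=
    cr_mono (by positivity) (pow_le_pow_left₀ hr₁.le ((min_le_left _ _).trans hr) 2) hrr
  refine hT U hA (cr (r ^ 2)) hqq _ ((ExcN_meas _).union (OutP_meas _ _)) ?_
  rintro t (⟨ρ, hz, hex, hρ⟩ | ⟨γ, γ', hz, hz', hne, hd, hp0, hpq⟩)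
  · rw [le_div_iff₀ hL] at hρ
    have hn := norm_sv hL.le t ρ
    have hd1 : ‖ρ - (1 / 2 + t * I)‖ < 1 / 2 := by
      by_contra hc
      rw [not_lt] at hc
      nlinarith
    have hre : 0 < ρ.re := by
      have h1 := Complex.abs_re_le_norm (ρ - (1 / 2 + t * I))
      have e : (ρ - (1 / 2 + t * I)).re = ρ.re - 1 / 2 := by simp
      rw [e] at h1
      have h3 := (abs_le.mp h1).1
      linarith
    have e2 : sv L t ρ * (starRingEnd ℂ) (sv L t ρ) = ((‖sv L t ρ‖ ^ 2 : ℝ) : ℂ) := by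
      rw [Complex.mul_conj, Complex.normSq_eq_norm_sq]
    have h5 : (sv L t ρ).re ^ 2 ≤ ‖sv L t ρ‖ ^ 2 := by
      rw [← sq_abs (sv L t ρ).re]
      exact pow_le_pow_left₀ (abs_nonneg _) (Complex.abs_re_le_norm _) 2
    refine pt3 hk hN hδ hL hA.pos hS (w₀ := sv L t ρ) (w₁ := (starRingEnd ℂ) (sv L t ρ))
      (m := (sv L t ρ).re) (c := ‖sv L t ρ‖ ^ 2) ?_ ?_ ?_ (Complex.add_conj _) e2 (by nlinarith)
      (by positivity) ?_ hrr
    · rw [sv_pt hL.ne', hz]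
    · rw [sv_pt_conj hL.ne', zeta_mirror hz hre]
    · intro hw
      rw [sv_pt hL.ne']
      rcases hex with h1 | h1
      · exfalso
        apply h1
        have h2 := congrArg Complex.im hw
        rw [Complex.conj_im, sv_im] at h2
        have h3 : L * (ρ.re - 1 / 2) = 0 := by linarith
        rcases mul_eq_zero.mp h3 with h4 | h4
        · exact absurd h4 hL.ne'
        · linarith
      · exact h1
    · rw [hn]
      exact pow_le_pow_left₀ (by positivity) (by rw [mul_comm]; exact hρ) 2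
  · rw [le_div_iff₀ hL] at hd
    rw [div_pow, le_div_iff₀ (by positivity)] at hpq
    have e : ∀ g : ℝ, (1 / 2 + I * (t + ((L * (g - t) : ℝ) : ℂ) / L) : ℂ) = 1 / 2 + g * I := by
      intro g
      push_cast
      field_simp
      ring
    have e2 : L * (γ - t) * (L * (γ' - t)) = (γ - t) * (γ' - t) * L ^ 2 := by ring
    refine pt3 hk hN hδ hL hA.pos hS (w₀ := ((L * (γ - t) : ℝ) : ℂ))
      (w₁ := ((L * (γ' - t) : ℝ) : ℂ)) (m := L * ((γ + γ') / 2 - t))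
      (c := (γ - t) * (γ' - t) * L ^ 2) ?_ ?_ ?_ (by push_cast; ring)
      (by rw [← e2]; push_cast; ring) ?_ (by positivity) hpq hrr
    · rw [e, hz]
    · rw [e, hz']
    · intro h
      exfalso
      have h2 : L * (γ - t) = L * (γ' - t) := by exact_mod_cast h
      have h3 := mul_left_cancel₀ hL.ne' h2
      exact hne (by linarith)
    · have e3 : (L * ((γ + γ') / 2 - t)) ^ 2 - (γ - t) * (γ' - t) * L ^ 2 =
          (|γ - γ'| * L) ^ 2 / 4 := by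
        rw [mul_pow (|γ - γ'|), sq_abs]
        ring
      rw [e3]
      have h4 : (|γ - γ'| * L) ^ 2 ≤ (2 * Real.pi) ^ 2 :=
        pow_le_pow_left₀ (by positivity) hd 2
      linarith

end

end Q63.RZ
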