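import Pool.Agent.Q63.RZ.Pz

/-!
# The maximum of the zeta function over a long bounded window of the critical line is not small
-/

set_option autoImplicit false

open Complex Filter Topology Set MeasureTheory Q97.MM

namespace Q63.RZ

noncomputable section

open ArithmeticFunction in
theorem low_three_half : ∃ c : ℝ, 0 < c ∧ ∀ v : ℝ, c ≤ ‖riemannZeta (((3 / 2 : ℝ) : ℂ) + v * I)‖ := by
  set s₀ : ℂ := ((3 / 2 : ℝ) : ℂ) with hs₀
  have hs : LSeriesSummable 1 s₀ := by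
    rw [LSeriesSummable_one_iff]
    rw [hs₀, Complex.ofReal_re]
    norm_num
  set C : ℝ := ∑' n, ‖LSeries.term 1 s₀ n‖ with hC
  have hC0 : 0 ≤ C := tsum_nonneg fun n => norm_nonneg _
  refine ⟨1 / (C + 1), by positivity, fun v => ?_⟩
  set s : ℂ := ((3 / 2 : ℝ) : ℂ) + v * I with hsdef
  have hre : s.re = 3 / 2 := by rw [hsdef]; simp
  have h1 : 1 < s.re := by rw [hre]; norm_num
  have h2 := LSeries_one_mul_Lseries_moebius h1
  rw [LSeries_one_eq_riemannZeta h1] at h2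
  have h3 : ∀ n, ‖LSeries.term (fun n => ((moebius n : ℤ) : ℂ)) s n‖ ≤ ‖LSeries.term 1 s₀ n‖ := by
    intro n
    refine (LSeries.norm_term_le (g := 1) s ?_).trans ?_
    · rw [Pi.one_apply, norm_one]
      exact_mod_cast abs_moebius_le_one
    · apply LSeries.norm_term_le_of_re_le_re
      rw [hre, hs₀, Complex.ofReal_re]
  have h4 : Summable fun n => ‖LSeries.term (fun n => ((moebius n : ℤ) : ℂ)) s n‖ :=
    Summable.of_nonneg_of_le (fun n => norm_nonneg _) h3 hs.norm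
  have h5 : ‖LSeries (fun n => ((moebius n : ℤ) : ℂ)) s‖ ≤ C :=
    (norm_tsum_le_tsum_norm h4).trans (h4.tsum_le_tsum h3 hs.norm)
  have h6 : ‖riemannZeta s‖ * ‖LSeries (fun n => ((moebius n : ℤ) : ℂ)) s‖ = 1 := by
    rw [← norm_mul, h2, norm_one]
  have h7 : 1 ≤ ‖riemannZeta s‖ * (C + 1) := by
    rw [← h6]
    exact mul_le_mul_of_nonneg_left (by linarith) (norm_nonneg _)
  rw [div_le_iff₀ (by positivity)]
  exact h7

/-- three lines -/
theorem three' {t c D L M σ : ℝ} (ht : 9 ≤ t) (hL : L = Real.log t) (hD : 1 ≤ D) (hLD : D ^ 2 ≤ L)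
    (hc : |c - t| ≤ 1) (hM1 : t⁻¹ ≤ M)
    (hM : ∀ u : ℝ, |u - t| ≤ D + 1 → ‖riemannZeta (1 / 2 + u * I)‖ ≤ M)
    (h0 : 0 ≤ σ) (h1 : σ ≤ 3 / 2) :
    ‖riemannZeta (((1 / 2 + σ : ℝ) : ℂ) + c * I)‖ ≤
      (t + D + 2) / (t - 1) * M * ((4 * Real.exp (23 * L / D ^ 2)) / M) ^ (σ / (3 / 2)) := by
  have ht0 : 0 < t := by linarith
  have hM0 : 0 < M := lt_of_lt_of_le (inv_pos.mpr ht0) hM1
  have hc' := abs_le.mp hc
  set A := 10 * L / D ^ 2 with hA
  have hD2 : 0 < D ^ 2 := by positivity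
  have hL1 : 1 ≤ L := by nlinarith
  have hA0 : 0 ≤ A := by positivity
  set z : ℂ := ((1 / 2 + σ : ℝ) : ℂ) + c * I with hz
  have hzre : z.re = 1 / 2 + σ := by rw [hz]; simp
  have hT := HadamardThreeLines.norm_le_interp_of_mem_verticalClosedStrip' (f := sf A c) (z := z)
    (a := (t + D + 2) * M) (b := 4 * (t + D + 2) * Real.exp (23 * L / D ^ 2)) (l := 1 / 2) (u := 2)
    (by norm_num) (by
      change z.re ∈ Icc (1 / 2 : ℝ) 2
      rw [hzre]
      constructor <;> linarith) (sf_diff A c).diffContOnCl (sf_bdd ht hD hLD hc) (by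
      intro w hw
      have hw' : w.re = 1 / 2 := hw
      have e : w = ((1 / 2 : ℝ) : ℂ) + w.im * I := by
        rw [← hw']; exact (Complex.re_add_im w).symm
      rw [e]
      exact left_bd ht hL hD hLD hc hM1 hM _) (by
      intro w hw
      have hw' : w.re = 2 := hw
      have e : w = ((2 : ℝ) : ℂ) + w.im * I := by
        rw [← hw']; exact (Complex.re_add_im w).symm
      rw [e]
      exact right_bd ht hD hLD hc _)
  rw [hzre, show 1 / 2 + σ - 1 / 2 = σ by ring, show (2 : ℝ) - 1 / 2 = 3 / 2 by norm_num] at hT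
  set θ := σ / (3 / 2) with hθ
  have hP : 0 < (t + D + 2) := by linarith
  have e1 : ((t + D + 2) * M) ^ (1 - θ) * (4 * (t + D + 2) * Real.exp (23 * L / D ^ 2)) ^ θ =
      (t + D + 2) * M * ((4 * Real.exp (23 * L / D ^ 2)) / M) ^ θ := by
    have e2 : 4 * (t + D + 2) * Real.exp (23 * L / D ^ 2) =
        ((t + D + 2) * M) * ((4 * Real.exp (23 * L / D ^ 2)) / M) := by
      field_simp
    have key : ∀ P Q : ℝ, 0 < P → 0 ≤ Q → P ^ (1 - θ) * (P * Q) ^ θ = P * Q ^ θ := by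
      intro P Q hP hQ
      rw [Real.mul_rpow hP.le hQ, ← mul_assoc, ← Real.rpow_add hP, sub_add_cancel, Real.rpow_one]
    rw [e2]
    exact key _ _ (by positivity) (by positivity)
  rw [e1] at hT
  have h2 : ‖Z1 z‖ ≤ ‖sf A c z‖ := by
    rw [hz, sf_norm]
    refine le_mul_of_one_le_right (norm_nonneg _) ?_
    rw [Real.one_le_exp_iff, sub_self]
    have : 0 ≤ (1 / 2 + σ - 1 / 2) ^ 2 := sq_nonneg _
    nlinarith
  have hne : z ≠ 1 := by
    intro h
    have := congrArg Complex.im h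
    rw [hz] at this
    simp at this
    linarith [hc'.1]
  have h3 : t - 1 ≤ ‖z - 1‖ := by
    have h4 := Complex.abs_im_le_norm (z - 1)
    have h5 : (z - 1).im = c := by rw [hz]; simp
    rw [h5, abs_of_pos (by linarith [hc'.1])] at h4
    linarith [hc'.1]
  have h4 : ‖Z1 z‖ = ‖z - 1‖ * ‖riemannZeta z‖ := by rw [Z1_of_ne hne, norm_mul]
  have h5 : (t - 1) * ‖riemannZeta z‖ ≤ (t + D + 2) * M * ((4 * Real.exp (23 * L / D ^ 2)) / M) ^ θ := by
    calc (t - 1) * ‖riemannZeta z‖ ≤ ‖z - 1‖ * ‖riemannZeta z‖ := by gcongr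
      _ = ‖Z1 z‖ := h4.symm
      _ ≤ _ := h2.trans hT
  have ht1 : 0 < t - 1 := by linarith
  calc ‖riemannZeta z‖ = (t - 1) * ‖riemannZeta z‖ / (t - 1) := by field_simp
    _ ≤ ((t + D + 2) * M * ((4 * Real.exp (23 * L / D ^ 2)) / M) ^ θ) / (t - 1) := by gcongr
    _ = _ := by ring

/-- the maximum over a long bounded window is at least `t ^ (-η)` -/
theorem wmax {η₀ : ℝ} (hη₀ : 0 < η₀) : ∃ D : ℝ, 1 ≤ D ∧
    ∀ᶠ t : ℝ in atTop, ∀ M : ℝ, Win t D M → t ^ (-η₀) ≤ M := by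
  obtain ⟨c₀, hc₀, hlow⟩ := low_three_half
  set η : ℝ := min 1 η₀ with hη
  have hη0 : 0 < η := lt_min one_pos hη₀
  have hη1 : η ≤ 1 := min_le_left _ _
  have hη2 : η ≤ η₀ := min_le_right _ _
  set D : ℝ := max 1 (92 / η) with hDdef
  have hD1 : 1 ≤ D := le_max_left _ _
  have hDη : 92 / η ≤ D ^ 2 := by
    have h1 : 92 / η ≤ D := le_max_right _ _
    nlinarith
  have hD2 : 0 < D ^ 2 := by positivity
  refine ⟨D + 1, by linarith, ?_⟩
  have l1 := Real.tendsto_log_atTop.eventually_ge_atTop (D ^ 2)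
  have l2 := Real.tendsto_log_atTop.eventually_gt_atTop (6 / η * Real.log (16 / c₀))
  filter_upwards [l1, l2, eventually_ge_atTop 9, eventually_ge_atTop (D + 4)] with t
    h1 h2 h4 h5 M hM
  by_contra hlt
  rw [not_le] at hlt
  set L := Real.log t with hL
  have ht0 : 0 < t := by linarith
  have hL0 : 0 < L := by nlinarith
  have hlt' : M ≤ t ^ (-η) := hlt.le.trans
    (Real.rpow_le_rpow_of_exponent_le (by linarith) (by linarith))
  set M' : ℝ := t ^ (-η) with hM'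
  have hM'0 : 0 < M' := Real.rpow_pos_of_pos ht0 _
  have hM'1 : t⁻¹ ≤ M' := by
    rw [hM', ← Real.rpow_neg_one]
    exact Real.rpow_le_rpow_of_exponent_le (by linarith) (by linarith)
  have key := three' (c := t) h4 hL hD1 h1 (by simp) hM'1 (fun u hu => (hM u hu).trans hlt')
    (by norm_num : (0 : ℝ) ≤ 1) (by norm_num)
  have e0 : (((1 / 2 + 1 : ℝ) : ℂ) + t * I) = (((3 / 2 : ℝ) : ℂ) + t * I) := by norm_num
  rw [e0] at key
  have key2 := (hlow t).trans key
  have a1 : (t + D + 2) / (t - 1) ≤ 4 := by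
    rw [div_le_iff₀ (by linarith)]
    linarith
  have hMexp : M' = Real.exp (-(η * L)) := by
    rw [hM', Real.rpow_def_of_pos ht0]
    congr 1
    ring
  have a2 : ((4 * Real.exp (23 * L / D ^ 2)) / M') ^ ((1 : ℝ) / (3 / 2)) ≤
      4 * Real.exp (5 / 6 * (η * L)) := by
    have b0 : (4 * Real.exp (23 * L / D ^ 2)) / M' = 4 * Real.exp (23 * L / D ^ 2 + η * L) := by
      rw [hMexp, Real.exp_neg, Real.exp_add]
      field_simp
    rw [b0, Real.mul_rpow (by norm_num) (Real.exp_pos _).le, ← Real.exp_mul]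
    have b1 : (4 : ℝ) ^ ((1 : ℝ) / (3 / 2)) ≤ 4 := by
      calc (4 : ℝ) ^ ((1 : ℝ) / (3 / 2)) ≤ 4 ^ (1 : ℝ) :=
            Real.rpow_le_rpow_of_exponent_le (by norm_num) (by norm_num)
        _ = 4 := Real.rpow_one _
    have b2 : (23 * L / D ^ 2 + η * L) * (1 / (3 / 2)) ≤ 5 / 6 * (η * L) := by
      have b3 : 23 * L / D ^ 2 ≤ η * L / 4 := by
        rw [div_le_iff₀ hD2]
        have b4 : 92 ≤ D ^ 2 * η := by rwa [div_le_iff₀ hη0] at hDη
        nlinarith
      linarith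
    gcongr
  have a3 : c₀ ≤ 16 * Real.exp (-(η * L / 6)) := by
    calc c₀ ≤ (t + D + 2) / (t - 1) * M' *
          ((4 * Real.exp (23 * L / D ^ 2)) / M') ^ ((1 : ℝ) / (3 / 2)) := key2
      _ ≤ 4 * M' * (4 * Real.exp (5 / 6 * (η * L))) := by
          have h0 : 0 ≤ (t + D + 2) / (t - 1) := by
            apply div_nonneg <;> linarith
          gcongr
      _ = 16 * (Real.exp (-(η * L)) * Real.exp (5 / 6 * (η * L))) := by rw [hMexp]; ring
      _ = _ := by
          rw [← Real.exp_add]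
          congr 2
          ring
  have a4 : Real.log (16 / c₀) < η * L / 6 := by
    have h6 : 6 / η * Real.log (16 / c₀) < L := h2
    have h7 : 6 / η * Real.log (16 / c₀) = Real.log (16 / c₀) * 6 / η := by ring
    rw [h7, div_lt_iff₀ hη0] at h6
    linarith
  have a5 : 16 / c₀ < Real.exp (η * L / 6) := by
    rw [← Real.log_lt_iff_lt_exp (by positivity)]
    exact a4
  rw [Real.exp_neg] at a3
  have h8 := Real.exp_pos (η * L / 6)
  rw [div_lt_iff₀ hc₀] at a5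
  have h9 : c₀ * Real.exp (η * L / 6) ≤ 16 := by
    calc c₀ * Real.exp (η * L / 6) ≤ 16 * (Real.exp (η * L / 6))⁻¹ * Real.exp (η * L / 6) := by gcongr
      _ = 16 := by field_simp
  linarith

/-- the two-point inequality without a lower bound for `M` -/
theorem tpw {ε : ℝ} (hε : 0 < ε) : ∃ D : ℝ, 1 ≤ D ∧
    ∀ᶠ t : ℝ in atTop, ∀ M : ℝ, Win t D M → 0 < M ∧ TP ε t M := by
  obtain ⟨D₁, hD₁, η, hη, H⟩ := tp hε
  obtain ⟨D₂, hD₂, H₂⟩ := wmax hη
  refine ⟨max D₁ D₂, hD₁.trans (le_max_left _ _), ?_⟩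
  filter_upwards [H, H₂, eventually_gt_atTop 0] with t h1 h2 h3 M hM
  have h4 : t ^ (-η) ≤ M := h2 M fun u hu => hM u (hu.trans (le_max_right _ _))
  exact ⟨lt_of_lt_of_le (Real.rpow_pos_of_pos h3 _) h4,
    h1 M h4 fun u hu => hM u (hu.trans (le_max_left _ _))⟩

/-- the bound between two zeros without a lower bound for `M` -/
theorem tzw {ε : ℝ} (hε : 0 < ε) : ∃ D : ℝ, 1 ≤ D ∧
    ∀ᶠ t : ℝ in atTop, ∀ M : ℝ, Win t D M → ∀ γ γ' : ℝ, γ ≤ t → t ≤ γ' →
      (γ' - γ) * Real.log t ≤ 2 * Real.pi → riemannZeta (1 / 2 + I * γ) = 0 →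
      riemannZeta (1 / 2 + I * γ') = 0 →
      ‖riemannZeta (1 / 2 + I * t)‖ ≤
        (1 + ε) * Real.cos (Real.sqrt (Real.pi ^ 2 - Real.log t ^ 2 * ((t - γ) * (γ' - t))) / 2) * M := by
  obtain ⟨D₁, hD₁, η, hη, H⟩ := tz hε
  obtain ⟨D₂, hD₂, H₂⟩ := wmax hη
  refine ⟨max D₁ D₂, hD₁.trans (le_max_left _ _), ?_⟩
  filter_upwards [H, H₂] with t h1 h2 M hM
  have h4 : t ^ (-η) ≤ M := h2 M fun u hu => hM u (hu.trans (le_max_right _ _))
  exact h1 M h4 fun u hu => hM u (hu.trans (le_max_left _ _))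

end

end Q63.RZ
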