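import Pool.Agent.Q63.RZ.Tr
import Pool.Agent.Q63.RZ.Wm

/-!
# The zeta function near two symmetric zeros
-/

set_option autoImplicit false

open Complex Filter Topology Set MeasureTheory

namespace Q63.RZ

noncomputable section

/-- the point `1/2 + i (t + w / log t)` -/
def ph (t : ℝ) (w : ℂ) : ℂ := 1 / 2 + I * (t + w / Real.log t)

theorem hz_ph (t : ℝ) (w : ℂ) : hz t w = riemannZeta (ph t w) * Complex.exp (I * w / 2) := rfl

theorem ph_open (t : ℝ) : IsOpen {w : ℂ | ph t w ≠ 1} := by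
  apply isOpen_ne_fun
  · unfold ph; fun_prop
  · fun_prop

theorem ph_hasDeriv (t : ℝ) (w : ℂ) : HasDerivAt (ph t) (I * (1 / Real.log t)) w := by
  unfold ph
  have h1 : HasDerivAt (fun w : ℂ => (t : ℂ) + w / Real.log t) (1 / (Real.log t : ℂ)) w :=
    ((hasDerivAt_id' w).div_const _).const_add _
  exact (h1.const_mul I).const_add _

theorem hz_hasDeriv {t : ℝ} {w : ℂ} (hw : ph t w ≠ 1) :
    HasDerivAt (hz t) (deriv riemannZeta (ph t w) * (I * (1 / Real.log t)) * Complex.exp (I * w / 2) +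
      riemannZeta (ph t w) * (Complex.exp (I * w / 2) * (I * 1 / 2))) w := by
  have h1 : HasDerivAt (fun w => riemannZeta (ph t w))
      (deriv riemannZeta (ph t w) * (I * (1 / Real.log t))) w :=
    (differentiableAt_riemannZeta hw).hasDerivAt.comp w (ph_hasDeriv t w)
  have h2 : HasDerivAt (fun w : ℂ => Complex.exp (I * w / 2)) (Complex.exp (I * w / 2) * (I * 1 / 2)) w :=
    (((hasDerivAt_id' w).const_mul I).div_const 2).cexp
  exact h1.fun_mul h2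

theorem hz_diffOn (t : ℝ) : DifferentiableOn ℂ (hz t) {w : ℂ | ph t w ≠ 1} := fun _ hw =>
  (hz_hasDeriv hw).differentiableAt.differentiableWithinAt

/-- `w₀`, `w₁` are two zeros (a double one if they are equal) -/
structure TwoZ (t : ℝ) (w₀ w₁ : ℂ) : Prop where
  z0 : riemannZeta (ph t w₀) = 0
  z1 : riemannZeta (ph t w₁) = 0
  dz : w₀ = w₁ → deriv riemannZeta (ph t w₀) = 0

theorem ne_one_of_zero {s : ℂ} (h : riemannZeta s = 0) : s ≠ 1 := by
  rintro rfl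
  exact riemannZeta_one_ne_zero h

theorem TwoZ.fac {t : ℝ} {w₀ w₁ : ℂ} (h : TwoZ t w₀ w₁) : ∃ g : ℂ → ℂ,
    DifferentiableOn ℂ g {w : ℂ | ph t w ≠ 1} ∧ ∀ w, hz t w = (w - w₀) * (w - w₁) * g w := by
  set U := {w : ℂ | ph t w ≠ 1} with hU
  have hUo : IsOpen U := ph_open t
  have m0 : w₀ ∈ U := ne_one_of_zero h.z0
  have m1 : w₁ ∈ U := ne_one_of_zero h.z1
  have f0 : hz t w₀ = 0 := by rw [hz_ph, h.z0, zero_mul]
  have f1 : hz t w₁ = 0 := by rw [hz_ph, h.z1, zero_mul]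
  have d1 : DifferentiableOn ℂ (dslope (hz t) w₀) U :=
    (Complex.differentiableOn_dslope (hUo.mem_nhds m0)).mpr (hz_diffOn t)
  have d2 : DifferentiableOn ℂ (dslope (dslope (hz t) w₀) w₁) U :=
    (Complex.differentiableOn_dslope (hUo.mem_nhds m1)).mpr d1
  have e0 : dslope (hz t) w₀ w₁ = 0 := by
    by_cases hw : w₀ = w₁
    · subst hw
      rw [dslope_same, (hz_hasDeriv m0).deriv, h.dz rfl, h.z0]
      ring
    · rw [dslope_of_ne _ (Ne.symm hw), slope_def_module, f0, f1, sub_self, smul_zero]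
  refine ⟨dslope (dslope (hz t) w₀) w₁, d2, fun w => ?_⟩
  have a1 := sub_smul_dslope (hz t) w₀ w
  have a2 := sub_smul_dslope (dslope (hz t) w₀) w₁ w
  rw [f0, sub_zero, smul_eq_mul] at a1
  rw [e0, sub_zero, smul_eq_mul] at a2
  rw [← a1, ← a2]
  ring

theorem pz2 {ε : ℝ} (hε : 0 < ε) : ∃ D : ℝ, 1 ≤ D ∧
    ∀ᶠ t : ℝ in atTop, ∀ M : ℝ, Win t D M → ∀ (w₀ w₁ : ℂ) (m c : ℝ), TwoZ t w₀ w₁ →
      w₀ + w₁ = (2 * m : ℝ) → w₀ * w₁ = (c : ℂ) → m ^ 2 - c ≤ Real.pi ^ 2 → c ≤ 3 * Real.pi ^ 2 →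
      ‖riemannZeta (1 / 2 + t * I)‖ ≤
        (1 + ε) * |Real.cos (Real.sqrt (Real.pi ^ 2 + c) / 2)| * M := by
  have hπ := Real.pi_pos
  set ε₁ : ℝ := min 1 (ε / 3) with hε₁
  have hε₁0 : 0 < ε₁ := lt_min one_pos (by positivity)
  have hε₁1 : ε₁ ≤ 1 := min_le_left _ _
  have hε₁2 : ε₁ ≤ ε / 3 := min_le_right _ _
  obtain ⟨N, hN⟩ := exists_nat_gt (max 120 (4560 / ε₁))
  have hN2 : (120 : ℝ) < N := lt_of_le_of_lt (le_max_left _ _) hN
  have hN3 : 4560 / ε₁ < N := lt_of_le_of_lt (le_max_right _ _) hN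
  have hN120 : 120 ≤ N := by
    have : (120 : ℝ) ≤ N := hN2.le
    exact_mod_cast this
  have hN0 : (0 : ℝ) < N := by linarith
  have hδ : 4560 / (N : ℝ) ≤ ε₁ := by
    rw [div_lt_iff₀ hε₁0] at hN3
    rw [div_le_iff₀ hN0]
    linarith
  have hRR := RR_pos N
  obtain ⟨D₁, hD₁, η, hη, H⟩ := near_line (K := RR N + 2 * Real.pi)
    (by linarith [Real.pi_gt_three]) hε₁0
  obtain ⟨D₂, hD₂, H₂⟩ := wmax hη
  refine ⟨max (D₁ + 1) D₂, le_trans (by linarith) (le_max_left _ _), ?_⟩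
  have l1 := Real.tendsto_log_atTop.eventually_gt_atTop (RR N + 2 * Real.pi)
  filter_upwards [H, H₂, l1, eventually_ge_atTop 9] with t ht H₂t h1 h9 M hM w₀ w₁ m c hT hs hp hk hc
  set L := Real.log t with hL
  have hL0 : 0 < L := lt_trans (by positivity) h1
  have ht0 : 0 < t := by linarith
  have hM1 : t ^ (-η) ≤ M := H₂t M fun u hu => hM u (hu.trans (le_max_right _ _))
  have hM0 : 0 < M := lt_of_lt_of_le (Real.rpow_pos_of_pos ht0 _) hM1
  have hself : ‖riemannZeta (1 / 2 + t * I)‖ ≤ M :=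
    hM t (by rw [sub_self, abs_zero]; exact le_trans (by linarith) (le_max_left _ _))
  rcases hc.eq_or_lt with hc3 | hc3
  · have e1 : Real.sqrt (Real.pi ^ 2 + c) / 2 = Real.pi := by
      rw [hc3, show Real.pi ^ 2 + 3 * Real.pi ^ 2 = (2 * Real.pi) ^ 2 by ring,
        Real.sqrt_sq (by positivity)]
      ring
    rw [e1, Real.cos_pi, abs_neg, abs_one]
    nlinarith
  set κ : ℝ := (Real.pi ^ 2 - m ^ 2 + c) / 4 with hκ
  have hMK : MK m κ := ⟨by rw [hκ]; linarith, by rw [hκ]; linarith⟩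
  obtain ⟨g, hg, hfac⟩ := hT.fac
  have hQ : ∀ w : ℂ, Qp m κ w = (w - w₀) * (w - w₁) := by
    intro w
    have e1 : (w - w₀) * (w - w₁) = w ^ 2 - (w₀ + w₁) * w + w₀ * w₁ := by ring
    rw [e1, hs, hp, Qp, hκ]
    push_cast
    ring
  have hm2 := hMK.m_lt
  have hRK : ∀ w ∈ Sc m N, |w.re| ≤ RR N + 2 * Real.pi ∧ |w.im| ≤ RR N + 2 * Real.pi := by
    rintro w ⟨h3, h4⟩
    rw [mem_preimage] at h3 h4
    have h5 := abs_lt.mp hm2
    refine ⟨?_, ?_⟩
    · rw [abs_le]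
      constructor <;> linarith [h3.1, h3.2, h5.1, h5.2]
    · rw [abs_le]
      constructor <;> linarith [h4.1, h4.2]
  have hsub : Sc m N ⊆ {w : ℂ | ph t w ≠ 1} := by
    intro w hw h
    have h5 := congrArg Complex.im h
    rw [ph, ← hL, arg_eq] at h5
    simp at h5
    have h6 := (hRK w hw).1
    have h7 : |w.re / L| ≤ 1 := by
      rw [abs_div, abs_of_pos hL0, div_le_one hL0]
      linarith
    have h8 := (abs_le.mp h7).1
    linarith
  have key := pair_zero (f := hz t) hMK hN120 (ph_open t) hsub hg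
    (fun w _ => by rw [hfac w, hQ w]) (M := (1 + ε₁) * M) (by positivity) (by
      intro w hw
      have h6 := hRK w hw
      exact ht M hM1 (fun u hu => hM u (hu.trans (le_max_left _ _))) w h6.1 h6.2)
  have e0 : ‖hz t 0‖ = ‖riemannZeta (1 / 2 + t * I)‖ := by
    rw [Q63.RZ.hz]
    simp [mul_comm]
  have e1 : tq m κ = Real.sqrt (Real.pi ^ 2 + c) / 2 := by
    rw [tq, hκ]
    congr 2
    ring
  rw [e1] at key
  set C := |Real.cos (Real.sqrt (Real.pi ^ 2 + c) / 2)| with hC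
  have hC0 : 0 ≤ C := abs_nonneg _
  have h10 : (1 + ε₁) * (1 + 4560 / (N : ℝ)) ≤ 1 + ε := by
    calc (1 + ε₁) * (1 + 4560 / (N : ℝ)) ≤ (1 + ε₁) * (1 + ε₁) := by gcongr
      _ ≤ 1 + ε := by nlinarith
  calc ‖riemannZeta (1 / 2 + t * I)‖ = ‖Q63.RZ.hz t 0‖ := e0.symm
    _ ≤ (1 + ε₁) * M * (C * (1 + 4560 / N)) := key
    _ = ((1 + ε₁) * (1 + 4560 / N)) * C * M := by ring
    _ ≤ _ := by gcongr

end

end Q63.RZ
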