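import Pool.Agent.Q63.RZ.Zb

/-!
# The zeta function at distance `O(1 / log t)` from the critical line
-/

set_option autoImplicit false

open Complex Filter Topology Set MeasureTheory Q97.MM H345 H345.Chi

namespace Q63.RZ

noncomputable section

/-- the window hypothesis -/
def Win (t D M : ℝ) : Prop := ∀ u : ℝ, |u - t| ≤ D → ‖riemannZeta (1 / 2 + u * I)‖ ≤ M

theorem right1 {K ε : ℝ} (hK : 1 ≤ K) (hε : 0 < ε) : ∃ D : ℝ, 1 ≤ D ∧ ∃ η : ℝ, 0 < η ∧ η ≤ 1 ∧
    ∀ᶠ t : ℝ in atTop, ∀ M : ℝ, t ^ (-η) ≤ M → Win t (D + 1) M → ∀ c σ : ℝ, |c - t| ≤ 1 → 0 ≤ σ →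
      σ ≤ K / Real.log t → ‖riemannZeta (((1 / 2 + σ : ℝ) : ℂ) + c * I)‖ ≤ (1 + ε) * M := by
  set δ : ℝ := Real.log (1 + ε) / 4 with hδ
  have hδ0 : 0 < δ := by
    have := Real.log_pos (by linarith : (1 : ℝ) < 1 + ε)
    positivity
  have hδe : Real.exp (4 * δ) = 1 + ε := by
    rw [hδ, mul_div_cancel₀ _ (by norm_num : (4 : ℝ) ≠ 0), Real.exp_log (by linarith)]
  have hK0 : 0 < K := by linarith
  set D : ℝ := max 1 (23 * K / δ) with hD
  have hD1 : 1 ≤ D := le_max_left _ _
  have hD2 : 23 * K / D ^ 2 ≤ δ := by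
    have h1 : 23 * K / δ ≤ D := le_max_right _ _
    rw [div_le_iff₀ hδ0] at h1
    rw [div_le_iff₀ (by positivity)]
    calc 23 * K ≤ D * δ := h1
      _ = δ * D := mul_comm _ _
      _ ≤ δ * D ^ 2 := by
          have : D ≤ D ^ 2 := by nlinarith
          gcongr
  set η : ℝ := min 1 (δ / K) with hη
  have hη0 : 0 < η := lt_min one_pos (by positivity)
  have hη1 : η ≤ 1 := min_le_left _ _
  have hηK : η * K ≤ δ := by
    have h1 : η ≤ δ / K := min_le_right _ _
    rwa [le_div_iff₀ hK0] at h1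
  refine ⟨D, hD1, η, hη0, hη1, ?_⟩
  have l1 := Real.tendsto_log_atTop.eventually_ge_atTop (D ^ 2)
  have l2 := Real.tendsto_log_atTop.eventually_ge_atTop (2 * K / δ)
  have l3 := Real.tendsto_log_atTop.eventually_ge_atTop (4 * K)
  filter_upwards [l1, l2, l3, eventually_ge_atTop 9, eventually_ge_atTop ((D + 3) / δ + 1)] with t
    h1 h2 h3 h4 h5 M hM1 hM c σ hc hσ0 hσ1
  set L := Real.log t with hL
  have ht0 : 0 < t := by linarith
  have hL0 : 0 < L := by nlinarith
  have hM0 : 0 < M := lt_of_lt_of_le (Real.rpow_pos_of_pos ht0 _) hM1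
  have hM2 : t⁻¹ ≤ M := by
    refine le_trans ?_ hM1
    rw [← Real.rpow_neg_one]
    exact Real.rpow_le_rpow_of_exponent_le (by linarith) (by linarith)
  have hσ4 : σ ≤ 1 / 4 := by
    refine hσ1.trans ?_
    rw [div_le_iff₀ hL0]
    linarith
  have key := three h4 hL hD1 h1 hc hM2 hM hσ0 hσ4
  refine key.trans ?_
  have a1 : (t + D + 2) / (t - 1) ≤ Real.exp δ := by
    have ht1 : 0 < t - 1 := by linarith
    have h6 : (D + 3) / δ ≤ t - 1 := by linarith
    rw [div_le_iff₀ hδ0] at h6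
    have h7 := Real.add_one_le_exp δ
    rw [div_le_iff₀ ht1]
    calc t + D + 2 ≤ (δ + 1) * (t - 1) := by linarith
      _ ≤ _ := by gcongr
  have a2 : ((4 * Real.exp (23 * L / D ^ 2)) / M) ^ (σ / (3 / 2)) ≤ Real.exp (3 * δ) := by
    have b1 : (4 * Real.exp (23 * L / D ^ 2)) / M ≤ Real.exp (2 + 23 * L / D ^ 2 + η * L) := by
      have c1 : M⁻¹ ≤ Real.exp (η * L) := by
        rw [inv_le_comm₀ hM0 (Real.exp_pos _), ← Real.exp_neg]
        refine le_trans (le_of_eq ?_) hM1
        rw [Real.rpow_def_of_pos ht0]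
        congr 1
        ring
      have c2 : (4 : ℝ) ≤ Real.exp 2 := by
        have := Real.exp_one_gt_d9
        have e : Real.exp 2 = Real.exp 1 * Real.exp 1 := by rw [← Real.exp_add]; norm_num
        rw [e]
        nlinarith
      rw [div_eq_mul_inv, Real.exp_add, Real.exp_add]
      gcongr
    have b2 : 0 ≤ σ / (3 / 2) := by positivity
    have b3 : σ / (3 / 2) ≤ K / L := by
      refine le_trans ?_ hσ1
      rw [div_le_iff₀ (by norm_num)]
      linarith
    calc ((4 * Real.exp (23 * L / D ^ 2)) / M) ^ (σ / (3 / 2))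
        ≤ (Real.exp (2 + 23 * L / D ^ 2 + η * L)) ^ (σ / (3 / 2)) :=
          Real.rpow_le_rpow (by positivity) b1 b2
      _ = Real.exp ((2 + 23 * L / D ^ 2 + η * L) * (σ / (3 / 2))) := by rw [← Real.exp_mul]
      _ ≤ Real.exp ((2 + 23 * L / D ^ 2 + η * L) * (K / L)) := by gcongr
      _ = Real.exp (2 * K / L + 23 * K / D ^ 2 + η * K) := by
          congr 1
          field_simp
      _ ≤ Real.exp (3 * δ) := by
          apply Real.exp_le_exp.mpr
          have : 2 * K / L ≤ δ := by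
            rw [div_le_iff₀ hδ0] at h2
            rw [div_le_iff₀ hL0]
            linarith
          linarith
  calc (t + D + 2) / (t - 1) * M * ((4 * Real.exp (23 * L / D ^ 2)) / M) ^ (σ / (3 / 2))
      ≤ Real.exp δ * M * Real.exp (3 * δ) := by
        have : 0 ≤ (t + D + 2) / (t - 1) := by
          apply div_nonneg <;> linarith
        gcongr
    _ = (Real.exp δ * Real.exp (3 * δ)) * M := by ring
    _ = (1 + ε) * M := by
        rw [← Real.exp_add, ← hδe]; congr 2; ring

/-- the scaled zeta function -/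
def hz (t : ℝ) (w : ℂ) : ℂ :=
  riemannZeta (1 / 2 + I * (t + w / Real.log t)) * Complex.exp (I * w / 2)

theorem arg_eq (t L : ℝ) (w : ℂ) : (1 / 2 + I * (t + w / (L : ℂ)) : ℂ) =
    ((1 / 2 - w.im / L : ℝ) : ℂ) + ((t + w.re / L : ℝ) : ℂ) * I := by
  have e : w = (w.re : ℂ) + w.im * I := (Complex.re_add_im w).symm
  apply Complex.ext
  · simp [Complex.div_re, Complex.div_im, Complex.normSq_apply]
    rcases eq_or_ne L 0 with h | h
    · simp [h]
    · field_simp
      ring
  · simp [Complex.div_re, Complex.div_im, Complex.normSq_apply]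

theorem hz_norm (t : ℝ) (w : ℂ) : ‖hz t w‖ =
    ‖riemannZeta (((1 / 2 - w.im / Real.log t : ℝ) : ℂ) + ((t + w.re / Real.log t : ℝ) : ℂ) * I)‖ *
      Real.exp (-(w.im / 2)) := by
  rw [hz, norm_mul, arg_eq, Complex.norm_exp]
  congr 2
  simp
  ring

theorem near_line {K ε : ℝ} (hK : 1 ≤ K) (hε : 0 < ε) : ∃ D : ℝ, 1 ≤ D ∧ ∃ η : ℝ, 0 < η ∧
    ∀ᶠ t : ℝ in atTop, ∀ M : ℝ, t ^ (-η) ≤ M → Win t (D + 1) M → ∀ w : ℂ, |w.re| ≤ K → |w.im| ≤ K →
      ‖hz t w‖ ≤ (1 + ε) * M * Real.exp (|w.im| / 2) := by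
  set ε' : ℝ := min 1 (ε / 3) with hε'
  have hε'0 : 0 < ε' := lt_min one_pos (by positivity)
  obtain ⟨D, hD, η, hη, _, H⟩ := right1 hK hε'0
  refine ⟨D, hD, η, hη, ?_⟩
  have l1 := Real.tendsto_log_atTop.eventually_ge_atTop (4 * K)
  have l2 := Real.tendsto_log_atTop.eventually_ge_atTop (14 * K / Real.log (1 + ε'))
  filter_upwards [H, l1, l2, eventually_ge_atTop 28] with t ht h1 h2 h3 M hM1 hM w hw1 hw2
  have hπ := Real.pi_gt_three
  have hK0 : 0 < K := by linarith
  have ht0 : 0 < t := by linarith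
  set L := Real.log t with hL
  have hL0 : 0 < L := by linarith
  have hM0 : 0 < M := lt_of_lt_of_le (Real.rpow_pos_of_pos ht0 _) hM1
  have hle : (1 + ε') * (1 + ε') ≤ 1 + ε := by
    have a1 : ε' ≤ 1 := min_le_left _ _
    have a2 : ε' ≤ ε / 3 := min_le_right _ _
    nlinarith
  have hc : |(t + w.re / L) - t| ≤ 1 := by
    rw [add_sub_cancel_left, abs_div, abs_of_pos hL0, div_le_one hL0]
    linarith
  rw [hz_norm, ← hL]
  set c := t + w.re / L with hcdef
  have hσ : |w.im| / L ≤ K / L := by gcongr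
  have key := ht M hM1 hM c (|w.im| / L) hc (by positivity) hσ
  rcases le_or_gt w.im 0 with h | h
  · have e1 : (1 / 2 - w.im / L : ℝ) = 1 / 2 + |w.im| / L := by
      rw [abs_of_nonpos h]; ring
    have e2 : -(w.im / 2) = |w.im| / 2 := by rw [abs_of_nonpos h]; ring
    rw [e1, e2]
    have h5 : (1 + ε') * M ≤ (1 + ε) * M := by
      apply mul_le_mul_of_nonneg_right _ hM0.le
      nlinarith
    exact mul_le_mul_of_nonneg_right (key.trans h5) (Real.exp_pos _).le
  · have hσ0 : 0 ≤ w.im / L := by positivity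
    rw [abs_of_pos h] at key hσ
    have hc12 : 12 ≤ c := by
      have := (abs_le.mp hc).1
      linarith
    rw [zeta_sym (w.im / L) hc12]
    have hσ4 : w.im / L ≤ 1 / 4 := by
      refine hσ.trans ?_
      rw [div_le_iff₀ hL0]
      linarith
    have hX := (XX_two hσ0 hσ4 hc12).2
    have hlog : Real.log (c / (2 * Real.pi)) ≤ L := by
      apply Real.log_le_log (by positivity)
      rw [div_le_iff₀ (by positivity)]
      have := (abs_le.mp hc).2
      nlinarith
    have h14 : 14 / c * (w.im / L) ≤ Real.log (1 + ε') := by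
      have hlp : 0 < Real.log (1 + ε') := Real.log_pos (by linarith)
      rw [div_le_iff₀ hlp] at h2
      have hc1 : 14 / c ≤ 14 := by
        rw [div_le_iff₀ (by linarith)]
        linarith
      calc 14 / c * (w.im / L) ≤ 14 * (K / L) := by gcongr
        _ = 14 * K / L := by ring
        _ ≤ _ := by
            rw [div_le_iff₀ hL0]
            linarith
    have hX2 : ‖XX (((1 / 2 + w.im / L : ℝ) : ℂ) + (c : ℂ) * I)‖ ≤
        Real.exp w.im * (1 + ε') := by
      refine hX.trans ?_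
      have e3 : Real.exp w.im * (1 + ε') = Real.exp (w.im + Real.log (1 + ε')) := by
        rw [Real.exp_add, Real.exp_log (by linarith)]
      rw [e3]
      apply Real.exp_le_exp.mpr
      have h6 : w.im / L * Real.log (c / (2 * Real.pi)) ≤ w.im := by
        calc w.im / L * Real.log (c / (2 * Real.pi)) ≤ w.im / L * L := by gcongr
          _ = w.im := by field_simp
      linarith
    rw [abs_of_pos h]
    calc ‖XX (((1 / 2 + w.im / L : ℝ) : ℂ) + (c : ℂ) * I)‖ *
          ‖riemannZeta (((1 / 2 + w.im / L : ℝ) : ℂ) + c * I)‖ * Real.exp (-(w.im / 2))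
        ≤ (Real.exp w.im * (1 + ε')) * ((1 + ε') * M) * Real.exp (-(w.im / 2)) := by gcongr
      _ = ((1 + ε') * (1 + ε')) * M * (Real.exp w.im * Real.exp (-(w.im / 2))) := by ring
      _ = ((1 + ε') * (1 + ε')) * M * Real.exp (w.im / 2) := by
          rw [← Real.exp_add]; congr 2; ring
      _ ≤ _ := by gcongr

end

end Q63.RZ
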