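import Pool.Agent.Q63.RZ.Two2
import Pool.Agent.Q63.RZ.Zc

/-!
# The two-point inequality for the zeta function
-/

set_option autoImplicit false

open Complex Filter Topology Set MeasureTheory

namespace Q63.RZ

noncomputable section

/-- the two-point inequality at level `ε` -/
def TP (ε t M : ℝ) : Prop := ∀ α x : ℝ, -(Real.pi / 2) < α → α < Real.pi / 2 →
  |x| * Real.log t < 2 * α + Real.pi →
  ‖Complex.exp (I * (x * Real.log t / 2)) * riemannZeta (1 / 2 + I * (t + x)) * Real.cos α -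
      riemannZeta (1 / 2 + I * t) * Real.cos (|x| * Real.log t / 2 - α)‖ ≤
    (Real.sin (|x| * Real.log t / 2) + ε * (|x| * Real.log t / 2)) * M

theorem hz_diff {t e : ℝ} :
    DifferentiableOn ℂ (fun w : ℂ => hz t (e * w))
      {w : ℂ | (1 / 2 + I * (t + (e * w : ℂ) / Real.log t) : ℂ) ≠ 1} := by
  intro w hw
  apply DifferentiableAt.differentiableWithinAt
  have hw' : (1 / 2 + I * (t + (e * w : ℂ) / Real.log t) : ℂ) ≠ 1 := hw
  unfold hz
  apply DifferentiableAt.mul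
  · exact (differentiableAt_riemannZeta hw').comp w (f := fun w : ℂ =>
      (1 / 2 + I * (t + (e * w : ℂ) / Real.log t) : ℂ)) (by fun_prop)
  · fun_prop

theorem hz_open {t e : ℝ} :
    IsOpen {w : ℂ | (1 / 2 + I * (t + (e * w : ℂ) / Real.log t) : ℂ) ≠ 1} := by
  apply isOpen_ne_fun
  · fun_prop
  · fun_prop

theorem tp {ε : ℝ} (hε : 0 < ε) : ∃ D : ℝ, 1 ≤ D ∧ ∃ η : ℝ, 0 < η ∧
    ∀ᶠ t : ℝ in atTop, ∀ M : ℝ, t ^ (-η) ≤ M → Win t D M → TP ε t M := by
  have hπ := Real.pi_pos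
  have hπ4 := Real.pi_lt_d2
  set ε₁ : ℝ := min 1 (ε / 2) with hε₁
  have hε₁0 : 0 < ε₁ := lt_min one_pos (by positivity)
  have hε₁1 : ε₁ ≤ 1 := min_le_left _ _
  have hε₁2 : ε₁ ≤ ε / 2 := min_le_right _ _
  obtain ⟨N, hN⟩ := exists_nat_gt (max 2 (102 * 8 / ε))
  have hN2 : (2 : ℝ) < N := lt_of_le_of_lt (le_max_left _ _) hN
  have hN3 : 102 * 8 / ε < N := lt_of_le_of_lt (le_max_right _ _) hN
  have hN2' : 2 ≤ N := by
    have : (2 : ℝ) ≤ N := hN2.le
    exact_mod_cast this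
  have hN0 : (0 : ℝ) < N := by linarith
  have hδ : 102 / (N : ℝ) ≤ ε / 8 := by
    rw [div_lt_iff₀ hε] at hN3
    rw [div_le_iff₀ hN0]
    linarith
  obtain ⟨D, hD, η, hη, H⟩ := near_line (K := 2 * Real.pi * N + Real.pi) (by nlinarith [Real.pi_gt_three]) hε₁0
  refine ⟨D + 1, by linarith, η, hη, ?_⟩
  have l1 := Real.tendsto_log_atTop.eventually_gt_atTop (2 * Real.pi * N + Real.pi)
  filter_upwards [H, l1, eventually_ge_atTop 9] with t ht h1 h9 M hM1 hM α x hα1 hα2 hx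
  set L := Real.log t with hL
  have hL0 : 0 < L := lt_trans (by positivity) h1
  have ht0 : 0 < t := by linarith
  have hM0 : 0 < M := lt_of_lt_of_le (Real.rpow_pos_of_pos ht0 _) hM1
  rcases eq_or_ne x 0 with rfl | hx0
  · simp
  have hsx : 0 < |x| * L := mul_pos (abs_pos.mpr hx0) hL0
  obtain ⟨e, he1, he2⟩ : ∃ e : ℝ, |e| = 1 ∧ e * |x| = x := by
    rcases lt_or_gt_of_ne hx0 with h | h
    · exact ⟨-1, by simp, by rw [abs_of_neg h]; ring⟩
    · exact ⟨1, by simp, by rw [abs_of_pos h]; ring⟩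
  have hre : ∀ w : ℂ, ((e : ℂ) * w).re = e * w.re := fun w => by simp
  have him : ∀ w : ℂ, ((e : ℂ) * w).im = e * w.im := fun w => by simp
  have hRK : ∀ w ∈ Rc α N, |w.re| ≤ 2 * Real.pi * N + Real.pi ∧ |w.im| ≤ 2 * Real.pi * N := by
    rintro w ⟨h3, h4⟩
    rw [mem_preimage] at h3 h4
    refine ⟨?_, abs_le.mpr ⟨h4.1, h4.2⟩⟩
    rw [abs_le]
    constructor <;> linarith [h3.1, h3.2]
  have hsub : Rc α N ⊆ {w : ℂ | (1 / 2 + I * (t + (e * w : ℂ) / Real.log t) : ℂ) ≠ 1} := by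
    intro w hw h
    rw [← hL] at h
    have h5 := congrArg Complex.im h
    rw [arg_eq] at h5
    simp at h5
    have h6 := (hRK w hw).1
    have h7 : |e * w.re / L| ≤ 1 := by
      rw [abs_div, abs_of_pos hL0, div_le_one hL0, abs_mul, he1, one_mul]
      linarith
    have h8 := (abs_le.mp h7).1
    linarith
  have key := two_point hN2' hα1 hα2 hsx hx (hz_open (t := t) (e := e)) hsub
    (hz_diff (t := t) (e := e)) (M := (1 + ε₁) * M) (by positivity) (by
      intro w hw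
      have h6 := hRK w hw
      have h7 := ht M hM1 hM ((e : ℂ) * w) (by rw [hre, abs_mul, he1, one_mul]; exact h6.1)
        (by rw [him, abs_mul, he1, one_mul]; linarith [h6.2])
      rw [him, abs_mul, he1, one_mul] at h7
      exact h7)
  have e1 : hz t ((e : ℂ) * ((|x| * L : ℝ) : ℂ)) =
      Complex.exp (I * (x * L / 2)) * riemannZeta (1 / 2 + I * (t + x)) := by
    have e3 : (e : ℂ) * ((|x| * L : ℝ) : ℂ) = (x : ℂ) * L := by
      rw [← Complex.ofReal_mul, ← Complex.ofReal_mul]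
      congr 1
      rw [← mul_assoc, he2]
    have hL' : (L : ℂ) ≠ 0 := by exact_mod_cast hL0.ne'
    rw [e3, hz, ← hL, mul_div_cancel_right₀ _ hL', mul_comm]
    congr 2
    ring
  have e2 : hz t ((e : ℂ) * 0) = riemannZeta (1 / 2 + I * t) := by
    rw [hz]
    simp
  rw [e1, e2] at key
  refine key.trans ?_
  have hsin : Real.sin (|x| * L / 2) ≤ |x| * L / 2 := Real.sin_le (by positivity)
  set s := |x| * L with hs
  have h10 : (1 + ε₁) * (Real.sin (s / 2) + s * (102 / N)) ≤ Real.sin (s / 2) + ε * (s / 2) := by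
    have a1 : ε₁ * Real.sin (s / 2) ≤ ε / 2 * (s / 2) := by
      calc ε₁ * Real.sin (s / 2) ≤ ε₁ * (s / 2) := by gcongr
        _ ≤ _ := by gcongr
    have a2 : (1 + ε₁) * (s * (102 / N)) ≤ 2 * (s * (ε / 8)) := by
      gcongr
      linarith
    linarith
  calc (1 + ε₁) * M * (Real.sin (s / 2) + s * (102 / N))
      = ((1 + ε₁) * (Real.sin (s / 2) + s * (102 / N))) * M := by ring
    _ ≤ _ := by gcongr

theorem TP.mono {ε ε' t M : ℝ} (h : TP ε t M) (he : ε ≤ ε') (ht : 1 ≤ t) (hM : 0 ≤ M) : TP ε' t M := by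
  intro α x h1 h2 h3
  refine (h α x h1 h2 h3).trans ?_
  have := Real.log_nonneg ht
  gcongr

end

end Q63.RZ
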