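import Pool.Agent.Q63.RZ.Tz3
import Pool.Agent.Q63.RZ.Cor

/-!
# Between two zeros of the zeta function at distance at most the average
-/

set_option autoImplicit false

open Complex Filter Topology Set MeasureTheory

namespace Q63.RZ

noncomputable section

theorem tz {ε : ℝ} (hε : 0 < ε) : ∃ D : ℝ, 1 ≤ D ∧ ∃ η : ℝ, 0 < η ∧
    ∀ᶠ t : ℝ in atTop, ∀ M : ℝ, t ^ (-η) ≤ M → Win t D M → ∀ γ γ' : ℝ, γ ≤ t → t ≤ γ' →
      (γ' - γ) * Real.log t ≤ 2 * Real.pi → riemannZeta (1 / 2 + I * γ) = 0 →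
      riemannZeta (1 / 2 + I * γ') = 0 →
      ‖riemannZeta (1 / 2 + I * t)‖ ≤
        (1 + ε) * Real.cos (Real.sqrt (Real.pi ^ 2 - Real.log t ^ 2 * ((t - γ) * (γ' - t))) / 2) * M := by
  have hπ := Real.pi_pos
  set ε₁ : ℝ := min 1 (ε / 3) with hε₁
  have hε₁0 : 0 < ε₁ := lt_min one_pos (by positivity)
  have hε₁1 : ε₁ ≤ 1 := min_le_left _ _
  have hε₁2 : ε₁ ≤ ε / 3 := min_le_right _ _
  obtain ⟨N, hN⟩ := exists_nat_gt (max 30 (3040 / ε₁))
  have hN2 : (30 : ℝ) < N := lt_of_le_of_lt (le_max_left _ _) hN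
  have hN3 : 3040 / ε₁ < N := lt_of_le_of_lt (le_max_right _ _) hN
  have hN30 : 30 ≤ N := by
    have : (30 : ℝ) ≤ N := hN2.le
    exact_mod_cast this
  have hN0 : (0 : ℝ) < N := by linarith
  have hδ : 3040 / (N : ℝ) ≤ ε₁ := by
    rw [div_lt_iff₀ hε₁0] at hN3
    rw [div_le_iff₀ hN0]
    linarith
  have hRR := RR_pos N
  obtain ⟨D, hD, η, hη, H⟩ := near_line (K := RR N + Real.pi) (by linarith [Real.pi_gt_three]) hε₁0
  refine ⟨D + 1, by linarith, η, hη, ?_⟩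
  have l1 := Real.tendsto_log_atTop.eventually_gt_atTop (RR N + Real.pi)
  filter_upwards [H, l1, eventually_ge_atTop 9] with t ht h1 h9 M hM1 hM γ γ' hγ hγ' hd hz1 hz2
  set L := Real.log t with hL
  have hL0 : 0 < L := lt_trans (by positivity) h1
  have ht0 : 0 < t := by linarith
  have hM0 : 0 < M := lt_of_lt_of_le (Real.rpow_pos_of_pos ht0 _) hM1
  have hself : ∀ x : ℝ, ‖riemannZeta (1 / 2 + I * x)‖ = 0 → x = t →
      ‖riemannZeta (1 / 2 + I * t)‖ = 0 := by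
    rintro x h rfl; exact h
  have hrad : 0 ≤ (1 + ε) * Real.cos (Real.sqrt (Real.pi ^ 2 - L ^ 2 * ((t - γ) * (γ' - t))) / 2) * M := by
    have h5 : Real.sqrt (Real.pi ^ 2 - L ^ 2 * ((t - γ) * (γ' - t))) / 2 ≤ Real.pi / 2 := by
      have h6 : Real.sqrt (Real.pi ^ 2 - L ^ 2 * ((t - γ) * (γ' - t))) ≤ Real.pi := by
        rw [Real.sqrt_le_left hπ.le]
        have : 0 ≤ L ^ 2 * ((t - γ) * (γ' - t)) := by
          have := mul_nonneg (sub_nonneg.mpr hγ) (sub_nonneg.mpr hγ')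
          positivity
        linarith
      linarith
    have h7 : 0 ≤ Real.cos (Real.sqrt (Real.pi ^ 2 - L ^ 2 * ((t - γ) * (γ' - t))) / 2) := by
      apply Real.cos_nonneg_of_mem_Icc
      refine ⟨?_, h5⟩
      have := Real.sqrt_nonneg (Real.pi ^ 2 - L ^ 2 * ((t - γ) * (γ' - t)))
      linarith
    positivity
  rcases hγ.eq_or_lt with h2 | h2
  · rw [hself γ (by rw [hz1, norm_zero]) h2]; exact hrad
  rcases hγ'.eq_or_lt with h3 | h3
  · rw [hself γ' (by rw [hz2, norm_zero]) h3.symm]; exact hrad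
  set a := L * (t - γ) with ha
  set b := L * (γ' - t) with hb
  have hAB : AB a b := ⟨mul_pos hL0 (by linarith), mul_pos hL0 (by linarith), by
    have : a + b = (γ' - γ) * L := by rw [ha, hb]; ring
    rw [this]; exact hd⟩
  have hRK : ∀ w ∈ Qc a b N, |w.re| ≤ RR N + Real.pi ∧ |w.im| ≤ RR N := by
    rintro w ⟨h3, h4⟩
    rw [mem_preimage] at h3 h4
    have h5 := abs_lt.mp (mm_lt hAB)
    refine ⟨?_, abs_le.mpr ⟨h4.1, h4.2⟩⟩
    rw [abs_le]
    constructor <;> linarith [h3.1, h3.2, h5.1, h5.2]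
  have hset : ∀ w : ℂ, (1 / 2 + I * (t + (((1 : ℝ) : ℂ) * w : ℂ) / L) : ℂ) = 1 / 2 + I * (t + w / L) := by
    intro w; push_cast; ring
  have hsub : Qc a b N ⊆ {w : ℂ | (1 / 2 + I * (t + (((1 : ℝ) : ℂ) * w : ℂ) / Real.log t) : ℂ) ≠ 1} := by
    intro w hw h
    rw [← hL, hset] at h
    have h5 := congrArg Complex.im h
    rw [arg_eq] at h5
    simp at h5
    have h6 := (hRK w hw).1
    have h7 : |w.re / L| ≤ 1 := by
      rw [abs_div, abs_of_pos hL0, div_le_one hL0]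
      linarith
    have h8 := (abs_le.mp h7).1
    linarith
  have hL' : (L : ℂ) ≠ 0 := by exact_mod_cast hL0.ne'
  have hval : ∀ x y : ℝ, y = L * (x - t) → riemannZeta (1 / 2 + I * x) = 0 →
      hz t (((1 : ℝ) : ℂ) * (y : ℂ)) = 0 := by
    intro x y hy hx
    have e : (1 / 2 + I * (t + (((1 : ℝ) : ℂ) * (y : ℂ)) / L) : ℂ) = 1 / 2 + I * x := by
      rw [hset, hy]
      push_cast
      field_simp
      ring
    rw [hz, ← hL, e, hx, zero_mul]
  have key := two_zero hAB hN30 (hz_open (t := t) (e := 1)) hsub (hz_diff (t := t) (e := 1))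
    (by
      have := hval γ (-a) (by rw [ha]; ring) hz1
      rw [← this]
      push_cast
      rfl)
    (hval γ' b hb hz2) (M := (1 + ε₁) * M) (by positivity) (by
      intro w hw
      have h6 := hRK w hw
      have h7 := ht M hM1 hM w h6.1 (by linarith [h6.2])
      simpa using h7)
  have e0 : ‖hz t (((1 : ℝ) : ℂ) * 0)‖ = ‖riemannZeta (1 / 2 + I * t)‖ := by
    rw [hz]
    simp
  rw [e0] at key
  refine key.trans ?_
  have hth : tht a b = Real.sqrt (Real.pi ^ 2 - L ^ 2 * ((t - γ) * (γ' - t))) / 2 := by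
    unfold tht
    congr 3
    rw [ha, hb]; ring
  rw [hth]
  set c := Real.cos (Real.sqrt (Real.pi ^ 2 - L ^ 2 * ((t - γ) * (γ' - t))) / 2) with hc
  have hc0 : 0 ≤ c := by
    rw [hc, ← hth]
    exact Real.cos_nonneg_of_mem_Icc ⟨by linarith [(tht_bd hAB).1], (tht_bd hAB).2⟩
  have h10 : (1 + ε₁) * (1 + 3040 / (N : ℝ)) ≤ 1 + ε := by
    calc (1 + ε₁) * (1 + 3040 / (N : ℝ)) ≤ (1 + ε₁) * (1 + ε₁) := by gcongr
      _ ≤ 1 + ε := by nlinarith
  calc (1 + ε₁) * M * (c * (1 + 3040 / N)) = ((1 + ε₁) * (1 + 3040 / N)) * c * M := by ring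
    _ ≤ _ := by gcongr

end

end Q63.RZ
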