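import Pool.Agent.Q63.RZ.Tz3

/-!
# An interpolation formula for a value near two symmetric zeros (on the line, double, or complex
conjugate): nodes and residues
-/

set_option autoImplicit false

open Complex Filter Topology Set MeasureTheory
open Pool.Agent.Helper935.EX (sc lft rt)

namespace Q63.RZ

noncomputable section

/-- standing assumptions: `m` is the mean of the two zeros, `(w - m)² = π² - 4κ` at the zeros -/
structure MK (m κ : ℝ) : Prop where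
  k0 : 0 ≤ κ
  hm : m ^ 2 + 4 * κ < 4 * Real.pi ^ 2

/-- the function which vanishes at the nodes -/
def PP (m κ : ℝ) (w : ℂ) : ℂ := lft sc κ ((w - m) / 2)

/-- the denominator -/
def dq (m κ : ℝ) (w : ℂ) : ℂ := w * PP m κ w

/-- the polynomial with the two zeros -/
def Qp (m κ : ℝ) (w : ℂ) : ℂ := (w - m) ^ 2 - (Real.pi : ℂ) ^ 2 + 4 * κ

/-- the nodes -/
def nq (m κ : ℝ) (j : ℤ) : ℝ :=
  m + (if 0 < j then 1 else -1) * (2 * Real.sqrt (Real.pi ^ 2 * j ^ 2 - κ))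

/-- the weights -/
def rq (m κ : ℝ) (j : ℤ) : ℝ :=
  4 * (Real.pi * j) ^ 2 / ((4 * (Real.pi * j) ^ 2 - Real.pi ^ 2) * (nq m κ j * (nq m κ j - m)))

/-- the closed square -/
def Sc (m : ℝ) (N : ℕ) : Set ℂ := Set.Icc (m - RR N) (m + RR N) ×ℂ Set.Icc (-RR N) (RR N)

/-- its boundary -/
def Sb (m : ℝ) (N : ℕ) : Set ℂ := H370.Bd (m - RR N) (m + RR N) (-RR N) (RR N)

/-- the contour integral -/
def Cq (m κ : ℝ) (N : ℕ) (g : ℂ → ℂ) : ℂ :=
  H370.RI (m - RR N) (m + RR N) (-RR N) (RR N) (fun w => g w / dq m κ w)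

/-- the zeros of the denominator -/
def Zq (m κ : ℝ) (N : ℕ) : Finset ℂ :=
  insert (0 : ℂ) ((JJs N).image (fun j => ((nq m κ j : ℝ) : ℂ)))

variable {m κ : ℝ}

theorem MK.k1 (h : MK m κ) : κ < Real.pi ^ 2 := by
  have := h.hm
  nlinarith [sq_nonneg m]

theorem MK.m_lt (h : MK m κ) : |m| < 2 * Real.pi := by
  have h1 := h.hm
  have h2 := h.k0
  have hπ := Real.pi_pos
  apply abs_lt_of_sq_lt_sq _ (by positivity)
  nlinarith

theorem PP_eq {w v : ℂ} (h : v ^ 2 = ((w - m) / 2) ^ 2 + κ) : PP m κ w = sc v :=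
  Pool.Agent.Helper935.EX.lft_eq Pool.Agent.Helper935.EX.sc_neg h

theorem PP_diff (m κ : ℝ) : Differentiable ℂ (PP m κ) :=
  (Pool.Agent.Helper935.EX.differentiable_lft Pool.Agent.Helper935.EX.differentiable_sc
    Pool.Agent.Helper935.EX.sc_neg _).comp (by fun_prop)

theorem dq_diff (m κ : ℝ) : Differentiable ℂ (dq m κ) := by
  have := PP_diff m κ
  unfold dq
  fun_prop

theorem MK.rad (h : MK m κ) {j : ℤ} (hj : j ≠ 0) : 0 < Real.pi ^ 2 * j ^ 2 - κ := by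
  have h1 := one_le_sq hj
  have h2 := h.k1
  have hπ : 0 < Real.pi ^ 2 := by positivity
  nlinarith

theorem nq_sub_sq (h : MK m κ) {j : ℤ} (hj : j ≠ 0) :
    (nq m κ j - m) ^ 2 = 4 * (Real.pi ^ 2 * j ^ 2 - κ) := by
  have h2 := (h.rad hj).le
  rw [nq, add_sub_cancel_left, mul_pow, mul_pow, Real.sq_sqrt h2]
  split_ifs <;> ring

theorem nq_neg (m κ : ℝ) {j : ℤ} (hj : j ≠ 0) : nq m κ (-j) - m = -(nq m κ j - m) := by
  unfold nq
  push_cast
  rw [neg_sq]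
  rcases lt_or_gt_of_ne hj with h | h
  · rw [if_pos (by omega : 0 < -j), if_neg (by omega : ¬ 0 < j)]; ring
  · rw [if_neg (by omega : ¬ 0 < -j), if_pos h]; ring

theorem nq_node (h : MK m κ) {j : ℤ} (hj : j ≠ 0) :
    ((Real.pi * j : ℝ) : ℂ) ^ 2 = (((nq m κ j : ℝ) - m : ℂ) / 2) ^ 2 + κ := by
  have h' := nq_sub_sq h hj
  have h2 : (Real.pi * j) ^ 2 = ((nq m κ j - m) / 2) ^ 2 + κ := by rw [div_pow, h']; ring
  exact_mod_cast congrArg (fun x : ℝ => (x : ℂ)) h2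

theorem PP_zero_iff (h : MK m κ) (w : ℂ) : PP m κ w = 0 ↔ ∃ j : ℤ, j ≠ 0 ∧ w = (nq m κ j : ℝ) := by
  constructor
  · intro h0
    set v := rt (((w - m) / 2) ^ 2 + κ) with hv
    have hv2 : v ^ 2 = ((w - m) / 2) ^ 2 + κ := Pool.Agent.Helper935.EX.rt_sq _
    rw [PP_eq hv2, sc_zero_iff] at h0
    obtain ⟨j, hj, hvj⟩ := h0
    have h3 : (w - m) ^ 2 = ((nq m κ j : ℝ) - m : ℂ) ^ 2 := by
      have h4 := nq_node h hj
      rw [hvj] at hv2
      rw [hv2] at h4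
      linear_combination 4 * h4
    rcases sq_eq_sq_iff_eq_or_eq_neg.1 h3 with h5 | h5
    · exact ⟨j, hj, by linear_combination h5⟩
    · refine ⟨-j, neg_ne_zero.mpr hj, ?_⟩
      have h6 : ((nq m κ (-j) : ℝ) : ℂ) - m = -(((nq m κ j : ℝ) : ℂ) - m) := by
        exact_mod_cast congrArg (fun x : ℝ => (x : ℂ)) (nq_neg m κ hj)
      linear_combination h5 - h6
  · rintro ⟨j, hj, rfl⟩
    rw [PP_eq (nq_node h hj), sc_zero_iff]
    exact ⟨j, hj, rfl⟩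

theorem deriv_PP (h : MK m κ) {j : ℤ} (hj : j ≠ 0) :
    deriv (PP m κ) (nq m κ j : ℝ) =
      (-1) ^ j * (((nq m κ j - m : ℝ) : ℂ) / (4 * (Real.pi * j : ℝ) ^ 2)) := by
  set v : ℂ := ((Real.pi * j : ℝ) : ℂ) with hv
  have hv0 : v ≠ 0 := by
    have : Real.pi * j ≠ 0 := mul_ne_zero Real.pi_ne_zero (by exact_mod_cast hj)
    rw [hv]
    exact_mod_cast this
  have hsc : sc v = 0 := (sc_zero_iff v).2 ⟨j, hj, rfl⟩
  have hz := nq_node h hj
  rw [← hv] at hz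
  set z : ℂ := (((nq m κ j : ℝ) - m : ℂ) / 2) with hzd
  have h1 := Pool.Agent.Helper935.EX.deriv_lft Pool.Agent.Helper935.EX.differentiable_sc
    Pool.Agent.Helper935.EX.sc_neg (κ : ℂ) z
  have h2 := Pool.Agent.Helper935.EX.deriv_even_rt Pool.Agent.Helper935.EX.differentiable_sc
    Pool.Agent.Helper935.EX.sc_neg v
  rw [deriv_sc_node hsc hv0, hz] at h2
  have hcos : Complex.cos v = (-1) ^ j := by
    rw [hv, ← Complex.ofReal_cos, mul_comm Real.pi, Real.cos_int_mul_pi]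
    push_cast
    rfl
  have h3 : HasDerivAt (PP m κ) (deriv (lft sc (κ : ℂ)) z * (1 / 2)) (nq m κ j : ℝ) := by
    have d1 : HasDerivAt (fun w : ℂ => (w - m) / 2) (1 / 2) (nq m κ j : ℝ) :=
      ((hasDerivAt_id' _).sub_const _).div_const 2
    have d2 := ((Pool.Agent.Helper935.EX.differentiable_lft Pool.Agent.Helper935.EX.differentiable_sc
      Pool.Agent.Helper935.EX.sc_neg (κ : ℂ)) z).hasDerivAt
    exact HasDerivAt.comp (h₂ := lft sc (κ : ℂ)) (h := fun w : ℂ => (w - m) / 2) _ d2 d1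
  rw [h3.deriv, h1]
  set G := deriv (fun s => sc (rt s)) (z ^ 2 + κ) with hG
  have h4 : G = Complex.cos v / v / (2 * v) := by
    rw [← h2]; field_simp
  rw [h4, hcos]
  have h5 : z = ((nq m κ j - m : ℝ) : ℂ) / 2 := by rw [hzd]; push_cast; ring
  rw [h5]
  field_simp
  ring

theorem qj_pos {j : ℤ} (hj : j ≠ 0) : 0 < 4 * (Real.pi * j) ^ 2 - Real.pi ^ 2 := by
  have h1 := one_le_sq hj
  have hπ : 0 < Real.pi ^ 2 := by positivity
  nlinarith

theorem prodq_pos (h : MK m κ) {j : ℤ} (hj : j ≠ 0) : 0 < nq m κ j * (nq m κ j - m) := by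
  have h1 := nq_sub_sq h hj
  have h2 := one_le_sq hj
  have h3 := h.hm
  have hπ : 0 < Real.pi ^ 2 := by positivity
  have h4 : |m| < |nq m κ j - m| := by
    rw [← sq_lt_sq, h1]
    nlinarith
  have e : nq m κ j * (nq m κ j - m) = |nq m κ j - m| * |nq m κ j - m| + m * (nq m κ j - m) := by
    rw [abs_mul_abs_self]; ring
  rw [e]
  have h5 : -(|m| * |nq m κ j - m|) ≤ m * (nq m κ j - m) := by
    rw [← abs_mul]; exact neg_abs_le _
  have h6 : 0 < |nq m κ j - m| := lt_of_le_of_lt (abs_nonneg _) h4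
  have h7 : |m| * |nq m κ j - m| < |nq m κ j - m| * |nq m κ j - m| :=
    mul_lt_mul_of_pos_right h4 h6
  linarith

theorem rq_pos (h : MK m κ) {j : ℤ} (hj : j ≠ 0) : 0 < rq m κ j := by
  have h1 := qj_pos hj
  have h2 := prodq_pos h hj
  have h3 : 0 < (Real.pi * j) ^ 2 := by
    have := one_le_sq hj
    rw [mul_pow]
    have := pow_pos Real.pi_pos 2
    positivity
  unfold rq
  positivity

theorem nq_ne (h : MK m κ) {j : ℤ} (hj : j ≠ 0) : nq m κ j ≠ 0 ∧ nq m κ j - m ≠ 0 := by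
  have h2 := prodq_pos h hj
  refine ⟨?_, ?_⟩
  · intro e; rw [e, zero_mul] at h2; exact lt_irrefl _ h2
  · intro e; rw [e, mul_zero] at h2; exact lt_irrefl _ h2

theorem nq_inj (h : MK m κ) {i j : ℤ} (hi : i ≠ 0) (hj : j ≠ 0) (hij : nq m κ i = nq m κ j) :
    i = j := by
  have hπ := Real.pi_pos
  have h1 := nq_sub_sq h hi
  have h2 := nq_sub_sq h hj
  rw [hij] at h1
  have h3 : Real.pi ^ 2 * ((i : ℝ) ^ 2 - (j : ℝ) ^ 2) = 0 := by linarith
  have h4 : (i : ℝ) ^ 2 = (j : ℝ) ^ 2 := by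
    rcases mul_eq_zero.mp h3 with h5 | h5
    · exact absurd h5 (by positivity)
    · linarith
  have h5 : i ^ 2 = j ^ 2 := by exact_mod_cast h4
  rcases sq_eq_sq_iff_eq_or_eq_neg.1 h5 with h6 | h6
  · exact h6
  · exfalso
    subst h6
    have h7 := nq_neg m κ hj
    rw [hij] at h7
    have h8 : nq m κ j - m = 0 := by linarith
    exact (nq_ne h hj).2 h8

theorem nq_abs_lt (h : MK m κ) {N : ℕ} {j : ℤ} (hj : j ∈ JJs N) : |nq m κ j - m| < RR N := by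
  have hπ := Real.pi_pos
  rw [JJs, Finset.mem_erase, Finset.mem_Icc] at hj
  obtain ⟨h0, h1, h2⟩ := hj
  have h3 := nq_sub_sq h h0
  have h4 := h.k0
  have h5 : (j : ℝ) ^ 2 ≤ (N : ℝ) ^ 2 := by
    have : j ^ 2 ≤ (N : ℤ) ^ 2 := sq_le_sq' h1 h2
    exact_mod_cast this
  apply abs_lt_of_sq_lt_sq _ (RR_pos N).le
  rw [h3]
  unfold RR
  have hN : (0 : ℝ) ≤ N := Nat.cast_nonneg N
  have hπ2 := pow_pos hπ 2
  have h6 : Real.pi ^ 2 * (j : ℝ) ^ 2 ≤ Real.pi ^ 2 * (N : ℝ) ^ 2 := by gcongr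
  nlinarith [mul_nonneg hπ2.le hN]

theorem mem_JJs_of_abs' (h : MK m κ) {N : ℕ} (hN : 1 ≤ N) {j : ℤ} (hj : j ≠ 0)
    (hx : |nq m κ j - m| ≤ RR N) : j ∈ JJs N := by
  have hπ := Real.pi_pos
  have hπ2 := pow_pos hπ 2
  have h3 := nq_sub_sq h hj
  have h4 := h.k1
  have h5 : (nq m κ j - m) ^ 2 ≤ (RR N) ^ 2 := sq_le_sq' (by linarith [(abs_le.mp hx).1]) (abs_le.mp hx).2
  rw [h3] at h5
  unfold RR at h5
  have h6 : Real.pi ^ 2 * (4 * (j : ℝ) ^ 2) < Real.pi ^ 2 * ((2 * N + 1) ^ 2 + 4) := by nlinarith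
  have h7 := lt_of_mul_lt_mul_left h6 hπ2.le
  have h8 : 4 * j ^ 2 < (2 * (N : ℤ) + 1) ^ 2 + 4 := by exact_mod_cast h7
  have hN0 : (1 : ℤ) ≤ N := by exact_mod_cast hN
  have h9 : j ^ 2 < ((N : ℤ) + 1) ^ 2 := by nlinarith
  have h10 := abs_lt_of_sq_lt_sq h9 (by omega)
  rw [abs_lt] at h10
  rw [JJs, Finset.mem_erase, Finset.mem_Icc]
  refine ⟨hj, by omega, by omega⟩

theorem dq_zero_iff (h : MK m κ) {N : ℕ} (hN : 1 ≤ N) :
    ∀ w ∈ Sc m N, dq m κ w = 0 ↔ w ∈ Zq m κ N := by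
  rintro w ⟨hw1, hw2⟩
  rw [dq, mul_eq_zero, PP_zero_iff h, Zq, Finset.mem_insert, Finset.mem_image]
  constructor
  · rintro (h1 | ⟨j, hj, h1⟩)
    · left; exact h1
    · right
      refine ⟨j, ?_, h1.symm⟩
      apply mem_JJs_of_abs' h hN hj
      rw [mem_preimage, h1, ofReal_re] at hw1
      rw [abs_le]
      constructor <;> linarith [hw1.1, hw1.2]
  · rintro (h1 | ⟨j, hj, h1⟩)
    · left; exact h1
    · right
      refine ⟨j, (Finset.mem_erase.mp hj).1, h1.symm⟩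

theorem Zq_interior (h : MK m κ) {N : ℕ} (hN : 1 ≤ N) :
    ∀ w ∈ Zq m κ N, w ∈ Set.Ioo (m - RR N) (m + RR N) ×ℂ Set.Ioo (-RR N) (RR N) := by
  intro w hw
  have hR := RR_ge hN
  have hπ := Real.pi_pos
  rw [Zq, Finset.mem_insert, Finset.mem_image] at hw
  have key : ∃ x : ℝ, w = x ∧ |x - m| < RR N := by
    rcases hw with rfl | ⟨j, hj, rfl⟩
    · refine ⟨0, by simp, ?_⟩
      rw [zero_sub, abs_neg]
      linarith [h.m_lt]
    · exact ⟨nq m κ j, rfl, nq_abs_lt h hj⟩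
  obtain ⟨x, rfl, h5⟩ := key
  rw [abs_lt] at h5
  refine ⟨?_, ?_⟩
  · rw [mem_preimage, ofReal_re]; constructor <;> linarith [h5.1, h5.2]
  · rw [mem_preimage, ofReal_im]
    constructor <;> linarith

theorem hasDerivAt_dq (m κ : ℝ) (w : ℂ) :
    HasDerivAt (dq m κ) (PP m κ w + w * deriv (PP m κ) w) w := by
  have := (hasDerivAt_id' w).fun_mul (PP_diff m κ w).hasDerivAt
  rw [one_mul] at this
  exact this

theorem PP_zero_ne (h : MK m κ) : PP m κ 0 ≠ 0 := by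
  intro h0
  obtain ⟨j, hj, h1⟩ := (PP_zero_iff h 0).1 h0
  have : nq m κ j = 0 := by exact_mod_cast h1.symm
  exact (nq_ne h hj).1 this

theorem deriv_dq_zero (m κ : ℝ) : deriv (dq m κ) 0 = PP m κ 0 := by
  rw [(hasDerivAt_dq m κ 0).deriv]; ring

theorem deriv_dq_nq (h : MK m κ) {j : ℤ} (hj : j ≠ 0) :
    deriv (dq m κ) (nq m κ j : ℝ) =
      (-1) ^ j / (((4 * (Real.pi * j) ^ 2 - Real.pi ^ 2 : ℝ) : ℂ) * (rq m κ j : ℂ)) := by
  have h0 : PP m κ (nq m κ j : ℝ) = 0 := (PP_zero_iff h _).2 ⟨j, hj, rfl⟩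
  rw [(hasDerivAt_dq m κ _).deriv, h0, deriv_PP h hj, rq]
  have h1' := (qj_pos hj).ne'
  generalize (4 * (Real.pi * (j : ℝ)) ^ 2 - Real.pi ^ 2 : ℝ) = A at h1' ⊢
  have h1 : (A : ℂ) ≠ 0 := by exact_mod_cast h1'
  have h2 : ((nq m κ j : ℝ) : ℂ) ≠ 0 := by exact_mod_cast (nq_ne h hj).1
  have h2' : ((nq m κ j - m : ℝ) : ℂ) ≠ 0 := by exact_mod_cast (nq_ne h hj).2
  have h3 : ((Real.pi * j : ℝ) : ℂ) ≠ 0 := by
    have : Real.pi * j ≠ 0 := mul_ne_zero Real.pi_ne_zero (by exact_mod_cast hj)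
    exact_mod_cast this
  push_cast at h1 h2 h2' h3 ⊢
  field_simp
  ring

theorem interpq (h : MK m κ) {N : ℕ} (hN : 1 ≤ N) {U : Set ℂ} (hU : IsOpen U)
    (hRU : Sc m N ⊆ U) {g : ℂ → ℂ} (hg : DifferentiableOn ℂ g U) :
    Cq m κ N g = 2 * Real.pi * I * (g 0 / PP m κ 0 +
      ∑ j ∈ JJs N, (rq m κ j : ℂ) * ((-1) ^ j *
        (((4 * (Real.pi * j) ^ 2 - Real.pi ^ 2 : ℝ) : ℂ) * g (nq m κ j : ℝ)))) := by
  classical
  have hR := RR_pos N
  have hm1 : ∀ j : ℤ, ((-1 : ℂ)) ^ j ≠ 0 := fun j => zpow_ne_zero j (by norm_num)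
  have hrw : ∀ j ∈ JJs N, (rq m κ j : ℂ) ≠ 0 := fun j hj => by
    exact_mod_cast (rq_pos h (Finset.mem_erase.mp hj).1).ne'
  have hqq : ∀ j ∈ JJs N, ((4 * (Real.pi * j) ^ 2 - Real.pi ^ 2 : ℝ) : ℂ) ≠ 0 := fun j hj => by
    exact_mod_cast (qj_pos (Finset.mem_erase.mp hj).1).ne'
  have key := SG.RectAux.res_aux U hU (m - RR N) (m + RR N) (-RR N) (RR N)
    (by linarith) (by linarith) hRU (Zq m κ N) (dq m κ) g
    (dq_diff m κ).differentiableOn hg (Zq_interior h hN) (dq_zero_iff h hN) (by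
      intro w hw
      rw [Zq, Finset.mem_insert, Finset.mem_image] at hw
      rcases hw with rfl | ⟨j, hj, rfl⟩
      · rw [deriv_dq_zero]
        exact PP_zero_ne h
      · rw [deriv_dq_nq h (Finset.mem_erase.mp hj).1]
        exact div_ne_zero (hm1 j) (mul_ne_zero (hqq j hj) (hrw j hj)))
  have n1 : (0 : ℂ) ∉ ((JJs N).image (fun j => ((nq m κ j : ℝ) : ℂ))) := by
    rw [Finset.mem_image]
    rintro ⟨j, hj, h1⟩
    have : nq m κ j = 0 := by exact_mod_cast h1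
    exact (nq_ne h (Finset.mem_erase.mp hj).1).1 this
  rw [Cq, key, Zq, Finset.sum_insert n1, Finset.sum_image]
  · rw [deriv_dq_zero]
    congr 2
    apply Finset.sum_congr rfl
    intro j hj
    rw [deriv_dq_nq h (Finset.mem_erase.mp hj).1]
    have hm2 : ((-1 : ℂ)) ^ j * (-1 : ℂ) ^ j = 1 := by
      rw [← mul_zpow]; norm_num
    have := hrw j hj
    have := hqq j hj
    have := hm1 j
    set A := ((4 * (Real.pi * j) ^ 2 - Real.pi ^ 2 : ℝ) : ℂ)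
    field_simp
    linear_combination (-g (nq m κ j : ℝ)) * hm2
  · intro i hi j hj hij
    have hij' : ((nq m κ i : ℝ) : ℂ) = ((nq m κ j : ℝ) : ℂ) := hij
    have : nq m κ i = nq m κ j := by exact_mod_cast hij'
    exact nq_inj h (Finset.mem_erase.mp hi).1 (Finset.mem_erase.mp hj).1 this

end

end Q63.RZ
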