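import Pool.Agent.Q63.RZ.Tq

/-!
# The inequality for a value near two symmetric zeros
-/

set_option autoImplicit false

open Complex Filter Topology Set MeasureTheory
open Pool.Agent.Helper935.EX (sc lft rt)

namespace Q63.RZ

noncomputable section

/-- `cos v / (v² - π²/4)` -/
def gc (v : ℂ) : ℂ := dslope (dslope Complex.cos (Real.pi / 2 : ℂ)) (-(Real.pi / 2 : ℂ)) v

theorem cos_half : Complex.cos (Real.pi / 2 : ℂ) = 0 := by
  rw [Complex.cos_pi_div_two]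

theorem gc_mul (v : ℂ) : (v ^ 2 - (Real.pi : ℂ) ^ 2 / 4) * gc v = Complex.cos v := by
  have h1 := sub_smul_dslope Complex.cos (Real.pi / 2 : ℂ) v
  rw [cos_half, sub_zero, smul_eq_mul] at h1
  have h2 := sub_smul_dslope Complex.cos (Real.pi / 2 : ℂ) (-(Real.pi / 2 : ℂ))
  rw [cos_half, sub_zero, smul_eq_mul, Complex.cos_neg, cos_half] at h2
  have hπ : (Real.pi : ℂ) ≠ 0 := by exact_mod_cast Real.pi_ne_zero
  have h3 : dslope Complex.cos (Real.pi / 2 : ℂ) (-(Real.pi / 2 : ℂ)) = 0 := by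
    rcases mul_eq_zero.mp h2 with h | h
    · exfalso
      apply hπ
      linear_combination -h
    · exact h
  have h4 := sub_smul_dslope (dslope Complex.cos (Real.pi / 2 : ℂ)) (-(Real.pi / 2 : ℂ)) v
  rw [h3, sub_zero, smul_eq_mul] at h4
  rw [gc, ← h1, ← h4]
  ring

theorem gc_diff : Differentiable ℂ gc := by
  have h1 : DifferentiableOn ℂ (dslope Complex.cos (Real.pi / 2 : ℂ)) univ :=
    (Complex.differentiableOn_dslope univ_mem).mpr Complex.differentiable_cos.differentiableOn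
  have h2 : DifferentiableOn ℂ (dslope (dslope Complex.cos (Real.pi / 2 : ℂ)) (-(Real.pi / 2 : ℂ))) univ :=
    (Complex.differentiableOn_dslope univ_mem).mpr h1
  exact fun v => (h2 v (mem_univ v)).differentiableAt univ_mem

theorem gc_even (v : ℂ) : gc (-v) = gc v := by
  have hc1 : Continuous fun v : ℂ => gc (-v) := gc_diff.continuous.comp continuous_neg
  have hd : Dense ((univ : Set ℂ) \ {(Real.pi / 2 : ℂ), -(Real.pi / 2 : ℂ)}) :=
    dense_univ.diff_finite (by simp)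
  have key := hc1.ext_on hd gc_diff.continuous (by
    rintro v ⟨-, hv⟩
    rw [mem_insert_iff, mem_singleton_iff, not_or] at hv
    have h1 := gc_mul v
    have h2 := gc_mul (-v)
    rw [Complex.cos_neg, ← h1, neg_sq] at h2
    have h3 : v ^ 2 - (Real.pi : ℂ) ^ 2 / 4 ≠ 0 := by
      have e : v ^ 2 - (Real.pi : ℂ) ^ 2 / 4 = (v - Real.pi / 2) * (v - -(Real.pi / 2)) := by ring
      rw [e]
      exact mul_ne_zero (sub_ne_zero.mpr hv.1) (sub_ne_zero.mpr hv.2)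
    exact mul_left_cancel₀ h3 h2)
  exact congrFun key v

/-- the extremal function -/
def EE (m κ : ℝ) (w : ℂ) : ℂ := lft Complex.cos κ ((w - m) / 2)

/-- the extremal function divided by `Qp` -/
def gE (m κ : ℝ) (w : ℂ) : ℂ := 1 / 4 * lft gc κ ((w - m) / 2)

variable {m κ : ℝ}

theorem EE_eq {w v : ℂ} (h : v ^ 2 = ((w - m) / 2) ^ 2 + κ) : EE m κ w = Complex.cos v :=
  Pool.Agent.Helper935.EX.lft_eq cos_even h

theorem gE_eq {w v : ℂ} (h : v ^ 2 = ((w - m) / 2) ^ 2 + κ) : gE m κ w = 1 / 4 * gc v := by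
  rw [gE, Pool.Agent.Helper935.EX.lft_eq gc_even h]

theorem gE_diff (m κ : ℝ) : Differentiable ℂ (gE m κ) := by
  have h := (Pool.Agent.Helper935.EX.differentiable_lft gc_diff gc_even (κ : ℂ)).comp
    (g := lft gc κ) (f := fun w : ℂ => (w - m) / 2) (by fun_prop)
  exact h.const_mul (1 / 4 : ℂ)

theorem EE_fac (m κ : ℝ) (w : ℂ) : EE m κ w = Qp m κ w * gE m κ w := by
  obtain ⟨v, hv, _⟩ := exists_root ((w - m) / 2) κ
  rw [EE_eq hv, gE_eq hv, ← gc_mul v, Qp]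
  have : (w - m) ^ 2 - (Real.pi : ℂ) ^ 2 + 4 * κ = 4 * (v ^ 2 - (Real.pi : ℂ) ^ 2 / 4) := by
    rw [hv]; ring
  rw [this]
  ring

theorem EE_bd (h : MK m κ) (w : ℂ) : ‖EE m κ w‖ ≤ 1 * Real.exp (|w.im| / 2) := by
  obtain ⟨v, hv, _⟩ := exists_root ((w - m) / 2) κ
  rw [EE_eq hv, one_mul]
  refine (Pool.Agent.Helper935.EX.norm_cos_le v).trans (Real.exp_le_exp.mpr ?_)
  refine (im_root_le h.k0 hv).trans (le_of_eq ?_)
  simp [abs_div]

theorem Qp_node (h : MK m κ) {j : ℤ} (hj : j ≠ 0) :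
    Qp m κ (nq m κ j : ℝ) = ((4 * (Real.pi * j) ^ 2 - Real.pi ^ 2 : ℝ) : ℂ) := by
  have h1 := nq_sub_sq h hj
  have h2 : (nq m κ j - m) ^ 2 - Real.pi ^ 2 + 4 * κ = 4 * (Real.pi * j) ^ 2 - Real.pi ^ 2 := by
    rw [h1]; ring
  rw [Qp, ← h2]
  push_cast
  ring

theorem EE_node (h : MK m κ) {j : ℤ} (hj : j ≠ 0) : EE m κ (nq m κ j : ℝ) = (-1) ^ j := by
  rw [EE_eq (nq_node h hj), ← Complex.ofReal_cos, mul_comm Real.pi, Real.cos_int_mul_pi]
  push_cast
  rfl

theorem PP_lower (h : MK m κ) {N : ℕ} (hN : 120 ≤ N) {w : ℂ} (hw : w ∈ Sb m N) :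
    RR N ≤ ‖w - m‖ ∧ Real.exp (|w.im| / 2) / (8 * ‖w - m‖) ≤ ‖PP m κ w‖ := by
  have hπ := Real.pi_pos
  have hπ3 := Real.pi_gt_three
  have hπ4 := Real.pi_lt_d2
  have hN' : (120 : ℝ) ≤ N := by exact_mod_cast hN
  have hR := RR_pos N
  set z : ℂ := (w - m) / 2 with hz
  have hzre : z.re = (w.re - m) / 2 := by rw [hz]; simp
  have hzim : z.im = w.im / 2 := by rw [hz]; simp
  have hzn : ‖w - m‖ = 2 * ‖z‖ := by rw [hz, norm_div, Complex.norm_ofNat]; ring
  have hcase : z.re = RR N / 2 ∨ z.re = -(RR N / 2) ∨ |z.im| = RR N / 2 := by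
    rcases hw with ⟨_, h6⟩ | ⟨_, h6⟩
    · right; right
      rw [hzim, abs_div, abs_two]
      rcases h6 with h6 | h6
      · rw [h6, abs_neg, abs_of_pos hR]
      · rw [h6, abs_of_pos hR]
    · rcases h6 with h6 | h6
      · right; left; rw [hzre, h6]; ring
      · left; rw [hzre, h6]; ring
  have hz1 : RR N / 2 ≤ ‖z‖ := by
    rcases hcase with h1 | h1 | h1
    · refine le_trans ?_ (Complex.abs_re_le_norm z)
      rw [h1]; exact le_abs_self _
    · refine le_trans ?_ (Complex.abs_re_le_norm z)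
      rw [h1, abs_neg]; exact le_abs_self _
    · rw [← h1]; exact Complex.abs_im_le_norm z
  refine ⟨by rw [hzn]; linarith, ?_⟩
  have hRN : 2 * Real.pi * N ≤ RR N := by unfold RR; nlinarith
  have hz0 : 0 < ‖z‖ := by linarith
  obtain ⟨v, hv, hvz⟩ := exists_root z κ
  have hκ0 := h.k0
  have hκ1 := h.k1.le
  have hd : ‖v - z‖ ≤ 1 / 36 := by
    have h1 : (v - z) * (v + z) = (κ : ℂ) := by linear_combination hv
    have h2 : ‖v - z‖ * ‖v + z‖ = κ := by
      rw [← norm_mul, h1, Complex.norm_real, Real.norm_eq_abs, abs_of_nonneg hκ0]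
    have h3 : ‖v - z‖ * ‖z‖ ≤ Real.pi ^ 2 := by
      calc ‖v - z‖ * ‖z‖ ≤ ‖v - z‖ * ‖v + z‖ := by gcongr
        _ = κ := h2
        _ ≤ _ := hκ1
    have h4 : Real.pi * 120 ≤ ‖z‖ := by nlinarith
    have h5 : ‖v - z‖ * (Real.pi * 120) ≤ Real.pi ^ 2 :=
      le_trans (mul_le_mul_of_nonneg_left h4 (norm_nonneg _)) h3
    have h6 : ‖v - z‖ * 120 ≤ Real.pi := by
      have h7 : Real.pi * (‖v - z‖ * 120) ≤ Real.pi * Real.pi := by nlinarith
      exact le_of_mul_le_mul_left h7 hπ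
    linarith
  have hs1 := sin_lower (by omega : 1 ≤ N) hcase
  have hs2 := sin_sub_le v z
  have hE := Real.exp_pos |z.im|
  have hs3 : ‖Complex.sin v - Complex.sin z‖ ≤ Real.exp |z.im| / 8 := by
    refine hs2.trans ?_
    rw [Real.exp_add]
    have h1 : Real.exp ‖v - z‖ ≤ 3 := by
      have := Real.exp_one_lt_d9
      have h2 : Real.exp ‖v - z‖ ≤ Real.exp 1 := Real.exp_le_exp.mpr (by linarith)
      linarith
    calc Real.exp |z.im| * Real.exp ‖v - z‖ * ‖v - z‖ ≤ Real.exp |z.im| * 3 * (1 / 36) := by gcongr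
      _ ≤ _ := by linarith
  have hs4 : Real.exp |z.im| / 8 ≤ ‖Complex.sin v‖ := by
    have h1 := norm_sub_norm_le (Complex.sin z) (Complex.sin z - Complex.sin v)
    rw [sub_sub_cancel, norm_sub_rev (Complex.sin z)] at h1
    linarith
  have hv1 : ‖v‖ ≤ 2 * ‖z‖ := by
    have h1 := norm_add_le (v - z) z
    rw [sub_add_cancel] at h1
    have : Real.pi * 120 ≤ ‖z‖ := by nlinarith
    linarith
  have hv0 : 0 < ‖v‖ := by
    rw [norm_pos_iff]
    rintro rfl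
    rw [Complex.sin_zero, norm_zero] at hs4
    linarith
  have hPe : PP m κ w = sc v := PP_eq hv
  rw [hPe, Pool.Agent.Helper935.EX.sc_of_ne (norm_pos_iff.mp hv0), norm_div, hzn]
  have him : |w.im| / 2 = |z.im| := by rw [hzim, abs_div, abs_two]
  rw [him]
  calc Real.exp |z.im| / (8 * (2 * ‖z‖)) ≤ Real.exp |z.im| / (8 * ‖v‖) := by gcongr
    _ = (Real.exp |z.im| / 8) / ‖v‖ := by field_simp
    _ ≤ _ := by gcongr

theorem dq_lower (h : MK m κ) {N : ℕ} (hN : 120 ≤ N) {w : ℂ} (hw : w ∈ Sb m N) :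
    (N : ℝ) ^ 2 * Real.exp (|w.im| / 2) ≤ ‖Qp m κ w‖ * ‖dq m κ w‖ ∧ Qp m κ w ≠ 0 := by
  have hπ := Real.pi_pos
  have hπ3 := Real.pi_gt_three
  have hπ4 := Real.pi_lt_d2
  have hN' : (120 : ℝ) ≤ N := by exact_mod_cast hN
  obtain ⟨h1, h2⟩ := PP_lower h hN hw
  have hRN : 2 * Real.pi * N ≤ RR N := by unfold RR; nlinarith
  set ρ := ‖w - m‖ with hρ
  have hρ1 : 240 * Real.pi ≤ ρ := by nlinarith
  have hρ0 : 0 < ρ := by linarith
  have k3 : 9 / 10 * ρ ≤ ‖w‖ := by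
    have h3 := norm_sub_norm_le (w - m) (-(m : ℂ))
    have e : w - m - -(m : ℂ) = w := by ring
    rw [e, norm_neg, Complex.norm_real, Real.norm_eq_abs] at h3
    have h4 := h.m_lt.le
    linarith
  have k2 : 9 / 10 * ρ ^ 2 ≤ ‖Qp m κ w‖ := by
    have h3 := norm_sub_norm_le ((w - m) ^ 2) ((Real.pi ^ 2 - 4 * κ : ℝ) : ℂ)
    have e : (w - m) ^ 2 - ((Real.pi ^ 2 - 4 * κ : ℝ) : ℂ) = Qp m κ w := by
      rw [Qp]; push_cast; ring
    rw [e, norm_pow, Complex.norm_real, Real.norm_eq_abs] at h3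
    have h4 : |Real.pi ^ 2 - 4 * κ| ≤ 3 * Real.pi ^ 2 := by
      have := h.k0
      have := h.k1
      rw [abs_le]
      constructor <;> nlinarith
    have h5 : (240 * Real.pi) ^ 2 ≤ ρ ^ 2 := pow_le_pow_left₀ (by positivity) hρ1 2
    nlinarith
  have hE := Real.exp_pos (|w.im| / 2)
  refine ⟨?_, ?_⟩
  · rw [dq, norm_mul]
    calc (N : ℝ) ^ 2 * Real.exp (|w.im| / 2)
        ≤ (9 / 10 * ρ ^ 2) * ((9 / 10 * ρ) * (Real.exp (|w.im| / 2) / (8 * ρ))) := by
          have e : (9 / 10 * ρ ^ 2) * ((9 / 10 * ρ) * (Real.exp (|w.im| / 2) / (8 * ρ))) =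
              81 / 800 * ρ ^ 2 * Real.exp (|w.im| / 2) := by
            field_simp
            ring
          rw [e]
          apply mul_le_mul_of_nonneg_right _ hE.le
          have h5 : 6 * N ≤ ρ := by nlinarith
          have h6 : (6 * (N : ℝ)) ^ 2 ≤ ρ ^ 2 := pow_le_pow_left₀ (by positivity) h5 2
          nlinarith [sq_nonneg (N : ℝ)]
      _ ≤ _ := by gcongr
  · rw [← norm_pos_iff]
    exact lt_of_lt_of_le (by positivity) k2

theorem Cq_small (h : MK m κ) {N : ℕ} (hN : 120 ≤ N) {f g : ℂ → ℂ} {B : ℝ}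
    (hfg : ∀ w ∈ Sb m N, f w = Qp m κ w * g w)
    (hB0 : 0 ≤ B) (hB : ∀ w ∈ Sb m N, ‖f w‖ ≤ B * Real.exp (|w.im| / 2)) :
    ‖Cq m κ N g‖ ≤ 76 * B / N := by
  have hN' : (120 : ℝ) ≤ N := by exact_mod_cast hN
  have hN0 : (0 : ℝ) < N := by linarith
  have hR := RR_pos N
  have hπ := Real.pi_pos
  have hπ4 := Real.pi_lt_d2
  have hN2 : 0 < (N : ℝ) ^ 2 := by positivity
  have key := RI_le (a := m - RR N) (b := m + RR N) (c := -RR N) (d := RR N)
    (A := B / (N : ℝ) ^ 2) (by linarith) (by linarith) (F := fun w => g w / dq m κ w) (by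
      intro w hw
      obtain ⟨h1, hQ⟩ := dq_lower h hN hw
      have h2 := hB w hw
      have hE := Real.exp_pos (|w.im| / 2)
      have hQn : 0 < ‖Qp m κ w‖ := norm_pos_iff.mpr hQ
      have e : ‖g w / dq m κ w‖ = ‖f w‖ / (‖Qp m κ w‖ * ‖dq m κ w‖) := by
        rw [norm_div, hfg w hw, norm_mul, mul_div_mul_left _ _ hQn.ne']
      rw [e]
      calc ‖f w‖ / (‖Qp m κ w‖ * ‖dq m κ w‖) ≤
          (B * Real.exp (|w.im| / 2)) / ((N : ℝ) ^ 2 * Real.exp (|w.im| / 2)) := by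
            gcongr
        _ = _ := by field_simp)
  refine key.trans ?_
  have e : 2 * (m + RR N - (m - RR N)) * (B / (N : ℝ) ^ 2) +
      2 * (RR N - -RR N) * (B / (N : ℝ) ^ 2) = 8 * RR N * B / (N : ℝ) ^ 2 := by ring
  rw [e]
  have h3 : RR N ≤ 9.5 * N := by
    unfold RR
    nlinarith
  calc 8 * RR N * B / (N : ℝ) ^ 2 ≤ 8 * (9.5 * N) * B / (N : ℝ) ^ 2 := by gcongr
    _ = 76 * B / N := by field_simp; ring

/-- the angle -/
def tq (m κ : ℝ) : ℝ := Real.sqrt (m ^ 2 + 4 * κ) / 2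

theorem tq_sq (h : MK m κ) : (tq m κ) ^ 2 = (m ^ 2 + 4 * κ) / 4 := by
  unfold tq
  have := h.k0
  rw [div_pow, Real.sq_sqrt (by positivity)]
  norm_num

theorem tq_root (h : MK m κ) : ((tq m κ : ℝ) : ℂ) ^ 2 = ((0 - m : ℂ) / 2) ^ 2 + κ := by
  have h1 : (tq m κ) ^ 2 = ((0 - m) / 2) ^ 2 + κ := by
    rw [tq_sq h]; ring
  exact_mod_cast congrArg (fun x : ℝ => (x : ℂ)) h1

theorem tq_bd (h : MK m κ) : 0 ≤ tq m κ ∧ tq m κ < Real.pi := by
  have hπ := Real.pi_pos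
  refine ⟨by unfold tq; positivity, ?_⟩
  have h1 : (tq m κ) ^ 2 < Real.pi ^ 2 := by
    rw [tq_sq h]
    have := h.hm
    linarith
  exact (abs_lt.mp (abs_lt_of_sq_lt_sq h1 hπ.le)).2

/-- `|Qp 0|` is comparable with the cosine -/
theorem c_le_cos (h : MK m κ) : |m ^ 2 - Real.pi ^ 2 + 4 * κ| ≤ 30 * |Real.cos (tq m κ)| := by
  have hπ := Real.pi_pos
  have hπ4 := Real.pi_lt_d2
  obtain ⟨h1, h2⟩ := tq_bd h
  have h3 := tq_sq h
  set θ := tq m κ with hθ
  have h5 : m ^ 2 - Real.pi ^ 2 + 4 * κ = 4 * ((θ - Real.pi / 2) * (θ + Real.pi / 2)) := by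
    have : (θ - Real.pi / 2) * (θ + Real.pi / 2) = θ ^ 2 - Real.pi ^ 2 / 4 := by ring
    rw [this, h3]; ring
  have h4 : 2 / Real.pi * |θ - Real.pi / 2| ≤ |Real.cos θ| := by
    rcases le_total θ (Real.pi / 2) with hc | hc
    · have h6 := Real.mul_le_sin (x := Real.pi / 2 - θ) (by linarith) (by linarith)
      rw [Real.sin_pi_div_two_sub] at h6
      rw [abs_of_nonpos (by linarith), neg_sub]
      exact h6.trans (le_abs_self _)
    · have h6 := Real.mul_le_sin (x := θ - Real.pi / 2) (by linarith) (by linarith)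
      rw [Real.sin_sub_pi_div_two] at h6
      rw [abs_of_nonneg (by linarith)]
      exact h6.trans (neg_le_abs _)
  rw [h5, abs_mul, abs_mul, abs_of_pos (by norm_num : (0 : ℝ) < 4),
    abs_of_pos (by linarith : 0 < θ + Real.pi / 2)]
  have h7 : |θ - Real.pi / 2| ≤ Real.pi / 2 * |Real.cos θ| := by
    calc |θ - Real.pi / 2| = Real.pi / 2 * (2 / Real.pi * |θ - Real.pi / 2|) := by field_simp
      _ ≤ _ := by gcongr
  have h8 : 0 ≤ |θ - Real.pi / 2| := abs_nonneg _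
  have h9 : 0 ≤ |Real.cos θ| := abs_nonneg _
  calc 4 * (|θ - Real.pi / 2| * (θ + Real.pi / 2)) ≤
        4 * ((Real.pi / 2 * |Real.cos θ|) * (Real.pi + Real.pi / 2)) := by gcongr
    _ = 3 * Real.pi ^ 2 * |Real.cos θ| := by ring
    _ ≤ _ := by
        have : 3 * Real.pi ^ 2 ≤ 30 := by nlinarith
        gcongr

/-- **inequality for a value near two symmetric zeros** -/
theorem pair_zero (h : MK m κ) {N : ℕ} (hN : 120 ≤ N) {U : Set ℂ} (hU : IsOpen U)
    (hRU : Sc m N ⊆ U) {f g : ℂ → ℂ} (hg : DifferentiableOn ℂ g U)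
    (hfg : ∀ w ∈ U, f w = Qp m κ w * g w) {M : ℝ} (hM0 : 0 ≤ M)
    (hM : ∀ w ∈ Sc m N, ‖f w‖ ≤ M * Real.exp (|w.im| / 2)) :
    ‖f 0‖ ≤ M * (|Real.cos (tq m κ)| * (1 + 4560 / N)) := by
  have hπ := Real.pi_pos
  have hπ3 := Real.pi_gt_three
  have hN' : (120 : ℝ) ≤ N := by exact_mod_cast hN
  have hN0 : (0 : ℝ) < N := by linarith
  have hR := RR_pos N
  have hsub : Sb m N ⊆ Sc m N := H370.Bd_sub (by linarith) (by linarith)
  have h0S : (0 : ℂ) ∈ Sc m N := by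
    have h1 := abs_lt.mp h.m_lt
    have h2 := RR_ge (by omega : 1 ≤ N)
    refine ⟨?_, ?_⟩
    · rw [mem_preimage, Complex.zero_re]; constructor <;> linarith [h1.1, h1.2]
    · rw [mem_preimage, Complex.zero_im]; constructor <;> linarith
  set c : ℝ := m ^ 2 - Real.pi ^ 2 + 4 * κ with hc
  have hQ0 : Qp m κ 0 = (c : ℂ) := by rw [Qp, hc]; push_cast; ring
  have hP0 : ‖PP m κ 0‖ ≤ 1 := by
    rw [PP_eq (tq_root h)]
    refine (Pool.Agent.Helper935.EX.norm_sc_le _).trans (le_of_eq ?_)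
    rw [Complex.ofReal_im, abs_zero, Real.exp_zero]
  have hE0 : ‖EE m κ 0‖ = |Real.cos (tq m κ)| := by
    rw [EE_eq (tq_root h), ← Complex.ofReal_cos, Complex.norm_real, Real.norm_eq_abs]
  have hIne : (2 * Real.pi * I : ℂ) ≠ 0 := by
    refine mul_ne_zero (mul_ne_zero two_ne_zero ?_) I_ne_zero
    exact_mod_cast hπ.ne'
  have hPne := PP_zero_ne h
  -- the formula for a general function
  have gen : ∀ F G : ℂ → ℂ, DifferentiableOn ℂ G U → (∀ w ∈ U, F w = Qp m κ w * G w) →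
      F 0 = ((c : ℂ) * PP m κ 0) * (Cq m κ N G / (2 * Real.pi * I) -
        ∑ j ∈ JJs N, (rq m κ j : ℂ) * ((-1) ^ j * F (nq m κ j : ℝ))) := by
    intro F G hG hFG
    have hsum : ∑ j ∈ JJs N, (rq m κ j : ℂ) * ((-1) ^ j *
          (((4 * (Real.pi * j) ^ 2 - Real.pi ^ 2 : ℝ) : ℂ) * G (nq m κ j : ℝ))) =
        ∑ j ∈ JJs N, (rq m κ j : ℂ) * ((-1) ^ j * F (nq m κ j : ℝ)) := by
      apply Finset.sum_congr rfl
      intro j hj
      have hm : ((nq m κ j : ℝ) : ℂ) ∈ Sc m N := by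
        have h5 := abs_lt.mp (nq_abs_lt h hj)
        refine ⟨?_, ?_⟩
        · rw [mem_preimage, ofReal_re]
          constructor <;> linarith [h5.1, h5.2]
        · rw [mem_preimage, ofReal_im]
          constructor <;> linarith
      rw [hFG _ (hRU hm), Qp_node h (Finset.mem_erase.mp hj).1]
    rw [interpq h (by omega) hU hRU hG, hsum, mul_div_cancel_left₀ _ hIne, add_sub_cancel_right,
      hFG 0 (hRU h0S), hQ0]
    field_simp
  have hdiv : ∀ z : ℂ, ‖z / (2 * Real.pi * I)‖ ≤ ‖z‖ := by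
    intro z
    rw [norm_div, norm_mul, norm_mul, Complex.norm_I, mul_one, Complex.norm_ofNat,
      Complex.norm_real, Real.norm_eq_abs, abs_of_pos hπ]
    exact div_le_self (norm_nonneg _) (by linarith)
  have hnab : ‖((c : ℂ) * PP m κ 0)‖ = |c| * ‖PP m κ 0‖ := by
    rw [norm_mul, Complex.norm_real, Real.norm_eq_abs]
  have hm1 : ∀ j : ℤ, ‖((-1 : ℂ)) ^ j‖ = 1 := fun j => by
    rw [norm_zpow, norm_neg, norm_one, one_zpow]
  -- the extremal function
  have eE := gen (EE m κ) (gE m κ) (gE_diff m κ).differentiableOn (fun w _ => EE_fac m κ w)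
  have hsumE : ∑ j ∈ JJs N, (rq m κ j : ℂ) * ((-1) ^ j * EE m κ (nq m κ j : ℝ)) =
      ((∑ j ∈ JJs N, rq m κ j : ℝ) : ℂ) := by
    rw [Complex.ofReal_sum]
    apply Finset.sum_congr rfl
    intro j hj
    rw [EE_node h (Finset.mem_erase.mp hj).1, ← mul_zpow]
    norm_num
  have hS0 : 0 ≤ ∑ j ∈ JJs N, rq m κ j :=
    Finset.sum_nonneg fun j hj => (rq_pos h (Finset.mem_erase.mp hj).1).le
  set S := ∑ j ∈ JJs N, rq m κ j with hS
  rw [hsumE] at eE
  have hCE := Cq_small h hN (f := EE m κ) (g := gE m κ) (B := 1) (fun w _ => EE_fac m κ w)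
    zero_le_one (fun w _ => EE_bd h w)
  rw [mul_one] at hCE
  have hc0 : 0 ≤ |c| := abs_nonneg c
  have hSle : |c| * ‖PP m κ 0‖ * S ≤ |Real.cos (tq m κ)| + |c| * (76 / N) := by
    have e1 : ((c : ℂ) * PP m κ 0) * (S : ℂ) =
        ((c : ℂ) * PP m κ 0) * (Cq m κ N (gE m κ) / (2 * Real.pi * I)) - EE m κ 0 := by
      rw [eE]; ring
    have e2 := congrArg norm e1
    rw [norm_mul, hnab, Complex.norm_real, Real.norm_eq_abs, abs_of_nonneg hS0] at e2
    rw [e2]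
    refine (norm_sub_le _ _).trans ?_
    rw [norm_mul, hnab, hE0, add_comm]
    apply add_le_add le_rfl
    calc |c| * ‖PP m κ 0‖ * ‖Cq m κ N (gE m κ) / (2 * Real.pi * I)‖
        ≤ |c| * 1 * (76 / N) := by
          gcongr
          exact (hdiv _).trans hCE
      _ = _ := by ring
  -- the function itself
  have eF := gen f g hg hfg
  have hCF := Cq_small h hN (f := f) (g := g) (fun w hw => hfg w (hRU (hsub hw))) hM0
    (fun w hw => hM w (hsub hw))
  have hsumF : ‖∑ j ∈ JJs N, (rq m κ j : ℂ) * ((-1) ^ j * f (nq m κ j : ℝ))‖ ≤ S * M := by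
    refine (norm_sum_le _ _).trans ?_
    rw [hS, Finset.sum_mul]
    apply Finset.sum_le_sum
    intro j hj
    have hr := rq_pos h (Finset.mem_erase.mp hj).1
    rw [norm_mul, norm_mul, hm1, one_mul, Complex.norm_real, Real.norm_eq_abs, abs_of_pos hr]
    apply mul_le_mul_of_nonneg_left _ hr.le
    have hm : ((nq m κ j : ℝ) : ℂ) ∈ Sc m N := by
      have h5 := abs_lt.mp (nq_abs_lt h hj)
      refine ⟨?_, ?_⟩
      · rw [mem_preimage, ofReal_re]
        constructor <;> linarith [h5.1, h5.2]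
      · rw [mem_preimage, ofReal_im]
        constructor <;> linarith
    have := hM _ hm
    simpa using this
  rw [eF, norm_mul, hnab]
  have hn := (norm_sub_le (Cq m κ N g / (2 * Real.pi * I))
    (∑ j ∈ JJs N, (rq m κ j : ℂ) * ((-1) ^ j * f (nq m κ j : ℝ))))
  have hcos0 : 0 ≤ |Real.cos (tq m κ)| := abs_nonneg _
  have hfin := c_le_cos h
  rw [← hc] at hfin
  calc |c| * ‖PP m κ 0‖ * ‖Cq m κ N g / (2 * Real.pi * I) -
        ∑ j ∈ JJs N, (rq m κ j : ℂ) * ((-1) ^ j * f (nq m κ j : ℝ))‖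
      ≤ |c| * ‖PP m κ 0‖ * (76 * M / N + S * M) := by
        gcongr
        exact hn.trans (add_le_add ((hdiv _).trans hCF) hsumF)
    _ = |c| * ‖PP m κ 0‖ * (76 * M / N) + (|c| * ‖PP m κ 0‖ * S) * M := by ring
    _ ≤ |c| * 1 * (76 * M / N) + (|Real.cos (tq m κ)| + |c| * (76 / N)) * M := by gcongr
    _ = M * (|Real.cos (tq m κ)| + |c| * (152 / N)) := by ring
    _ ≤ M * (|Real.cos (tq m κ)| + (30 * |Real.cos (tq m κ)|) * (152 / N)) := by gcongr
    _ = _ := by ring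

end

end Q63.RZ
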