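import Pool.Agent.Q63.RZ.Contour

/-!
# Bounds for the remainder; the two-point inequality
-/

set_option autoImplicit false

open Complex Filter Topology Set MeasureTheory

namespace Q63.RZ

noncomputable section

theorem norm_cos_ge (z : ℂ) : Real.sinh |z.im| ≤ ‖Complex.cos z‖ := by
  have e1 : Complex.cos z = (Complex.exp (z * I) + Complex.exp (-z * I)) / 2 := rfl
  have n1 : ‖Complex.exp (z * I)‖ = Real.exp (-z.im) := by rw [Complex.norm_exp]; simp
  have n2 : ‖Complex.exp (-z * I)‖ = Real.exp z.im := by rw [Complex.norm_exp]; simp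
  rw [e1, norm_div, Complex.norm_ofNat, Real.sinh_eq]
  have h1 := norm_sub_norm_le (Complex.exp (z * I)) (-Complex.exp (-z * I))
  have h2 := norm_sub_norm_le (Complex.exp (-z * I)) (-Complex.exp (z * I))
  rw [sub_neg_eq_add, norm_neg, n1, n2] at h1
  rw [sub_neg_eq_add, norm_neg, n1, n2, add_comm (Complex.exp (-z * I))] at h2
  rcases abs_cases z.im with ⟨h, _⟩ | ⟨h, _⟩
  · rw [h]; linarith
  · rw [h, neg_neg]; linarith

theorem sinh_ge {x : ℝ} (hx : 1 ≤ x) : Real.exp x / 4 ≤ Real.sinh x := by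
  rw [Real.sinh_eq]
  have h1 : Real.exp (-x) ≤ 1 := by rw [Real.exp_le_one_iff]; linarith
  have h2 : 2 ≤ Real.exp x := by
    have := Real.add_one_le_exp x
    linarith
  linarith

theorem cosh_ge (x : ℝ) : Real.exp |x| / 2 ≤ Real.cosh x := by
  rw [← Real.cosh_abs, Real.cosh_eq]
  have := Real.exp_pos (-|x|)
  linarith

theorem norm_sin_le (z : ℂ) : ‖Complex.sin z‖ ≤ Real.exp |z.im| := by
  have e1 : Complex.sin z = (Complex.exp (-z * I) - Complex.exp (z * I)) * I / 2 := rfl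
  have n1 : ‖Complex.exp (z * I)‖ = Real.exp (-z.im) := by rw [Complex.norm_exp]; simp
  have n2 : ‖Complex.exp (-z * I)‖ = Real.exp z.im := by rw [Complex.norm_exp]; simp
  rw [e1, norm_div, norm_mul, Complex.norm_I, mul_one, Complex.norm_ofNat]
  have h1 := norm_sub_le (Complex.exp (-z * I)) (Complex.exp (z * I))
  rw [n1, n2] at h1
  have h2 : Real.exp (-z.im) ≤ Real.exp |z.im| := Real.exp_le_exp.mpr (neg_le_abs _)
  have h3 : Real.exp z.im ≤ Real.exp |z.im| := Real.exp_le_exp.mpr (le_abs_self _)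
  linarith

theorem den_lower {α s : ℝ} {N : ℕ} (hN : 1 ≤ N) (h1 : -(Real.pi / 2) < α)
    (h2 : α < Real.pi / 2) (h3 : 0 < s) (h4 : s < 2 * α + Real.pi) {w : ℂ} (hw : w ∈ Rb α N) :
    (N : ℝ) ^ 2 * Real.exp (|w.im| / 2) ≤ ‖den α s w‖ := by
  have hπ := Real.pi_pos
  have hπ3 := Real.pi_gt_three
  have hN' : (1 : ℝ) ≤ N := by exact_mod_cast hN
  have hπN : Real.pi * 1 ≤ Real.pi * N := mul_le_mul_of_nonneg_left hN' hπ.le
  have hp : Real.pi * (N : ℝ) * (Real.pi * N) = Real.pi ^ 2 * (N : ℝ) ^ 2 := by ring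
  have hπ9 : 9 ≤ Real.pi ^ 2 := by nlinarith
  have hN2 : 0 < (N : ℝ) ^ 2 := by positivity
  have hE := Real.exp_pos (|w.im| / 2)
  rw [den, norm_mul, norm_mul]
  rcases hw with ⟨_, h6⟩ | ⟨_, h6⟩
  · -- horizontal sides
    have him : |w.im| = 2 * Real.pi * N := by
      rcases h6 with h | h
      · rw [h, abs_neg, abs_of_pos (by positivity)]
      · rw [h, abs_of_pos (by positivity)]
    have a1 : Real.pi * N ≤ ‖w‖ := by
      have := Complex.abs_im_le_norm w
      rw [him] at this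
      linarith
    have a2 : Real.pi * N ≤ ‖w - s‖ := by
      have := Complex.abs_im_le_norm (w - s)
      rw [Complex.sub_im, Complex.ofReal_im, sub_zero, him] at this
      linarith
    have a3 : Real.exp (|w.im| / 2) / 4 ≤ ‖Complex.cos (w / 2 - α)‖ := by
      have h7 : |(w / 2 - α : ℂ).im| = |w.im| / 2 := by
        simp [abs_div]
      refine le_trans ?_ (norm_cos_ge _)
      rw [h7]
      apply sinh_ge
      rw [him]
      linarith
    calc (N : ℝ) ^ 2 * Real.exp (|w.im| / 2)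
        ≤ (Real.pi * N) * (Real.pi * N) * (Real.exp (|w.im| / 2) / 4) := by
          rw [hp]
          have : 9 * ((N : ℝ) ^ 2 * Real.exp (|w.im| / 2)) ≤
              Real.pi ^ 2 * ((N : ℝ) ^ 2 * Real.exp (|w.im| / 2)) :=
            mul_le_mul_of_nonneg_right hπ9 (by positivity)
          nlinarith [mul_pos hN2 hE]
      _ ≤ _ := by gcongr
  · -- vertical sides
    have hre : w.re ≤ -(Real.pi * N) ∨ Real.pi * N + s ≤ w.re := by
      rcases h6 with h | h
      · left; rw [h]; linarith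
      · right; rw [h]; linarith
    have a1 : Real.pi * N ≤ ‖w‖ := by
      refine le_trans ?_ (Complex.abs_re_le_norm w)
      rcases hre with h | h
      · rw [abs_of_neg (by linarith)]; linarith
      · rw [abs_of_pos (by linarith)]; linarith
    have a2 : Real.pi * N ≤ ‖w - s‖ := by
      refine le_trans ?_ (Complex.abs_re_le_norm (w - s))
      rw [Complex.sub_re, Complex.ofReal_re]
      rcases hre with h | h
      · rw [abs_of_neg (by linarith)]; linarith
      · rw [abs_of_pos (by linarith)]; linarith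
    have a3 : Real.exp (|w.im| / 2) / 2 ≤ ‖Complex.cos (w / 2 - α)‖ := by
      obtain ⟨m, hm⟩ : ∃ m : ℤ, w.re / 2 - α = (m : ℝ) * Real.pi := by
        rcases h6 with h | h
        · refine ⟨-(N : ℤ), ?_⟩
          rw [h]; push_cast; ring
        · refine ⟨(N : ℤ), ?_⟩
          rw [h]; push_cast; ring
      have e1 : w / 2 - α = ((w.re / 2 - α : ℝ) : ℂ) + ((w.im / 2 : ℝ) : ℂ) * I := by
        apply Complex.ext <;> simp
      rw [e1, Complex.cos_add_mul_I, hm, ← Complex.ofReal_cos, ← Complex.ofReal_sin,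
        Real.sin_int_mul_pi, Complex.ofReal_zero, zero_mul, zero_mul, sub_zero,
        ← Complex.ofReal_cosh, ← Complex.ofReal_mul, Complex.norm_real, Real.norm_eq_abs, abs_mul,
        Real.cos_int_mul_pi, abs_zpow, abs_neg, abs_one, one_zpow, one_mul,
        abs_of_pos (Real.cosh_pos _)]
      have := cosh_ge (w.im / 2)
      rwa [abs_div, abs_two] at this
    calc (N : ℝ) ^ 2 * Real.exp (|w.im| / 2)
        ≤ (Real.pi * N) * (Real.pi * N) * (Real.exp (|w.im| / 2) / 2) := by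
          rw [hp]
          have : 9 * ((N : ℝ) ^ 2 * Real.exp (|w.im| / 2)) ≤
              Real.pi ^ 2 * ((N : ℝ) ^ 2 * Real.exp (|w.im| / 2)) :=
            mul_le_mul_of_nonneg_right hπ9 (by positivity)
          nlinarith [mul_pos hN2 hE]
      _ ≤ _ := by gcongr

/-- the weights -/
def wg (α s : ℝ) (j : ℤ) : ℝ :=
  s * Real.cos α * Real.cos (s / 2 - α) * (2 / (nd α j * (nd α j - s)))

theorem wg_pos {α s : ℝ} (h1 : -(Real.pi / 2) < α) (h2 : α < Real.pi / 2) (h3 : 0 < s)
    (h4 : s < 2 * α + Real.pi) (j : ℤ) : 0 < wg α s j := by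
  have := nd_mul_pos h1 h2 h3 h4 j
  have c1 : 0 < Real.cos α := by
    have := cos_ne (α := 0) (x := α) (by linarith) (by linarith)
    rwa [sub_zero] at this
  have c2 : 0 < Real.cos (s / 2 - α) := cos_ne (by linarith) (by linarith)
  unfold wg
  positivity

/-- the formula, solved for the two values -/
theorem formula {α s : ℝ} {N : ℕ} (hN : 2 ≤ N) (h1 : -(Real.pi / 2) < α)
    (h2 : α < Real.pi / 2) (h3 : 0 < s) (h4 : s < 2 * α + Real.pi) {U : Set ℂ} (hU : IsOpen U)
    (hRU : Rc α N ⊆ U) {h : ℂ → ℂ} (hh : DifferentiableOn ℂ h U) :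
    h s * Real.cos α - h 0 * Real.cos (s / 2 - α) =
      (∑ j ∈ Finset.Ico (-(N : ℤ)) N, (wg α s j : ℂ) * ((-1) ^ j * h (nd α j))) +
      (s * Real.cos α * Real.cos (s / 2 - α) : ℝ) * (CI α s N h / (2 * Real.pi * I)) := by
  have hπ := Real.pi_pos
  have c1 : Real.cos α ≠ 0 := by
    have := cos_ne (α := 0) (x := α) (by linarith) (by linarith)
    rw [sub_zero] at this
    exact this.ne'
  have c2 : Real.cos (s / 2 - α) ≠ 0 := (cos_ne (by linarith) (by linarith)).ne'
  have c1' : (Real.cos α : ℂ) ≠ 0 := by exact_mod_cast c1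
  have c2' : (Real.cos (s / 2 - α) : ℂ) ≠ 0 := by exact_mod_cast c2
  have c3' : (s : ℂ) ≠ 0 := by exact_mod_cast h3.ne'
  have hI : (2 * Real.pi * I : ℂ) ≠ 0 := by
    refine mul_ne_zero (mul_ne_zero two_ne_zero ?_) I_ne_zero
    exact_mod_cast hπ.ne'
  rw [interp hN h1 h2 h3 h4 hU hRU hh, mul_div_cancel_left₀ _ hI, mul_add, mul_add, Finset.mul_sum]
  have e1 : ∀ j ∈ Finset.Ico (-(N : ℤ)) N,
      ((s * Real.cos α * Real.cos (s / 2 - α) : ℝ) : ℂ) *
        (h (nd α j) / ((nd α j : ℂ) * ((nd α j : ℂ) - s) * (-(1 / 2) * (-1) ^ j))) =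
      -((wg α s j : ℂ) * ((-1) ^ j * h (nd α j))) := by
    intro j _
    have hv : (nd α j : ℂ) * ((nd α j : ℂ) - s) ≠ 0 := by
      have := (nd_mul_pos h1 h2 h3 h4 j).ne'
      exact_mod_cast this
    have hm1 : ((-1 : ℂ)) ^ j ≠ 0 := zpow_ne_zero j (by norm_num)
    have hm2 : ((-1 : ℂ)) ^ j * (-1 : ℂ) ^ j = 1 := by
      rw [← mul_zpow]; norm_num
    have hv1 := left_ne_zero_of_mul hv
    have hv2 := right_ne_zero_of_mul hv
    unfold wg
    push_cast
    rw [← Complex.ofReal_cos]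
    have e3 : Complex.cos ((s : ℂ) / 2 - α) = ((Real.cos (s / 2 - α) : ℝ) : ℂ) := by push_cast; ring_nf
    field_simp
    linear_combination (Complex.cos (((s : ℂ) - 2 * α) / 2) * h (nd α j)) * hm2
  rw [Finset.sum_congr rfl e1, Finset.sum_neg_distrib]
  push_cast
  rw [← Complex.ofReal_cos]
  have e2 : Complex.cos ((s : ℂ) / 2 - α) = ((Real.cos (s / 2 - α) : ℝ) : ℂ) := by push_cast; ring_nf
  rw [e2]
  clear e1 e2
  generalize ((Real.cos (s / 2 - α) : ℝ) : ℂ) = c at c2' ⊢
  generalize ((Real.cos α : ℝ) : ℂ) = d at c1' ⊢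
  field_simp
  ring

end

end Q63.RZ
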