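import Pool.Agent.Q63.RZ.Two

/-!
# The two-point inequality
-/

set_option autoImplicit false

open Complex Filter Topology Set MeasureTheory

namespace Q63.RZ

noncomputable section

/-- sum of the integrals of a function over the four sides -/
def SN (α : ℝ) (N : ℕ) (g : ℂ → ℝ) : ℝ :=
  (∫ x in (2 * α - 2 * Real.pi * N)..(2 * α + 2 * Real.pi * N), g ⟨x, -(2 * Real.pi * N)⟩) +
  (∫ x in (2 * α - 2 * Real.pi * N)..(2 * α + 2 * Real.pi * N), g ⟨x, 2 * Real.pi * N⟩) +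
  (∫ y in (-(2 * Real.pi * N))..(2 * Real.pi * N), g ⟨2 * α + 2 * Real.pi * N, y⟩) +
  (∫ y in (-(2 * Real.pi * N))..(2 * Real.pi * N), g ⟨2 * α - 2 * Real.pi * N, y⟩)

/-- the weighted size of a function -/
def wn (h : ℂ → ℂ) (w : ℂ) : ℝ := ‖h w‖ * Real.exp (-(|w.im| / 2))

theorem wn_nonneg (h : ℂ → ℂ) (w : ℂ) : 0 ≤ wn h w := by unfold wn; positivity

theorem wn_cont {h : ℂ → ℂ} {A : Set ℂ} (hh : ContinuousOn h A) : ContinuousOn (wn h) A := by
  unfold wn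
  apply ContinuousOn.mul hh.norm
  apply Continuous.continuousOn
  fun_prop

theorem quot_le {α s : ℝ} {N : ℕ} (hN : 1 ≤ N) (h1 : -(Real.pi / 2) < α)
    (h2 : α < Real.pi / 2) (h3 : 0 < s) (h4 : s < 2 * α + Real.pi) (h : ℂ → ℂ) {w : ℂ}
    (hw : w ∈ Rb α N) : ‖h w / den α s w‖ ≤ 1 / (N : ℝ) ^ 2 * wn h w := by
  have hN' : (1 : ℝ) ≤ N := by exact_mod_cast hN
  have hN2 : 0 < (N : ℝ) ^ 2 := by positivity
  have hd := den_lower hN h1 h2 h3 h4 hw
  have hE := Real.exp_pos (|w.im| / 2)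
  rw [norm_div, wn, Real.exp_neg]
  calc ‖h w‖ / ‖den α s w‖ ≤ ‖h w‖ / ((N : ℝ) ^ 2 * Real.exp (|w.im| / 2)) := by
        apply div_le_div_of_nonneg_left (norm_nonneg _) (by positivity) hd
    _ = _ := by
        field_simp

theorem CI_le {α s : ℝ} {N : ℕ} (hN : 1 ≤ N) (h1 : -(Real.pi / 2) < α)
    (h2 : α < Real.pi / 2) (h3 : 0 < s) (h4 : s < 2 * α + Real.pi) {h : ℂ → ℂ}
    (hh : ContinuousOn h (Rc α N)) :
    ‖CI α s N h‖ ≤ 1 / (N : ℝ) ^ 2 * SN α N (wn h) := by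
  have hπ := Real.pi_pos
  have hN' : (1 : ℝ) ≤ N := by exact_mod_cast hN
  have hπN : Real.pi * 1 ≤ Real.pi * N := mul_le_mul_of_nonneg_left hN' hπ.le
  have hab : 2 * α - 2 * Real.pi * N ≤ 2 * α + 2 * Real.pi * N := by linarith
  have hcd : -(2 * Real.pi * N) ≤ 2 * Real.pi * N := by linarith
  have hsub : Rb α N ⊆ Rc α N := H370.Bd_sub hab hcd
  have hw := wn_cont (hh.mono hsub)
  have key : ∀ (u v : ℝ) (γ : ℝ → ℂ), u ≤ v → Continuous γ → (∀ x ∈ Icc u v, γ x ∈ Rb α N) →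
      ‖∫ x in u..v, h (γ x) / den α s (γ x)‖ ≤ 1 / (N : ℝ) ^ 2 * ∫ x in u..v, wn h (γ x) := by
    intro u v γ huv hγ hm
    rw [← intervalIntegral.integral_const_mul]
    apply intervalIntegral.norm_integral_le_of_norm_le huv
    · filter_upwards with x hx
      exact quot_le hN h1 h2 h3 h4 h (hm x (Ioc_subset_Icc_self hx))
    · apply ContinuousOn.intervalIntegrable
      rw [uIcc_of_le huv]
      exact continuousOn_const.mul (hw.comp hγ.continuousOn hm)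
  have cx : ∀ e : ℝ, Continuous (fun x : ℝ => (⟨x, e⟩ : ℂ)) := by
    intro e
    have : (fun x : ℝ => (⟨x, e⟩ : ℂ)) = fun x : ℝ => (x : ℂ) + e * I := by
      funext x; exact H370.mk_eq x e
    rw [this]; fun_prop
  have cy : ∀ e : ℝ, Continuous (fun y : ℝ => (⟨e, y⟩ : ℂ)) := by
    intro e
    have : (fun y : ℝ => (⟨e, y⟩ : ℂ)) = fun y : ℝ => (e : ℂ) + y * I := by
      funext x; exact H370.mk_eq e x
    rw [this]; fun_prop
  have k1 := key _ _ _ hab (cx (-(2 * Real.pi * N))) (fun x hx => Or.inl ⟨hx, Or.inl rfl⟩)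
  have k2 := key _ _ _ hab (cx (2 * Real.pi * N)) (fun x hx => Or.inl ⟨hx, Or.inr rfl⟩)
  have k3 := key _ _ _ hcd (cy (2 * α + 2 * Real.pi * N)) (fun x hx => Or.inr ⟨hx, Or.inr rfl⟩)
  have k4 := key _ _ _ hcd (cy (2 * α - 2 * Real.pi * N)) (fun x hx => Or.inr ⟨hx, Or.inl rfl⟩)
  rw [CI, H370.RI, SN]
  have n3 := norm_sub_le
    ((∫ x in (2 * α - 2 * Real.pi * N)..(2 * α + 2 * Real.pi * N),
      h ⟨x, -(2 * Real.pi * N)⟩ / den α s ⟨x, -(2 * Real.pi * N)⟩) -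
    (∫ x in (2 * α - 2 * Real.pi * N)..(2 * α + 2 * Real.pi * N),
      h ⟨x, 2 * Real.pi * N⟩ / den α s ⟨x, 2 * Real.pi * N⟩) +
    I * (∫ y in (-(2 * Real.pi * N))..(2 * Real.pi * N),
      h ⟨2 * α + 2 * Real.pi * N, y⟩ / den α s ⟨2 * α + 2 * Real.pi * N, y⟩))
    (I * (∫ y in (-(2 * Real.pi * N))..(2 * Real.pi * N),
      h ⟨2 * α - 2 * Real.pi * N, y⟩ / den α s ⟨2 * α - 2 * Real.pi * N, y⟩))
  have n2 := norm_add_le
    ((∫ x in (2 * α - 2 * Real.pi * N)..(2 * α + 2 * Real.pi * N),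
      h ⟨x, -(2 * Real.pi * N)⟩ / den α s ⟨x, -(2 * Real.pi * N)⟩) -
    (∫ x in (2 * α - 2 * Real.pi * N)..(2 * α + 2 * Real.pi * N),
      h ⟨x, 2 * Real.pi * N⟩ / den α s ⟨x, 2 * Real.pi * N⟩))
    (I * (∫ y in (-(2 * Real.pi * N))..(2 * Real.pi * N),
      h ⟨2 * α + 2 * Real.pi * N, y⟩ / den α s ⟨2 * α + 2 * Real.pi * N, y⟩))
  have n1 := norm_sub_le
    (∫ x in (2 * α - 2 * Real.pi * N)..(2 * α + 2 * Real.pi * N),
      h ⟨x, -(2 * Real.pi * N)⟩ / den α s ⟨x, -(2 * Real.pi * N)⟩)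
    (∫ x in (2 * α - 2 * Real.pi * N)..(2 * α + 2 * Real.pi * N),
      h ⟨x, 2 * Real.pi * N⟩ / den α s ⟨x, 2 * Real.pi * N⟩)
  rw [norm_mul, Complex.norm_I, one_mul] at n2 n3
  simp only [mul_add]
  linarith

theorem SN_le {α : ℝ} {N : ℕ} {g : ℂ → ℝ} {B : ℝ} (hg0 : ∀ w ∈ Rb α N, 0 ≤ g w)
    (hg : ∀ w ∈ Rb α N, g w ≤ B) : SN α N g ≤ 16 * Real.pi * N * B := by
  have hπ := Real.pi_pos
  have hN' : (0 : ℝ) ≤ N := Nat.cast_nonneg N
  have hπN : 0 ≤ Real.pi * N := by positivity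
  have hab : 2 * α - 2 * Real.pi * N ≤ 2 * α + 2 * Real.pi * N := by linarith
  have hcd : -(2 * Real.pi * N) ≤ 2 * Real.pi * N := by linarith
  have key : ∀ (u v : ℝ) (γ : ℝ → ℂ), u ≤ v → (∀ x ∈ Icc u v, γ x ∈ Rb α N) →
      (∫ x in u..v, g (γ x)) ≤ B * (v - u) := by
    intro u v γ huv hm
    refine (le_abs_self _).trans ?_
    rw [← Real.norm_eq_abs]
    have := intervalIntegral.norm_integral_le_of_norm_le_const (a := u) (b := v)
      (f := fun x => g (γ x)) (C := B) (by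
        intro x hx
        rw [uIoc_of_le huv] at hx
        have hx' := hm x (Ioc_subset_Icc_self hx)
        rw [Real.norm_eq_abs, abs_of_nonneg (hg0 _ hx')]
        exact hg _ hx')
    rwa [abs_of_nonneg (by linarith : (0 : ℝ) ≤ v - u)] at this
  have k1 := key _ _ (fun x => (⟨x, -(2 * Real.pi * N)⟩ : ℂ)) hab (fun x hx => Or.inl ⟨hx, Or.inl rfl⟩)
  have k2 := key _ _ (fun x => (⟨x, 2 * Real.pi * N⟩ : ℂ)) hab (fun x hx => Or.inl ⟨hx, Or.inr rfl⟩)
  have k3 := key _ _ (fun y => (⟨2 * α + 2 * Real.pi * N, y⟩ : ℂ)) hcd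
    (fun x hx => Or.inr ⟨hx, Or.inr rfl⟩)
  have k4 := key _ _ (fun y => (⟨2 * α - 2 * Real.pi * N, y⟩ : ℂ)) hcd
    (fun x hx => Or.inr ⟨hx, Or.inl rfl⟩)
  rw [SN]
  beta_reduce at k1 k2 k3 k4
  linarith

/-- the contour integral is small -/
theorem CI_small {α s : ℝ} {N : ℕ} (hN : 1 ≤ N) (h1 : -(Real.pi / 2) < α)
    (h2 : α < Real.pi / 2) (h3 : 0 < s) (h4 : s < 2 * α + Real.pi) {h : ℂ → ℂ}
    (hh : ContinuousOn h (Rc α N)) {B : ℝ}
    (hB : ∀ w ∈ Rb α N, ‖h w‖ ≤ B * Real.exp (|w.im| / 2)) :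
    ‖CI α s N h‖ ≤ 51 * B / N := by
  have hN' : (1 : ℝ) ≤ N := by exact_mod_cast hN
  have hN0 : (0 : ℝ) < N := by linarith
  have hw : ∀ w ∈ Rb α N, wn h w ≤ B := by
    intro w hw
    rw [wn]
    calc ‖h w‖ * Real.exp (-(|w.im| / 2)) ≤ B * Real.exp (|w.im| / 2) * Real.exp (-(|w.im| / 2)) :=
          mul_le_mul_of_nonneg_right (hB w hw) (Real.exp_pos _).le
      _ = B := by rw [mul_assoc, ← Real.exp_add, add_neg_cancel, Real.exp_zero, mul_one]
  have hB0 : 0 ≤ B := by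
    have hm : (⟨2 * α - 2 * Real.pi * N, 0⟩ : ℂ) ∈ Rb α N := by
      refine Or.inr ⟨⟨?_, ?_⟩, Or.inl rfl⟩
      · change -(2 * Real.pi * (N : ℝ)) ≤ 0
        have : 0 ≤ 2 * Real.pi * (N : ℝ) := by positivity
        linarith
      · change (0 : ℝ) ≤ 2 * Real.pi * (N : ℝ)
        positivity
    exact (wn_nonneg h _).trans (hw _ hm)
  refine (CI_le hN h1 h2 h3 h4 hh).trans ?_
  have := SN_le (g := wn h) (fun w _ => wn_nonneg h w) hw
  calc 1 / (N : ℝ) ^ 2 * SN α N (wn h) ≤ 1 / (N : ℝ) ^ 2 * (16 * Real.pi * N * B) := by gcongr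
    _ = (16 * Real.pi) * B / N := by field_simp
    _ ≤ 51 * B / N := by
        have : 16 * Real.pi ≤ 51 := by linarith [Real.pi_lt_d2]
        gcongr

/-- the factor in front -/
theorem fac_le {α s : ℝ} (h1 : -(Real.pi / 2) < α)
    (h2 : α < Real.pi / 2) (h3 : 0 < s) (h4 : s < 2 * α + Real.pi) (E : ℂ) :
    ‖((s * Real.cos α * Real.cos (s / 2 - α) : ℝ) : ℂ) * (E / (2 * Real.pi * I))‖ ≤ s * ‖E‖ := by
  have hπ := Real.pi_pos
  have hπ3 := Real.pi_gt_three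
  have c1 : 0 < Real.cos α := by
    have := cos_ne (α := 0) (x := α) (by linarith) (by linarith)
    rwa [sub_zero] at this
  have c2 : 0 < Real.cos (s / 2 - α) := cos_ne (by linarith) (by linarith)
  rw [norm_mul, norm_div, norm_mul, norm_mul, Complex.norm_I, Complex.norm_ofNat, Complex.norm_real,
    Complex.norm_real, Real.norm_eq_abs, Real.norm_eq_abs, abs_of_pos hπ, mul_one,
    abs_of_pos (by positivity)]
  have h5 : s * Real.cos α * Real.cos (s / 2 - α) ≤ s := by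
    calc s * Real.cos α * Real.cos (s / 2 - α) ≤ s * 1 * 1 := by
          gcongr
          · exact Real.cos_le_one _
          · exact Real.cos_le_one _
      _ = s := by ring
  have h6 : ‖E‖ / (2 * Real.pi) ≤ ‖E‖ := div_le_self (norm_nonneg _) (by linarith)
  calc s * Real.cos α * Real.cos (s / 2 - α) * (‖E‖ / (2 * Real.pi))
      ≤ s * ‖E‖ := by gcongr

/-- the basic inequality -/
theorem basic {α s : ℝ} {N : ℕ} (hN : 2 ≤ N) (h1 : -(Real.pi / 2) < α)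
    (h2 : α < Real.pi / 2) (h3 : 0 < s) (h4 : s < 2 * α + Real.pi) {U : Set ℂ} (hU : IsOpen U)
    (hRU : Rc α N ⊆ U) {h : ℂ → ℂ} (hh : DifferentiableOn ℂ h U) :
    ‖h s * Real.cos α - h 0 * Real.cos (s / 2 - α)‖ ≤
      (∑ j ∈ Finset.Ico (-(N : ℤ)) N, wg α s j * ‖h (nd α j)‖) + s * ‖CI α s N h‖ := by
  rw [formula hN h1 h2 h3 h4 hU hRU hh]
  refine (norm_add_le _ _).trans (add_le_add ?_ (fac_le h1 h2 h3 h4 _))
  refine (norm_sum_le _ _).trans (Finset.sum_le_sum fun j _ => ?_)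
  rw [norm_mul, norm_mul, norm_zpow, norm_neg, norm_one, one_zpow, one_mul, Complex.norm_real,
    Real.norm_eq_abs, abs_of_pos (wg_pos h1 h2 h3 h4 j)]

/-- total weight -/
theorem wg_sum {α s : ℝ} {N : ℕ} (hN : 2 ≤ N) (h1 : -(Real.pi / 2) < α)
    (h2 : α < Real.pi / 2) (h3 : 0 < s) (h4 : s < 2 * α + Real.pi) :
    ∑ j ∈ Finset.Ico (-(N : ℤ)) N, wg α s j ≤ Real.sin (s / 2) + s * (51 / N) := by
  set h : ℂ → ℂ := fun w => Complex.sin (w / 2 - α) with hh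
  have hd : Differentiable ℂ h := by
    intro w
    apply DifferentiableAt.csin
    fun_prop
  have key := formula hN h1 h2 h3 h4 isOpen_univ (subset_univ _) hd.differentiableOn
  have hs : ∀ j, (-1 : ℂ) ^ j * h (nd α j) = 1 := by
    intro j
    simp only [hh]
    rw [sin_nd, ← mul_zpow]
    norm_num
  simp only [hs, mul_one] at key
  have hsm := CI_small (by omega : 1 ≤ N) h1 h2 h3 h4 hd.continuous.continuousOn (B := 1) (by
    intro w _
    rw [one_mul]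
    refine (norm_sin_le _).trans (le_of_eq ?_)
    congr 1
    simp [abs_div])
  have e1 : h s * Real.cos α - h 0 * Real.cos (s / 2 - α) = ((Real.sin (s / 2) : ℝ) : ℂ) := by
    simp only [hh]
    have : Real.sin (s / 2 - α) * Real.cos α - Real.sin (0 / 2 - α) * Real.cos (s / 2 - α) =
        Real.sin (s / 2) := by
      rw [zero_div, zero_sub, Real.sin_neg]
      have e3 := Real.sin_add (s / 2 - α) α
      rw [sub_add_cancel] at e3
      linarith
    rw [← this]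
    push_cast
    ring
  rw [e1] at key
  have hf := fac_le h1 h2 h3 h4 (CI α s N h)
  have e2 : ((∑ j ∈ Finset.Ico (-(N : ℤ)) N, wg α s j : ℝ) : ℂ) =
      ((Real.sin (s / 2) : ℝ) : ℂ) -
        ((s * Real.cos α * Real.cos (s / 2 - α) : ℝ) : ℂ) * (CI α s N h / (2 * Real.pi * I)) := by
    rw [key]
    push_cast
    ring
  have e3 := congrArg Complex.re e2
  rw [Complex.ofReal_re, Complex.sub_re, Complex.ofReal_re] at e3
  rw [e3]
  rw [mul_one] at hsm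
  have h5 := (Complex.abs_re_le_norm _).trans (hf.trans (mul_le_mul_of_nonneg_left hsm h3.le))
  have h6 := neg_abs_le ((((s * Real.cos α * Real.cos (s / 2 - α) : ℝ) : ℂ) *
    (CI α s N h / (2 * Real.pi * I))).re)
  linarith

/-- **two-point inequality** -/
theorem two_point {α s : ℝ} {N : ℕ} (hN : 2 ≤ N) (h1 : -(Real.pi / 2) < α)
    (h2 : α < Real.pi / 2) (h3 : 0 < s) (h4 : s < 2 * α + Real.pi) {U : Set ℂ} (hU : IsOpen U)
    (hRU : Rc α N ⊆ U) {h : ℂ → ℂ} (hh : DifferentiableOn ℂ h U) {M : ℝ} (hM0 : 0 ≤ M)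
    (hM : ∀ w ∈ Rc α N, ‖h w‖ ≤ M * Real.exp (|w.im| / 2)) :
    ‖h s * Real.cos α - h 0 * Real.cos (s / 2 - α)‖ ≤ M * (Real.sin (s / 2) + s * (102 / N)) := by
  have hπ := Real.pi_pos
  have hN' : (0 : ℝ) ≤ N := Nat.cast_nonneg N
  have hπN : 0 ≤ Real.pi * N := by positivity
  have hab : 2 * α - 2 * Real.pi * N ≤ 2 * α + 2 * Real.pi * N := by linarith
  have hcd : -(2 * Real.pi * N) ≤ 2 * Real.pi * N := by linarith
  have hsub : Rb α N ⊆ Rc α N := H370.Bd_sub hab hcd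
  refine (basic hN h1 h2 h3 h4 hU hRU hh).trans ?_
  have hCI := CI_small (by omega : 1 ≤ N) h1 h2 h3 h4 (hh.continuousOn.mono hRU)
    (fun w hw => hM w (hsub hw))
  have hs := wg_sum hN h1 h2 h3 h4
  have h5 : (∑ j ∈ Finset.Ico (-(N : ℤ)) N, wg α s j * ‖h (nd α j)‖) ≤
      (∑ j ∈ Finset.Ico (-(N : ℤ)) N, wg α s j) * M := by
    rw [Finset.sum_mul]
    refine Finset.sum_le_sum fun j hj => ?_
    apply mul_le_mul_of_nonneg_left _ (wg_pos h1 h2 h3 h4 j).le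
    have hm : ((nd α j : ℝ) : ℂ) ∈ Rc α N := by
      refine ⟨?_, ?_⟩
      · rw [mem_preimage, ofReal_re]
        exact ⟨(nd_mem hj).1.le, (nd_mem hj).2.le⟩
      · rw [mem_preimage, ofReal_im]
        exact ⟨by linarith, by linarith⟩
    have := hM _ hm
    simpa using this
  calc _ ≤ (∑ j ∈ Finset.Ico (-(N : ℤ)) N, wg α s j) * M + s * (51 * M / N) :=
        add_le_add h5 (mul_le_mul_of_nonneg_left hCI h3.le)
    _ ≤ (Real.sin (s / 2) + s * (51 / N)) * M + s * (51 * M / N) := by gcongr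
    _ = _ := by ring

end

end Q63.RZ
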