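import Pool.Agent.Q63.RZ.Two2
import Pool.Agent.Helper935.EX.Ent

/-!
# An interpolation formula for a value between two zeros
-/

set_option autoImplicit false

open Complex Filter Topology Set MeasureTheory
open Pool.Agent.Helper935.EX (sc lft rt)

namespace Q63.RZ

noncomputable section

/-- the midpoint -/
def mm (a b : ℝ) : ℝ := (b - a) / 2

/-- the parameter -/
def kp (a b : ℝ) : ℝ := Real.pi ^ 2 / 4 - (a + b) ^ 2 / 16

/-- the function which vanishes at the nodes -/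
def P2 (a b : ℝ) (w : ℂ) : ℂ := lft sc (kp a b) ((w - mm a b) / 2)

/-- the extremal function -/
def E2 (a b : ℝ) (w : ℂ) : ℂ := lft Complex.cos (kp a b) ((w - mm a b) / 2)

/-- the denominator -/
def den2 (a b : ℝ) (w : ℂ) : ℂ := (w + a) * (w - b) * w * P2 a b w

/-- the nodes -/
def nx (a b : ℝ) (j : ℤ) : ℝ :=
  mm a b + (if 0 < j then 1 else -1) * (2 * Real.sqrt (Real.pi ^ 2 * j ^ 2 - kp a b))

theorem cos_even (z : ℂ) : Complex.cos (-z) = Complex.cos z := Complex.cos_neg z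

theorem P2_eq {a b : ℝ} {w v : ℂ} (h : v ^ 2 = ((w - mm a b) / 2) ^ 2 + kp a b) : P2 a b w = sc v :=
  Pool.Agent.Helper935.EX.lft_eq Pool.Agent.Helper935.EX.sc_neg h

theorem E2_eq {a b : ℝ} {w v : ℂ} (h : v ^ 2 = ((w - mm a b) / 2) ^ 2 + kp a b) :
    E2 a b w = Complex.cos v :=
  Pool.Agent.Helper935.EX.lft_eq cos_even h

theorem P2_diff (a b : ℝ) : Differentiable ℂ (P2 a b) :=
  (Pool.Agent.Helper935.EX.differentiable_lft Pool.Agent.Helper935.EX.differentiable_sc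
    Pool.Agent.Helper935.EX.sc_neg _).comp (by fun_prop)

theorem E2_diff (a b : ℝ) : Differentiable ℂ (E2 a b) :=
  (Pool.Agent.Helper935.EX.differentiable_lft Complex.differentiable_cos cos_even _).comp
    (by fun_prop)

theorem den2_diff (a b : ℝ) : Differentiable ℂ (den2 a b) := by
  have := P2_diff a b
  unfold den2
  fun_prop

/-- standing assumptions -/
structure AB (a b : ℝ) : Prop where
  ha : 0 < a
  hb : 0 < b
  hab : a + b ≤ 2 * Real.pi

section

variable {a b : ℝ}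

theorem AB.kp_nonneg (h : AB a b) : 0 ≤ kp a b := by
  unfold kp
  have := h.hab
  have hπ := Real.pi_pos
  have := h.ha
  have := h.hb
  nlinarith

theorem kp_le (a b : ℝ) : kp a b ≤ Real.pi ^ 2 / 4 := by
  unfold kp
  nlinarith [sq_nonneg (a + b)]

theorem one_le_sq {j : ℤ} (hj : j ≠ 0) : (1 : ℝ) ≤ (j : ℝ) ^ 2 := by
  have : (1 : ℤ) ≤ j ^ 2 := by
    have := sq_nonneg j
    have h2 : j ^ 2 ≠ 0 := pow_ne_zero 2 hj
    omega
  exact_mod_cast this

theorem rad_ge (a b : ℝ) {j : ℤ} (hj : j ≠ 0) :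
    3 * Real.pi ^ 2 / 4 ≤ Real.pi ^ 2 * j ^ 2 - kp a b := by
  have h1 := one_le_sq hj
  have h2 := kp_le a b
  have hπ : 0 < Real.pi ^ 2 := by positivity
  nlinarith

theorem nx_sub_sq (a b : ℝ) {j : ℤ} (hj : j ≠ 0) :
    (nx a b j - mm a b) ^ 2 = 4 * (Real.pi ^ 2 * j ^ 2 - kp a b) := by
  have h1 := rad_ge a b hj
  have hπ : 0 < Real.pi ^ 2 := by positivity
  have h2 : 0 ≤ Real.pi ^ 2 * j ^ 2 - kp a b := by linarith
  rw [nx, add_sub_cancel_left, mul_pow, mul_pow, Real.sq_sqrt h2]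
  split_ifs <;> ring

theorem nx_node (a b : ℝ) {j : ℤ} (hj : j ≠ 0) :
    ((Real.pi * j : ℝ) : ℂ) ^ 2 = (((nx a b j : ℝ) : ℂ) - mm a b) ^ 2 / 4 + kp a b := by
  have h := nx_sub_sq a b hj
  have h2 : (Real.pi * j) ^ 2 = (nx a b j - mm a b) ^ 2 / 4 + kp a b := by rw [h]; ring
  exact_mod_cast congrArg (fun x : ℝ => (x : ℂ)) h2

theorem nx_node' (a b : ℝ) {j : ℤ} (hj : j ≠ 0) :
    ((Real.pi * j : ℝ) : ℂ) ^ 2 = (((nx a b j : ℝ) - mm a b : ℂ) / 2) ^ 2 + kp a b := by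
  rw [nx_node a b hj]; ring

theorem sc_zero_iff (v : ℂ) : sc v = 0 ↔ ∃ j : ℤ, j ≠ 0 ∧ v = ((Real.pi * j : ℝ) : ℂ) := by
  constructor
  · intro h
    have hv : v ≠ 0 := by
      rintro rfl
      rw [Pool.Agent.Helper935.EX.sc_zero] at h
      exact one_ne_zero h
    have hs : Complex.sin v = 0 := by rw [← Pool.Agent.Helper935.EX.mul_sc, h, mul_zero]
    rw [Complex.sin_eq_zero_iff] at hs
    obtain ⟨k, hk⟩ := hs
    refine ⟨k, ?_, ?_⟩
    · rintro rfl
      apply hv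
      rw [hk]; simp
    · rw [hk]; push_cast; ring
  · rintro ⟨j, hj, rfl⟩
    have hne : ((Real.pi * j : ℝ) : ℂ) ≠ 0 := by
      have : Real.pi * j ≠ 0 := mul_ne_zero Real.pi_ne_zero (by exact_mod_cast hj)
      exact_mod_cast this
    rw [Pool.Agent.Helper935.EX.sc_of_ne hne, ← Complex.ofReal_sin, mul_comm Real.pi,
      Real.sin_int_mul_pi]
    simp

theorem P2_zero_iff (a b : ℝ) (w : ℂ) : P2 a b w = 0 ↔ ∃ j : ℤ, j ≠ 0 ∧ w = (nx a b j : ℝ) := by
  constructor
  · intro h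
    set v := rt (((w - mm a b) / 2) ^ 2 + kp a b) with hv
    have hv2 : v ^ 2 = ((w - mm a b) / 2) ^ 2 + kp a b := Pool.Agent.Helper935.EX.rt_sq _
    rw [P2_eq hv2, sc_zero_iff] at h
    obtain ⟨j, hj, hvj⟩ := h
    have h3 : (w - mm a b) ^ 2 = ((nx a b j : ℝ) - mm a b : ℂ) ^ 2 := by
      have h4 := nx_node' a b hj
      rw [hvj] at hv2
      rw [hv2] at h4
      linear_combination 4 * h4
    rcases sq_eq_sq_iff_eq_or_eq_neg.1 h3 with h5 | h5
    · exact ⟨j, hj, by linear_combination h5⟩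
    · refine ⟨-j, neg_ne_zero.mpr hj, ?_⟩
      have h6 : ((nx a b (-j) : ℝ) : ℂ) - mm a b = -(((nx a b j : ℝ) : ℂ) - mm a b) := by
        have h7 : nx a b (-j) - mm a b = -(nx a b j - mm a b) := by
          unfold nx
          push_cast
          rw [neg_sq]
          rcases lt_or_gt_of_ne hj with h | h
          · rw [if_pos (by omega : 0 < -j), if_neg (by omega : ¬ 0 < j)]; ring
          · rw [if_neg (by omega : ¬ 0 < -j), if_pos h]; ring
        exact_mod_cast congrArg (fun x : ℝ => (x : ℂ)) h7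
      linear_combination h5 - h6
  · rintro ⟨j, hj, rfl⟩
    rw [P2_eq (nx_node' a b hj), sc_zero_iff]
    exact ⟨j, hj, rfl⟩

theorem E2_nx (a b : ℝ) {j : ℤ} (hj : j ≠ 0) : E2 a b (nx a b j : ℝ) = (-1) ^ j := by
  rw [E2_eq (nx_node' a b hj), ← Complex.ofReal_cos, mul_comm Real.pi, Real.cos_int_mul_pi]
  push_cast
  rfl

theorem deriv_sc_node {v : ℂ} (h : sc v = 0) (hv : v ≠ 0) : deriv sc v = Complex.cos v / v := by
  have h1 : HasDerivAt (fun z => z * sc z) (1 * sc v + v * deriv sc v) v :=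
    (hasDerivAt_id' v).fun_mul (Pool.Agent.Helper935.EX.differentiable_sc v).hasDerivAt
  have h2 : (fun z => z * sc z) = Complex.sin := by
    funext z; exact Pool.Agent.Helper935.EX.mul_sc z
  rw [h2] at h1
  have h3 := h1.unique (Complex.hasDerivAt_sin v)
  rw [h] at h3
  rw [eq_div_iff hv]
  linear_combination h3

theorem deriv_P2 (a b : ℝ) {j : ℤ} (hj : j ≠ 0) :
    deriv (P2 a b) (nx a b j : ℝ) =
      (-1) ^ j * (((nx a b j - mm a b : ℝ) : ℂ) / (4 * (Real.pi * j : ℝ) ^ 2)) := by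
  set v : ℂ := ((Real.pi * j : ℝ) : ℂ) with hv
  have hv0 : v ≠ 0 := by
    have : Real.pi * j ≠ 0 := mul_ne_zero Real.pi_ne_zero (by exact_mod_cast hj)
    rw [hv]
    exact_mod_cast this
  have hsc : sc v = 0 := (sc_zero_iff v).2 ⟨j, hj, rfl⟩
  have hz := nx_node' a b hj
  rw [← hv] at hz
  set z : ℂ := (((nx a b j : ℝ) - mm a b : ℂ) / 2) with hzd
  have h1 := Pool.Agent.Helper935.EX.deriv_lft Pool.Agent.Helper935.EX.differentiable_sc
    Pool.Agent.Helper935.EX.sc_neg (kp a b : ℂ) z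
  have h2 := Pool.Agent.Helper935.EX.deriv_even_rt Pool.Agent.Helper935.EX.differentiable_sc
    Pool.Agent.Helper935.EX.sc_neg v
  rw [deriv_sc_node hsc hv0, hz] at h2
  have hcos : Complex.cos v = (-1) ^ j := by
    rw [hv, ← Complex.ofReal_cos, mul_comm Real.pi, Real.cos_int_mul_pi]
    push_cast
    rfl
  have h3 : HasDerivAt (P2 a b) (deriv (lft sc (kp a b : ℂ)) z * (1 / 2)) (nx a b j : ℝ) := by
    have d1 : HasDerivAt (fun w : ℂ => (w - mm a b) / 2) (1 / 2) (nx a b j : ℝ) :=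
      ((hasDerivAt_id' _).sub_const _).div_const 2
    have d2 := ((Pool.Agent.Helper935.EX.differentiable_lft Pool.Agent.Helper935.EX.differentiable_sc
      Pool.Agent.Helper935.EX.sc_neg (kp a b : ℂ)) z).hasDerivAt
    exact HasDerivAt.comp (h₂ := lft sc (kp a b : ℂ)) (h := fun w : ℂ => (w - mm a b) / 2) _ d2 d1
  rw [h3.deriv, h1]
  set G := deriv (fun s => sc (rt s)) (z ^ 2 + kp a b) with hG
  have h4 : G = Complex.cos v / v / (2 * v) := by
    rw [← h2]; field_simp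
  rw [h4, hcos]
  have h5 : z = ((nx a b j - mm a b : ℝ) : ℂ) / 2 := by rw [hzd]; push_cast; ring
  rw [h5]
  field_simp
  ring

end

end

end Q63.RZ
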