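import Pool.Agent.Q63.RZ.Tz

/-!
# The interpolation formula for a value between two zeros: the residues
-/

set_option autoImplicit false

open Complex Filter Topology Set MeasureTheory
open Pool.Agent.Helper935.EX (sc lft rt)

namespace Q63.RZ

noncomputable section

/-- half the side of the square -/
def RR (N : ℕ) : ℝ := Real.pi * (2 * N + 1)

/-- the closed square -/
def Qc (a b : ℝ) (N : ℕ) : Set ℂ :=
  Set.Icc (mm a b - RR N) (mm a b + RR N) ×ℂ Set.Icc (-RR N) (RR N)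

/-- its boundary -/
def Qb (a b : ℝ) (N : ℕ) : Set ℂ := H370.Bd (mm a b - RR N) (mm a b + RR N) (-RR N) (RR N)

/-- the contour integral -/
def CI2 (a b : ℝ) (N : ℕ) (h : ℂ → ℂ) : ℂ :=
  H370.RI (mm a b - RR N) (mm a b + RR N) (-RR N) (RR N) (fun w => h w / den2 a b w)

/-- indices of the nodes in the square -/
def JJs (N : ℕ) : Finset ℤ := (Finset.Icc (-(N : ℤ)) N).erase 0

/-- the zeros of the denominator -/
def Z2 (a b : ℝ) (N : ℕ) : Finset ℂ :=
  insert (0 : ℂ) (insert (-(a : ℂ)) (insert (b : ℂ) ((JJs N).image (fun j => ((nx a b j : ℝ) : ℂ)))))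

/-- the weights -/
def rw2 (a b : ℝ) (j : ℤ) : ℝ :=
  4 * (Real.pi * j) ^ 2 / ((nx a b j + a) * (nx a b j - b) * (nx a b j * (nx a b j - mm a b)))

theorem RR_pos (N : ℕ) : 0 < RR N := by unfold RR; positivity

variable {a b : ℝ}

theorem mm_lt (h : AB a b) : |mm a b| < Real.pi := by
  have := h.ha
  have := h.hb
  have := h.hab
  unfold mm
  rw [abs_lt]
  constructor <;> linarith

theorem X_sq_ge (a b : ℝ) {j : ℤ} (hj : j ≠ 0) : 3 * Real.pi ^ 2 ≤ (nx a b j - mm a b) ^ 2 := by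
  rw [nx_sub_sq a b hj]
  have := rad_ge a b hj
  linarith

theorem X_abs_gt (a b : ℝ) {j : ℤ} (hj : j ≠ 0) : Real.pi < |nx a b j - mm a b| := by
  have h1 := X_sq_ge a b hj
  have hπ := Real.pi_pos
  rw [← sq_abs (nx a b j - mm a b)] at h1
  by_contra h
  rw [not_lt] at h
  have h2 : |nx a b j - mm a b| ^ 2 ≤ Real.pi ^ 2 := pow_le_pow_left₀ (abs_nonneg _) h 2
  have h3 := pow_pos hπ 2
  linarith

theorem prod1_pos (h : AB a b) {j : ℤ} (hj : j ≠ 0) : 0 < (nx a b j + a) * (nx a b j - b) := by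
  have h1 := X_sq_ge a b hj
  have hπ := Real.pi_pos
  have h2 := h.hab
  have h3 := h.ha
  have h4 := h.hb
  have e : (nx a b j + a) * (nx a b j - b) = (nx a b j - mm a b) ^ 2 - ((a + b) / 2) ^ 2 := by
    unfold mm; ring
  rw [e]
  have h5 : ((a + b) / 2) ^ 2 ≤ Real.pi ^ 2 := by
    apply pow_le_pow_left₀ (by linarith)
    linarith
  have := pow_pos hπ 2
  linarith

theorem prod2_pos (h : AB a b) {j : ℤ} (hj : j ≠ 0) : 0 < nx a b j * (nx a b j - mm a b) := by
  have h1 := X_abs_gt a b hj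
  have h2 := mm_lt h
  have e : nx a b j * (nx a b j - mm a b) = |nx a b j - mm a b| * |nx a b j - mm a b| +
      mm a b * (nx a b j - mm a b) := by
    rw [abs_mul_abs_self]; ring
  rw [e]
  have h3 : -(|mm a b| * |nx a b j - mm a b|) ≤ mm a b * (nx a b j - mm a b) := by
    rw [← abs_mul]; exact neg_abs_le _
  have hπ := Real.pi_pos
  have h4 : |mm a b| * |nx a b j - mm a b| < |nx a b j - mm a b| * |nx a b j - mm a b| := by
    apply mul_lt_mul_of_pos_right (by linarith) (by linarith)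
  linarith

theorem rw2_pos (h : AB a b) {j : ℤ} (hj : j ≠ 0) : 0 < rw2 a b j := by
  have h1 := prod1_pos h hj
  have h2 := prod2_pos h hj
  have h3 : 0 < (Real.pi * j) ^ 2 := by
    have := one_le_sq hj
    rw [mul_pow]
    have := pow_pos Real.pi_pos 2
    positivity
  unfold rw2
  positivity

theorem nx_ne {j : ℤ} (h : AB a b) (hj : j ≠ 0) : nx a b j ≠ 0 ∧ nx a b j ≠ -a ∧ nx a b j ≠ b := by
  have h1 := prod1_pos h hj
  have h2 := prod2_pos h hj
  refine ⟨?_, ?_, ?_⟩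
  · intro e; rw [e, zero_mul] at h2; exact lt_irrefl _ h2
  · intro e; rw [e, neg_add_cancel, zero_mul] at h1; exact lt_irrefl _ h1
  · intro e; rw [e, sub_self, mul_zero] at h1; exact lt_irrefl _ h1

theorem nx_inj {i j : ℤ} (hi : i ≠ 0) (hj : j ≠ 0) (h : nx a b i = nx a b j) : i = j := by
  have hπ := Real.pi_pos
  have h1 := nx_sub_sq a b hi
  have h2 := nx_sub_sq a b hj
  rw [h] at h1
  have h3 : Real.pi ^ 2 * ((i : ℝ) ^ 2 - (j : ℝ) ^ 2) = 0 := by linarith
  have h4 : (i : ℝ) ^ 2 = (j : ℝ) ^ 2 := by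
    rcases mul_eq_zero.mp h3 with h5 | h5
    · exact absurd h5 (by positivity)
    · linarith
  have h5 : i ^ 2 = j ^ 2 := by exact_mod_cast h4
  rcases sq_eq_sq_iff_eq_or_eq_neg.1 h5 with h6 | h6
  · exact h6
  · exfalso
    subst h6
    have r1 := X_abs_gt a b hj
    have h7 : nx a b (-j) - mm a b = -(nx a b j - mm a b) := by
      unfold nx
      push_cast
      rw [neg_sq]
      rcases lt_or_gt_of_ne hj with h | h
      · rw [if_pos (by omega : 0 < -j), if_neg (by omega : ¬ 0 < j)]; ring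
      · rw [if_neg (by omega : ¬ 0 < -j), if_pos h]; ring
    rw [h] at h7
    have h8 : nx a b j - mm a b = 0 := by linarith
    rw [h8, abs_zero] at r1
    linarith

theorem nx_abs_lt (h : AB a b) {N : ℕ} {j : ℤ} (hj : j ∈ JJs N) : |nx a b j - mm a b| < RR N := by
  have hπ := Real.pi_pos
  rw [JJs, Finset.mem_erase, Finset.mem_Icc] at hj
  obtain ⟨h0, h1, h2⟩ := hj
  have h3 := nx_sub_sq a b h0
  have h4 := h.kp_nonneg
  have h5 : (j : ℝ) ^ 2 ≤ (N : ℝ) ^ 2 := by
    have : j ^ 2 ≤ (N : ℤ) ^ 2 := sq_le_sq' h1 h2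
    exact_mod_cast this
  apply abs_lt_of_sq_lt_sq _ (RR_pos N).le
  rw [h3]
  unfold RR
  have hN : (0 : ℝ) ≤ N := Nat.cast_nonneg N
  have hπ2 := pow_pos hπ 2
  have h6 : Real.pi ^ 2 * (j : ℝ) ^ 2 ≤ Real.pi ^ 2 * (N : ℝ) ^ 2 := by gcongr
  nlinarith [mul_nonneg hπ2.le hN]

theorem mem_JJs_of_abs (h : AB a b) {N : ℕ} {j : ℤ} (hj : j ≠ 0)
    (hx : |nx a b j - mm a b| ≤ RR N) : j ∈ JJs N := by
  have hπ := Real.pi_pos
  have hπ2 := pow_pos hπ 2
  have h3 := nx_sub_sq a b hj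
  have h4 := kp_le a b
  have h5 : (nx a b j - mm a b) ^ 2 ≤ (RR N) ^ 2 := sq_le_sq' (by linarith [(abs_le.mp hx).1]) (abs_le.mp hx).2
  rw [h3] at h5
  unfold RR at h5
  have h6 : Real.pi ^ 2 * (4 * (j : ℝ) ^ 2) ≤ Real.pi ^ 2 * ((2 * N + 1) ^ 2 + 1) := by nlinarith
  have h7 := le_of_mul_le_mul_left h6 hπ2
  have h8 : 4 * j ^ 2 ≤ (2 * (N : ℤ) + 1) ^ 2 + 1 := by exact_mod_cast h7
  have hN0 : (0 : ℤ) ≤ N := Int.natCast_nonneg N
  have h9 : j ^ 2 < ((N : ℤ) + 1) ^ 2 := by nlinarith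
  have h10 := abs_lt_of_sq_lt_sq h9 (by omega)
  rw [abs_lt] at h10
  rw [JJs, Finset.mem_erase, Finset.mem_Icc]
  refine ⟨hj, by omega, by omega⟩

theorem RR_ge {N : ℕ} (hN : 1 ≤ N) : 3 * Real.pi ≤ RR N := by
  have : (1 : ℝ) ≤ N := by exact_mod_cast hN
  unfold RR
  nlinarith [Real.pi_pos]

theorem den2_zero_iff (h : AB a b) {N : ℕ} :
    ∀ w ∈ Qc a b N, den2 a b w = 0 ↔ w ∈ Z2 a b N := by
  rintro w ⟨hw1, hw2⟩
  rw [den2, mul_eq_zero, mul_eq_zero, mul_eq_zero, P2_zero_iff, Z2, Finset.mem_insert,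
    Finset.mem_insert, Finset.mem_insert, Finset.mem_image]
  constructor
  · rintro (((h1 | h1) | h1) | ⟨j, hj, h1⟩)
    · right; left; linear_combination h1
    · right; right; left; linear_combination h1
    · left; exact h1
    · right; right; right
      refine ⟨j, ?_, h1.symm⟩
      apply mem_JJs_of_abs h hj
      rw [mem_preimage, h1, ofReal_re] at hw1
      rw [abs_le]
      constructor <;> linarith [hw1.1, hw1.2]
  · rintro (h1 | h1 | h1 | ⟨j, hj, h1⟩)
    · left; right; exact h1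
    · left; left; left; rw [h1]; ring
    · left; left; right; rw [h1]; ring
    · right
      refine ⟨j, (Finset.mem_erase.mp hj).1, h1.symm⟩

theorem Z2_interior (h : AB a b) {N : ℕ} (hN : 1 ≤ N) :
    ∀ w ∈ Z2 a b N, w ∈ Set.Ioo (mm a b - RR N) (mm a b + RR N) ×ℂ Set.Ioo (-RR N) (RR N) := by
  intro w hw
  have hR := RR_ge hN
  have hπ := Real.pi_pos
  have ha := h.ha
  have hb := h.hb
  have hab := h.hab
  rw [Z2, Finset.mem_insert, Finset.mem_insert, Finset.mem_insert, Finset.mem_image] at hw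
  have key : ∃ x : ℝ, w = x ∧ |x - mm a b| < RR N := by
    rcases hw with rfl | rfl | rfl | ⟨j, hj, rfl⟩
    · refine ⟨0, by simp, ?_⟩
      rw [zero_sub, abs_neg]
      linarith [mm_lt h]
    · refine ⟨-a, by simp, ?_⟩
      rw [abs_lt]; unfold mm
      constructor <;> linarith
    · refine ⟨b, rfl, ?_⟩
      rw [abs_lt]; unfold mm
      constructor <;> linarith
    · exact ⟨nx a b j, rfl, nx_abs_lt h hj⟩
  obtain ⟨x, rfl, h5⟩ := key
  rw [abs_lt] at h5
  refine ⟨?_, ?_⟩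
  · rw [mem_preimage, ofReal_re]; constructor <;> linarith [h5.1, h5.2]
  · rw [mem_preimage, ofReal_im]
    constructor <;> linarith

theorem hasDerivAt_den2 (a b : ℝ) (w : ℂ) :
    HasDerivAt (den2 a b) ((((w - b) + (w + a)) * w + (w + a) * (w - b)) * P2 a b w +
      (w + a) * (w - b) * w * deriv (P2 a b) w) w := by
  have a1 : HasDerivAt (fun w : ℂ => (w + a) * (w - b)) ((w - b) + (w + a)) w := by
    have := ((hasDerivAt_id' w).add_const (a : ℂ)).fun_mul ((hasDerivAt_id' w).sub_const (b : ℂ))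
    simpa using this
  have a2 : HasDerivAt (fun w : ℂ => (w + a) * (w - b) * w)
      (((w - b) + (w + a)) * w + (w + a) * (w - b)) w := by
    have := a1.fun_mul (hasDerivAt_id' w)
    simpa using this
  exact a2.fun_mul (P2_diff a b w).hasDerivAt

theorem P2_zero_ne (h : AB a b) : P2 a b 0 ≠ 0 := by
  intro h0
  obtain ⟨j, hj, h1⟩ := (P2_zero_iff a b 0).1 h0
  have : nx a b j = 0 := by exact_mod_cast h1.symm
  exact (nx_ne h hj).1 this

theorem P2_a_ne (h : AB a b) : P2 a b (-a) ≠ 0 := by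
  intro h0
  obtain ⟨j, hj, h1⟩ := (P2_zero_iff a b _).1 h0
  have : nx a b j = -a := by exact_mod_cast h1.symm
  exact (nx_ne h hj).2.1 this

theorem P2_b_ne (h : AB a b) : P2 a b b ≠ 0 := by
  intro h0
  obtain ⟨j, hj, h1⟩ := (P2_zero_iff a b _).1 h0
  have : nx a b j = b := by exact_mod_cast h1.symm
  exact (nx_ne h hj).2.2 this

theorem deriv_den2_zero (a b : ℝ) : deriv (den2 a b) 0 = -(a * b) * P2 a b 0 := by
  rw [(hasDerivAt_den2 a b 0).deriv]; ring

theorem deriv_den2_a (a b : ℝ) : deriv (den2 a b) (-(a : ℂ)) = a * (a + b) * P2 a b (-a) := by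
  rw [(hasDerivAt_den2 a b _).deriv]; ring

theorem deriv_den2_b (a b : ℝ) : deriv (den2 a b) (b : ℂ) = (b + a) * b * P2 a b b := by
  rw [(hasDerivAt_den2 a b _).deriv]; ring

theorem deriv_den2_nx (h : AB a b) {j : ℤ} (hj : j ≠ 0) :
    deriv (den2 a b) (nx a b j : ℝ) = (-1) ^ j / (rw2 a b j : ℂ) := by
  have h0 : P2 a b (nx a b j : ℝ) = 0 := (P2_zero_iff a b _).2 ⟨j, hj, rfl⟩
  rw [(hasDerivAt_den2 a b _).deriv, h0, deriv_P2 a b hj, rw2]
  have h1 : (((nx a b j + a) * (nx a b j - b) : ℝ) : ℂ) ≠ 0 := by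
    exact_mod_cast (prod1_pos h hj).ne'
  have h2 : ((nx a b j * (nx a b j - mm a b) : ℝ) : ℂ) ≠ 0 := by
    exact_mod_cast (prod2_pos h hj).ne'
  have h3 : ((Real.pi * j : ℝ) : ℂ) ≠ 0 := by
    have : Real.pi * j ≠ 0 := mul_ne_zero Real.pi_ne_zero (by exact_mod_cast hj)
    exact_mod_cast this
  push_cast at h1 h2 h3 ⊢
  field_simp
  ring

theorem interp2 (h : AB a b) {N : ℕ} (hN : 1 ≤ N) {U : Set ℂ} (hU : IsOpen U)
    (hRU : Qc a b N ⊆ U) {f : ℂ → ℂ} (hf : DifferentiableOn ℂ f U) (hfa : f (-a) = 0)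
    (hfb : f b = 0) :
    CI2 a b N f = 2 * Real.pi * I * (f 0 / (-(a * b) * P2 a b 0) +
      ∑ j ∈ JJs N, (rw2 a b j : ℂ) * ((-1) ^ j * f (nx a b j : ℝ))) := by
  classical
  have hR := RR_pos N
  have ha : (a : ℂ) ≠ 0 := by exact_mod_cast h.ha.ne'
  have hb : (b : ℂ) ≠ 0 := by exact_mod_cast h.hb.ne'
  have hab : (a : ℂ) + b ≠ 0 := by
    have : a + b ≠ 0 := by linarith [h.ha, h.hb]
    exact_mod_cast this
  have hm1 : ∀ j : ℤ, ((-1 : ℂ)) ^ j ≠ 0 := fun j => zpow_ne_zero j (by norm_num)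
  have hrw : ∀ j ∈ JJs N, (rw2 a b j : ℂ) ≠ 0 := fun j hj => by
    exact_mod_cast (rw2_pos h (Finset.mem_erase.mp hj).1).ne'
  have key := SG.RectAux.res_aux U hU (mm a b - RR N) (mm a b + RR N) (-RR N) (RR N)
    (by linarith) (by linarith) hRU (Z2 a b N) (den2 a b) f
    (den2_diff a b).differentiableOn hf (Z2_interior h hN) (den2_zero_iff h) (by
      intro w hw
      rw [Z2, Finset.mem_insert, Finset.mem_insert, Finset.mem_insert, Finset.mem_image] at hw
      rcases hw with rfl | rfl | rfl | ⟨j, hj, rfl⟩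
      · rw [deriv_den2_zero]
        exact mul_ne_zero (neg_ne_zero.mpr (mul_ne_zero ha hb)) (P2_zero_ne h)
      · rw [deriv_den2_a]
        exact mul_ne_zero (mul_ne_zero ha hab) (P2_a_ne h)
      · rw [deriv_den2_b]
        exact mul_ne_zero (mul_ne_zero (by rw [add_comm]; exact hab) hb) (P2_b_ne h)
      · rw [deriv_den2_nx h (Finset.mem_erase.mp hj).1]
        exact div_ne_zero (hm1 j) (hrw j hj))
  have n1 : (0 : ℂ) ∉ insert (-(a : ℂ)) (insert (b : ℂ) ((JJs N).image (fun j => ((nx a b j : ℝ) : ℂ)))) := by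
    rw [Finset.mem_insert, Finset.mem_insert, Finset.mem_image]
    rintro (h1 | h1 | ⟨j, hj, h1⟩)
    · exact ha (neg_eq_zero.mp h1.symm)
    · exact hb h1.symm
    · have : nx a b j = 0 := by exact_mod_cast h1
      exact (nx_ne h (Finset.mem_erase.mp hj).1).1 this
  have n2 : -(a : ℂ) ∉ insert (b : ℂ) ((JJs N).image (fun j => ((nx a b j : ℝ) : ℂ))) := by
    rw [Finset.mem_insert, Finset.mem_image]
    rintro (h1 | ⟨j, hj, h1⟩)
    · apply hab; rw [← h1]; ring
    · have : nx a b j = -a := by exact_mod_cast h1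
      exact (nx_ne h (Finset.mem_erase.mp hj).1).2.1 this
  have n3 : (b : ℂ) ∉ ((JJs N).image (fun j => ((nx a b j : ℝ) : ℂ))) := by
    rw [Finset.mem_image]
    rintro ⟨j, hj, h1⟩
    have : nx a b j = b := by exact_mod_cast h1
    exact (nx_ne h (Finset.mem_erase.mp hj).1).2.2 this
  rw [CI2, key, Z2, Finset.sum_insert n1, Finset.sum_insert n2, Finset.sum_insert n3,
    Finset.sum_image]
  · rw [deriv_den2_zero, hfa, hfb, zero_div, zero_div, zero_add, zero_add]
    congr 2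
    apply Finset.sum_congr rfl
    intro j hj
    rw [deriv_den2_nx h (Finset.mem_erase.mp hj).1]
    have hm2 : ((-1 : ℂ)) ^ j * (-1 : ℂ) ^ j = 1 := by
      rw [← mul_zpow]; norm_num
    have := hrw j hj
    have := hm1 j
    field_simp
    linear_combination (-f (nx a b j : ℝ)) * hm2
  · intro i hi j hj hij
    have hij' : ((nx a b i : ℝ) : ℂ) = ((nx a b j : ℝ) : ℂ) := hij
    have : nx a b i = nx a b j := by exact_mod_cast hij'
    exact nx_inj (Finset.mem_erase.mp hi).1 (Finset.mem_erase.mp hj).1 this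

end

end Q63.RZ
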