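import Pool.Agent.Q97.MM.Low
import Pool.Agent.Q97.MM.XXb
import Mathlib.Analysis.Complex.Hadamard

/-!
# The zeta function near the critical line against its maximum on a bounded window
-/

set_option autoImplicit false

open Complex Filter Topology Set MeasureTheory Q97.MM

namespace Q63.RZ

noncomputable section

/-- the smoothed function -/
def sf (A c : ℝ) (s : ℂ) : ℂ := Z1 s * Complex.exp (A * (s - (1 / 2 + c * I)) ^ 2)

theorem sf_norm (A c x v : ℝ) : ‖sf A c (x + v * I)‖ =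
    ‖Z1 (x + v * I)‖ * Real.exp (A * ((x - 1 / 2) ^ 2 - (v - c) ^ 2)) := by
  rw [sf, norm_mul, Complex.norm_exp]
  congr 2
  have e : (A : ℂ) * ((x : ℂ) + v * I - (1 / 2 + c * I)) ^ 2 =
      ((A * ((x - 1 / 2) ^ 2 - (v - c) ^ 2) : ℝ) : ℂ) + ((2 * A * (x - 1 / 2) * (v - c) : ℝ) : ℂ) * I := by
    push_cast
    linear_combination (A : ℂ) * ((v : ℂ) - c) ^ 2 * I_sq
  rw [e, Complex.add_re, Complex.ofReal_re, Complex.re_ofReal_mul, Complex.I_re, mul_zero, add_zero]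

theorem one_add_le (r : ℝ) : 1 + |r| ≤ 2 * Real.exp (r ^ 2) := by
  have h1 := Real.add_one_le_exp (r ^ 2)
  have h2 : |r| ≤ 1 + r ^ 2 := by
    rw [← sq_abs r]
    nlinarith [sq_nonneg (|r| - 1), abs_nonneg r]
  nlinarith [sq_nonneg r]

theorem one_add_sq_le (r : ℝ) : (1 + |r|) ^ 2 ≤ 4 * Real.exp (2 * r ^ 2) := by
  have h1 := one_add_le r
  calc (1 + |r|) ^ 2 ≤ (2 * Real.exp (r ^ 2)) ^ 2 := pow_le_pow_left₀ (by positivity) h1 2
    _ = _ := by rw [mul_pow, ← Real.exp_nat_mul]; norm_num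

theorem one_add_abs_le {c v : ℝ} (hc : 0 ≤ c) : 1 + |v| ≤ (1 + c) * (1 + |v - c|) := by
  have h1 : |v| ≤ |v - c| + c := by
    have := abs_add_le (v - c) c
    rw [sub_add_cancel, abs_of_nonneg hc] at this
    exact this
  nlinarith [abs_nonneg (v - c)]

theorem norm_pt_sub_one (x v : ℝ) : ‖(x : ℂ) + v * I - 1‖ ≤ |x - 1| + |v| := by
  have e : (x : ℂ) + v * I - 1 = ((x - 1 : ℝ) : ℂ) + v * I := by push_cast; ring
  rw [e]
  refine (norm_add_le _ _).trans ?_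
  rw [norm_mul, Complex.norm_I, mul_one, Complex.norm_real, Complex.norm_real, Real.norm_eq_abs,
    Real.norm_eq_abs]

/-- the bound on the critical line -/
theorem left_bd {t c D L M : ℝ} (ht : 9 ≤ t) (hL : L = Real.log t) (hD : 1 ≤ D) (hLD : D ^ 2 ≤ L)
    (hc : |c - t| ≤ 1) (hM1 : t⁻¹ ≤ M)
    (hM : ∀ u : ℝ, |u - t| ≤ D + 1 → ‖riemannZeta (1 / 2 + u * I)‖ ≤ M) (v : ℝ) :
    ‖sf (10 * L / D ^ 2) c (((1 / 2 : ℝ) : ℂ) + v * I)‖ ≤ (t + D + 2) * M := by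
  have ht0 : 0 < t := by linarith
  have hM0 : 0 < M := lt_of_lt_of_le (inv_pos.mpr ht0) hM1
  have hD2 : 0 < D ^ 2 := by positivity
  have hL1 : 1 ≤ L := by nlinarith
  rw [abs_le] at hc
  rw [sf_norm, sub_self]
  rcases le_or_gt |v - c| D with h | h
  · have h1 : Real.exp (10 * L / D ^ 2 * (0 ^ 2 - (v - c) ^ 2)) ≤ 1 := by
      rw [Real.exp_le_one_iff]
      have : 0 ≤ 10 * L / D ^ 2 * (v - c) ^ 2 := by positivity
      linarith
    have h2 : ‖Z1 (((1 / 2 : ℝ) : ℂ) + v * I)‖ ≤ (t + D + 2) * M := by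
      rw [Z1_of_ne (ne_one_of_re (by norm_num) v), norm_mul]
      have h3 := norm_pt_sub_one (1 / 2) v
      have h4 : |v| ≤ t + D + 1 := by
        rw [abs_le] at h ⊢
        constructor <;> linarith
      have h5 : |(1 / 2 : ℝ) - 1| = 1 / 2 := by norm_num [abs_of_neg]
      rw [h5] at h3
      have h6 : ‖riemannZeta (((1 / 2 : ℝ) : ℂ) + v * I)‖ ≤ M := by
        have := hM v (by
          rw [abs_le] at h ⊢
          constructor <;> linarith)
        push_cast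
        convert this using 3
      exact mul_le_mul (by linarith) h6 (norm_nonneg _) (by linarith)
    exact (mul_le_mul h2 h1 (Real.exp_pos _).le (by positivity)).trans_eq (mul_one _)
  · have h1 := Z1_growth (x := 1 / 2) (y := v) (by norm_num) (by norm_num)
    have hc0 : 0 ≤ c := by linarith [hc.1]
    have h2 := one_add_abs_le (v := v) hc0
    have h3 := one_add_sq_le (v - c)
    have h4 : 0 ≤ 1 + |v| := by positivity
    have h5 : (1 + |v|) ^ 2 ≤ (1 + c) ^ 2 * (4 * Real.exp (2 * (v - c) ^ 2)) := by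
      calc (1 + |v|) ^ 2 ≤ ((1 + c) * (1 + |v - c|)) ^ 2 := pow_le_pow_left₀ h4 h2 2
        _ = (1 + c) ^ 2 * (1 + |v - c|) ^ 2 := by ring
        _ ≤ _ := by gcongr
    have hr : D ^ 2 ≤ (v - c) ^ 2 := by
      rw [← sq_abs (v - c)]
      nlinarith [abs_nonneg (v - c)]
    have h6 : 10 * L / D ^ 2 * (0 ^ 2 - (v - c) ^ 2) ≤ -(8 * L) - 2 * (v - c) ^ 2 := by
      have h7 : 8 * L ≤ 8 * L / D ^ 2 * (v - c) ^ 2 := by
        calc 8 * L = 8 * L / D ^ 2 * D ^ 2 := by field_simp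
          _ ≤ _ := by gcongr
      have h8 : 2 * (v - c) ^ 2 ≤ 2 * L / D ^ 2 * (v - c) ^ 2 := by
        have : 2 ≤ 2 * L / D ^ 2 := by
          rw [le_div_iff₀ hD2]
          linarith
        gcongr
      have h9 : 10 * L / D ^ 2 * (0 ^ 2 - (v - c) ^ 2) =
          -(8 * L / D ^ 2 * (v - c) ^ 2) - 2 * L / D ^ 2 * (v - c) ^ 2 := by ring
      rw [h9]
      linarith
    have h10 : Real.exp (-(8 * L) - 2 * (v - c) ^ 2) = (t ^ 8)⁻¹ * Real.exp (-(2 * (v - c) ^ 2)) := by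
      rw [sub_eq_add_neg, Real.exp_add, hL]
      congr 1
      rw [Real.exp_neg]
      congr 1
      rw [show 8 * Real.log t = ((8 : ℕ) : ℝ) * Real.log t by norm_num, Real.exp_nat_mul,
        Real.exp_log ht0]
    calc ‖Z1 (((1 / 2 : ℝ) : ℂ) + v * I)‖ * Real.exp (10 * L / D ^ 2 * (0 ^ 2 - (v - c) ^ 2))
        ≤ (45 * ((1 + c) ^ 2 * (4 * Real.exp (2 * (v - c) ^ 2)))) *
          ((t ^ 8)⁻¹ * Real.exp (-(2 * (v - c) ^ 2))) := by
          rw [← h10]
          apply mul_le_mul _ (Real.exp_le_exp.mpr h6) (Real.exp_pos _).le (by positivity)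
          exact h1.trans (by gcongr)
      _ = 180 * (1 + c) ^ 2 * (t ^ 8)⁻¹ * (Real.exp (2 * (v - c) ^ 2) * Real.exp (-(2 * (v - c) ^ 2))) := by
          ring
      _ = 180 * (1 + c) ^ 2 * (t ^ 8)⁻¹ := by
          rw [← Real.exp_add, add_neg_cancel, Real.exp_zero, mul_one]
      _ ≤ 180 * (2 * t) ^ 2 * (t ^ 8)⁻¹ := by
          gcongr
          linarith [hc.2]
      _ = 720 * (t⁻¹) ^ 5 * t⁻¹ := by
          field_simp
          ring
      _ ≤ 1 * t⁻¹ := by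
          have h11 : 720 * (t⁻¹) ^ 5 ≤ 1 := by
            rw [inv_pow, mul_inv_le_iff₀ (by positivity), one_mul]
            calc (720 : ℝ) ≤ 9 ^ 5 := by norm_num
              _ ≤ t ^ 5 := by gcongr
          exact mul_le_mul_of_nonneg_right h11 (inv_nonneg.mpr ht0.le)
      _ ≤ (t + D + 2) * M := by
          apply mul_le_mul (by linarith) hM1 (by positivity) (by linarith)

/-- the bound on the line `Re s = 2` -/
theorem right_bd {t c D L : ℝ} (ht : 9 ≤ t) (hD : 1 ≤ D) (hLD : D ^ 2 ≤ L)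
    (hc : |c - t| ≤ 1) (v : ℝ) :
    ‖sf (10 * L / D ^ 2) c (((2 : ℝ) : ℂ) + v * I)‖ ≤ 4 * (t + D + 2) * Real.exp (23 * L / D ^ 2) := by
  have hD2 : 0 < D ^ 2 := by positivity
  have hL1 : 1 ≤ L := by nlinarith
  rw [abs_le] at hc
  have hc0 : 0 ≤ c := by linarith [hc.1]
  rw [sf_norm]
  have h1 : ‖Z1 (((2 : ℝ) : ℂ) + v * I)‖ ≤ 5 / 3 * (1 + |v|) := by
    rw [Z1_of_ne (ne_one_of_re (by norm_num) v), norm_mul]
    have h3 := norm_pt_sub_one 2 v
    have h5 : |(2 : ℝ) - 1| = 1 := by norm_num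
    rw [h5] at h3
    rw [mul_comm]
    exact mul_le_mul (zeta_two_bd v) h3 (norm_nonneg _) (by norm_num)
  have h2 := one_add_abs_le (v := v) hc0
  have h3 := one_add_le (v - c)
  have h4 : 10 * L / D ^ 2 * ((2 - 1 / 2) ^ 2 - (v - c) ^ 2) ≤ 23 * L / D ^ 2 - (v - c) ^ 2 := by
    have h8 : (v - c) ^ 2 ≤ 10 * L / D ^ 2 * (v - c) ^ 2 := by
      have : 1 ≤ 10 * L / D ^ 2 := by
        rw [le_div_iff₀ hD2]
        linarith
      calc (v - c) ^ 2 = 1 * (v - c) ^ 2 := (one_mul _).symm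
        _ ≤ _ := by gcongr
    have h9 : 10 * L / D ^ 2 * ((2 - 1 / 2) ^ 2 - (v - c) ^ 2) =
        22.5 * (L / D ^ 2) - 10 * L / D ^ 2 * (v - c) ^ 2 := by ring
    have h10 : 23 * L / D ^ 2 = 23 * (L / D ^ 2) := by ring
    rw [h9, h10]
    have : 0 ≤ L / D ^ 2 := by positivity
    linarith
  calc ‖Z1 (((2 : ℝ) : ℂ) + v * I)‖ * Real.exp (10 * L / D ^ 2 * ((2 - 1 / 2) ^ 2 - (v - c) ^ 2))
      ≤ (5 / 3 * ((1 + c) * (2 * Real.exp ((v - c) ^ 2)))) * Real.exp (23 * L / D ^ 2 - (v - c) ^ 2) := by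
        apply mul_le_mul _ (Real.exp_le_exp.mpr h4) (Real.exp_pos _).le (by positivity)
        refine h1.trans ?_
        have := h2.trans (mul_le_mul_of_nonneg_left h3 (by linarith : 0 ≤ 1 + c))
        gcongr
    _ = 10 / 3 * (1 + c) * (Real.exp ((v - c) ^ 2) * Real.exp (23 * L / D ^ 2 - (v - c) ^ 2)) := by ring
    _ = 10 / 3 * (1 + c) * Real.exp (23 * L / D ^ 2) := by
        rw [← Real.exp_add]; congr 2; ring
    _ ≤ _ := by
        have h : 10 / 3 * (1 + c) ≤ 4 * (t + D + 2) := by linarith [hc.2]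
        exact mul_le_mul_of_nonneg_right h (Real.exp_pos _).le

theorem sf_diff (A c : ℝ) : Differentiable ℂ (sf A c) := by
  unfold sf
  apply Z1_differentiable.mul
  fun_prop

theorem sf_bdd {t c D L : ℝ} (ht : 9 ≤ t) (hD : 1 ≤ D) (hLD : D ^ 2 ≤ L)
    (hc : |c - t| ≤ 1) : BddAbove ((norm ∘ sf (10 * L / D ^ 2) c) ''
      HadamardThreeLines.verticalClosedStrip (1 / 2) 2) := by
  have hD2 : 0 < D ^ 2 := by positivity
  have hL1 : 1 ≤ L := by nlinarith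
  rw [abs_le] at hc
  have hc0 : 0 ≤ c := by linarith [hc.1]
  refine ⟨45 * ((1 + c) ^ 2 * 4) * Real.exp (23 * L / D ^ 2), ?_⟩
  rintro _ ⟨z, hz, rfl⟩
  rw [Function.comp]
  have hz' : z.re ∈ Icc (1 / 2 : ℝ) 2 := hz
  have e : z = (z.re : ℂ) + z.im * I := (Complex.re_add_im z).symm
  set x := z.re
  set v := z.im
  rw [e, sf_norm]
  have h1 := Z1_growth (x := x) (y := v) (by linarith [hz'.1]) (by linarith [hz'.2])
  have h2 := one_add_abs_le (v := v) hc0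
  have h3 := one_add_sq_le (v - c)
  have h5 : (1 + |v|) ^ 2 ≤ (1 + c) ^ 2 * (4 * Real.exp (2 * (v - c) ^ 2)) := by
    calc (1 + |v|) ^ 2 ≤ ((1 + c) * (1 + |v - c|)) ^ 2 := pow_le_pow_left₀ (by positivity) h2 2
      _ = (1 + c) ^ 2 * (1 + |v - c|) ^ 2 := by ring
      _ ≤ _ := by gcongr
  have h4 : 10 * L / D ^ 2 * ((x - 1 / 2) ^ 2 - (v - c) ^ 2) ≤ 23 * L / D ^ 2 - 2 * (v - c) ^ 2 := by
    have h8 : 2 * (v - c) ^ 2 ≤ 10 * L / D ^ 2 * (v - c) ^ 2 := by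
      have : 2 ≤ 10 * L / D ^ 2 := by
        rw [le_div_iff₀ hD2]
        linarith
      gcongr
    have h9 : 10 * L / D ^ 2 * ((x - 1 / 2) ^ 2 - (v - c) ^ 2) =
        10 * (L / D ^ 2) * (x - 1 / 2) ^ 2 - 10 * L / D ^ 2 * (v - c) ^ 2 := by ring
    have h10 : 23 * L / D ^ 2 = 23 * (L / D ^ 2) := by ring
    rw [h9, h10]
    have h11 : 0 ≤ L / D ^ 2 := by positivity
    have h12 : (x - 1 / 2) ^ 2 ≤ 2.3 := by
      have := hz'.1
      have := hz'.2
      nlinarith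
    nlinarith
  calc ‖Z1 ((x : ℂ) + v * I)‖ * Real.exp (10 * L / D ^ 2 * ((x - 1 / 2) ^ 2 - (v - c) ^ 2))
      ≤ (45 * ((1 + c) ^ 2 * (4 * Real.exp (2 * (v - c) ^ 2)))) *
        Real.exp (23 * L / D ^ 2 - 2 * (v - c) ^ 2) := by
        apply mul_le_mul _ (Real.exp_le_exp.mpr h4) (Real.exp_pos _).le (by positivity)
        exact h1.trans (by gcongr)
    _ = 45 * ((1 + c) ^ 2 * 4) * (Real.exp (2 * (v - c) ^ 2) *
        Real.exp (23 * L / D ^ 2 - 2 * (v - c) ^ 2)) := by ring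
    _ = 45 * ((1 + c) ^ 2 * 4) * Real.exp (23 * L / D ^ 2) := by
        rw [← Real.exp_add]; congr 2; ring

/-- three lines -/
theorem three {t c D L M σ : ℝ} (ht : 9 ≤ t) (hL : L = Real.log t) (hD : 1 ≤ D) (hLD : D ^ 2 ≤ L)
    (hc : |c - t| ≤ 1) (hM1 : t⁻¹ ≤ M)
    (hM : ∀ u : ℝ, |u - t| ≤ D + 1 → ‖riemannZeta (1 / 2 + u * I)‖ ≤ M)
    (h0 : 0 ≤ σ) (h1 : σ ≤ 1 / 4) :
    ‖riemannZeta (((1 / 2 + σ : ℝ) : ℂ) + c * I)‖ ≤
      (t + D + 2) / (t - 1) * M * ((4 * Real.exp (23 * L / D ^ 2)) / M) ^ (σ / (3 / 2)) := by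
  have ht0 : 0 < t := by linarith
  have hM0 : 0 < M := lt_of_lt_of_le (inv_pos.mpr ht0) hM1
  have hc' := abs_le.mp hc
  set A := 10 * L / D ^ 2 with hA
  have hD2 : 0 < D ^ 2 := by positivity
  have hL1 : 1 ≤ L := by nlinarith
  have hA0 : 0 ≤ A := by positivity
  set z : ℂ := ((1 / 2 + σ : ℝ) : ℂ) + c * I with hz
  have hzre : z.re = 1 / 2 + σ := by rw [hz]; simp
  have hT := HadamardThreeLines.norm_le_interp_of_mem_verticalClosedStrip' (f := sf A c) (z := z)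
    (a := (t + D + 2) * M) (b := 4 * (t + D + 2) * Real.exp (23 * L / D ^ 2)) (l := 1 / 2) (u := 2)
    (by norm_num) (by
      change z.re ∈ Icc (1 / 2 : ℝ) 2
      rw [hzre]
      constructor <;> linarith) (sf_diff A c).diffContOnCl (sf_bdd ht hD hLD hc) (by
      intro w hw
      have hw' : w.re = 1 / 2 := hw
      have e : w = ((1 / 2 : ℝ) : ℂ) + w.im * I := by
        rw [← hw']; exact (Complex.re_add_im w).symm
      rw [e]
      exact left_bd ht hL hD hLD hc hM1 hM _) (by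
      intro w hw
      have hw' : w.re = 2 := hw
      have e : w = ((2 : ℝ) : ℂ) + w.im * I := by
        rw [← hw']; exact (Complex.re_add_im w).symm
      rw [e]
      exact right_bd ht hD hLD hc _)
  rw [hzre, show 1 / 2 + σ - 1 / 2 = σ by ring, show (2 : ℝ) - 1 / 2 = 3 / 2 by norm_num] at hT
  set θ := σ / (3 / 2) with hθ
  have hP : 0 < (t + D + 2) := by linarith
  have e1 : ((t + D + 2) * M) ^ (1 - θ) * (4 * (t + D + 2) * Real.exp (23 * L / D ^ 2)) ^ θ =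
      (t + D + 2) * M * ((4 * Real.exp (23 * L / D ^ 2)) / M) ^ θ := by
    have e2 : 4 * (t + D + 2) * Real.exp (23 * L / D ^ 2) =
        ((t + D + 2) * M) * ((4 * Real.exp (23 * L / D ^ 2)) / M) := by
      field_simp
    have key : ∀ P Q : ℝ, 0 < P → 0 ≤ Q → P ^ (1 - θ) * (P * Q) ^ θ = P * Q ^ θ := by
      intro P Q hP hQ
      rw [Real.mul_rpow hP.le hQ, ← mul_assoc, ← Real.rpow_add hP, sub_add_cancel, Real.rpow_one]
    rw [e2]
    exact key _ _ (by positivity) (by positivity)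
  rw [e1] at hT
  have h2 : ‖Z1 z‖ ≤ ‖sf A c z‖ := by
    rw [hz, sf_norm]
    refine le_mul_of_one_le_right (norm_nonneg _) ?_
    rw [Real.one_le_exp_iff, sub_self]
    have : 0 ≤ (1 / 2 + σ - 1 / 2) ^ 2 := sq_nonneg _
    nlinarith
  have hne : z ≠ 1 := by
    intro h
    have := congrArg Complex.im h
    rw [hz] at this
    simp at this
    linarith [hc'.1]
  have h3 : t - 1 ≤ ‖z - 1‖ := by
    have h4 := Complex.abs_im_le_norm (z - 1)
    have h5 : (z - 1).im = c := by rw [hz]; simp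
    rw [h5, abs_of_pos (by linarith [hc'.1])] at h4
    linarith [hc'.1]
  have h4 : ‖Z1 z‖ = ‖z - 1‖ * ‖riemannZeta z‖ := by rw [Z1_of_ne hne, norm_mul]
  have h5 : (t - 1) * ‖riemannZeta z‖ ≤ (t + D + 2) * M * ((4 * Real.exp (23 * L / D ^ 2)) / M) ^ θ := by
    calc (t - 1) * ‖riemannZeta z‖ ≤ ‖z - 1‖ * ‖riemannZeta z‖ := by gcongr
      _ = ‖Z1 z‖ := h4.symm
      _ ≤ _ := h2.trans hT
  have ht1 : 0 < t - 1 := by linarith
  calc ‖riemannZeta z‖ = (t - 1) * ‖riemannZeta z‖ / (t - 1) := by field_simp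
    _ ≤ ((t + D + 2) * M * ((4 * Real.exp (23 * L / D ^ 2)) / M) ^ θ) / (t - 1) := by gcongr
    _ = _ := by ring

end

end Q63.RZ
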